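import Mathlib

set_option autoImplicit false
set_option linter.unusedSectionVars false
open Set Filter Topology

namespace Pool.Agent.H53.ZD

/-- the closed unit ball of `ℓ¹(ι)`, with the topology of pointwise convergence -/
def Ball (ι : Type*) : Type _ := {x : ι → ℝ // ∀ s : Finset ι, ∑ i ∈ s, |x i| ≤ 1}

variable {ι : Type*}

instance : TopologicalSpace (Ball ι) :=
  TopologicalSpace.induced (fun x : {x : ι → ℝ // ∀ s : Finset ι, ∑ i ∈ s, |x i| ≤ 1} => x.1)
    inferInstance

instance : FunLike (Ball ι) ι ℝ where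
  coe x := x.1
  coe_injective := Subtype.val_injective

namespace Ball

lemma inducing : Topology.IsInducing (fun x : Ball ι => (x : ι → ℝ)) := ⟨rfl⟩

@[ext] lemma ext' {x y : Ball ι} (h : ∀ i, x i = y i) : x = y := DFunLike.ext _ _ h

lemma sum_le (x : Ball ι) (s : Finset ι) : ∑ i ∈ s, |x i| ≤ 1 := x.2 s

lemma abs_le_one (x : Ball ι) (i : ι) : |x i| ≤ 1 := by simpa using x.sum_le {i}

lemma continuous_val : Continuous (fun x : Ball ι => (x : ι → ℝ)) := inducing.continuous

lemma continuous_coord (i : ι) : Continuous (fun x : Ball ι => x i) :=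
  (continuous_apply i).comp continuous_val

lemma continuous_iff {X : Type*} [TopologicalSpace X] {f : X → Ball ι} :
    Continuous f ↔ ∀ i, Continuous (fun a => f a i) := by
  rw [inducing.continuous_iff, continuous_pi_iff]
  rfl

lemma tendsto_iff {α : Type*} {l : Filter α} {f : α → Ball ι} {x : Ball ι} :
    Tendsto f l (𝓝 x) ↔ ∀ i, Tendsto (fun a => f a i) l (𝓝 (x i)) := by
  rw [inducing.tendsto_nhds_iff, tendsto_pi_nhds]
  rfl

lemma isClosed_range : IsClosed {x : ι → ℝ | ∀ s : Finset ι, ∑ i ∈ s, |x i| ≤ 1} := by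
  simp only [ofPred_forall]
  exact isClosed_iInter fun s => isClosed_le (by fun_prop) continuous_const

instance : CompactSpace (Ball ι) := by
  have h : IsCompact {x : ι → ℝ | ∀ s : Finset ι, ∑ i ∈ s, |x i| ≤ 1} := by
    apply IsCompact.of_isClosed_subset (isCompact_univ_pi (fun _ : ι => isCompact_Icc (a := (-1 : ℝ))
      (b := 1))) isClosed_range
    intro x hx i _
    have := hx {i}
    simp only [Finset.sum_singleton] at this
    exact abs_le.1 this
  constructor
  rw [inducing.isCompact_iff]
  convert h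
  ext x
  constructor
  · rintro ⟨y, -, rfl⟩
    exact y.2
  · intro hx
    exact ⟨⟨x, hx⟩, mem_univ _, rfl⟩

instance : T2Space (Ball ι) :=
  Topology.IsEmbedding.t2Space ⟨inducing, DFunLike.coe_injective⟩

instance [Countable ι] : SecondCountableTopology (Ball ι) :=
  inducing.secondCountableTopology

instance : Zero (Ball ι) := ⟨⟨0, by simp⟩⟩

@[simp] lemma zero_apply (i : ι) : (0 : Ball ι) i = 0 := rfl

lemma summable (x : Ball ι) : Summable (fun i => |x i|) :=
  summable_of_sum_le (fun _ => abs_nonneg _) x.2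

/-- mass of `x` on the set `A` -/
noncomputable def mass (A : Set ι) (x : Ball ι) : ℝ := ∑' i, A.indicator (fun i => |x i|) i

lemma summable_ind (A : Set ι) (x : Ball ι) : Summable (A.indicator (fun i => |x i|)) :=
  x.summable.indicator A

lemma mass_nonneg (A : Set ι) (x : Ball ι) : 0 ≤ mass A x :=
  tsum_nonneg fun i => indicator_nonneg (fun _ _ => abs_nonneg _) i

lemma mass_mono {A B : Set ι} (h : A ⊆ B) (x : Ball ι) : mass A x ≤ mass B x :=
  (summable_ind A x).tsum_le_tsum
    (fun i => indicator_le_indicator_of_subset h (fun _ => abs_nonneg _) i) (summable_ind B x)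

lemma mass_union {A B : Set ι} (h : Disjoint A B) (x : Ball ι) :
    mass (A ∪ B) x = mass A x + mass B x := by
  unfold mass
  rw [← (summable_ind A x).tsum_add (summable_ind B x)]
  congr 1
  ext i
  rw [indicator_union_of_disjoint h]

lemma mass_le_one (A : Set ι) (x : Ball ι) : mass A x ≤ 1 := by
  refine (summable_ind A x).tsum_le_of_sum_le fun s => ?_
  refine (Finset.sum_le_sum fun i _ => ?_).trans (x.2 s)
  exact indicator_le_self' (fun _ _ => abs_nonneg _) i

lemma sum_le_mass {A : Set ι} (x : Ball ι) (s : Finset ι) (hs : ∀ i ∈ s, i ∈ A) :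
    ∑ i ∈ s, |x i| ≤ mass A x := by
  have : ∑ i ∈ s, |x i| = ∑ i ∈ s, A.indicator (fun i => |x i|) i :=
    Finset.sum_congr rfl fun i hi => by rw [indicator_of_mem (hs i hi)]
  rw [this]
  exact (summable_ind A x).sum_le_tsum s fun i _ => indicator_nonneg (fun _ _ => abs_nonneg _) i

lemma mass_le_iff {A : Set ι} {x : Ball ι} {r : ℝ} :
    mass A x ≤ r ↔ ∀ s : Finset ι, (∀ i ∈ s, i ∈ A) → ∑ i ∈ s, |x i| ≤ r := by
  constructor
  · exact fun h s hs => (sum_le_mass x s hs).trans h
  · intro h
    refine (summable_ind A x).tsum_le_of_sum_le fun s => ?_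
    classical
    rw [Finset.sum_indicator_eq_sum_filter]
    exact h _ (by simp)

lemma abs_le_mass {A : Set ι} (x : Ball ι) {i : ι} (hi : i ∈ A) : |x i| ≤ mass A x := by
  simpa using sum_le_mass x {i} (by simpa using hi)

lemma mass_congr {A : Set ι} {x y : Ball ι} (h : ∀ i ∈ A, x i = y i) : mass A x = mass A y := by
  unfold mass
  congr 1
  ext i
  by_cases hi : i ∈ A
  · simp [hi, h i hi]
  · simp [hi]

lemma mass_empty (x : Ball ι) : mass ∅ x = 0 := by simp [mass]

lemma isClosed_mass_le (A : Set ι) (r : ℝ) : IsClosed {x : Ball ι | mass A x ≤ r} := by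
  simp only [mass_le_iff, ofPred_forall]
  refine isClosed_iInter fun s => isClosed_iInter fun _ => ?_
  exact isClosed_le (continuous_finsetSum _ fun i _ => (continuous_coord i).abs) continuous_const

/-- restriction to a set of coordinates -/
noncomputable def res (A : Set ι) (x : Ball ι) : Ball ι :=
  ⟨A.indicator (x : ι → ℝ), fun s => by
    refine (Finset.sum_le_sum fun i _ => ?_).trans (x.sum_le s)
    by_cases hi : i ∈ A
    · simp [hi]
    · simp [hi]⟩

lemma res_apply (A : Set ι) (x : Ball ι) (i : ι) : res A x i = A.indicator (x : ι → ℝ) i := rfl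

lemma res_of_mem {A : Set ι} (x : Ball ι) {i : ι} (hi : i ∈ A) : res A x i = x i := by
  simp [res_apply, hi]

lemma res_of_notMem {A : Set ι} (x : Ball ι) {i : ι} (hi : i ∉ A) : res A x i = 0 := by
  simp [res_apply, hi]

lemma continuous_res (A : Set ι) : Continuous (res A : Ball ι → Ball ι) := by
  rw [continuous_iff]
  intro i
  by_cases hi : i ∈ A
  · simp only [res_of_mem _ hi]; exact continuous_coord i
  · simp only [res_of_notMem _ hi]; exact continuous_const

lemma res_res (A B : Set ι) (x : Ball ι) : res A (res B x) = res (A ∩ B) x := by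
  ext i
  by_cases hA : i ∈ A <;> by_cases hB : i ∈ B <;> simp [res_apply, hA, hB]

lemma res_eq_of_subset {A B : Set ι} (h : A ⊆ B) (x : Ball ι) : res A (res B x) = res A x := by
  rw [res_res, inter_eq_left.2 h]

lemma res_eq_of_subset' {A B : Set ι} (h : A ⊆ B) (x : Ball ι) : res B (res A x) = res A x := by
  rw [res_res, inter_eq_right.2 h]

lemma res_eq_iff {A : Set ι} {x y : Ball ι} : res A x = res A y ↔ ∀ i ∈ A, x i = y i := by
  constructor
  · intro h i hi
    rw [← res_of_mem x hi, ← res_of_mem y hi, h]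
  · intro h
    ext i
    by_cases hi : i ∈ A
    · rw [res_of_mem _ hi, res_of_mem _ hi, h i hi]
    · rw [res_of_notMem _ hi, res_of_notMem _ hi]

lemma mass_res (A B : Set ι) (x : Ball ι) : mass A (res B x) = mass (A ∩ B) x := by
  unfold mass
  congr 1
  ext i
  by_cases hA : i ∈ A <;> by_cases hB : i ∈ B <;> simp [res_apply, hA, hB]

/-- every continuous function depends, up to `ε`, on finitely many coordinates, with
a uniform modulus -/
lemma unif_dep {f : Ball ι → ℝ} (hf : Continuous f) {ε : ℝ} (hε : 0 < ε) :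
    ∃ (F : Finset ι) (d : ℝ), 0 < d ∧ ∀ x y : Ball ι, (∀ i ∈ F, |x i - y i| < d) →
      |f x - f y| < ε := by
  by_contra hcon
  push Not at hcon
  -- closed sets
  let Z : Finset ι × {d : ℝ // 0 < d} → Set (Ball ι × Ball ι) := fun p =>
    {q | (∀ i ∈ p.1, |q.1 i - q.2 i| ≤ p.2.1) ∧ ε ≤ |f q.1 - f q.2|}
  have hcl : ∀ p, IsClosed (Z p) := by
    intro p
    have e : Z p = (⋂ i ∈ p.1, {q : Ball ι × Ball ι | |q.1 i - q.2 i| ≤ p.2.1}) ∩
        {q | ε ≤ |f q.1 - f q.2|} := by
      ext q; simp [Z]
    rw [e]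
    refine IsClosed.inter ?_ ?_
    · refine isClosed_iInter fun i => isClosed_iInter fun _ => ?_
      exact isClosed_le (((continuous_coord i).comp continuous_fst).sub
        ((continuous_coord i).comp continuous_snd)).abs continuous_const
    · exact isClosed_le continuous_const ((hf.comp continuous_fst).sub (hf.comp continuous_snd)).abs
  have hdir : Directed (· ⊇ ·) Z := by
    classical
    intro p q
    refine ⟨(p.1 ∪ q.1, ⟨min p.2.1 q.2.1, lt_min p.2.2 q.2.2⟩), ?_, ?_⟩
    · rintro z ⟨h1, h2⟩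
      exact ⟨fun i hi => (h1 i (Finset.mem_union_left _ hi)).trans (min_le_left _ _), h2⟩
    · rintro z ⟨h1, h2⟩
      exact ⟨fun i hi => (h1 i (Finset.mem_union_right _ hi)).trans (min_le_right _ _), h2⟩
  have hne : ∀ p, (Z p).Nonempty := by
    intro p
    obtain ⟨x, y, h1, h2⟩ := hcon p.1 p.2.1 p.2.2
    exact ⟨(x, y), fun i hi => (h1 i hi).le, h2⟩
  have : Nonempty (Finset ι × {d : ℝ // 0 < d}) := ⟨(∅, ⟨1, one_pos⟩)⟩
  obtain ⟨⟨x, y⟩, hxy⟩ := IsCompact.nonempty_iInter_of_directed_nonempty_isCompact_isClosed Z hdir hne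
    (fun p => (hcl p).isCompact) hcl
  rw [mem_iInter] at hxy
  have hxy' : x = y := by
    ext i
    by_contra hne
    have h1 : 0 < |x i - y i| := abs_pos.2 (sub_ne_zero.2 hne)
    have := (hxy ({i}, ⟨|x i - y i| / 2, by positivity⟩)).1 i (by simp)
    simp only at this
    linarith
  have := (hxy (∅, ⟨1, one_pos⟩)).2
  simp only [hxy', sub_self, abs_zero] at this
  linarith

lemma approx_res {f : Ball ι → ℝ} (hf : Continuous f) {ε : ℝ} (hε : 0 < ε) :
    ∃ F : Finset ι, ∀ A : Set ι, (∀ i ∈ F, i ∈ A) → ∀ x, |f (res A x) - f x| < ε := by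
  obtain ⟨F, d, hd, h⟩ := unif_dep hf hε
  refine ⟨F, fun A hA x => h _ _ fun i hi => ?_⟩
  rw [res_of_mem x (hA i hi), sub_self, abs_zero]
  exact hd

/-- construct a point from a function with bounded sums -/
def mk' (y : ι → ℝ) (h : ∀ s : Finset ι, ∑ i ∈ s, |y i| ≤ 1) : Ball ι := ⟨y, h⟩

@[simp] lemma mk'_apply (y : ι → ℝ) (h : ∀ s : Finset ι, ∑ i ∈ s, |y i| ≤ 1) (i : ι) :
    (mk' y h) i = y i := rfl

/-- sum of two points when the masses allow it -/
noncomputable def add (x y : Ball ι) (h : mass univ x + mass univ y ≤ 1) : Ball ι :=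
  ⟨fun i => x i + y i, fun s => by
    refine (Finset.sum_le_sum fun i _ => abs_add_le _ _).trans ?_
    rw [Finset.sum_add_distrib]
    exact (add_le_add (sum_le_mass x s (fun _ _ => mem_univ _))
      (sum_le_mass y s (fun _ _ => mem_univ _))).trans h⟩

@[simp] lemma add_apply (x y : Ball ι) (h : mass univ x + mass univ y ≤ 1) (i : ι) :
    add x y h i = x i + y i := rfl

lemma mass_add_le (A : Set ι) (x y : Ball ι) (h : mass univ x + mass univ y ≤ 1) :
    mass A (add x y h) ≤ mass A x + mass A y := by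
  rw [mass_le_iff]
  intro s hs
  refine (Finset.sum_le_sum fun i _ => abs_add_le _ _).trans ?_
  rw [Finset.sum_add_distrib]
  exact add_le_add (sum_le_mass x s hs) (sum_le_mass y s hs)

/-- scaling -/
noncomputable def scale (t : ℝ) (ht : |t| ≤ 1) (x : Ball ι) : Ball ι :=
  ⟨fun i => t * x i, fun s => by
    simp only [abs_mul]
    rw [← Finset.mul_sum]
    exact mul_le_one₀ ht (Finset.sum_nonneg fun _ _ => abs_nonneg _) (x.2 s)⟩

@[simp] lemma scale_apply (t : ℝ) (ht : |t| ≤ 1) (x : Ball ι) (i : ι) :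
    scale t ht x i = t * x i := rfl

lemma mass_scale (t : ℝ) (ht : |t| ≤ 1) (A : Set ι) (x : Ball ι) :
    mass A (scale t ht x) = |t| * mass A x := by
  unfold mass
  rw [← tsum_mul_left]
  congr 1
  ext i
  by_cases hi : i ∈ A <;> simp [hi, abs_mul]

instance : MeasurableSpace (Ball ι) := borel _
instance : BorelSpace (Ball ι) := ⟨rfl⟩

lemma measurable_mass (A : Set ι) : Measurable (mass A : Ball ι → ℝ) :=
  measurable_of_Iic fun r => (isClosed_mass_le A r).measurableSet

lemma measurable_res (A : Set ι) : Measurable (res A : Ball ι → Ball ι) :=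
  (continuous_res A).measurable

/-- masses of decreasing sets with empty intersection tend to zero -/
lemma mass_tendsto_zero (A : ℕ → Set ι) (hA : ∀ i, ∀ᶠ n in atTop, i ∉ A n) (x : Ball ι) :
    Tendsto (fun n => mass (A n) x) atTop (𝓝 0) := by
  have : Tendsto (fun n => ∑' i, (A n).indicator (fun i => |x i|) i) atTop
      (𝓝 (∑' _ : ι, (0 : ℝ))) := by
    refine tendsto_tsum_of_dominated_convergence x.summable ?_ ?_
    · intro i
      refine tendsto_const_nhds.congr' ?_
      filter_upwards [hA i] with n hn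
      simp [hn]
    · refine Eventually.of_forall fun n i => ?_
      rw [Real.norm_eq_abs, abs_of_nonneg (indicator_nonneg (fun _ _ => abs_nonneg _) i)]
      exact indicator_le_self' (fun _ _ => abs_nonneg _) i
  simpa [mass] using this

/-- masses of pairwise disjoint sets tend to zero -/
lemma mass_disjoint_tendsto_zero (A : ℕ → Set ι) (hA : Pairwise fun m n => Disjoint (A m) (A n))
    (x : Ball ι) : Tendsto (fun n => mass (A n) x) atTop (𝓝 0) := by
  refine mass_tendsto_zero A (fun i => ?_) x
  by_cases h : ∃ m, i ∈ A m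
  · obtain ⟨m, hm⟩ := h
    filter_upwards [eventually_gt_atTop m] with n hn hi
    exact (Set.disjoint_left.1 (hA hn.ne)) hm hi
  · push Not at h
    exact Eventually.of_forall h

end Ball

end Pool.Agent.H53.ZD
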