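import Mathlib

set_option autoImplicit false
open Polynomial

namespace Pool.Agent.H53.ZD

lemma cheb_growth (x : ℝ) (hx : 1 ≤ x) (n : ℕ) :
    1 ≤ (Chebyshev.T ℝ (n : ℤ)).eval x ∧
    (2 * (n : ℝ) + 1) * (x - 1) ≤
      (Chebyshev.T ℝ ((n : ℤ) + 1)).eval x - (Chebyshev.T ℝ (n : ℤ)).eval x := by
  induction n with
  | zero => simp
  | succ n ih =>
    obtain ⟨h1, h2⟩ := ih
    have h3 : (0 : ℝ) ≤ (2 * (n : ℝ) + 1) * (x - 1) :=
      mul_nonneg (by positivity) (by linarith)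
    have h4 : 1 ≤ (Chebyshev.T ℝ ((n : ℤ) + 1)).eval x := by linarith
    push_cast
    refine ⟨h4, ?_⟩
    have h5 := Chebyshev.T_add_two ℝ (n : ℤ)
    have h6 : (n : ℤ) + 1 + 1 = (n : ℤ) + 2 := by ring
    rw [h6, h5]
    simp only [eval_sub, eval_mul, eval_ofNat, eval_X]
    nlinarith

lemma cheb_ge (x : ℝ) (hx : 1 ≤ x) (n : ℕ) :
    1 + (n : ℝ) ^ 2 * (x - 1) ≤ (Chebyshev.T ℝ (n : ℤ)).eval x := by
  induction n with
  | zero => simp
  | succ n ih =>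
    have := (cheb_growth x hx n).2
    push_cast at *
    nlinarith

lemma cheb_abs_le (x : ℝ) (h1 : -1 ≤ x) (h2 : x ≤ 1) (n : ℕ) :
    |(Chebyshev.T ℝ (n : ℤ)).eval x| ≤ 1 := by
  have := Chebyshev.T_real_cos (Real.arccos x) (n : ℤ)
  rw [Real.cos_arccos h1 h2] at this
  rw [this]
  exact Real.abs_cos_le_one _

/-- a low degree approximation of the conjunction of `n` Boolean variables -/
theorem exists_and_poly (n k : ℕ) (hn : 2 ≤ n) {ε : ℝ} (hε : 0 < ε)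
    (hk : (n : ℝ) ≤ ε * (k : ℝ) ^ 2) :
    ∃ Q : ℝ[X], Q.natDegree ≤ k ∧ Q.eval (n : ℝ) = 1 ∧
      ∀ t : ℕ, t < n → |Q.eval (t : ℝ)| ≤ ε := by
  have hn1 : (0 : ℝ) < (n : ℝ) - 1 := by
    have : (2 : ℝ) ≤ n := by exact_mod_cast hn
    linarith
  set y : ℝ := (n : ℝ) / ((n : ℝ) - 1) with hy
  have hy1 : y - 1 = 1 / ((n : ℝ) - 1) := by rw [hy]; field_simp; ring
  have hy1' : 1 ≤ y := by
    have : 0 < 1 / ((n : ℝ) - 1) := by positivity
    linarith
  set M := (Chebyshev.T ℝ (k : ℤ)).eval y with hM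
  have hMge : 1 + (k : ℝ) ^ 2 * (1 / ((n : ℝ) - 1)) ≤ M := by
    have := cheb_ge y hy1' k
    rwa [hy1] at this
  have hMpos : 0 < M := by
    have : 0 ≤ (k : ℝ) ^ 2 * (1 / ((n : ℝ) - 1)) := by positivity
    linarith
  refine ⟨C (1 / M) * (Chebyshev.T ℝ (k : ℤ)).comp (C (1 / ((n : ℝ) - 1)) * X), ?_, ?_, ?_⟩
  · refine natDegree_C_mul_le _ _ |>.trans ?_
    refine natDegree_comp_le.trans ?_
    rw [Chebyshev.natDegree_T, Int.natAbs_natCast]
    have : (C (1 / ((n : ℝ) - 1)) * X : ℝ[X]).natDegree ≤ 1 := (natDegree_C_mul_le _ _).trans natDegree_X_le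
    nlinarith
  · simp only [eval_mul, eval_C, eval_comp, eval_X]
    have e : 1 / ((n : ℝ) - 1) * (n : ℝ) = y := by rw [hy]; ring
    rw [e, ← hM]
    field_simp
  · intro t ht
    simp only [eval_mul, eval_C, eval_comp, eval_X, abs_mul]
    have ht' : (t : ℝ) ≤ (n : ℝ) - 1 := by
      have : (t : ℝ) + 1 ≤ n := by exact_mod_cast ht
      linarith
    have h1 : 1 / ((n : ℝ) - 1) * (t : ℝ) ≤ 1 := by
      rw [one_div, inv_mul_le_iff₀ hn1]; linarith
    have h0 : 0 ≤ 1 / ((n : ℝ) - 1) * (t : ℝ) := by positivity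
    have h2 := cheb_abs_le _ (by linarith) h1 k
    rw [abs_of_pos (show 0 < 1 / M by positivity)]
    calc 1 / M * _ ≤ 1 / M * 1 := mul_le_mul_of_nonneg_left h2 (by positivity)
      _ = 1 / M := mul_one _
      _ ≤ ε := by
        rw [div_le_iff₀ hMpos]
        have h3 : 1 / ε ≤ (k : ℝ) ^ 2 * (1 / ((n : ℝ) - 1)) := by
          rw [mul_one_div, div_le_div_iff₀ hε hn1]
          linarith
        have h4 : 1 / ε ≤ M := by linarith
        rw [div_le_iff₀ hε] at h4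
        linarith

end Pool.Agent.H53.ZD
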