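import Pool.Agent.H53.ZD.FinalIneq

set_option autoImplicit false
set_option linter.unusedSectionVars false
open Set Filter Topology TopologicalSpace MeasureTheory

namespace Pool.Agent.H53.ZD

open Classical in
lemma card_noninj (r K : ℕ) (hK : 1 ≤ K) (hr : 1 ≤ r) :
    ((Finset.univ.filter fun t : Fin r → Fin K => ¬ Function.Injective t).card : ℝ) ≤
      (K : ℝ) ^ r * ((r : ℝ) ^ 2 / K) := by
  have hK0 : (0 : ℝ) < K := by exact_mod_cast hK
  by_cases hrK : r ≤ K
  · have h1 : (Finset.univ.filter fun t : Fin r → Fin K => Function.Injective t).card =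
        K.descFactorial r := by
      have h2 := Fintype.card_embedding_eq (α := Fin r) (β := Fin K)
      rw [Fintype.card_fin, Fintype.card_fin] at h2
      rw [← h2, ← Fintype.card_congr (Equiv.subtypeInjectiveEquivEmbedding (Fin r) (Fin K)),
        Fintype.card_subtype]
    have h2 := Finset.card_filter_add_card_filter_not (s := Finset.univ)
      (fun t : Fin r → Fin K => Function.Injective t)
    rw [h1, Finset.card_univ, Fintype.card_fun, Fintype.card_fin, Fintype.card_fin] at h2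
    have h3 := Nat.pow_sub_le_descFactorial K r
    have h4 : ((K + 1 - r : ℕ) : ℝ) = K * (1 + (-(((r : ℝ) - 1) / K))) := by
      rw [Nat.cast_sub (by omega)]
      push_cast
      field_simp
      ring
    have h5 : (1 : ℝ) + r * (-(((r : ℝ) - 1) / K)) ≤ (1 + (-(((r : ℝ) - 1) / K))) ^ r := by
      apply one_add_mul_le_pow
      have : ((r : ℝ) - 1) / K ≤ 1 := by
        rw [div_le_one hK0]
        have : (r : ℝ) ≤ K := by exact_mod_cast hrK
        linarith
      linarith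
    have h6 : (K : ℝ) ^ r * (1 + r * (-(((r : ℝ) - 1) / K))) ≤ (K.descFactorial r : ℝ) := by
      calc (K : ℝ) ^ r * (1 + r * (-(((r : ℝ) - 1) / K)))
          ≤ (K : ℝ) ^ r * (1 + (-(((r : ℝ) - 1) / K))) ^ r :=
            mul_le_mul_of_nonneg_left h5 (by positivity)
        _ = ((K + 1 - r : ℕ) : ℝ) ^ r := by rw [h4, mul_pow]
        _ ≤ (K.descFactorial r : ℝ) := by exact_mod_cast h3
    have h7 : ((Finset.univ.filter fun t : Fin r → Fin K => ¬ Function.Injective t).card : ℝ) =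
        (K : ℝ) ^ r - (K.descFactorial r : ℝ) := by
      have : ((K.descFactorial r : ℝ)) +
          ((Finset.univ.filter fun t : Fin r → Fin K => ¬ Function.Injective t).card : ℝ) =
          (K : ℝ) ^ r := by exact_mod_cast h2
      linarith
    rw [h7]
    have h8 : (r : ℝ) * (((r : ℝ) - 1) / K) ≤ (r : ℝ) ^ 2 / K := by
      rw [mul_div_assoc', div_le_div_iff_of_pos_right hK0]
      have : (0 : ℝ) ≤ r := by positivity
      nlinarith
    have h9 : (0 : ℝ) < (K : ℝ) ^ r := by positivity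
    nlinarith
  · push Not at hrK
    have h1 : ((Finset.univ.filter fun t : Fin r → Fin K => ¬ Function.Injective t).card : ℝ) ≤
        (K : ℝ) ^ r := by
      have h2 := Finset.card_filter_le (Finset.univ)
        (fun t : Fin r → Fin K => ¬ Function.Injective t)
      rw [Finset.card_univ, Fintype.card_fun, Fintype.card_fin, Fintype.card_fin] at h2
      exact_mod_cast h2
    have h2 : (1 : ℝ) ≤ (r : ℝ) ^ 2 / K := by
      rw [le_div_iff₀ hK0]
      have h3 : (K : ℝ) ≤ r := by exact_mod_cast hrK.le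
      have h4 : (1 : ℝ) ≤ r := by exact_mod_cast hr
      nlinarith
    have h9 : (0 : ℝ) < (K : ℝ) ^ r := by positivity
    nlinarith

/-- choice of the parameters -/
lemma exists_params {C c₁ g₀ : ℝ} (hC : 0 < C) (hc : 0 < c₁) (hg : 0 < g₀) :
    ∃ (r d : ℕ) (u εq : ℝ), 2 ≤ r ∧ 0 ≤ u ∧ u ≤ 1 ∧ 0 < εq ∧ C * εq ≤ c₁ / 32 ∧
      (r : ℝ) ≤ εq * (d : ℝ) ^ 2 ∧ (1 + u) ^ (2 * d) ≤ 1 + g₀ / 2 ∧
      1 + 32 * C / c₁ ≤ (1 + u) ^ r := by
  set A₀ : ℝ := 32 * C / c₁ with hA₀
  have hA₀pos : 0 < A₀ := by positivity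
  set εq : ℝ := c₁ / (32 * C) with hεq
  have hεqpos : 0 < εq := by positivity
  obtain ⟨M, hM⟩ := exists_nat_gt (1 / εq)
  have hM1 : 1 ≤ εq * M := by
    rw [div_lt_iff₀ hεqpos] at hM
    linarith
  have hMpos : 1 ≤ M := by
    rcases Nat.eq_zero_or_pos M with h | h
    · rw [h] at hM1; simp at hM1; linarith
    · exact h
  have ht : Tendsto (fun n : ℕ => Real.exp (2 * A₀ * M / n)) atTop (𝓝 1) := by
    have h1 : Tendsto (fun n : ℕ => 2 * A₀ * M / (n : ℝ)) atTop (𝓝 0) :=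
      tendsto_const_div_atTop_nhds_zero_nat _
    have := (Real.continuous_exp.tendsto 0).comp h1
    rwa [Real.exp_zero] at this
  have h1 : ∀ᶠ n : ℕ in atTop, Real.exp (2 * A₀ * M / n) < 1 + g₀ / 2 :=
    ht (Iio_mem_nhds (by linarith))
  obtain ⟨n₁, hn₁⟩ := exists_nat_gt A₀
  obtain ⟨n, hn⟩ := (h1.and ((eventually_ge_atTop 2).and (eventually_ge_atTop n₁))).exists
  obtain ⟨hn1, hn2, hn3⟩ := hn
  have hn0 : (0 : ℝ) < n := by
    have : 0 < n := by omega
    exact_mod_cast this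
  have hn2' : (2 : ℝ) ≤ n := by exact_mod_cast hn2
  have hn3' : A₀ < n := hn₁.trans_le (by exact_mod_cast hn3)
  refine ⟨n ^ 2, n * M, A₀ / (n : ℝ) ^ 2, εq, ?_, by positivity, ?_, hεqpos, ?_, ?_, ?_, ?_⟩
  · nlinarith
  · rw [div_le_one (by positivity)]
    nlinarith
  · rw [hεq]
    have : C * (c₁ / (32 * C)) = c₁ / 32 := by field_simp
    rw [this]
  · push_cast
    have hM' : (1 : ℝ) ≤ M := by exact_mod_cast hMpos
    have h3 : 1 ≤ εq * (M : ℝ) ^ 2 := by nlinarith
    have : εq * ((n : ℝ) * M) ^ 2 = (n : ℝ) ^ 2 * (εq * (M : ℝ) ^ 2) := by ring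
    rw [this]
    nlinarith [sq_nonneg (n : ℝ)]
  · have h3 : (1 + A₀ / (n : ℝ) ^ 2) ≤ Real.exp (A₀ / (n : ℝ) ^ 2) := by
      have := Real.add_one_le_exp (A₀ / (n : ℝ) ^ 2)
      linarith
    calc (1 + A₀ / (n : ℝ) ^ 2) ^ (2 * (n * M)) ≤ Real.exp (A₀ / (n : ℝ) ^ 2) ^ (2 * (n * M)) :=
          pow_le_pow_left₀ (by positivity) h3 _
      _ = Real.exp (2 * A₀ * M / n) := by
          rw [← Real.exp_nat_mul]
          congr 1
          push_cast
          field_simp
      _ ≤ 1 + g₀ / 2 := hn1.le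
  · have := one_add_mul_le_pow (show (-2 : ℝ) ≤ A₀ / (n : ℝ) ^ 2 by
      have : 0 ≤ A₀ / (n : ℝ) ^ 2 := by positivity
      linarith) (n ^ 2)
    refine le_trans ?_ this
    push_cast
    have : (n : ℝ) ^ 2 * (A₀ / (n : ℝ) ^ 2) = A₀ := by field_simp
    rw [this]

namespace NatSys

variable {H L : Type*} [Countable H] [MulAction G H] [TopologicalSpace L] [CompactSpace L]
    [T2Space L] [TotallyDisconnectedSpace L] [MulAction G L] {N : NatSys H L}

namespace Fil

variable (Z : N.Fil)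

lemma AF_subset (F : Finset (Fin Z.K)) : Z.AF F ⊆ HT H (Z.T ∪ Z.T₀) := by
  classical
  intro h hh
  refine (supp_spec (N.fs h)).mono (hh.1.trans ?_)
  refine Finset.union_subset_union_right ?_
  exact Finset.image_subset_image (Finset.subset_univ _)

lemma AF_eq {F : Finset (Fin Z.K)} {h : H} (hh : h ∈ Z.AF F) (f : Fin Z.K) :
    f ∈ F ↔ Z.pos ∅ f ∈ supp h := by
  constructor
  · exact hh.2 f
  · intro hf
    rcases Finset.mem_union.1 (hh.1 hf) with h1 | h1
    · rw [pos_empty] at h1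
      exact absurd h1 (Z.p_notMem_T _)
    · obtain ⟨f', hf', h2⟩ := Finset.mem_image.1 h1
      rwa [← (Z.pos_strictMono ∅).injective h2]

lemma sum_mF_le : ∑ F : Finset (Fin Z.K), Z.mF F ≤ Ball.mass (HT H (Z.T ∪ Z.T₀)) Z.x := by
  classical
  have key : ∀ S : Finset (Finset (Fin Z.K)),
      ∑ F ∈ S, Z.mF F = Ball.mass (⋃ F ∈ S, Z.AF F) Z.x := by
    intro S
    induction S using Finset.induction_on with
    | empty => simp [Ball.mass_empty]
    | insert F S hF ih =>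
      rw [Finset.sum_insert hF, ih, Finset.set_biUnion_insert, Ball.mass_union]
      · rfl
      · rw [Set.disjoint_left]
        intro h h1 h2
        obtain ⟨F', hF', h3⟩ := mem_iUnion₂.1 h2
        apply hF
        have : F = F' := by
          ext f
          rw [Z.AF_eq h1, Z.AF_eq h3]
        rw [this]
        exact hF'
  rw [key]
  apply Ball.mass_mono
  intro h hh
  obtain ⟨F, -, hF⟩ := mem_iUnion₂.1 hh
  exact Z.AF_subset F hF

open Classical in
/-- the averaged inequality -/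
lemma expect_ineq {r : ℕ} {Q : Polynomial ℝ} {d : ℕ} (hQ : Q.natDegree ≤ d)
    (hQr : Q.eval (r : ℝ) = 1) {εq : ℝ} (hεq : 0 ≤ εq)
    (hQt : ∀ t : ℕ, t < r → |Q.eval (t : ℝ)| ≤ εq) (hcap : Z.Cap)
    {g₀ : ℝ} (hg₀ : 0 < g₀)
    (hg : ∑ F : Finset (Fin Z.K), Z.mF F + Ball.mass univ Z.ξ ≤ 1 - g₀)
    {xξ : Ball H} (hxξ : ∀ h, xξ h = rho (Z.T ∪ Z.T₀) Z.x h + Z.ξ h)
    (Gd : Finset (Fin r → Fin Z.K)) (hinj : ∀ t ∈ Gd, Function.Injective t) {c₁ : ℝ}
    (hc₁ : 0 ≤ c₁)
    (hgood : ∀ t ∈ Gd, c₁ ≤ |N.U (Z.qq Q d fun j => (t j, false)) xξ|)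
    {u : ℝ} (hu0 : 0 ≤ u) (hu1 : u ≤ 1) :
    c₁ * (Gd.card * ((1 + u) ^ r * (1 - ((1 + u) ^ (2 * d) - 1) / g₀))) ≤
      N.C * ((Z.K : ℝ) ^ r + εq * ((Z.K : ℝ) ^ r * (1 + u) ^ r +
        (Finset.univ.filter fun t : Fin r → Fin Z.K => ¬ Function.Injective t).card * 2 ^ r)) := by
  set S := Finset.univ.filter (fun F : Finset (Fin Z.K) => F.card ≤ d) with hS
  set ex : Finset (Fin Z.K) → ℝ := fun D => ∑ F ∈ S, ((2 : ℝ) ^ (F ∩ D).card - 1) * Z.mF F with hex
  have hex0 : ∀ D, 0 ≤ ex D := fun D => Finset.sum_nonneg fun F _ =>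
    mul_nonneg (sub_nonneg.2 (one_le_pow₀ (by norm_num))) (Z.mF_nonneg F)
  have hC := N.C_pos
  have hSle : ∑ F ∈ S, Z.mF F ≤ ∑ F : Finset (Fin Z.K), Z.mF F :=
    Finset.sum_le_sum_of_subset_of_nonneg (Finset.subset_univ _) fun F _ _ => Z.mF_nonneg F
  have hξ0 : 0 ≤ Ball.mass univ Z.ξ := Ball.mass_nonneg _ _
  have hS1 : ∑ F ∈ S, Z.mF F ≤ 1 := by linarith
  -- pointwise inequality
  have hpt : ∀ D : Finset (Fin Z.K), c₁ * ∑ t ∈ Gd, cc D t * (1 - ex D / g₀) ≤
      N.C * ((Z.K : ℝ) ^ r + εq * ∑ t : Fin r → Fin Z.K, cc D t) := by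
    intro D
    have hcc0 : 0 ≤ ∑ t : Fin r → Fin Z.K, cc D t := Finset.sum_nonneg fun t _ => (cc_pos D t).le
    by_cases hD : ∑ F ∈ S, (2 : ℝ) ^ (F ∩ D).card * Z.mF F + Ball.mass univ Z.ξ ≤ 1
    · refine le_trans ?_ (Z.ineq_D hQ hQr hεq hQt hcap D hD hxξ Gd hinj hgood)
      refine mul_le_mul_of_nonneg_left (Finset.sum_le_sum fun t _ => ?_) hc₁
      have h1 : 1 - ex D / g₀ ≤ 1 := by
        have := div_nonneg (hex0 D) hg₀.le
        linarith
      have := mul_le_mul_of_nonneg_left h1 (cc_pos D t).le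
      linarith
    · push Not at hD
      have h1 : g₀ < ex D := by
        have h2 : ex D = ∑ F ∈ S, (2 : ℝ) ^ (F ∩ D).card * Z.mF F - ∑ F ∈ S, Z.mF F := by
          rw [hex, ← Finset.sum_sub_distrib]
          exact Finset.sum_congr rfl fun F _ => by ring
        rw [h2]
        linarith
      have h2 : 1 - ex D / g₀ ≤ 0 := by
        have : 1 ≤ ex D / g₀ := by rw [le_div_iff₀ hg₀]; linarith
        linarith
      refine le_trans ?_ (by positivity : (0 : ℝ) ≤ _)
      apply mul_nonpos_of_nonneg_of_nonpos hc₁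
      exact Finset.sum_nonpos fun t _ => mul_nonpos_of_nonneg_of_nonpos (cc_pos D t).le h2
  -- average
  have hav := Finset.sum_le_sum fun D (_ : D ∈ (Finset.univ : Finset (Fin Z.K)).powerset) =>
    mul_le_mul_of_nonneg_left (hpt D) (wt_nonneg hu0 hu1 D)
  -- left side
  have hL : c₁ * (Gd.card * ((1 + u) ^ r * (1 - ((1 + u) ^ (2 * d) - 1) / g₀))) ≤
      ∑ D ∈ (Finset.univ : Finset (Fin Z.K)).powerset,
        wt u D * (c₁ * ∑ t ∈ Gd, cc D t * (1 - ex D / g₀)) := by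
    have h1 : ∑ D ∈ (Finset.univ : Finset (Fin Z.K)).powerset,
        wt u D * (c₁ * ∑ t ∈ Gd, cc D t * (1 - ex D / g₀)) =
        c₁ * ∑ t ∈ Gd, ∑ D ∈ (Finset.univ : Finset (Fin Z.K)).powerset,
          wt u D * (cc D t * (1 - ex D / g₀)) := by
      rw [Finset.sum_comm, Finset.mul_sum]
      refine Finset.sum_congr rfl fun D _ => ?_
      rw [← Finset.mul_sum]
      ring
    rw [h1]
    refine mul_le_mul_of_nonneg_left ?_ hc₁
    have h2 : ∀ t ∈ Gd, (1 + u) ^ r * (1 - ((1 + u) ^ (2 * d) - 1) / g₀) ≤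
        ∑ D ∈ (Finset.univ : Finset (Fin Z.K)).powerset,
          wt u D * (cc D t * (1 - ex D / g₀)) := by
      intro t ht
      have h3 : ∑ D ∈ (Finset.univ : Finset (Fin Z.K)).powerset,
          wt u D * (cc D t * (1 - ex D / g₀)) = (1 + u) ^ r -
          (∑ F ∈ S, Z.mF F * (∑ D ∈ (Finset.univ : Finset (Fin Z.K)).powerset,
            wt u D * (cc D t * (2 : ℝ) ^ (F ∩ D).card) - (1 + u) ^ r)) / g₀ := by
        have h4 : ∀ D ∈ (Finset.univ : Finset (Fin Z.K)).powerset,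
            wt u D * (cc D t * (1 - ex D / g₀)) = wt u D * cc D t -
              (∑ F ∈ S, Z.mF F * (wt u D * (cc D t * (2 : ℝ) ^ (F ∩ D).card) -
                wt u D * cc D t)) / g₀ := by
          intro D _
          have h5 : ∑ F ∈ S, Z.mF F * (wt u D * (cc D t * (2 : ℝ) ^ (F ∩ D).card) -
                wt u D * cc D t) = wt u D * cc D t * ex D := by
            rw [hex, Finset.mul_sum]
            exact Finset.sum_congr rfl fun F _ => by ring
          rw [h5]
          ring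
        rw [Finset.sum_congr rfl h4, Finset.sum_sub_distrib, expect_cc u t (hinj t ht),
          ← Finset.sum_div, Finset.sum_comm]
        congr 2
        refine Finset.sum_congr rfl fun F _ => ?_
        rw [← Finset.mul_sum, Finset.sum_sub_distrib, expect_cc u t (hinj t ht)]
      rw [h3]
      have h6 : ∑ F ∈ S, Z.mF F * (∑ D ∈ (Finset.univ : Finset (Fin Z.K)).powerset,
            wt u D * (cc D t * (2 : ℝ) ^ (F ∩ D).card) - (1 + u) ^ r) ≤
            (1 + u) ^ r * ((1 + u) ^ (2 * d) - 1) := by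
        have h7 : 0 ≤ (1 + u) ^ r * ((1 + u) ^ (2 * d) - 1) :=
          mul_nonneg (by positivity) (sub_nonneg.2 (one_le_pow₀ (by linarith)))
        calc ∑ F ∈ S, Z.mF F * (∑ D ∈ (Finset.univ : Finset (Fin Z.K)).powerset,
            wt u D * (cc D t * (2 : ℝ) ^ (F ∩ D).card) - (1 + u) ^ r)
            ≤ ∑ F ∈ S, Z.mF F * ((1 + u) ^ r * ((1 + u) ^ (2 * d) - 1)) := by
              refine Finset.sum_le_sum fun F hF => mul_le_mul_of_nonneg_left ?_ (Z.mF_nonneg F)
              have := expect_cc_pow hu0 t (hinj t ht) F (Finset.mem_filter.1 hF).2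
              rw [pow_add] at this
              linarith
          _ ≤ _ := by
              rw [← Finset.sum_mul]
              have := mul_le_mul_of_nonneg_right hS1 h7
              linarith
      have h8 : (1 + u) ^ r * (1 - ((1 + u) ^ (2 * d) - 1) / g₀) =
          (1 + u) ^ r - ((1 + u) ^ r * ((1 + u) ^ (2 * d) - 1)) / g₀ := by ring
      rw [h8]
      have := div_le_div_of_nonneg_right h6 hg₀.le
      linarith
    have h9 := Finset.sum_le_sum h2
    rw [Finset.sum_const, nsmul_eq_mul] at h9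
    exact h9
  -- right side
  have hR : ∑ D ∈ (Finset.univ : Finset (Fin Z.K)).powerset,
        wt u D * (N.C * ((Z.K : ℝ) ^ r + εq * ∑ t : Fin r → Fin Z.K, cc D t)) ≤
      N.C * ((Z.K : ℝ) ^ r + εq * ((Z.K : ℝ) ^ r * (1 + u) ^ r +
        (Finset.univ.filter fun t : Fin r → Fin Z.K => ¬ Function.Injective t).card * 2 ^ r)) := by
    have h1 : ∑ D ∈ (Finset.univ : Finset (Fin Z.K)).powerset,
        wt u D * (N.C * ((Z.K : ℝ) ^ r + εq * ∑ t : Fin r → Fin Z.K, cc D t)) =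
        N.C * ((Z.K : ℝ) ^ r + εq * ∑ t : Fin r → Fin Z.K,
          ∑ D ∈ (Finset.univ : Finset (Fin Z.K)).powerset, wt u D * cc D t) := by
      have h2 : ∀ D ∈ (Finset.univ : Finset (Fin Z.K)).powerset,
          wt u D * (N.C * ((Z.K : ℝ) ^ r + εq * ∑ t : Fin r → Fin Z.K, cc D t)) =
          wt u D * (N.C * (Z.K : ℝ) ^ r) +
            N.C * εq * ∑ t : Fin r → Fin Z.K, wt u D * cc D t := by
        intro D _
        rw [← Finset.mul_sum]
        ring
      rw [Finset.sum_congr rfl h2, Finset.sum_add_distrib, ← Finset.sum_mul, sum_wt, one_mul,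
        ← Finset.mul_sum, Finset.sum_comm]
      ring
    rw [h1]
    refine mul_le_mul_of_nonneg_left ?_ hC.le
    have h3 : ∑ t : Fin r → Fin Z.K,
          ∑ D ∈ (Finset.univ : Finset (Fin Z.K)).powerset, wt u D * cc D t ≤
        (Z.K : ℝ) ^ r * (1 + u) ^ r +
        (Finset.univ.filter fun t : Fin r → Fin Z.K => ¬ Function.Injective t).card * 2 ^ r := by
      rw [← Finset.sum_filter_add_sum_filter_not Finset.univ
        (fun t : Fin r → Fin Z.K => Function.Injective t)]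
      apply add_le_add
      · rw [Finset.sum_congr rfl fun t ht => expect_cc u t (Finset.mem_filter.1 ht).2,
          Finset.sum_const, nsmul_eq_mul]
        refine mul_le_mul_of_nonneg_right ?_ (by positivity)
        have h2 := Finset.card_filter_le (Finset.univ)
          (fun t : Fin r → Fin Z.K => Function.Injective t)
        rw [Finset.card_univ, Fintype.card_fun, Fintype.card_fin, Fintype.card_fin] at h2
        exact_mod_cast h2
      · refine (Finset.sum_le_sum fun t _ => expect_cc_le hu0 hu1 t).trans ?_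
        rw [Finset.sum_const, nsmul_eq_mul]
    have := mul_le_mul_of_nonneg_left h3 hεq
    linarith
  exact hL.trans (hav.trans hR)

end Fil

/-- the final contradiction -/
theorem exists_contra (N : NatSys H L) {c₁ g₀ : ℝ} (hc₁ : 0 < c₁) (hg₀ : 0 < g₀) :
    ∃ r : ℕ, 2 ≤ r ∧ ∃ K₀ : ℕ, ∀ Z : N.Fil, K₀ ≤ Z.K → Z.Cap →
      (∑ F : Finset (Fin Z.K), Z.mF F + Ball.mass univ Z.ξ ≤ 1 - g₀) →
      ∀ xξ : Ball H, (∀ h, xξ h = rho (Z.T ∪ Z.T₀) Z.x h + Z.ξ h) →
      ∀ Gd : Finset (Fin r → Fin Z.K), (∀ t ∈ Gd, Function.Injective t) →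
      (∀ t ∈ Gd, c₁ ≤ |N.UI (Z.B ⊓ Finset.univ.inf fun j => N.PP Z.n (Z.p (2 * (t j : ℕ)))) xξ|) →
      (Z.K : ℝ) ^ r ≤ 2 * Gd.card → False := by
  have hC := N.C_pos
  obtain ⟨r, d, u, εq, hr, hu0, hu1, hεq, hεq2, hrd, hθ, hA⟩ := exists_params hC hc₁ hg₀
  refine ⟨r, hr, 2 ^ r * r ^ 2, ?_⟩
  intro Z hK hcap hg xξ hxξ Gd hinj hgood hcard
  obtain ⟨Q, hQ, hQr, hQt⟩ := exists_and_poly r d hr hεq hrd
  have hK1 : 1 ≤ Z.K := by
    have : 0 < 2 ^ r * r ^ 2 := by positivity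
    omega
  have hgood' : ∀ t ∈ Gd, c₁ / 2 ≤ |N.U (Z.qq Q d fun j => (t j, false)) xξ| := by
    intro t ht
    have h1 := hgood t ht
    have h2 := N.abs_U_le _ hεq.le (Z.abs_qq_sub_le hQ hQr hεq.le hQt fun j => (t j, false)) xξ
    have h3 : (fun j => N.PP Z.n (Z.pz (t j, false))) =
        fun j => N.PP Z.n (Z.p (2 * (t j : ℕ))) := by
      funext j
      rw [Z.pz_false, Z.pos_empty]
    rw [h3, map_sub, ContinuousMap.sub_apply] at h2
    unfold UI at h1
    have h4 := abs_sub_abs_le_abs_sub (N.U (ind (Z.B ⊓ Finset.univ.inf fun j =>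
      N.PP Z.n (Z.p (2 * (t j : ℕ))))) xξ) (N.U (Z.qq Q d fun j => (t j, false)) xξ)
    linarith
  have key := Z.expect_ineq hQ hQr hεq.le hQt hcap hg₀ hg hxξ Gd hinj (by positivity) hgood' hu0 hu1
  have hnon := card_noninj r Z.K hK1 (by omega)
  have hK0 : (0 : ℝ) < Z.K := by exact_mod_cast hK1
  have hKr : (0 : ℝ) < (Z.K : ℝ) ^ r := by positivity
  -- noninjective tuples are negligible
  have hnon' : ((Finset.univ.filter fun t : Fin r → Fin Z.K => ¬ Function.Injective t).card : ℝ) *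
      2 ^ r ≤ (Z.K : ℝ) ^ r := by
    have h1 : (2 : ℝ) ^ r * (r : ℝ) ^ 2 ≤ Z.K := by exact_mod_cast hK
    calc _ ≤ ((Z.K : ℝ) ^ r * ((r : ℝ) ^ 2 / Z.K)) * 2 ^ r :=
          mul_le_mul_of_nonneg_right hnon (by positivity)
      _ = (Z.K : ℝ) ^ r * ((2 ^ r * (r : ℝ) ^ 2) / Z.K) := by ring
      _ ≤ (Z.K : ℝ) ^ r * 1 := by
          refine mul_le_mul_of_nonneg_left ?_ hKr.le
          rw [div_le_one hK0]
          exact h1
      _ = _ := mul_one _
  set A : ℝ := (1 + u) ^ r with hAdef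
  set R : ℝ := (Z.K : ℝ) ^ r with hR
  set n : ℝ := ((Finset.univ.filter fun t : Fin r → Fin Z.K =>
    ¬ Function.Injective t).card : ℝ) with hn
  have hA1 : 1 ≤ A := one_le_pow₀ (by linarith)
  have hθ' : 1 / 2 ≤ 1 - ((1 + u) ^ (2 * d) - 1) / g₀ := by
    have : ((1 + u) ^ (2 * d) - 1) / g₀ ≤ 1 / 2 := by
      rw [div_le_iff₀ hg₀]; linarith
    linarith
  have hLHS : c₁ / 2 * (R / 2 * (A * (1 / 2))) ≤
      c₁ / 2 * (Gd.card * (A * (1 - ((1 + u) ^ (2 * d) - 1) / g₀))) := by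
    refine mul_le_mul_of_nonneg_left ?_ (by positivity)
    apply mul_le_mul (by linarith) _ (by positivity) (by positivity)
    exact mul_le_mul_of_nonneg_left hθ' (by linarith)
  have hCA : N.C ≤ c₁ / 32 * (A - 1) := by
    have h1 : 32 * N.C / c₁ ≤ A - 1 := by linarith
    rw [div_le_iff₀ hc₁] at h1
    linarith
  have hRHS : N.C * (R + εq * (R * A + n * 2 ^ r)) ≤ c₁ / 32 * (A - 1) * R +
      c₁ / 32 * (R * A + R) := by
    have h1 : N.C * (R + εq * (R * A + n * 2 ^ r)) =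
        N.C * R + (N.C * εq) * (R * A + n * 2 ^ r) := by ring
    rw [h1]
    apply add_le_add
    · exact mul_le_mul_of_nonneg_right hCA hKr.le
    · apply mul_le_mul hεq2 (by linarith) _ (by positivity)
      have : 0 ≤ n := by rw [hn]; positivity
      positivity
  have h5 : c₁ / 2 * (R / 2 * (A * (1 / 2))) ≤ c₁ / 32 * (A - 1) * R + c₁ / 32 * (R * A + R) :=
    hLHS.trans (key.trans hRHS)
  have h6 : c₁ / 32 * (A - 1) * R + c₁ / 32 * (R * A + R) = c₁ * R * A / 16 := by ring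
  have h7 : c₁ / 2 * (R / 2 * (A * (1 / 2))) = c₁ * R * A / 8 := by ring
  rw [h6, h7] at h5
  have h8 : 0 < c₁ * R * A := by positivity
  linarith

end NatSys
end Pool.Agent.H53.ZD
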