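import Pool.Agent.H53.ZD.Filler

set_option autoImplicit false
set_option linter.unusedSectionVars false
open Set Filter Topology TopologicalSpace MeasureTheory

namespace Pool.Agent.H53.ZD
namespace NatSys

variable {H L : Type*} [Countable H] [MulAction G H] [TopologicalSpace L] [CompactSpace L]
    [T2Space L] [TotallyDisconnectedSpace L] [MulAction G L] (N : NatSys H L)

/-- the argument with many copies of one filler -/
theorem copies_bound {T : Finset ℚ} {i f : ℚ} (hi : i ∉ T) (hf : f ∉ insert i T) (n : ℕ)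
    {p : ℕ → ℚ} (hp : StrictMono p)
    (gap : ∀ q ∈ insert i T, (q < f ∧ ∀ m, q < p m) ∨ (f < q ∧ ∀ m, p m < q))
    {B : Clopens L} (hB : N.Lev (insert i T) B) {K : ℕ}
    (hcap : ∀ l' ∈ B, ∀ M : Finset ℕ, (∀ m ∈ M, l' ∈ N.PP n (p m)) → M.card ≤ K)
    {x ξ w₀ : Ball H} (hξ : ∀ h, ξ h ≠ 0 → h ∈ HT H (insert i T) ∧ h ∉ HT H T)
    (hw₀ : ∀ h, w₀ h = rho (insert f T) x h + ξ h) {q : ℕ}
    (hroom : Ball.mass univ (rho T x) + Ball.mass univ ξ +
      q * Ball.mass (HT H (insert f T) \ HT H T) x ≤ 1) :
    q * |N.UI (B ⊓ N.PP n f) w₀| ≤ N.C * K := by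
  classical
  have hg' : ∀ k : ℕ, ∃ g : G, Fix (insert i T) g ∧ g f = p k := by
    intro k
    apply exists_move_pt
    intro r hr
    rcases gap r hr with h | h
    · exact Or.inl ⟨h.1, h.2 k⟩
    · exact Or.inr ⟨h.1, h.2 k⟩
  choose g hg hgf using hg'
  have hgT : ∀ k, Fix T (g k) := fun k => (hg k).mono (Finset.subset_insert _ _)
  set yf : Ball H := Ball.res (HT H (insert f T) \ HT H T) x with hyf
  have hyf0 : ∀ h, h ∉ HT H (insert f T) \ HT H T → yf h = 0 := fun h hh =>
    Ball.res_of_notMem x hh
  have hyfx : ∀ h, h ∈ HT H (insert f T) \ HT H T → yf h = x h := fun h hh =>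
    Ball.res_of_mem x hh
  have hmyf : Ball.mass univ yf = Ball.mass (HT H (insert f T) \ HT H T) x := by
    rw [hyf, Ball.mass_res, univ_inter]
  let Xf : H → ℝ := fun h => rho T x h + ξ h + ∑ k ∈ Finset.range q, (g k • yf) h
  have hX : ∀ s : Finset H, ∑ h ∈ s, |Xf h| ≤ 1 := by
    intro s
    have h1 : ∑ h ∈ s, |Xf h| ≤ ∑ h ∈ s, (|rho T x h| + |ξ h| +
        ∑ k ∈ Finset.range q, |(g k • yf) h|) := by
      refine Finset.sum_le_sum fun h _ => ?_
      refine (abs_add_le _ _).trans (add_le_add (abs_add_le _ _) (Finset.abs_sum_le_sum_abs _ _))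
    refine h1.trans (le_trans ?_ hroom)
    rw [Finset.sum_add_distrib, Finset.sum_add_distrib]
    refine add_le_add (add_le_add (Ball.sum_le_mass _ s fun _ _ => mem_univ _)
      (Ball.sum_le_mass _ s fun _ _ => mem_univ _)) ?_
    rw [Finset.sum_comm]
    have h2 : ∀ k ∈ Finset.range q, ∑ h ∈ s, |(g k • yf) h| ≤
        Ball.mass (HT H (insert f T) \ HT H T) x := by
      intro k _
      refine (Ball.sum_le_mass _ s fun _ _ => mem_univ _).trans ?_
      rw [mass_smul, preimage_univ, hmyf]
    refine (Finset.sum_le_sum h2).trans ?_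
    rw [Finset.sum_const, Finset.card_range, nsmul_eq_mul]
  set X : Ball H := Ball.mk' Xf hX with hXdef
  -- values
  have key : ∀ k ∈ Finset.range q, N.UI (B ⊓ N.PP n (p k)) X = N.UI (B ⊓ N.PP n f) w₀ := by
    intro k hk
    have e1 : B ⊓ N.PP n (p k) = N.ga (g k) (B ⊓ N.PP n f) := by
      rw [ga_inf, hB.ga_fix N (hg k), ga_PP, hgf]
    have hlev : N.Lev (insert f (insert i T)) (B ⊓ N.PP n f) :=
      (hB.mono N (Finset.subset_insert _ _)).inf N ((N.PP_lev n f).mono N (by
        rw [Finset.singleton_subset_iff]; exact Finset.mem_insert_self _ _))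
    rw [e1, UI_ga, ← hlev.UI_rho, ← hlev.UI_rho N w₀]
    congr 1
    rw [rho, rho, Ball.res_eq_iff]
    intro h hh
    have hsh : supp h ⊆ insert f (insert i T) := supp_subset hh
    rw [smul_ball_apply, inv_inv]
    show rho T x (g k • h) + ξ (g k • h) + ∑ j ∈ Finset.range q, (g j • yf) (g k • h) = w₀ h
    have hsg : supp (g k • h) = (supp h).image (g k) := supp_smul (N.fs h) _
    -- first term
    have t1 : rho T x (g k • h) = rho T x h := by
      by_cases hT : h ∈ HT H T
      · rw [show g k • h = h from hT _ (hgT k)]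
      · have hT' : g k • h ∉ HT H T := by
          intro h1
          apply hT
          have h2 : (g k)⁻¹ • (g k • h) = g k • h := h1 _ (hgT k).inv
          rw [inv_smul_smul] at h2
          rw [h2]; exact h1
        rw [rho, Ball.res_of_notMem x hT', Ball.res_of_notMem x hT]
    have t2 : ξ (g k • h) = ξ h := by
      by_cases hT : h ∈ HT H (insert i T)
      · rw [show g k • h = h from hT _ (hg k)]
      · have h1 : ξ h = 0 := by
          by_contra hne
          exact hT (hξ h hne).1
        have h2 : ξ (g k • h) = 0 := by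
          by_contra hne
          have h3 := (hξ _ hne).1
          have h4 : (g k)⁻¹ • (g k • h) = g k • h := h3 _ (hg k).inv
          rw [inv_smul_smul] at h4
          rw [← h4] at h3
          exact hT h3
        rw [h1, h2]
    have t3 : ∑ j ∈ Finset.range q, (g j • yf) (g k • h) = yf h := by
      rw [Finset.sum_eq_single k]
      · rw [smul_ball_apply, inv_smul_smul]
      · intro j _ hjk
        rw [smul_ball_apply]
        apply hyf0
        rintro ⟨h1, h2⟩
        -- `f` is in the support
        have hfs : f ∈ supp ((g j)⁻¹ • (g k • h)) := by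
          by_contra hfn
          apply h2
          refine (supp_spec (N.fs _)).mono ?_
          intro r hr
          rcases Finset.mem_insert.1 (supp_subset h1 hr) with h3 | h3
          · exact absurd (h3 ▸ hr) hfn
          · exact h3
        rw [supp_smul (N.fs _), Finset.mem_image] at hfs
        obtain ⟨r, hr, hrf⟩ := hfs
        have h4 : r = p j := by
          rw [← hgf j, ← hrf]
          exact ((g j).apply_symm_apply r).symm
        rw [hsg, Finset.mem_image] at hr
        obtain ⟨r', hr', hrr'⟩ := hr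
        have h5 : p j ∉ insert i T := by
          intro h6
          rcases gap _ h6 with h7 | h7
          · exact lt_irrefl _ (h7.2 j)
          · exact lt_irrefl _ (h7.2 j)
        rcases Finset.mem_insert.1 (hsh hr') with h6 | h6
        · rw [h6, hgf] at hrr'
          rw [← hrr'] at h4
          exact hjk (hp.injective h4).symm
        · rw [hg k r' h6] at hrr'
          rw [← h4, ← hrr'] at h5
          exact h5 h6
      · intro hk'
        exact absurd hk hk'
    rw [t1, t2, t3, hw₀]
    -- combine
    by_cases hT : h ∈ HT H T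
    · have e2 : rho T x h = x h := Ball.res_of_mem x hT
      have e3 : rho (insert f T) x h = x h :=
        Ball.res_of_mem x (HT_mono (Finset.subset_insert _ _) hT)
      rw [e2, e3, hyf0 h (fun h' => h'.2 hT), add_zero]
    · have e2 : rho T x h = 0 := Ball.res_of_notMem x hT
      by_cases hfT : h ∈ HT H (insert f T)
      · have e3 : rho (insert f T) x h = x h := Ball.res_of_mem x hfT
        rw [e2, e3, hyfx h ⟨hfT, hT⟩]; ring
      · have e3 : rho (insert f T) x h = 0 := Ball.res_of_notMem x hfT
        rw [e2, e3, hyf0 h (fun h' => hfT h'.1)]; ring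
  -- the test function
  set φ : C(L, ℝ) := ∑ k ∈ Finset.range q, ind (B ⊓ N.PP n (p k)) with hφ
  have hφ1 : ∀ l', |φ l'| ≤ K := by
    intro l'
    rw [hφ, ContinuousMap.sum_apply]
    by_cases hl' : l' ∈ B
    · have e : ∑ k ∈ Finset.range q, ind (B ⊓ N.PP n (p k)) l' =
          (((Finset.range q).filter fun k => l' ∈ N.PP n (p k)).card : ℝ) := by
        rw [Finset.card_filter]
        push_cast
        refine Finset.sum_congr rfl fun k _ => ?_
        split_ifs with h
        · exact ind_of_mem ⟨hl', h⟩
        · exact ind_of_notMem (fun h' => h h'.2)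
      rw [e, abs_of_nonneg (by positivity)]
      exact_mod_cast hcap l' hl' _ fun m hm => (Finset.mem_filter.1 hm).2
    · rw [Finset.sum_eq_zero fun k _ => ind_of_notMem
        (fun h' : l' ∈ B ⊓ N.PP n (p k) => hl' h'.1), abs_zero]
      positivity
  have h1 := N.abs_U_le φ (by positivity : (0 : ℝ) ≤ K) hφ1 X
  have h2 : N.U φ X = q * N.UI (B ⊓ N.PP n f) w₀ := by
    rw [hφ, map_sum, ContinuousMap.sum_apply]
    have : ∀ k ∈ Finset.range q, N.U (ind (B ⊓ N.PP n (p k))) X = N.UI (B ⊓ N.PP n f) w₀ := key
    rw [Finset.sum_congr rfl this, Finset.sum_const, Finset.card_range, nsmul_eq_mul]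
  rw [h2, abs_mul, abs_of_nonneg (by positivity : (0 : ℝ) ≤ q)] at h1
  exact h1

end NatSys
end Pool.Agent.H53.ZD
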