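import Pool.Agent.H53.ZD.Types

set_option autoImplicit false
set_option linter.unusedSectionVars false
open Set Filter Topology TopologicalSpace MeasureTheory

namespace Pool.Agent.H53.ZD
namespace NatSys

variable {H L : Type*} [Countable H] [MulAction G H] [TopologicalSpace L] [CompactSpace L]
    [T2Space L] [TotallyDisconnectedSpace L] [MulAction G L] (N : NatSys H L)

/-- the data of a filler configuration -/
structure Fil where
  T : Finset ℚ
  i : ℚ
  hi : i ∉ T
  B : Clopens L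
  hB : N.Lev (insert i T) B
  n : ℕ
  p : ℕ → ℚ
  hp : StrictMono p
  gap : ∀ q ∈ insert i T, (∀ m, q < p m) ∨ (∀ m, p m < q)
  K : ℕ
  x : Ball H
  ξ : Ball H
  hξ : ∀ h, ξ h ≠ 0 → h ∈ HT H (insert i T) ∧ h ∉ HT H T

variable {N}

namespace Fil

variable (Z : N.Fil)

/-- positions of the fillers, with duplication pattern `b` -/
def pos (b : Finset (Fin Z.K)) (f : Fin Z.K) : ℚ := Z.p (2 * (f : ℕ) + if f ∈ b then 1 else 0)

lemma pos_empty (f : Fin Z.K) : Z.pos ∅ f = Z.p (2 * (f : ℕ)) := by simp [pos]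

lemma pos_strictMono (b : Finset (Fin Z.K)) : StrictMono (Z.pos b) := by
  intro f f' h
  apply Z.hp
  have : (f : ℕ) < f' := h
  split_ifs <;> omega

lemma pos_congr {b b' : Finset (Fin Z.K)} {f : Fin Z.K} (h : f ∈ b ↔ f ∈ b') :
    Z.pos b f = Z.pos b' f := by simp [pos, h]

lemma p_notMem (m : ℕ) : Z.p m ∉ insert Z.i Z.T := by
  intro h
  rcases Z.gap _ h with h1 | h1
  · exact lt_irrefl _ (h1 m)
  · exact lt_irrefl _ (h1 m)

lemma p_notMem_T (m : ℕ) : Z.p m ∉ Z.T := fun h => Z.p_notMem m (Finset.mem_insert_of_mem h)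

lemma p_ne_i (m : ℕ) : Z.p m ≠ Z.i := fun h => Z.p_notMem m (h ▸ Finset.mem_insert_self _ _)

/-- the base level -/
def T₀ : Finset ℚ := Finset.univ.image (Z.pos ∅)

lemma exists_g (b : Finset (Fin Z.K)) : ∃ g : G, Fix (insert Z.i Z.T) g ∧
    ∀ f, g (Z.pos b f) = Z.pos ∅ f := by
  classical
  obtain ⟨g, hg⟩ := exists_iso_extend (insert Z.i Z.T ∪ Finset.univ.image (Z.pos b))
    (fun q => if h : ∃ f, q = Z.pos b f then Z.pos ∅ h.choose else q) (by
      intro q hq q' hq' hqq'
      by_cases h1 : ∃ f, q = Z.pos b f <;> by_cases h2 : ∃ f, q' = Z.pos b f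
      · simp only [h1, h2, dif_pos]
        apply Z.pos_strictMono
        rw [h1.choose_spec, h2.choose_spec] at hqq'
        exact (Z.pos_strictMono b).lt_iff_lt.1 hqq'
      · simp only [h1, h2, dif_pos, dif_neg, not_false_eq_true]
        have h3 : q' ∈ insert Z.i Z.T := by
          rcases Finset.mem_union.1 (Finset.mem_coe.1 hq') with h | h
          · exact h
          · obtain ⟨f, -, rfl⟩ := Finset.mem_image.1 h
            exact absurd ⟨f, rfl⟩ h2
        rcases Z.gap _ h3 with h4 | h4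
        · exfalso
          rw [h1.choose_spec] at hqq'
          exact lt_asymm hqq' (h4 _)
        · exact h4 _
      · simp only [h1, h2, dif_pos, dif_neg, not_false_eq_true]
        have h3 : q ∈ insert Z.i Z.T := by
          rcases Finset.mem_union.1 (Finset.mem_coe.1 hq) with h | h
          · exact h
          · obtain ⟨f, -, rfl⟩ := Finset.mem_image.1 h
            exact absurd ⟨f, rfl⟩ h1
        rcases Z.gap _ h3 with h4 | h4
        · exact h4 _
        · exfalso
          rw [h2.choose_spec] at hqq'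
          exact lt_asymm hqq' (h4 _)
      · simp only [h1, h2, dif_neg, not_false_eq_true]; exact hqq')
  refine ⟨g, fun q hq => ?_, fun f => ?_⟩
  · rw [hg q (Finset.mem_union_left _ hq), dif_neg]
    rintro ⟨f, rfl⟩
    exact Z.p_notMem _ hq
  · have hex : ∃ f', Z.pos b f = Z.pos b f' := ⟨f, rfl⟩
    rw [hg _ (Finset.mem_union_right _ (Finset.mem_image_of_mem _ (Finset.mem_univ f))),
      dif_pos hex]
    congr 1
    exact ((Z.pos_strictMono b).injective hex.choose_spec).symm

/-- the automorphism undoing the duplication -/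
noncomputable def g (b : Finset (Fin Z.K)) : G := (Z.exists_g b).choose

lemma g_fix (b : Finset (Fin Z.K)) : Fix (insert Z.i Z.T) (Z.g b) := (Z.exists_g b).choose_spec.1
lemma g_fixT (b : Finset (Fin Z.K)) : Fix Z.T (Z.g b) :=
  (Z.g_fix b).mono (Finset.subset_insert _ _)
lemma g_pos (b : Finset (Fin Z.K)) (f : Fin Z.K) : Z.g b (Z.pos b f) = Z.pos ∅ f :=
  (Z.exists_g b).choose_spec.2 f

/-- the pattern of a coordinate -/
noncomputable def bb (h : H) : Finset (Fin Z.K) :=
  Finset.univ.filter fun f => Z.p (2 * (f : ℕ) + 1) ∈ supp h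

/-- the filler set of a coordinate -/
noncomputable def FF (h : H) : Finset (Fin Z.K) :=
  Finset.univ.filter fun f => Z.p (2 * (f : ℕ)) ∈ supp h ∨ Z.p (2 * (f : ℕ) + 1) ∈ supp h

/-- admissible coordinates -/
def valid (D : Finset (Fin Z.K)) (d : ℕ) (h : H) : Prop :=
  supp h ⊆ Z.T ∪ (Z.FF h).image (Z.pos (Z.bb h)) ∧ Z.bb h ⊆ D ∧ (Z.FF h).card ≤ d

/-- coordinates with exact filler set `F` -/
def AF (F : Finset (Fin Z.K)) : Set H :=
  {h | supp h ⊆ Z.T ∪ F.image (Z.pos ∅) ∧ ∀ f ∈ F, Z.pos ∅ f ∈ supp h}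

/-- the mass of the coordinates with exact filler set `F` -/
noncomputable def mF (F : Finset (Fin Z.K)) : ℝ := Ball.mass (Z.AF F) Z.x

lemma mF_nonneg (F : Finset (Fin Z.K)) : 0 ≤ Z.mF F := Ball.mass_nonneg _ _

lemma bb_subset_FF (h : H) : Z.bb h ⊆ Z.FF h := by
  intro f hf
  simp only [bb, FF, Finset.mem_filter, Finset.mem_univ, true_and] at hf ⊢
  exact Or.inr hf

lemma mem_FF_of_pos {h : H} {b : Finset (Fin Z.K)} {f : Fin Z.K} (hf : Z.pos b f ∈ supp h) :
    f ∈ Z.FF h := by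
  simp only [FF, Finset.mem_filter, Finset.mem_univ, true_and]
  unfold pos at hf
  split_ifs at hf with h1
  · exact Or.inr hf
  · exact Or.inl (by simpa using hf)

lemma smul_mem_AF {D : Finset (Fin Z.K)} {d : ℕ} {h : H} (hv : Z.valid D d h) :
    Z.g (Z.bb h) • h ∈ Z.AF (Z.FF h) := by
  classical
  have hs : supp (Z.g (Z.bb h) • h) = (supp h).image (Z.g (Z.bb h)) := supp_smul (N.fs h) _
  constructor
  · rw [hs]
    intro q hq
    obtain ⟨r, hr, rfl⟩ := Finset.mem_image.1 hq
    rcases Finset.mem_union.1 (hv.1 hr) with h1 | h1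
    · rw [Z.g_fixT _ r h1]
      exact Finset.mem_union_left _ h1
    · obtain ⟨f, hf, rfl⟩ := Finset.mem_image.1 h1
      rw [Z.g_pos]
      exact Finset.mem_union_right _ (Finset.mem_image_of_mem _ hf)
  · intro f hf
    rw [hs, ← Z.g_pos (Z.bb h)]
    apply Finset.mem_image_of_mem
    by_cases hb : f ∈ Z.bb h
    · have : Z.pos (Z.bb h) f = Z.p (2 * (f : ℕ) + 1) := by simp [pos, hb]
      rw [this]
      simpa [bb] using hb
    · have : Z.pos (Z.bb h) f = Z.p (2 * (f : ℕ)) := by simp [pos, hb]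
      rw [this]
      simp only [FF, Finset.mem_filter, Finset.mem_univ, true_and] at hf
      rcases hf with h1 | h1
      · exact h1
      · exact absurd (by simpa [bb] using h1) hb

open Classical in
/-- the coordinates of the duplicated point -/
noncomputable def X (D : Finset (Fin Z.K)) (d : ℕ) (h : H) : ℝ :=
  (if Z.valid D d h then Z.x (Z.g (Z.bb h) • h) else 0) + Z.ξ h

lemma sum_X_le (D : Finset (Fin Z.K)) (d : ℕ) (s : Finset H) :
    ∑ h ∈ s, |Z.X D d h| ≤
      ∑ F ∈ Finset.univ.filter (fun F : Finset (Fin Z.K) => F.card ≤ d),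
        (2 : ℝ) ^ (F ∩ D).card * Z.mF F + Ball.mass univ Z.ξ := by
  classical
  have h1 : ∑ h ∈ s, |Z.X D d h| ≤
      ∑ h ∈ s, |if Z.valid D d h then Z.x (Z.g (Z.bb h) • h) else 0| + ∑ h ∈ s, |Z.ξ h| := by
    rw [← Finset.sum_add_distrib]
    exact Finset.sum_le_sum fun h _ => abs_add_le _ _
  refine h1.trans (add_le_add ?_ (Ball.sum_le_mass _ s fun _ _ => mem_univ _))
  have h2 : ∑ h ∈ s, |if Z.valid D d h then Z.x (Z.g (Z.bb h) • h) else 0| =
      ∑ h ∈ s.filter (Z.valid D d), |Z.x (Z.g (Z.bb h) • h)| := by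
    rw [Finset.sum_filter]
    refine Finset.sum_congr rfl fun h _ => ?_
    split_ifs
    · rfl
    · exact abs_zero
  rw [h2]
  -- group according to the pattern
  have h3 : ∀ h ∈ s.filter (Z.valid D d), Z.FF h ∈
      Finset.univ.filter (fun F : Finset (Fin Z.K) => F.card ≤ d) := by
    intro h hh
    exact Finset.mem_filter.2 ⟨Finset.mem_univ _, (Finset.mem_filter.1 hh).2.2.2⟩
  rw [← Finset.sum_fiberwise_of_maps_to h3]
  refine Finset.sum_le_sum fun F hF => ?_
  have h4 : ∀ h ∈ (s.filter (Z.valid D d)).filter (fun h => Z.FF h = F),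
      Z.bb h ∈ (F ∩ D).powerset := by
    intro h hh
    rw [Finset.mem_powerset]
    obtain ⟨h5, h6⟩ := Finset.mem_filter.1 hh
    have h7 := (Finset.mem_filter.1 h5).2
    exact Finset.subset_inter (h6 ▸ Z.bb_subset_FF h) h7.2.1
  rw [← Finset.sum_fiberwise_of_maps_to h4]
  have h5 : ∀ b ∈ (F ∩ D).powerset,
      ∑ h ∈ ((s.filter (Z.valid D d)).filter (fun h => Z.FF h = F)).filter (fun h => Z.bb h = b),
        |Z.x (Z.g (Z.bb h) • h)| ≤ Z.mF F := by
    intro b _
    set s' := ((s.filter (Z.valid D d)).filter (fun h => Z.FF h = F)).filter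
      (fun h => Z.bb h = b) with hs'
    have h6 : ∑ h ∈ s', |Z.x (Z.g (Z.bb h) • h)| = ∑ h ∈ s'.image (fun h => Z.g b • h), |Z.x h| := by
      rw [Finset.sum_image (fun a _ c _ hac => smul_left_cancel _ hac)]
      refine Finset.sum_congr rfl fun h hh => ?_
      rw [(Finset.mem_filter.1 hh).2]
    rw [h6]
    apply Ball.sum_le_mass
    intro h hh
    obtain ⟨h', hh', rfl⟩ := Finset.mem_image.1 hh
    obtain ⟨h7, h8⟩ := Finset.mem_filter.1 hh'
    obtain ⟨h9, h10⟩ := Finset.mem_filter.1 h7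
    rw [← h8, ← h10]
    exact Z.smul_mem_AF (Finset.mem_filter.1 h9).2
  refine (Finset.sum_le_sum h5).trans ?_
  rw [Finset.sum_const, Finset.card_powerset, nsmul_eq_mul]
  push_cast
  exact le_rfl

/-- the duplicated point -/
noncomputable def xhat (D : Finset (Fin Z.K)) (d : ℕ)
    (hD : ∑ F ∈ Finset.univ.filter (fun F : Finset (Fin Z.K) => F.card ≤ d),
        (2 : ℝ) ^ (F ∩ D).card * Z.mF F + Ball.mass univ Z.ξ ≤ 1) : Ball H :=
  ⟨Z.X D d, fun s => (Z.sum_X_le D d s).trans hD⟩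

/-- the products of indicator functions -/
noncomputable def Y (F b : Finset (Fin Z.K)) : C(L, ℝ) :=
  ind Z.B * ∏ f ∈ F, ind (N.PP Z.n (Z.pos b f))

lemma ind_ga (g : G) (a : Clopens L) (l : L) : ind (N.ga g a) (g • l) = ind a l := by
  by_cases h : l ∈ a
  · rw [ind_of_mem h, ind_of_mem ((N.smul_mem_ga g a l).2 h)]
  · rw [ind_of_notMem h, ind_of_notMem (fun h' => h ((N.smul_mem_ga g a l).1 h'))]

lemma Y_eq (F b : Finset (Fin Z.K)) : Z.Y F b = N.gφ (Z.g b) (Z.Y F ∅) := by
  ext l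
  show Z.Y F b l = Z.Y F ∅ (Z.g b • l)
  simp only [Y, ContinuousMap.mul_apply, ContinuousMap.prod_apply]
  congr 1
  · have h1 := ind_ga (N := N) (Z.g b) Z.B l
    rw [Z.hB.ga_fix N (Z.g_fix b)] at h1
    exact h1.symm
  · refine Finset.prod_congr rfl fun f _ => ?_
    have h1 := ind_ga (N := N) (Z.g b) (N.PP Z.n (Z.pos b f)) l
    rw [N.ga_PP, Z.g_pos] at h1
    exact h1.symm

lemma U_Y_congr (F : Finset (Fin Z.K)) {y z : Ball H}
    (h : ∀ k ∈ HT H (insert Z.i Z.T ∪ F.image (Z.pos ∅)), y k = z k) :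
    N.U (Z.Y F ∅) y = N.U (Z.Y F ∅) z := by
  classical
  set T' := insert Z.i Z.T ∪ F.image (Z.pos ∅) with hT'
  have h1 : N.piφ T' (Z.Y F ∅) = Z.Y F ∅ := by
    ext l
    show Z.Y F ∅ (N.pi T' l) = Z.Y F ∅ l
    simp only [Y, ContinuousMap.mul_apply, ContinuousMap.prod_apply]
    have hB : N.Lev T' Z.B := Z.hB.mono N Finset.subset_union_left
    congr 1
    · by_cases hl : l ∈ Z.B
      · rw [ind_of_mem hl, ind_of_mem ((hB l).2 hl)]
      · rw [ind_of_notMem hl, ind_of_notMem (fun h' => hl ((hB l).1 h'))]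
    · refine Finset.prod_congr rfl fun f hf => ?_
      have hP : N.Lev T' (N.PP Z.n (Z.pos ∅ f)) := (N.PP_lev _ _).mono N (by
        rw [Finset.singleton_subset_iff]
        exact Finset.mem_union_right _ (Finset.mem_image_of_mem _ hf))
      by_cases hl : l ∈ N.PP Z.n (Z.pos ∅ f)
      · rw [ind_of_mem hl, ind_of_mem ((hP l).2 hl)]
      · rw [ind_of_notMem hl, ind_of_notMem (fun h' => hl ((hP l).1 h'))]
  rw [← h1, U_piφ, rT_apply, rT_apply]
  congr 1
  rw [rho, rho, Ball.res_eq_iff]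
  exact h

lemma mem_supp_g_inv (b : Finset (Fin Z.K)) (h : H) (q : ℚ) :
    q ∈ supp ((Z.g b)⁻¹ • h) ↔ Z.g b q ∈ supp h := by
  classical
  rw [supp_smul (N.fs h), Finset.mem_image]
  constructor
  · rintro ⟨r, hr, rfl⟩
    have : Z.g b ((Z.g b)⁻¹ r) = r := (Z.g b).apply_symm_apply r
    rwa [this]
  · intro hq
    exact ⟨_, hq, (Z.g b).symm_apply_apply q⟩

/-- the transfer property of the duplicated point -/
theorem U_Y_xhat (D : Finset (Fin Z.K)) (d : ℕ)
    (hD : ∑ F ∈ Finset.univ.filter (fun F : Finset (Fin Z.K) => F.card ≤ d),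
        (2 : ℝ) ^ (F ∩ D).card * Z.mF F + Ball.mass univ Z.ξ ≤ 1)
    {xξ : Ball H} (hxξ : ∀ h, xξ h = rho (Z.T ∪ Z.T₀) Z.x h + Z.ξ h)
    {F b : Finset (Fin Z.K)} (hF : F.card ≤ d) (hbF : b ⊆ F) (hbD : b ⊆ D) :
    N.U (Z.Y F b) (Z.xhat D d hD) = N.U (Z.Y F ∅) xξ := by
  classical
  rw [Y_eq, U_gφ]
  show N.U (Z.Y F ∅) (Z.g b • Z.xhat D d hD) = _
  apply Z.U_Y_congr
  intro h hh
  rw [smul_ball_apply]
  show Z.X D d ((Z.g b)⁻¹ • h) = _
  set h' := (Z.g b)⁻¹ • h with hh'
  have hgh : Z.g b • h' = h := smul_inv_smul _ _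
  have hsupp : supp h ⊆ insert Z.i Z.T ∪ F.image (Z.pos ∅) := supp_subset hh
  have hsupp' : ∀ q ∈ supp h', q ∈ insert Z.i Z.T ∨ ∃ f ∈ F, q = Z.pos b f := by
    intro q hq
    rw [hh', mem_supp_g_inv] at hq
    rcases Finset.mem_union.1 (hsupp hq) with h1 | h1
    · left
      have h2 : Z.g b (Z.g b q) = Z.g b q := Z.g_fix b _ h1
      have h3 := (Z.g b).injective h2
      rwa [h3] at h1
    · right
      obtain ⟨f, hf, hfq⟩ := Finset.mem_image.1 h1
      refine ⟨f, hf, (Z.g b).injective ?_⟩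
      rw [Z.g_pos, hfq]
  have hi_iff : Z.i ∈ supp h' ↔ Z.i ∈ supp h := by
    rw [hh', mem_supp_g_inv, Z.g_fix b Z.i (Finset.mem_insert_self _ _)]
  rw [hxξ]
  by_cases hi : Z.i ∈ supp h
  · -- the coordinate involves `i`
    have hnv : ¬ Z.valid D d h' := by
      intro hv
      rcases Finset.mem_union.1 (hv.1 (hi_iff.2 hi)) with h1 | h1
      · exact Z.hi h1
      · obtain ⟨f, -, hf⟩ := Finset.mem_image.1 h1
        exact Z.p_ne_i _ hf
    have hrho : rho (Z.T ∪ Z.T₀) Z.x h = 0 := by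
      apply Ball.res_of_notMem
      intro hmem
      rcases Finset.mem_union.1 (supp_subset hmem hi) with h1 | h1
      · exact Z.hi h1
      · obtain ⟨f, -, hf⟩ := Finset.mem_image.1 h1
        exact Z.p_ne_i _ hf
    unfold X
    rw [if_neg hnv, hrho, zero_add, zero_add]
    by_cases hT : h ∈ HT H (insert Z.i Z.T)
    · have : h' = h := hT _ (Z.g_fix b).inv
      rw [this]
    · have h1 : Z.ξ h = 0 := by
        by_contra hne
        exact hT (Z.hξ h hne).1
      have h2 : Z.ξ h' = 0 := by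
        by_contra hne
        have h3 := (Z.hξ h' hne).1
        have h4 : Z.g b • h' = h' := h3 _ (Z.g_fix b)
        rw [hgh] at h4
        rw [← h4] at h3
        exact hT h3
      rw [h1, h2]
  · have hi' : Z.i ∉ supp h' := fun h1 => hi (hi_iff.1 h1)
    have hsT : ∀ q ∈ supp h', q ∈ Z.T ∨ ∃ f ∈ F, q = Z.pos b f := by
      intro q hq
      rcases hsupp' q hq with h1 | h1
      · rcases Finset.mem_insert.1 h1 with h2 | h2
        · exact absurd (h2 ▸ hq) hi'
        · exact Or.inl h2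
      · exact Or.inr h1
    have hodd : ∀ f : Fin Z.K, Z.p (2 * (f : ℕ) + 1) ∈ supp h' → f ∈ b ∧ f ∈ F := by
      intro f hf
      rcases hsT _ hf with h1 | ⟨f', hf', h1⟩
      · exact absurd h1 (Z.p_notMem_T _)
      · have h2 := Z.hp.injective h1
        split_ifs at h2 with h3
        · have : f = f' := Fin.ext (by omega)
          subst this
          exact ⟨h3, hf'⟩
        · omega
    have heven : ∀ f : Fin Z.K, Z.p (2 * (f : ℕ)) ∈ supp h' → f ∉ b ∧ f ∈ F := by
      intro f hf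
      rcases hsT _ hf with h1 | ⟨f', hf', h1⟩
      · exact absurd h1 (Z.p_notMem_T _)
      · have h2 := Z.hp.injective h1
        split_ifs at h2 with h3
        · omega
        · have : f = f' := Fin.ext (by omega)
          subst this
          exact ⟨h3, hf'⟩
    have hFF : ∀ f ∈ Z.FF h', f ∈ F ∧ (f ∈ b ↔ f ∈ Z.bb h') := by
      intro f hf
      simp only [FF, Finset.mem_filter, Finset.mem_univ, true_and] at hf
      rcases hf with h1 | h1
      · obtain ⟨h2, h3⟩ := heven f h1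
        refine ⟨h3, ⟨fun h => absurd h h2, fun h => ?_⟩⟩
        exact (hodd f (by simpa [bb] using h)).1
      · obtain ⟨h2, h3⟩ := hodd f h1
        exact ⟨h3, ⟨fun _ => by simpa [bb] using h1, fun _ => h2⟩⟩
    have hv : Z.valid D d h' := by
      refine ⟨?_, ?_, ?_⟩
      · intro q hq
        rcases hsT q hq with h1 | ⟨f, hf, rfl⟩
        · exact Finset.mem_union_left _ h1
        · have h2 := Z.mem_FF_of_pos hq
          refine Finset.mem_union_right _ (Finset.mem_image.2 ⟨f, h2, ?_⟩)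
          exact Z.pos_congr (hFF f h2).2.symm
      · intro f hf
        exact hbD (((hFF f (Z.bb_subset_FF h' hf)).2).2 hf)
      · exact (Finset.card_le_card fun f hf => (hFF f hf).1).trans hF
    have hsame : Z.g (Z.bb h') • h' = h := by
      rw [← hgh]
      have h1 : Fix (supp h') ((Z.g b)⁻¹ * Z.g (Z.bb h')) := by
        intro q hq
        show (Z.g b)⁻¹ (Z.g (Z.bb h') q) = q
        rcases hsT q hq with h2 | ⟨f, hf, rfl⟩
        · rw [Z.g_fixT _ q h2]
          exact (Z.g_fixT b).inv q h2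
        · have h3 := Z.mem_FF_of_pos hq
          have h4 := Z.pos_congr (hFF f h3).2
          rw [h4, Z.g_pos, ← Z.g_pos b f, h4]
          exact (Z.g b).symm_apply_apply _
      have h2 := supp_spec (N.fs h') _ h1
      rw [mul_smul, inv_smul_eq_iff] at h2
      exact h2
    have hξ0 : ∀ k : H, Z.i ∉ supp k → Z.ξ k = 0 := by
      intro k hk
      by_contra hne
      obtain ⟨h1, h2⟩ := Z.hξ k hne
      apply h2
      refine (supp_spec (N.fs k)).mono ?_
      intro q hq
      rcases Finset.mem_insert.1 (supp_subset h1 hq) with h3 | h3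
      · exact absurd (h3 ▸ hq) hk
      · exact h3
    unfold X
    rw [if_pos hv, hsame, hξ0 h' hi', hξ0 h hi]
    congr 1
    refine (Ball.res_of_mem Z.x ?_).symm
    refine (supp_spec (N.fs h)).mono ?_
    intro q hq
    rcases Finset.mem_union.1 (hsupp hq) with h1 | h1
    · rcases Finset.mem_insert.1 h1 with h2 | h2
      · exact absurd (h2 ▸ hq) hi
      · exact Finset.mem_union_left _ h2
    · obtain ⟨f, -, hf⟩ := Finset.mem_image.1 h1
      exact Finset.mem_union_right _ (Finset.mem_image.2 ⟨f, Finset.mem_univ _, hf⟩)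

end Fil

end NatSys

end Pool.Agent.H53.ZD
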