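import Mathlib

set_option autoImplicit false
set_option linter.unusedSectionVars false
open Finset

namespace Pool.Agent.H53.ZD

variable {K : ℕ}

/-- product weights -/
noncomputable def wt (u : ℝ) (D : Finset (Fin K)) : ℝ :=
  (∏ _f ∈ D, u) * ∏ _f ∈ univ \ D, (1 - u)

lemma wt_nonneg {u : ℝ} (h0 : 0 ≤ u) (h1 : u ≤ 1) (D : Finset (Fin K)) : 0 ≤ wt u D :=
  mul_nonneg (prod_nonneg fun _ _ => h0) (prod_nonneg fun _ _ => sub_nonneg.2 h1)

lemma expect_prod (u : ℝ) (α β : Fin K → ℝ) :
    ∑ D ∈ (univ : Finset (Fin K)).powerset, wt u D * ∏ f, (if f ∈ D then α f else β f) =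
      ∏ f, (u * α f + (1 - u) * β f) := by
  rw [prod_add]
  refine sum_congr rfl fun D _ => ?_
  have h1 : ∏ f, (if f ∈ D then α f else β f) = (∏ f ∈ D, α f) * ∏ f ∈ univ \ D, β f := by
    rw [prod_ite]
    congr 1
    · refine prod_congr ?_ fun _ _ => rfl
      ext f; simp
    · refine prod_congr ?_ fun _ _ => rfl
      ext f; simp
  rw [h1, prod_mul_distrib, prod_mul_distrib]
  unfold wt
  ring

lemma sum_wt (u : ℝ) : ∑ D ∈ (univ : Finset (Fin K)).powerset, wt u D = 1 := by
  have := expect_prod (K := K) u (fun _ => 1) (fun _ => 1)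
  simpa using this

/-- multiplicities -/
noncomputable def mu (D : Finset (Fin K)) (f : Fin K) : ℝ := if f ∈ D then 2 else 1

lemma mu_pos (D : Finset (Fin K)) (f : Fin K) : 0 < mu D f := by
  unfold mu; split_ifs <;> norm_num

lemma mu_le (D : Finset (Fin K)) (f : Fin K) : mu D f ≤ 2 := by
  unfold mu; split_ifs <;> norm_num

/-- the number of lifts of a tuple -/
noncomputable def cc {r : ℕ} (D : Finset (Fin K)) (t : Fin r → Fin K) : ℝ := ∏ j, mu D (t j)

lemma cc_pos {r : ℕ} (D : Finset (Fin K)) (t : Fin r → Fin K) : 0 < cc D t :=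
  prod_pos fun _ _ => mu_pos _ _

lemma cc_le {r : ℕ} (D : Finset (Fin K)) (t : Fin r → Fin K) : cc D t ≤ 2 ^ r := by
  unfold cc
  refine (prod_le_prod (fun _ _ => (mu_pos _ _).le) fun j _ => mu_le D (t j)).trans ?_
  simp

lemma cc_eq {r : ℕ} (D : Finset (Fin K)) (t : Fin r → Fin K) (ht : Function.Injective t) :
    cc D t = ∏ f, (if f ∈ D then (if f ∈ univ.image t then (2 : ℝ) else 1) else 1) := by
  classical
  unfold cc
  have h1 : ∏ j, mu D (t j) = ∏ f ∈ univ.image t, mu D f := by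
    rw [prod_image]
    intro a _ b _ h
    exact ht h
  rw [h1, ← prod_subset (subset_univ (univ.image t))]
  · refine prod_congr rfl fun f hf => ?_
    unfold mu
    simp only [hf, if_true]
  · intro f _ hf
    simp [hf]

lemma two_pow_eq (D F : Finset (Fin K)) :
    (2 : ℝ) ^ (F ∩ D).card = ∏ f, (if f ∈ D then (if f ∈ F then (2 : ℝ) else 1) else 1) := by
  have : ∀ f, (if f ∈ D then (if f ∈ F then (2 : ℝ) else 1) else 1) =
      if f ∈ F ∩ D then 2 else 1 := by
    intro f
    by_cases h1 : f ∈ D <;> by_cases h2 : f ∈ F <;> simp [h1, h2]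
  simp only [this]
  rw [prod_ite, prod_const_one, mul_one, prod_const]
  congr 2
  ext f
  simp

lemma expect_cc {r : ℕ} (u : ℝ) (t : Fin r → Fin K) (ht : Function.Injective t) :
    ∑ D ∈ (univ : Finset (Fin K)).powerset, wt u D * cc D t = (1 + u) ^ r := by
  classical
  simp only [cc_eq _ t ht]
  rw [expect_prod]
  have h1 : ∀ f : Fin K, u * (if f ∈ univ.image t then (2 : ℝ) else 1) + (1 - u) * 1 =
      if f ∈ univ.image t then 1 + u else 1 := by
    intro f
    split_ifs <;> ring
  simp only [h1]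
  rw [prod_ite, prod_const, prod_const_one, mul_one]
  congr 1
  have : univ.filter (fun f => f ∈ univ.image t) = univ.image t := by ext f; simp
  rw [this, card_image_of_injective _ ht, card_univ, Fintype.card_fin]

lemma expect_cc_le {r : ℕ} {u : ℝ} (h0 : 0 ≤ u) (h1 : u ≤ 1) (t : Fin r → Fin K) :
    ∑ D ∈ (univ : Finset (Fin K)).powerset, wt u D * cc D t ≤ 2 ^ r := by
  calc ∑ D ∈ (univ : Finset (Fin K)).powerset, wt u D * cc D t
      ≤ ∑ D ∈ (univ : Finset (Fin K)).powerset, wt u D * 2 ^ r :=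
        sum_le_sum fun D _ => mul_le_mul_of_nonneg_left (cc_le D t) (wt_nonneg h0 h1 D)
    _ = 2 ^ r := by rw [← sum_mul, sum_wt, one_mul]

lemma expect_cc_pow {r d : ℕ} {u : ℝ} (h0 : 0 ≤ u) (t : Fin r → Fin K)
    (ht : Function.Injective t) (F : Finset (Fin K)) (hF : F.card ≤ d) :
    ∑ D ∈ (univ : Finset (Fin K)).powerset, wt u D * (cc D t * 2 ^ (F ∩ D).card) ≤
      (1 + u) ^ (r + 2 * d) := by
  classical
  have e : ∀ D : Finset (Fin K), cc D t * 2 ^ (F ∩ D).card =
      ∏ f, (if f ∈ D then ((if f ∈ univ.image t then (2 : ℝ) else 1) *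
        (if f ∈ F then 2 else 1)) else 1) := by
    intro D
    rw [cc_eq _ t ht, two_pow_eq, ← prod_mul_distrib]
    refine prod_congr rfl fun f _ => ?_
    by_cases h : f ∈ D <;> simp [h]
  simp only [e]
  rw [expect_prod]
  have h1 : ∀ f : Fin K, u * ((if f ∈ univ.image t then (2 : ℝ) else 1) *
        (if f ∈ F then 2 else 1)) + (1 - u) * 1 ≤
      (if f ∈ univ.image t then 1 + u else 1) * (if f ∈ F then (1 + u) ^ 2 else 1) := by
    intro f
    split_ifs
    · nlinarith [pow_nonneg h0 2, pow_nonneg h0 3]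
    · linarith
    · nlinarith [pow_nonneg h0 2]
    · linarith
  refine (prod_le_prod (fun f _ => ?_) fun f _ => h1 f).trans ?_
  · split_ifs <;> nlinarith
  · rw [prod_mul_distrib, prod_ite, prod_ite, prod_const_one, mul_one, prod_const_one, mul_one,
      prod_const, prod_const]
    have e1 : univ.filter (fun f => f ∈ univ.image t) = univ.image t := by ext f; simp
    have e2 : univ.filter (fun f => f ∈ F) = F := by ext f; simp
    rw [e1, e2, card_image_of_injective _ ht, card_univ, Fintype.card_fin, ← pow_mul, ← pow_add]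
    exact pow_le_pow_right₀ (by linarith) (by omega)

/-- weights of lifts -/
noncomputable def chi (D : Finset (Fin K)) (z : Fin K × Bool) : ℝ :=
  if z.2 = true ∧ z.1 ∉ D then 0 else 1

lemma chi_nonneg (D : Finset (Fin K)) (z : Fin K × Bool) : 0 ≤ chi D z := by
  unfold chi; split_ifs <;> norm_num

lemma chi_le_one (D : Finset (Fin K)) (z : Fin K × Bool) : chi D z ≤ 1 := by
  unfold chi; split_ifs <;> norm_num

lemma sum_chi (D : Finset (Fin K)) (f : Fin K) : ∑ b : Bool, chi D (f, b) = mu D f := by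
  unfold chi mu
  by_cases h : f ∈ D
  · simp [h]
  · simp [h]

lemma sum_lifts {r : ℕ} (D : Finset (Fin K)) (F : (Fin r → Fin K) → ℝ) :
    ∑ z : Fin r → Fin K × Bool, (∏ j, chi D (z j)) * F (fun j => (z j).1) =
      ∑ t : Fin r → Fin K, cc D t * F t := by
  have h1 : ∑ z : Fin r → Fin K × Bool, (∏ j, chi D (z j)) * F (fun j => (z j).1) =
      ∑ q : (Fin r → Fin K) × (Fin r → Bool), (∏ j, chi D (q.1 j, q.2 j)) * F q.1 := by
    rw [← (Equiv.arrowProdEquivProdArrow (Fin r) (fun _ => Fin K) (fun _ => Bool)).symm.sum_comp]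
    rfl
  rw [h1, Fintype.sum_prod_type]
  refine sum_congr rfl fun t _ => ?_
  show ∑ y : Fin r → Bool, (∏ j, chi D (t j, y j)) * F t = cc D t * F t
  rw [← sum_mul]
  congr 1
  unfold cc
  simp only [← sum_chi]
  rw [prod_univ_sum, Fintype.piFinset_univ]

end Pool.Agent.H53.ZD
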