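import Pool.Agent.H53.ZD.Types

set_option autoImplicit false
set_option linter.unusedSectionVars false
open Set Filter Topology TopologicalSpace MeasureTheory

namespace Pool.Agent.H53.ZD
namespace NatSys

variable {H L : Type*} [Countable H] [MulAction G H] [TopologicalSpace L] [CompactSpace L]
    [T2Space L] [TotallyDisconnectedSpace L] [MulAction G L] (N : NatSys H L)

/-- near-extremal bases -/
structure Ext (ε : ℝ) (S₁ S₀ : Finset ℚ) (l : L) (E₁ E₀ : Clopens L) (ρ₀ : ℝ) : Prop where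
  sub : S₁ ⊆ S₀
  mem : l ∈ N.cls
  pos : 0 < ρ₀
  le_one : ρ₀ ≤ 1
  lev₁ : N.Lev S₁ E₁
  lev₀ : N.Lev S₀ E₀
  le : E₀ ≤ E₁
  mem₀ : l ∈ E₀
  ma : ∀ l' ∈ N.cls, N.pi S₀ l' = N.pi S₀ l → N.m l' - N.m (N.pi S₁ l') ≤ ε
  al : ∀ l' ∈ N.cls, N.pi S₀ l' = N.pi S₀ l → ∀ T : Finset ℚ, S₁ ⊆ T → ∀ a : Clopens L,
    N.Lev T a → l' ∈ a → ∫ x, N.VT S₁ 1 E₁ x ∂(N.lam (N.pi S₁ l')) - 2 * ε ≤
      ∫ x, N.VT T 1 a x ∂(N.lam (N.pi T l'))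
  de : ∀ l' ∈ N.cls, N.pi S₀ l' = N.pi S₀ l → ∀ T : Finset ℚ, S₀ ⊆ T → ∀ a : Clopens L,
    N.Lev T a → l' ∈ a → ∀ ρ' : ℝ, 0 < ρ' →
    ∫ x, N.VT S₀ ρ₀ E₀ x ∂(N.lam (N.pi S₀ l')) - 2 * ε ≤
      ∫ x, N.VT T ρ' a x ∂(N.lam (N.pi T l'))

lemma integrable_VT (T : Finset ℚ) {ρ : ℝ} (hρ : 0 ≤ ρ) (E : Clopens L) (l : L) :
    Integrable (N.VT T ρ E) (N.lam l) :=
  (integrable_const N.C).mono' (N.measurable_VT T hρ E).aestronglyMeasurable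
      (Eventually.of_forall fun x => by
        rw [Real.norm_eq_abs, abs_of_nonneg (N.VT_nonneg hρ E x)]; exact N.VT_le hρ E x)

lemma integral_VT_nonneg (T : Finset ℚ) {ρ : ℝ} (hρ : 0 ≤ ρ) (E : Clopens L) (l : L) :
    0 ≤ ∫ x, N.VT T ρ E x ∂(N.lam l) := integral_nonneg fun x => N.VT_nonneg hρ E x

theorem exists_ext {ε : ℝ} (hε : 0 < ε) :
    ∃ (S₁ S₀ : Finset ℚ) (l : L) (E₁ E₀ : Clopens L) (ρ₀ : ℝ), N.Ext ε S₁ S₀ l E₁ E₀ ρ₀ := by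
  classical
  -- mass
  have hbdd : BddAbove (N.m '' N.cls) := ⟨N.C, by rintro _ ⟨l, -, rfl⟩; exact N.m_le l⟩
  obtain ⟨l₁, hl₁, hm₁⟩ : ∃ l₁ ∈ N.cls, sSup (N.m '' N.cls) - ε / 2 < N.m l₁ := by
    obtain ⟨_, ⟨l₁, hl₁, rfl⟩, h⟩ := exists_lt_of_lt_csSup (N.cls_nonempty.image N.m)
      (show sSup (N.m '' N.cls) - ε / 2 < sSup (N.m '' N.cls) by linarith)
    exact ⟨l₁, hl₁, h⟩
  obtain ⟨T₁, hT₁⟩ := N.exists_level l₁ (show 0 < ε / 2 by linarith)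
  have hT₁' := hT₁ T₁ subset_rfl
  -- D
  let Dset : Set ℝ := {r | ∃ l ∈ N.cls, N.pi T₁ l = N.pi T₁ l₁ ∧ ∃ T : Finset ℚ, T₁ ⊆ T ∧
    ∃ E : Clopens L, N.Lev T E ∧ l ∈ E ∧ r = ∫ x, N.VT T 1 E x ∂(N.lam (N.pi T l))}
  have hDb : BddBelow Dset := ⟨0, by
    rintro r ⟨l, -, -, T, -, E, -, -, rfl⟩
    exact N.integral_VT_nonneg T zero_le_one E _⟩
  have hDn : Dset.Nonempty := ⟨_, l₁, hl₁, rfl, T₁, subset_rfl, ⊤, N.lev_top T₁, trivial, rfl⟩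
  obtain ⟨r, ⟨l₂, hl₂, hl₂', S₁, hS₁, E₁, hE₁, hl₂E, rfl⟩, hr⟩ := exists_lt_of_csInf_lt hDn
    (show sInf Dset < sInf Dset + 2 * ε by linarith)
  -- W
  let Wset : Set ℝ := {r | ∃ l ∈ N.cls, N.pi S₁ l = N.pi S₁ l₂ ∧ ∃ T : Finset ℚ, S₁ ⊆ T ∧
    ∃ E : Clopens L, N.Lev T E ∧ l ∈ E ∧ ∃ ρ : ℝ, 0 < ρ ∧
    r = ∫ x, N.VT T ρ E x ∂(N.lam (N.pi T l))}
  have hWb : BddBelow Wset := ⟨0, by
    rintro r ⟨l, -, -, T, -, E, -, -, ρ, hρ, rfl⟩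
    exact N.integral_VT_nonneg T hρ.le E _⟩
  have hWn : Wset.Nonempty := ⟨_, l₂, hl₂, rfl, S₁, subset_rfl, ⊤, N.lev_top S₁, trivial, 1,
    zero_lt_one, rfl⟩
  obtain ⟨r, ⟨l, hl, hl', S₀, hS₀, E, hE, hlE, ρ, hρ, rfl⟩, hr'⟩ := exists_lt_of_csInf_lt hWn
    (show sInf Wset < sInf Wset + 2 * ε by linarith)
  have hlE₁ : l ∈ E₁ := by
    rw [← hE₁, hl', hE₁]; exact hl₂E
  have trans : ∀ l', N.pi S₀ l' = N.pi S₀ l → N.pi S₁ l' = N.pi S₁ l₂ := by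
    intro l' h
    rw [← hl', ← N.pi_of_subset hS₀ l', h, N.pi_of_subset hS₀]
  have trans1 : ∀ l', N.pi S₀ l' = N.pi S₀ l → N.pi T₁ l' = N.pi T₁ l₁ := by
    intro l' h
    rw [← hl₂', ← N.pi_of_subset hS₁ l', trans l' h, N.pi_of_subset hS₁]
  refine ⟨S₁, S₀, l, E₁, E ⊓ E₁, min ρ 1, ?_⟩
  refine ⟨hS₀, hl, lt_min hρ zero_lt_one, min_le_right _ _, hE₁, hE.inf N (hE₁.mono N hS₀),
    inf_le_right, ⟨hlE, hlE₁⟩, ?_, ?_, ?_⟩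
  · intro l' hl'c h
    have h1 : N.m l' ≤ sSup (N.m '' N.cls) := le_csSup hbdd ⟨l', hl'c, rfl⟩
    have h2 : N.m (N.pi T₁ l₁) ≤ N.m (N.pi S₁ l') := by
      rw [← trans1 l' h, ← N.pi_of_subset hS₁ l']
      exact N.m_pi_le _ _
    linarith
  · intro l' hl'c h T hT a ha hla
    have h1 : sInf Dset ≤ ∫ x, N.VT T 1 a x ∂(N.lam (N.pi T l')) :=
      csInf_le hDb ⟨l', hl'c, trans1 l' h, T, hS₁.trans hT, a, ha, hla, rfl⟩
    rw [trans l' h]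
    linarith
  · intro l' hl'c h T hT a ha hla ρ' hρ'
    have h1 : sInf Wset ≤ ∫ x, N.VT T ρ' a x ∂(N.lam (N.pi T l')) :=
      csInf_le hWb ⟨l', hl'c, trans l' h, T, hS₀.trans hT, a, ha, hla, ρ', hρ', rfl⟩
    rw [h]
    have h2 : ∫ x, N.VT S₀ (min ρ 1) (E ⊓ E₁) x ∂(N.lam (N.pi S₀ l)) ≤
        ∫ x, N.VT S₀ ρ E x ∂(N.lam (N.pi S₀ l)) := by
      have hmin : 0 ≤ min ρ 1 := (lt_min hρ zero_lt_one).le
      apply integral_mono (N.integrable_VT S₀ hmin _ _) (N.integrable_VT S₀ hρ.le _ _)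
      intro x
      exact N.VT_mono inf_le_left hmin fun z hz => ⟨hz.1, hz.2.trans (min_le_left _ _)⟩
    linarith

variable {N}

namespace Ext

variable {ε : ℝ} {S₁ S₀ : Finset ℚ} {l : L} {E₁ E₀ : Clopens L} {ρ₀ : ℝ}

/-- alignment -/
lemma align (hx : N.Ext ε S₁ S₀ l E₁ E₀ ρ₀) {l' : L} (hl' : l' ∈ N.cls)
    (h : N.pi S₀ l' = N.pi S₀ l) {T : Finset ℚ} (hT : S₁ ⊆ T) {a : Clopens L}
    (ha : N.Lev T a) (hla : l' ∈ a) (haE : a ≤ E₁) {δ : ℝ} (hδ : 0 < δ) :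
    (N.lam l').real {x | 2 * δ < |N.UI E₁ x - N.UI a x|} ≤ (N.C + 2) * ε / δ + ε := by
  have h1 := N.near_inf hT zero_le_one zero_le_one haE hδ (hx.ma l' hl' h)
    (hx.al l' hl' h T hT a ha hla) univ MeasurableSet.univ (fun x => by simp)
    (fun x _ z hz => ⟨by rw [← rho_of_subset hT z, hz.1, rho_of_subset hT],
      Ball.mass_le_one _ _⟩)
  rw [compl_univ, measureReal_empty, mul_zero, add_zero] at h1
  refine (measureReal_mono ?_).trans h1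
  intro x hx2
  refine ⟨mem_univ _, ?_⟩
  by_contra hcon
  push Not at hcon
  have := N.align_pt hT hx.lev₁ ha haE (x := x) (δ := 2 * δ) (by linarith)
  exact absurd hx2 (not_lt.2 this)

/-- determinism -/
lemma determ (hx : N.Ext ε S₁ S₀ l E₁ E₀ ρ₀) {l' : L} (hl' : l' ∈ N.cls)
    (h : N.pi S₀ l' = N.pi S₀ l) {T : Finset ℚ} (hT : S₀ ⊆ T) {a : Clopens L}
    (ha : N.Lev T a) (hla : l' ∈ a) (haE : a ≤ E₀) {δ : ℝ} (hδ : 0 < δ) {ρ' : ℝ} (hρ' : 0 < ρ')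
    {r : ℝ} (hr : r + ρ' ≤ ρ₀) :
    (N.lam l').real {x | Ball.mass (HT H T \ HT H S₀) x ≤ r ∧
      N.VT T ρ' a x < N.VT S₀ ρ₀ E₀ x - δ} ≤
      ((N.C + 2) * ε + N.C * (N.lam l').real {x | r < Ball.mass (HT H T \ HT H S₀) x}) / δ + ε := by
  have hm : N.m l' - N.m (N.pi S₀ l') ≤ ε := by
    have h1 := hx.ma l' hl' h
    have h2 : N.m (N.pi S₁ l') ≤ N.m (N.pi S₀ l') := by
      rw [← N.pi_of_subset hx.sub l']; exact N.m_pi_le _ _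
    linarith
  have h1 := N.near_inf hT hx.pos.le hρ'.le haE hδ hm
    (hx.de l' hl' h T hT a ha hla ρ' hρ') {x | Ball.mass (HT H T \ HT H S₀) x ≤ r}
    (Ball.isClosed_mass_le _ _).measurableSet ?_ ?_
  · have e : {x : Ball H | r < Ball.mass (HT H T \ HT H S₀) x} =
        {x : Ball H | Ball.mass (HT H T \ HT H S₀) x ≤ r}ᶜ := by
      ext x
      exact (not_le (a := Ball.mass (HT H T \ HT H S₀) x) (b := r)).symm
    rw [e]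
    exact h1
  · intro x
    show Ball.mass _ (rho T x) ≤ r ↔ Ball.mass _ x ≤ r
    have : Ball.mass (HT H T \ HT H S₀) (rho T x) = Ball.mass (HT H T \ HT H S₀) x := by
      apply Ball.mass_congr
      intro i hi
      exact Ball.res_of_mem x hi.1
    rw [this]
  · intro x hxr
    exact Fib_mono hT (by
      have : Ball.mass (HT H T \ HT H S₀) x ≤ r := hxr
      linarith)

end Ext

end NatSys

end Pool.Agent.H53.ZD
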