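import Pool.Agent.H53.ZD.Extremal

set_option autoImplicit false
set_option linter.unusedSectionVars false
open Set Filter Topology TopologicalSpace MeasureTheory

namespace Pool.Agent.H53.ZD

/-- moving a point inside a gap -/
lemma exists_move_pt {S : Finset ℚ} {a b : ℚ}
    (h : ∀ q ∈ S, (q < a ∧ q < b) ∨ (a < q ∧ b < q)) : ∃ g : G, Fix S g ∧ g a = b := by
  classical
  have haS : a ∉ S := fun ha => by
    rcases h a ha with h1 | h1
    · exact lt_irrefl _ h1.1
    · exact lt_irrefl _ h1.1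
  obtain ⟨g, hg⟩ := exists_iso_extend (insert a S) (fun q => if q = a then b else q) (by
    intro q hq q' hq' hqq'
    have hq1 := Finset.mem_insert.1 (Finset.mem_coe.1 hq)
    have hq1' := Finset.mem_insert.1 (Finset.mem_coe.1 hq')
    by_cases e : q = a
    · by_cases e' : q' = a
      · exact absurd (e.trans e'.symm) hqq'.ne
      · have h1 : q' ∈ S := hq1'.resolve_left e'
        simp only [e, e', if_true, if_false]
        rcases h q' h1 with h2 | h2
        · exact absurd (e ▸ hqq') (lt_asymm h2.1)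
        · exact h2.2
    · have h1 : q ∈ S := hq1.resolve_left e
      by_cases e' : q' = a
      · simp only [e, e', if_true, if_false]
        rcases h q h1 with h2 | h2
        · exact h2.2
        · exact absurd (e' ▸ hqq') (lt_asymm h2.1)
      · simp only [e, e', if_false]; exact hqq')
  refine ⟨g, fun q hq => ?_, ?_⟩
  · rw [hg q (Finset.mem_insert_of_mem hq)]
    have hne : q ≠ a := fun e => haS (e ▸ hq)
    exact if_neg hne
  · rw [hg a (Finset.mem_insert_self _ _)]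
    simp

/-- homogeneity of increasing sequences in a gap -/
lemma exists_move_seq {S : Finset ℚ} {p : ℕ → ℚ} (hp : StrictMono p)
    (gap : ∀ q ∈ S, (∀ m, q < p m) ∨ (∀ m, p m < q)) (M M' : Finset ℕ)
    (h : M.card = M'.card) :
    ∃ g : G, Fix S g ∧ ∀ m' ∈ M', ∃ m ∈ M, g (p m) = p m' := by
  classical
  have hpS : ∀ m, p m ∉ S := fun m hm => by
    rcases gap _ hm with h1 | h1
    · exact lt_irrefl _ (h1 m)
    · exact lt_irrefl _ (h1 m)
  let e : Fin M.card ≃o M := M.orderIsoOfFin rfl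
  let e' : Fin M.card ≃o M' := M'.orderIsoOfFin h.symm
  have hmono : StrictMono (fun j : Fin M.card => p (e j)) := fun a b hab => hp (e.strictMono hab)
  have hmono' : StrictMono (fun j : Fin M.card => p (e' j)) :=
    fun a b hab => hp (e'.strictMono hab)
  obtain ⟨g, hg⟩ := exists_iso_extend (S ∪ Finset.univ.image (fun j : Fin M.card => p (e j)))
    (fun q => if h : ∃ j : Fin M.card, q = p (e j) then p (e' h.choose) else q) (by
      intro q hq q' hq' hqq'
      by_cases h1 : ∃ f : Fin M.card, q = p (e f) <;>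
        by_cases h2 : ∃ f : Fin M.card, q' = p (e f)
      · simp only [h1, h2, dif_pos]
        apply hmono'
        rw [h1.choose_spec, h2.choose_spec] at hqq'
        exact hmono.lt_iff_lt.1 hqq'
      · simp only [h1, h2, dif_pos, dif_neg, not_false_eq_true]
        have h3 : q' ∈ S := by
          rcases Finset.mem_union.1 (Finset.mem_coe.1 hq') with h | h
          · exact h
          · obtain ⟨f, -, rfl⟩ := Finset.mem_image.1 h
            exact absurd ⟨f, rfl⟩ h2
        rcases gap _ h3 with h4 | h4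
        · exfalso
          rw [h1.choose_spec] at hqq'
          exact lt_asymm hqq' (h4 _)
        · exact h4 _
      · simp only [h1, h2, dif_pos, dif_neg, not_false_eq_true]
        have h3 : q ∈ S := by
          rcases Finset.mem_union.1 (Finset.mem_coe.1 hq) with h | h
          · exact h
          · obtain ⟨f, -, rfl⟩ := Finset.mem_image.1 h
            exact absurd ⟨f, rfl⟩ h1
        rcases gap _ h3 with h4 | h4
        · exact h4 _
        · exfalso
          rw [h2.choose_spec] at hqq'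
          exact lt_asymm hqq' (h4 _)
      · simp only [h1, h2, dif_neg, not_false_eq_true]; exact hqq')
  refine ⟨g, fun q hq => ?_, fun m' hm' => ?_⟩
  · rw [hg q (Finset.mem_union_left _ hq), dif_neg]
    rintro ⟨f, rfl⟩
    exact hpS _ hq
  · set j := e'.symm ⟨m', hm'⟩ with hj
    refine ⟨(e j : ℕ), (e j).2, ?_⟩
    have hex : ∃ f' : Fin M.card, p (e j) = p (e f') := ⟨j, rfl⟩
    rw [hg _ (Finset.mem_union_right _ (Finset.mem_image_of_mem _ (Finset.mem_univ j))),
      dif_pos hex]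
    have h5 : hex.choose = j := (hmono.injective hex.choose_spec).symm
    rw [h5, hj, OrderIso.apply_symm_apply]

namespace Ball

variable {ι : Type*}

lemma sum_mass_eq {κ : Type*} (s : Finset κ) (A : κ → Set ι)
    (hd : ∀ a ∈ s, ∀ b ∈ s, a ≠ b → Disjoint (A a) (A b)) (x : Ball ι) :
    ∑ a ∈ s, mass (A a) x = mass (⋃ a ∈ s, A a) x := by
  classical
  induction s using Finset.induction_on with
  | empty => simp [mass_empty]
  | insert a s ha ih =>
    rw [Finset.sum_insert ha, ih (fun b hb c hc => hd b (Finset.mem_insert_of_mem hb) c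
      (Finset.mem_insert_of_mem hc)), Finset.set_biUnion_insert, mass_union]
    rw [Set.disjoint_iUnion₂_right]
    intro b hb
    exact hd a (Finset.mem_insert_self _ _) b (Finset.mem_insert_of_mem hb)
      (fun e => ha (e ▸ hb))

lemma sum_mass_le {κ : Type*} (s : Finset κ) (A : κ → Set ι)
    (hd : ∀ a ∈ s, ∀ b ∈ s, a ≠ b → Disjoint (A a) (A b)) (x : Ball ι) :
    ∑ a ∈ s, mass (A a) x ≤ 1 := by
  rw [sum_mass_eq s A hd x]
  exact mass_le_one _ _

end Ball

namespace NatSys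

variable {H L : Type*} [Countable H] [MulAction G H] [TopologicalSpace L] [CompactSpace L]
    [T2Space L] [TotallyDisconnectedSpace L] [MulAction G L] (N : NatSys H L)

lemma UI_bot (x : Ball H) : N.UI ⊥ x = 0 := by
  unfold UI
  have : ind (⊥ : Clopens L) = 0 := by
    ext l
    exact ind_of_notMem (fun h => h)
  rw [this, map_zero]; rfl

lemma UI_rho_eq_zero {S : Finset ℚ} {a : Clopens L} (h0 : ∀ l, N.pi S l ∉ a) (x : Ball H) :
    N.UI a (rho S x) = 0 := by
  rw [← UI_preT]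
  have : N.preT S a = ⊥ := by
    ext l
    exact ⟨fun h => h0 l h, fun h => h.elim⟩
  rw [this, UI_bot]

/-- modulus -/
lemma modulus {S T : Finset ℚ} (hST : S ⊆ T) {a : Clopens L} (ha : N.Lev T a)
    (h0 : ∀ l, N.pi S l ∉ a) {η : ℝ} (hη : 0 < η) :
    ∃ d : ℝ, 0 < d ∧ ∀ x : Ball H, η ≤ |N.UI a x| → d ≤ Ball.mass (HT H T \ HT H S) x := by
  obtain ⟨F, d, hd, h⟩ := Ball.unif_dep (N.UI a).continuous hη
  refine ⟨d, hd, fun x hx => ?_⟩
  by_contra hcon
  push Not at hcon
  have h1 := h (rho T x) (rho S x) (fun i _ => by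
    by_cases hT : i ∈ HT H T
    · have e1 : rho T x i = x i := Ball.res_of_mem x hT
      by_cases hS : i ∈ HT H S
      · have e2 : rho S x i = x i := Ball.res_of_mem x hS
        rw [e1, e2, sub_self, abs_zero]; exact hd
      · have e2 : rho S x i = 0 := Ball.res_of_notMem x hS
        rw [e1, e2, sub_zero]
        exact (Ball.abs_le_mass x (show i ∈ HT H T \ HT H S from ⟨hT, hS⟩)).trans_lt hcon
    · have e1 : rho T x i = 0 := Ball.res_of_notMem x hT
      have e2 : rho S x i = 0 := Ball.res_of_notMem x (fun h => hT (HT_mono hST h))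
      rw [e1, e2, sub_self, abs_zero]; exact hd)
  rw [N.UI_rho_eq_zero h0, sub_zero, ha.UI_rho] at h1
  linarith

lemma preimage_HT (g : G) (T : Finset ℚ) :
    (fun h : H => g • h) ⁻¹' HT H (T.image g) = HT H T := by
  ext h
  exact smul_mem_HT g

/-- finiteness of the capacity -/
lemma cap_finite (n : ℕ) : ∃ D : ℕ, ∀ (l' : L) (s : Finset ℚ), (∀ q ∈ s, l' ∈ N.PP n q) →
    s.card ≤ D := by
  have hC := N.C_pos
  have hc := N.c_pos
  obtain ⟨d, hd, hmod⟩ := N.modulus (Finset.empty_subset {0}) (N.Pn_lev n) (N.pi_notMem_Pn n) hc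
  have hmod' : ∀ q : ℚ, ∀ x : Ball H, N.c ≤ |N.UI (N.PP n q) x| →
      d ≤ Ball.mass (HT H {q} \ HT H ∅) x := by
    intro q x hx
    unfold PP at hx
    rw [UI_ga] at hx
    have h1 := hmod _ hx
    rw [mass_smul, preimage_sdiff] at h1
    have e1 : (fun h : H => (tau q)⁻¹ • h) ⁻¹' HT H {0} = HT H {q} := by
      have := preimage_HT (H := H) (tau q)⁻¹ {q}
      rw [Finset.image_singleton] at this
      have e : (tau q)⁻¹ q = 0 := by
        have h2 : (tau q) 0 = q := tau_zero q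
        calc (tau q)⁻¹ q = (tau q)⁻¹ ((tau q) 0) := by rw [h2]
          _ = 0 := (tau q).symm_apply_apply 0
      rwa [e] at this
    have e2 : (fun h : H => (tau q)⁻¹ • h) ⁻¹' HT H ∅ = HT H ∅ := by
      have := preimage_HT (H := H) (tau q)⁻¹ ∅
      rwa [Finset.image_empty] at this
    rwa [e1, e2] at h1
  obtain ⟨D, hD⟩ := exists_nat_gt (N.C / (N.c * d))
  refine ⟨D, fun l' s hs => ?_⟩
  have h1 : ∀ q ∈ s, d * N.c ≤ ∫ x, Ball.mass (HT H {q} \ HT H ∅) x ∂(N.lam l') := by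
    intro q hq
    have h2 := N.large_fraction (hs q hq)
    have h3 : (N.lam l').real {x | N.c ≤ |N.UI (N.PP n q) x|} ≤
        (N.lam l').real {x | d ≤ Ball.mass (HT H {q} \ HT H ∅) x} :=
      measureReal_mono fun x hx => hmod' q x hx
    have h4 := mul_meas_ge_le_integral_of_nonneg (μ := N.lam l')
      (f := fun x => Ball.mass (HT H {q} \ HT H ∅) x)
      (Eventually.of_forall fun x => Ball.mass_nonneg _ x)
      ((integrable_const (1 : ℝ)).mono' (Ball.measurable_mass _).aestronglyMeasurable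
        (Eventually.of_forall fun x => by
          rw [Real.norm_eq_abs, abs_of_nonneg (Ball.mass_nonneg _ x)]
          exact Ball.mass_le_one _ x)) d
    exact (mul_le_mul_of_nonneg_left (h2.trans h3) hd.le).trans h4
  have h5 := Finset.sum_le_sum h1
  rw [Finset.sum_const, nsmul_eq_mul, ← integral_finsetSum] at h5
  · have h6 : ∫ x, ∑ q ∈ s, Ball.mass (HT H {q} \ HT H ∅) x ∂(N.lam l') ≤ N.C := by
      calc ∫ x, ∑ q ∈ s, Ball.mass (HT H {q} \ HT H ∅) x ∂(N.lam l')
          ≤ ∫ x, (1 : ℝ) ∂(N.lam l') := by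
            apply integral_mono_of_nonneg
            · exact Eventually.of_forall fun x => Finset.sum_nonneg fun q _ =>
                Ball.mass_nonneg _ x
            · exact integrable_const _
            · refine Eventually.of_forall fun x => Ball.sum_mass_le s _ ?_ x
              intro a _ b _ hab
              rw [Set.disjoint_left]
              rintro h ⟨h7, h8⟩ ⟨h9, -⟩
              apply h8
              have : h ∈ HT H ({a} ∩ {b}) := by rw [← HT_inter]; exact ⟨h7, h9⟩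
              rwa [Finset.singleton_inter_of_notMem (by simpa using hab)] at this
        _ = (N.lam l').real univ := by simp
        _ ≤ N.C := N.m_le l'
    have h7 : (s.card : ℝ) * (N.c * d) ≤ N.C := by
      have : (s.card : ℝ) * (d * N.c) ≤ N.C := h5.trans h6
      linarith
    have h8 : (s.card : ℝ) ≤ N.C / (N.c * d) := by
      rw [le_div_iff₀ (by positivity)]; exact h7
    exact_mod_cast (h8.trans_lt hD).le
  · intro q _
    exact (integrable_const (1 : ℝ)).mono' (Ball.measurable_mass _).aestronglyMeasurable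
        (Eventually.of_forall fun x => by
          rw [Real.norm_eq_abs, abs_of_nonneg (Ball.mass_nonneg _ x)]
          exact Ball.mass_le_one _ x)

/-- compactness -/
lemma exists_limit {Γ' : Set ℚ} {R : Clopens L} {l : L} {S₀ : Finset ℚ}
    (hS₀ : (S₀ : Set ℚ) ⊆ Γ') {E₀ : Clopens L} (lev₀ : N.Lev S₀ E₀) (mem₀ : l ∈ E₀)
    (h : ∀ T : Finset ℚ, S₀ ⊆ T → (T : Set ℚ) ⊆ Γ' → ∀ E, N.Lev T E → l ∈ E → E ≤ E₀ →
      ∃ l', l' ∈ R ∧ l' ∈ E) :
    ∃ l' ∈ R, ∀ T : Finset ℚ, (T : Set ℚ) ⊆ Γ' → N.pi T l' = N.pi T l := by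
  classical
  let I := {p : Finset ℚ × Clopens L // S₀ ⊆ p.1 ∧ (p.1 : Set ℚ) ⊆ Γ' ∧ N.Lev p.1 p.2 ∧
    l ∈ p.2 ∧ p.2 ≤ E₀}
  have : Nonempty I := ⟨⟨(S₀, E₀), subset_rfl, hS₀, lev₀, mem₀, le_rfl⟩⟩
  let Zs : I → Set L := fun p => ((R ⊓ p.1.2 : Clopens L) : Set L)
  have hcl : ∀ p, IsClosed (Zs p) := fun p => (R ⊓ p.1.2).isClosed
  have hne : ∀ p, (Zs p).Nonempty := by
    rintro ⟨⟨T, E⟩, h1, h2, h3, h4, h5⟩
    obtain ⟨l', hl1, hl2⟩ := h T h1 h2 E h3 h4 h5
    exact ⟨l', hl1, hl2⟩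
  have hdir : Directed (· ⊇ ·) Zs := by
    rintro ⟨⟨T, E⟩, h1, h2, h3, h4, h5⟩ ⟨⟨T', E'⟩, h1', h2', h3', h4', h5'⟩
    refine ⟨⟨(T ∪ T', E ⊓ E'), h1.trans Finset.subset_union_left, ?_,
      (h3.mono N Finset.subset_union_left).inf N (h3'.mono N Finset.subset_union_right),
      ⟨h4, h4'⟩, inf_le_left.trans h5⟩, ?_, ?_⟩
    · rw [Finset.coe_union]
      exact union_subset h2 h2'
    · rintro z ⟨hz1, hz2⟩
      exact ⟨hz1, hz2.1⟩
    · rintro z ⟨hz1, hz2⟩
      exact ⟨hz1, hz2.2⟩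
  obtain ⟨l', hl'⟩ := IsCompact.nonempty_iInter_of_directed_nonempty_isCompact_isClosed Zs hdir
    hne (fun p => (hcl p).isCompact) hcl
  rw [mem_iInter] at hl'
  refine ⟨l', (hl' ⟨(S₀, E₀), subset_rfl, hS₀, lev₀, mem₀, le_rfl⟩).1, fun T hT => ?_⟩
  have key : N.pi (T ∪ S₀) l' = N.pi (T ∪ S₀) l := by
    by_contra hne'
    obtain ⟨W, hW, h1, h2⟩ := exists_clopen_of_closed_subset_open
      (Z := {N.pi (T ∪ S₀) l}) (U := {N.pi (T ∪ S₀) l'}ᶜ)
      isClosed_singleton isClosed_singleton.isOpen_compl (by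
        rw [Set.singleton_subset_iff]
        exact fun h => hne' (mem_singleton_iff.1 h).symm)
    have h3 := hl' ⟨(T ∪ S₀, N.preT (T ∪ S₀) ⟨W, hW⟩ ⊓ E₀), Finset.subset_union_right, by
      rw [Finset.coe_union]; exact union_subset hT hS₀,
      (N.lev_preT _ _).inf N (lev₀.mono N Finset.subset_union_right),
      ⟨h1 (mem_singleton _), mem₀⟩, inf_le_right⟩
    have h4 : N.pi (T ∪ S₀) l' ∈ W := h3.2.1
    exact h2 h4 rfl
  rw [← N.pi_of_subset (Finset.subset_union_left (s₁ := T) (s₂ := S₀)) l', key,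
    N.pi_of_subset Finset.subset_union_left]

lemma mem_inf_iff {κ : Type*} (s : Finset κ) (a : κ → Clopens L) (l : L) :
    l ∈ s.inf a ↔ ∀ j ∈ s, l ∈ a j := by
  classical
  induction s using Finset.induction_on with
  | empty =>
    simp only [Finset.inf_empty, Finset.notMem_empty, false_imp_iff, implies_true, iff_true]
    trivial
  | insert a s ha ih =>
    rw [Finset.inf_insert, Finset.forall_mem_insert, ← ih]
    exact Iff.rfl

/-- existence of fillers with full capacity -/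
theorem exists_filler {l : L} {S₀ : Finset ℚ} {E₀ O : Clopens L} {i : ℚ} {Γ' : Set ℚ}
    (hS₀ : (S₀ : Set ℚ) ⊆ Γ') (lev₀ : N.Lev S₀ E₀) (mem₀ : l ∈ E₀)
    (hO : N.Lev (insert i S₀) O) (hlO : l ∈ O) (n : ℕ) {p : ℕ → ℚ} (hp : StrictMono p)
    (gap : ∀ q ∈ insert i Γ', (∀ m, q < p m) ∨ (∀ m, p m < q)) :
    ∃ (K : ℕ) (T : Finset ℚ) (E : Clopens L), S₀ ⊆ T ∧ (T : Set ℚ) ⊆ Γ' ∧ N.Lev T E ∧ l ∈ E ∧
      E ≤ E₀ ∧
      (∀ l' ∈ O ⊓ E, ∀ M : Finset ℕ, (∀ m ∈ M, l' ∈ N.PP n (p m)) → M.card ≤ K) ∧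
      ∃ lm ∈ O, (∀ T' : Finset ℚ, (T' : Set ℚ) ⊆ Γ' → N.pi T' lm = N.pi T' l) ∧
        ∀ j < K, lm ∈ N.PP n (p (2 * j)) := by
  classical
  let Big : ℕ → Prop := fun k => ∀ T : Finset ℚ, S₀ ⊆ T → (T : Set ℚ) ⊆ Γ' → ∀ E, N.Lev T E →
    l ∈ E → E ≤ E₀ → ∃ l', l' ∈ O ∧ l' ∈ E ∧ ∀ j < k, l' ∈ N.PP n (p j)
  -- homogeneity
  have hom : ∀ (T : Finset ℚ), S₀ ⊆ T → (T : Set ℚ) ⊆ Γ' → ∀ E, N.Lev T E →
      ∀ (M M' : Finset ℕ), M.card = M'.card → ∀ l', l' ∈ O → l' ∈ E →
      (∀ m ∈ M, l' ∈ N.PP n (p m)) → ∃ l'', l'' ∈ O ∧ l'' ∈ E ∧ ∀ m ∈ M', l'' ∈ N.PP n (p m) := by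
    intro T hT hTΓ E hE M M' hMM' l' h1 h2 h3
    obtain ⟨g, hg, hgM⟩ := exists_move_seq (S := insert i T) hp (fun q hq => gap q (by
      rcases Finset.mem_insert.1 hq with h | h
      · exact Or.inl h
      · exact Or.inr (hTΓ h))) M M' hMM'
    refine ⟨g • l', ?_, ?_, ?_⟩
    · have := (N.smul_mem_ga g O l').2 h1
      rwa [hO.ga_fix N (hg.mono (Finset.insert_subset_insert _ hT))] at this
    · have := (N.smul_mem_ga g E l').2 h2
      rwa [hE.ga_fix N (hg.mono (Finset.subset_insert _ _))] at this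
    · intro m' hm'
      obtain ⟨m, hm, hgm⟩ := hgM m' hm'
      have := (N.smul_mem_ga g _ l').2 (h3 m hm)
      rwa [ga_PP, hgm] at this
  obtain ⟨D, hD⟩ := N.cap_finite n
  have hbig0 : Big 0 := fun T _ _ E _ hlE _ => ⟨l, hlO, hlE, fun j hj => absurd hj (Nat.not_lt_zero j)⟩
  have hbigD : ∀ k, Big k → k ≤ D := by
    intro k hk
    obtain ⟨l', -, -, h3⟩ := hk S₀ subset_rfl hS₀ E₀ lev₀ mem₀ le_rfl
    have := hD l' ((Finset.range k).image p) (fun q hq => by
      obtain ⟨j, hj, rfl⟩ := Finset.mem_image.1 hq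
      exact h3 j (Finset.mem_range.1 hj))
    rwa [Finset.card_image_of_injective _ hp.injective, Finset.card_range] at this
  obtain ⟨K, hK, hK'⟩ : ∃ K, Big K ∧ ¬ Big (K + 1) := by
    refine ⟨Nat.findGreatest Big D, Nat.findGreatest_spec (m := 0) (Nat.zero_le _) hbig0, ?_⟩
    intro h
    have h1 := Nat.le_findGreatest (hbigD _ h) h
    omega
  have hK'' : ∃ T : Finset ℚ, S₀ ⊆ T ∧ (T : Set ℚ) ⊆ Γ' ∧ ∃ E, N.Lev T E ∧ l ∈ E ∧ E ≤ E₀ ∧
      ∀ l', l' ∈ O → l' ∈ E → ∃ j < K + 1, l' ∉ N.PP n (p j) := by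
    by_contra hcon
    apply hK'
    intro T h1 h2 E h3 h4 h5
    by_contra hcon2
    apply hcon
    refine ⟨T, h1, h2, E, h3, h4, h5, fun l' h6 h7 => ?_⟩
    by_contra hcon3
    push Not at hcon3
    exact hcon2 ⟨l', h6, h7, hcon3⟩
  obtain ⟨T, hT, hTΓ, E, hE, hlE, hEE₀, hcap⟩ := hK''
  refine ⟨K, T, E, hT, hTΓ, hE, hlE, hEE₀, ?_, ?_⟩
  · intro l' hl' M hM
    by_contra hcon
    push Not at hcon
    obtain ⟨M₁, hM₁, hM₁c⟩ := Finset.exists_subset_card_eq (Nat.succ_le_of_lt hcon)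
    obtain ⟨l'', h1, h2, h3⟩ := hom T hT hTΓ E hE M₁ (Finset.range (K + 1))
      (by rw [hM₁c, Finset.card_range]) l' hl'.1 hl'.2 (fun m hm => hM m (hM₁ hm))
    obtain ⟨j, hj, hj'⟩ := hcap l'' h1 h2
    exact hj' (h3 j (Finset.mem_range.2 hj))
  · obtain ⟨lm, hlm, hlm'⟩ := N.exists_limit (R := O ⊓ (Finset.range K).inf
      fun j => N.PP n (p (2 * j))) hS₀ lev₀ mem₀ (by
        intro T' h1 h2 E' h3 h4 h5
        obtain ⟨l', h6, h7, h8⟩ := hK T' h1 h2 E' h3 h4 h5
        obtain ⟨l'', h9, h10, h11⟩ := hom T' h1 h2 E' h3 (Finset.range K)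
          ((Finset.range K).image (fun j => 2 * j)) (by
            rw [Finset.card_image_of_injective _ (fun a b h => by
              have : 2 * a = 2 * b := h
              omega)]) l' h6 h7
          (fun m hm => h8 m (Finset.mem_range.1 hm))
        refine ⟨l'', ⟨h9, (mem_inf_iff _ _ _).2 fun j hj => ?_⟩, h10⟩
        exact h11 _ (Finset.mem_image_of_mem _ hj))
    exact ⟨lm, hlm.1, hlm', fun j hj => (mem_inf_iff _ _ _).1 hlm.2 j (Finset.mem_range.2 hj)⟩

end NatSys
end Pool.Agent.H53.ZD
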