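import Pool.Agent.H53.ZD.Dup
import Pool.Agent.H53.ZD.Expect
import Pool.Agent.H53.ZD.Cheb

set_option autoImplicit false
set_option linter.unusedSectionVars false
open Set Filter Topology TopologicalSpace MeasureTheory

namespace Pool.Agent.H53.ZD
namespace NatSys

variable {H L : Type*} [Countable H] [MulAction G H] [TopologicalSpace L] [CompactSpace L]
    [T2Space L] [TotallyDisconnectedSpace L] [MulAction G L] {N : NatSys H L}

open Classical in
lemma prod_ind_eq {ι : Type*} (s : Finset ι) (a : ι → Clopens L) (l : L) :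
    (∏ i ∈ s, ind (a i) l) = if ∀ i ∈ s, l ∈ a i then 1 else 0 := by
  classical
  split_ifs with h
  · exact Finset.prod_eq_one fun i hi => ind_of_mem (h i hi)
  · push Not at h
    obtain ⟨i, hi, hl⟩ := h
    exact Finset.prod_eq_zero hi (ind_of_notMem hl)

namespace Fil

variable (Z : N.Fil)

/-- position of a pair -/
def pz (w : Fin Z.K × Bool) : ℚ := Z.p (2 * (w.1 : ℕ) + if w.2 = true then 1 else 0)

lemma pz_false (f : Fin Z.K) : Z.pz (f, false) = Z.pos ∅ f := by simp [pz, pos]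

/-- the polynomial test functions -/
noncomputable def qq {r : ℕ} (Q : Polynomial ℝ) (d : ℕ) (z : Fin r → Fin Z.K × Bool) : C(L, ℝ) :=
  ind Z.B * ∑ m ∈ Finset.range (d + 1), Q.coeff m • (∑ j, ind (N.PP Z.n (Z.pz (z j)))) ^ m

open Classical in
/-- the number of types containing `l` -/
noncomputable def cnt {r : ℕ} (z : Fin r → Fin Z.K × Bool) (l : L) : ℕ :=
  (Finset.univ.filter fun j => l ∈ N.PP Z.n (Z.pz (z j))).card

lemma qq_apply {r : ℕ} {Q : Polynomial ℝ} {d : ℕ} (hQ : Q.natDegree ≤ d)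
    (z : Fin r → Fin Z.K × Bool) (l : L) :
    Z.qq Q d z l = ind Z.B l * Q.eval (Z.cnt z l : ℝ) := by
  classical
  unfold qq
  rw [ContinuousMap.mul_apply]
  congr 1
  rw [ContinuousMap.sum_apply, Polynomial.eval_eq_sum_range' (n := d + 1) (Nat.lt_succ_of_le hQ)]
  refine Finset.sum_congr rfl fun m _ => ?_
  rw [ContinuousMap.smul_apply, ContinuousMap.pow_apply, smul_eq_mul]
  congr 2
  rw [ContinuousMap.sum_apply]
  unfold cnt
  rw [Finset.card_filter]
  push_cast
  refine Finset.sum_congr rfl fun j _ => ?_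
  split_ifs with h
  · exact ind_of_mem h
  · exact ind_of_notMem h

lemma cnt_le {r : ℕ} (z : Fin r → Fin Z.K × Bool) (l : L) : Z.cnt z l ≤ r := by
  classical
  unfold cnt
  exact (Finset.card_filter_le _ _).trans (by simp)

lemma cnt_eq_iff {r : ℕ} (z : Fin r → Fin Z.K × Bool) (l : L) :
    Z.cnt z l = r ↔ ∀ j, l ∈ N.PP Z.n (Z.pz (z j)) := by
  classical
  unfold cnt
  constructor
  · intro h
    have h1 : (Finset.univ.filter fun j => l ∈ N.PP Z.n (Z.pz (z j))) = Finset.univ := by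
      apply Finset.eq_univ_of_card
      rw [h, Fintype.card_fin]
    intro j
    have := Finset.mem_univ j
    rw [← h1] at this
    exact (Finset.mem_filter.1 this).2
  · intro h
    rw [Finset.filter_true_of_mem fun j _ => h j]
    simp

open Classical in
lemma abs_qq_le {r : ℕ} {Q : Polynomial ℝ} {d : ℕ} (hQ : Q.natDegree ≤ d)
    (hQr : Q.eval (r : ℝ) = 1) {εq : ℝ} (hεq : 0 ≤ εq) (hQt : ∀ t : ℕ, t < r → |Q.eval (t : ℝ)| ≤ εq)
    (z : Fin r → Fin Z.K × Bool) (l : L) :
    |Z.qq Q d z l| ≤ (if l ∈ Z.B ∧ ∀ j, l ∈ N.PP Z.n (Z.pz (z j)) then 1 else 0) + εq := by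
  rw [Z.qq_apply hQ]
  by_cases hB : l ∈ Z.B
  · rw [ind_of_mem hB, one_mul]
    by_cases hj : ∀ j, l ∈ N.PP Z.n (Z.pz (z j))
    · rw [if_pos ⟨hB, hj⟩, (Z.cnt_eq_iff z l).2 hj, hQr, abs_one]
      linarith
    · rw [if_neg (fun h => hj h.2), zero_add]
      exact hQt _ (lt_of_le_of_ne (Z.cnt_le z l) (fun h => hj ((Z.cnt_eq_iff z l).1 h)))
  · rw [ind_of_notMem hB, zero_mul, abs_zero, if_neg (fun h => hB h.1), zero_add]
    exact hεq

/-- difference with the indicator function of the intersection -/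
lemma abs_qq_sub_le {r : ℕ} {Q : Polynomial ℝ} {d : ℕ} (hQ : Q.natDegree ≤ d)
    (hQr : Q.eval (r : ℝ) = 1) {εq : ℝ} (hεq : 0 ≤ εq) (hQt : ∀ t : ℕ, t < r → |Q.eval (t : ℝ)| ≤ εq)
    (z : Fin r → Fin Z.K × Bool) (l : L) :
    |(ind (Z.B ⊓ Finset.univ.inf fun j => N.PP Z.n (Z.pz (z j))) - Z.qq Q d z) l| ≤ εq := by
  classical
  rw [ContinuousMap.sub_apply, Z.qq_apply hQ]
  have hinf : (l ∈ Z.B ⊓ Finset.univ.inf fun j => N.PP Z.n (Z.pz (z j))) ↔
      l ∈ Z.B ∧ ∀ j, l ∈ N.PP Z.n (Z.pz (z j)) := by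
    have h1 : ∀ s : Finset (Fin r), (l ∈ s.inf fun j => N.PP Z.n (Z.pz (z j))) ↔
        ∀ j ∈ s, l ∈ N.PP Z.n (Z.pz (z j)) := by
      intro s
      induction s using Finset.induction_on with
      | empty =>
        simp only [Finset.inf_empty, Finset.notMem_empty, false_imp_iff, implies_true, iff_true]
        trivial
      | insert a s ha ih =>
        rw [Finset.inf_insert, Finset.forall_mem_insert, ← ih]
        exact Iff.rfl
    have h2 := h1 Finset.univ
    simp only [Finset.mem_univ, true_imp_iff] at h2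
    rw [← h2]
    exact Iff.rfl
  by_cases hB : l ∈ Z.B
  · by_cases hj : ∀ j, l ∈ N.PP Z.n (Z.pz (z j))
    · rw [ind_of_mem (hinf.2 ⟨hB, hj⟩), ind_of_mem hB, (Z.cnt_eq_iff z l).2 hj, hQr, mul_one,
        sub_self, abs_zero]
      exact hεq
    · rw [ind_of_notMem (fun h => hj (hinf.1 h).2), ind_of_mem hB, one_mul, zero_sub, abs_neg]
      exact hQt _ (lt_of_le_of_ne (Z.cnt_le z l) (fun h => hj ((Z.cnt_eq_iff z l).1 h)))
  · rw [ind_of_notMem (fun h => hB (hinf.1 h).1), ind_of_notMem hB, zero_mul, sub_zero, abs_zero]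
    exact hεq

/-- the capacity condition -/
def Cap : Prop := ∀ l ∈ Z.B, ∀ M : Finset ℕ, (∀ m ∈ M, l ∈ N.PP Z.n (Z.p m)) → M.card ≤ Z.K

open Classical in
lemma card_all_le (hcap : Z.Cap) (r : ℕ) (l : L) :
    ((Finset.univ.filter fun z : Fin r → Fin Z.K × Bool =>
      l ∈ Z.B ∧ ∀ j, l ∈ N.PP Z.n (Z.pz (z j))).card : ℝ) ≤ (Z.K : ℝ) ^ r := by
  by_cases hB : l ∈ Z.B
  · set W : Finset (Fin Z.K × Bool) := Finset.univ.filter fun w => l ∈ N.PP Z.n (Z.pz w) with hW
    have h1 : W.card ≤ Z.K := by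
      have hinj : Function.Injective (fun w : Fin Z.K × Bool =>
          2 * (w.1 : ℕ) + if w.2 = true then 1 else 0) := by
        rintro ⟨f, b⟩ ⟨f', b'⟩ h
        cases b <;> cases b' <;> simp at h
        · exact Prod.ext (Fin.ext (by omega)) rfl
        · omega
        · omega
        · exact Prod.ext (Fin.ext (by omega)) rfl
      rw [← Finset.card_image_of_injective W hinj]
      apply hcap l hB
      intro m hm
      obtain ⟨w, hw, rfl⟩ := Finset.mem_image.1 hm
      exact (Finset.mem_filter.1 hw).2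
    have h2 : (Finset.univ.filter fun z : Fin r → Fin Z.K × Bool =>
      l ∈ Z.B ∧ ∀ j, l ∈ N.PP Z.n (Z.pz (z j))) ⊆ Fintype.piFinset fun _ => W := by
      intro z hz
      rw [Fintype.mem_piFinset]
      intro j
      exact Finset.mem_filter.2 ⟨Finset.mem_univ _, (Finset.mem_filter.1 hz).2.2 j⟩
    have h3 := Finset.card_le_card h2
    rw [Fintype.card_piFinset_const] at h3
    calc ((Finset.univ.filter fun z : Fin r → Fin Z.K × Bool =>
      l ∈ Z.B ∧ ∀ j, l ∈ N.PP Z.n (Z.pz (z j))).card : ℝ) ≤ ((W.card ^ r : ℕ) : ℝ) := by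
          exact_mod_cast h3
      _ ≤ (Z.K : ℝ) ^ r := by
          push_cast
          exact pow_le_pow_left₀ (by positivity) (by exact_mod_cast h1) r
  · rw [Finset.filter_false_of_mem (fun z _ h => hB h.1)]
    simp

/-- the expansion of the test function -/
lemma qq_expand {r : ℕ} (Q : Polynomial ℝ) (d : ℕ) (z : Fin r → Fin Z.K × Bool)
    (b : Finset (Fin Z.K)) (hb : ∀ j, (z j).1 ∈ b ↔ (z j).2 = true) :
    Z.qq Q d z = ∑ m ∈ Finset.range (d + 1), Q.coeff m • ∑ J : Fin m → Fin r,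
      Z.Y (Finset.univ.image fun a => (z (J a)).1)
        (b ∩ Finset.univ.image fun a => (z (J a)).1) := by
  classical
  unfold qq
  rw [Finset.mul_sum]
  refine Finset.sum_congr rfl fun m _ => ?_
  rw [mul_smul_comm]
  congr 1
  rw [Fintype.sum_pow, Finset.mul_sum]
  refine Finset.sum_congr rfl fun J _ => ?_
  unfold Y
  congr 1
  ext l
  rw [ContinuousMap.prod_apply, ContinuousMap.prod_apply, prod_ind_eq, prod_ind_eq]
  have hpos : ∀ a : Fin m, Z.pos (b ∩ Finset.univ.image fun a => (z (J a)).1) (z (J a)).1 =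
      Z.pz (z (J a)) := by
    intro a
    unfold pos pz
    congr 2
    have h1 : ((z (J a)).1 ∈ b ∩ Finset.univ.image fun a => (z (J a)).1) ↔ (z (J a)).2 = true := by
      rw [Finset.mem_inter, hb]
      exact ⟨fun h => h.1, fun h => ⟨h, Finset.mem_image_of_mem _ (Finset.mem_univ a)⟩⟩
    simp only [h1]
  congr 1
  apply propext
  constructor
  · intro h f hf
    obtain ⟨a, -, rfl⟩ := Finset.mem_image.1 hf
    rw [hpos]
    exact h a (Finset.mem_univ a)
  · intro h a _
    rw [← hpos]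
    exact h _ (Finset.mem_image_of_mem _ (Finset.mem_univ a))

/-- the key transfer -/
lemma U_qq_xhat {r : ℕ} (Q : Polynomial ℝ) (d : ℕ) (D : Finset (Fin Z.K))
    (hD : ∑ F ∈ Finset.univ.filter (fun F : Finset (Fin Z.K) => F.card ≤ d),
        (2 : ℝ) ^ (F ∩ D).card * Z.mF F + Ball.mass univ Z.ξ ≤ 1)
    {xξ : Ball H} (hxξ : ∀ h, xξ h = rho (Z.T ∪ Z.T₀) Z.x h + Z.ξ h)
    (z : Fin r → Fin Z.K × Bool) (hz : Function.Injective fun j => (z j).1)
    (hzD : ∀ j, (z j).2 = true → (z j).1 ∈ D) :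
    N.U (Z.qq Q d z) (Z.xhat D d hD) = N.U (Z.qq Q d fun j => ((z j).1, false)) xξ := by
  classical
  set b : Finset (Fin Z.K) := (Finset.univ.filter fun j => (z j).2 = true).image fun j => (z j).1
    with hbdef
  have hb : ∀ j, (z j).1 ∈ b ↔ (z j).2 = true := by
    intro j
    rw [hbdef, Finset.mem_image]
    constructor
    · rintro ⟨j', hj', h⟩
      have : j' = j := hz h
      rw [← this]
      exact (Finset.mem_filter.1 hj').2
    · intro h
      exact ⟨j, Finset.mem_filter.2 ⟨Finset.mem_univ _, h⟩, rfl⟩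
  have hbD : b ⊆ D := by
    intro f hf
    obtain ⟨j, hj, rfl⟩ := Finset.mem_image.1 hf
    exact hzD j (Finset.mem_filter.1 hj).2
  rw [Z.qq_expand Q d z b hb, Z.qq_expand Q d (fun j => ((z j).1, false)) ∅ (by simp)]
  simp only [map_sum, map_smul, ContinuousMap.sum_apply, ContinuousMap.smul_apply]
  refine Finset.sum_congr rfl fun m hm => ?_
  congr 1
  refine Finset.sum_congr rfl fun J _ => ?_
  rw [Finset.empty_inter]
  refine Z.U_Y_xhat D d hD hxξ ?_ Finset.inter_subset_right (Finset.inter_subset_left.trans hbD)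
  refine Finset.card_image_le.trans ?_
  rw [Finset.card_univ, Fintype.card_fin]
  exact Nat.lt_succ_iff.1 (Finset.mem_range.1 hm)

/-- the inequality for one pattern -/
lemma ineq_D {r : ℕ} {Q : Polynomial ℝ} {d : ℕ} (hQ : Q.natDegree ≤ d)
    (hQr : Q.eval (r : ℝ) = 1) {εq : ℝ} (hεq : 0 ≤ εq)
    (hQt : ∀ t : ℕ, t < r → |Q.eval (t : ℝ)| ≤ εq) (hcap : Z.Cap) (D : Finset (Fin Z.K))
    (hD : ∑ F ∈ Finset.univ.filter (fun F : Finset (Fin Z.K) => F.card ≤ d),
        (2 : ℝ) ^ (F ∩ D).card * Z.mF F + Ball.mass univ Z.ξ ≤ 1)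
    {xξ : Ball H} (hxξ : ∀ h, xξ h = rho (Z.T ∪ Z.T₀) Z.x h + Z.ξ h)
    (Gd : Finset (Fin r → Fin Z.K)) (hinj : ∀ t ∈ Gd, Function.Injective t) {c₁ : ℝ}
    (hgood : ∀ t ∈ Gd, c₁ ≤ |N.U (Z.qq Q d fun j => (t j, false)) xξ|) :
    c₁ * ∑ t ∈ Gd, cc D t ≤ N.C * ((Z.K : ℝ) ^ r + εq * ∑ t : Fin r → Fin Z.K, cc D t) := by
  classical
  set w : (Fin r → Fin Z.K) → ℝ := fun t => N.U (Z.qq Q d fun j => (t j, false)) xξ with hw
  set s : (Fin r → Fin Z.K) → ℝ := fun t => if t ∈ Gd then (SignType.sign (w t) : ℝ) else 0 with hs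
  have hs1 : ∀ t, |s t| ≤ 1 := by
    intro t
    simp only [hs]
    split_ifs
    · rcases lt_trichotomy (w t) 0 with h | h | h
      · rw [sign_neg h]; simp
      · rw [h, sign_zero]; simp
      · rw [sign_pos h]; simp
    · simp
  set Φ : C(L, ℝ) := ∑ z : Fin r → Fin Z.K × Bool,
    ((∏ j, chi D (z j)) * s (fun j => (z j).1)) • Z.qq Q d z with hΦ
  have hχ0 : ∀ z : Fin r → Fin Z.K × Bool, 0 ≤ ∏ j, chi D (z j) := fun z =>
    Finset.prod_nonneg fun j _ => chi_nonneg D (z j)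
  have hχ1 : ∀ z : Fin r → Fin Z.K × Bool, ∏ j, chi D (z j) ≤ 1 := fun z =>
    Finset.prod_le_one (fun j _ => chi_nonneg D (z j)) fun j _ => chi_le_one D (z j)
  have hcnt : ∑ z : Fin r → Fin Z.K × Bool, (∏ j, chi D (z j)) = ∑ t : Fin r → Fin Z.K, cc D t := by
    have := sum_lifts D (fun _ : Fin r → Fin Z.K => (1 : ℝ))
    simpa using this
  have hcc0 : 0 ≤ ∑ t : Fin r → Fin Z.K, cc D t := Finset.sum_nonneg fun t _ => (cc_pos D t).le
  -- upper bound of `Φ`
  have hup : ∀ l, |Φ l| ≤ (Z.K : ℝ) ^ r + εq * ∑ t : Fin r → Fin Z.K, cc D t := by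
    intro l
    rw [hΦ, ContinuousMap.sum_apply]
    calc |∑ z : Fin r → Fin Z.K × Bool,
          (((∏ j, chi D (z j)) * s (fun j => (z j).1)) • Z.qq Q d z) l|
        ≤ ∑ z : Fin r → Fin Z.K × Bool,
          |(((∏ j, chi D (z j)) * s (fun j => (z j).1)) • Z.qq Q d z) l| :=
          Finset.abs_sum_le_sum_abs _ _
      _ ≤ ∑ z : Fin r → Fin Z.K × Bool,
          ((if l ∈ Z.B ∧ ∀ j, l ∈ N.PP Z.n (Z.pz (z j)) then 1 else 0) +
            (∏ j, chi D (z j)) * εq) := by
          refine Finset.sum_le_sum fun z _ => ?_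
          rw [ContinuousMap.smul_apply, smul_eq_mul, abs_mul, abs_mul, abs_of_nonneg (hχ0 z)]
          have h1 := Z.abs_qq_le hQ hQr hεq hQt z l
          set I : ℝ := (if l ∈ Z.B ∧ ∀ j, l ∈ N.PP Z.n (Z.pz (z j)) then 1 else 0) with hI
          have hI0 : 0 ≤ I := by rw [hI]; split_ifs <;> norm_num
          calc (∏ j, chi D (z j)) * |s fun j => (z j).1| * |Z.qq Q d z l|
              ≤ (∏ j, chi D (z j)) * 1 * (I + εq) := by
                apply mul_le_mul _ h1 (abs_nonneg _) (by have := hχ0 z; linarith)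
                exact mul_le_mul_of_nonneg_left (hs1 _) (hχ0 z)
            _ = (∏ j, chi D (z j)) * I + (∏ j, chi D (z j)) * εq := by ring
            _ ≤ I + (∏ j, chi D (z j)) * εq := by
                have := mul_le_mul_of_nonneg_right (hχ1 z) hI0
                linarith
      _ ≤ (Z.K : ℝ) ^ r + εq * ∑ t : Fin r → Fin Z.K, cc D t := by
          rw [Finset.sum_add_distrib, ← Finset.sum_mul, hcnt, Finset.sum_boole]
          have := Z.card_all_le hcap r l
          linarith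
  have hKr : 0 ≤ (Z.K : ℝ) ^ r + εq * ∑ t : Fin r → Fin Z.K, cc D t := by positivity
  have hU := N.abs_U_le Φ hKr hup (Z.xhat D d hD)
  -- evaluation
  have hev : N.U Φ (Z.xhat D d hD) = ∑ t ∈ Gd, cc D t * |w t| := by
    rw [hΦ]
    simp only [map_sum, map_smul, ContinuousMap.sum_apply, ContinuousMap.smul_apply, smul_eq_mul]
    have h1 : ∀ z : Fin r → Fin Z.K × Bool,
        ((∏ j, chi D (z j)) * s (fun j => (z j).1)) * N.U (Z.qq Q d z) (Z.xhat D d hD) =
        (∏ j, chi D (z j)) * (s (fun j => (z j).1) * w (fun j => (z j).1)) := by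
      intro z
      by_cases h2 : (fun j => (z j).1) ∈ Gd
      · by_cases h3 : ∀ j, (z j).2 = true → (z j).1 ∈ D
        · rw [Z.U_qq_xhat Q d D hD hxξ z (hinj _ h2) h3]
          ring
        · push Not at h3
          obtain ⟨j, hj1, hj2⟩ := h3
          have h4 : ∏ j, chi D (z j) = 0 :=
            Finset.prod_eq_zero (Finset.mem_univ j) (by unfold chi; rw [if_pos ⟨hj1, hj2⟩])
          rw [h4]; ring
      · have h4 : s (fun j => (z j).1) = 0 := by simp only [hs]; rw [if_neg h2]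
        rw [h4]; ring
    rw [Finset.sum_congr rfl fun z _ => h1 z, sum_lifts D (fun t => s t * w t)]
    have h5 : ∀ t : Fin r → Fin Z.K, cc D t * (s t * w t) = if t ∈ Gd then cc D t * |w t| else 0 := by
      intro t
      simp only [hs]
      split_ifs
      · rw [sign_mul_self]
      · ring
    simp only [h5]
    rw [Finset.sum_ite_mem, Finset.univ_inter]
  have h6 : c₁ * ∑ t ∈ Gd, cc D t ≤ ∑ t ∈ Gd, cc D t * |w t| := by
    rw [Finset.mul_sum]
    refine Finset.sum_le_sum fun t ht => ?_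
    rw [mul_comm]
    exact mul_le_mul_of_nonneg_left (hgood t ht) (cc_pos D t).le
  rw [hev] at hU
  exact h6.trans ((le_abs_self _).trans hU)

end Fil
end NatSys
end Pool.Agent.H53.ZD
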