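import Mathlib

set_option autoImplicit false
set_option linter.unusedSectionVars false
open scoped NNReal CompactlySupported
open MeasureTheory Set

namespace Pool.Agent.H53.ZD

variable {X : Type*} [TopologicalSpace X] [CompactSpace X] [T2Space X]

/-- the values of a functional on the functions dominated by `f` -/
def domSet (φ : C(X, ℝ) →L[ℝ] ℝ) (f : X → ℝ) : Set ℝ :=
  {r | ∃ g : C(X, ℝ), (∀ x, |g x| ≤ f x) ∧ r = φ g}

lemma domSet_bdd (φ : C(X, ℝ) →L[ℝ] ℝ) (f : X → ℝ) (hf : BddAbove (range f)) :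
    BddAbove (domSet φ f) := by
  obtain ⟨M, hM⟩ := hf
  refine ⟨‖φ‖ * |M|, ?_⟩
  rintro r ⟨g, hg, rfl⟩
  refine (le_abs_self _).trans ((φ.le_opNorm g).trans ?_)
  refine mul_le_mul_of_nonneg_left ?_ (norm_nonneg _)
  rw [ContinuousMap.norm_le _ (abs_nonneg _)]
  intro x
  exact (hg x).trans ((hM ⟨x, rfl⟩).trans (le_abs_self _))

lemma domSet_nonempty (φ : C(X, ℝ) →L[ℝ] ℝ) (f : X → ℝ) (hf : ∀ x, 0 ≤ f x) :
    (0 : ℝ) ∈ domSet φ f := ⟨0, fun x => by simpa using hf x, by simp⟩

/-- the variation of a functional -/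
noncomputable def absF (φ : C(X, ℝ) →L[ℝ] ℝ) (f : X → ℝ) : ℝ := sSup (domSet φ f)

lemma absF_nonneg (φ : C(X, ℝ) →L[ℝ] ℝ) (f : X → ℝ) (hb : BddAbove (range f))
    (hf : ∀ x, 0 ≤ f x) : 0 ≤ absF φ f :=
  le_csSup (domSet_bdd φ f hb) (domSet_nonempty φ f hf)

lemma bdd_of_cont (f : C(X, ℝ)) : BddAbove (range (f : X → ℝ)) :=
  ⟨‖f‖, by rintro _ ⟨x, rfl⟩; exact (le_abs_self _).trans (f.norm_coe_le_norm x)⟩

lemma le_absF (φ : C(X, ℝ) →L[ℝ] ℝ) (f : X → ℝ) (hb : BddAbove (range f)) (g : C(X, ℝ))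
    (hg : ∀ x, |g x| ≤ f x) : φ g ≤ absF φ f :=
  le_csSup (domSet_bdd φ f hb) ⟨g, hg, rfl⟩

lemma absF_isLUB (φ : C(X, ℝ) →L[ℝ] ℝ) (f : X → ℝ) (hb : BddAbove (range f))
    (hf : ∀ x, 0 ≤ f x) : IsLUB (domSet φ f) (absF φ f) :=
  isLUB_csSup ⟨0, domSet_nonempty φ f hf⟩ (domSet_bdd φ f hb)

lemma absF_add (φ : C(X, ℝ) →L[ℝ] ℝ) (f₁ f₂ : C(X, ℝ)) (h₁ : ∀ x, 0 ≤ f₁ x)
    (h₂ : ∀ x, 0 ≤ f₂ x) : absF φ (fun x => f₁ x + f₂ x) = absF φ f₁ + absF φ f₂ := by
  have hb12 : BddAbove (range (fun x => f₁ x + f₂ x)) := by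
    exact bdd_of_cont (f₁ + f₂)
  apply le_antisymm
  · apply csSup_le ⟨0, domSet_nonempty φ _ (fun x => add_nonneg (h₁ x) (h₂ x))⟩
    rintro r ⟨g, hg, rfl⟩
    let g₁ : C(X, ℝ) := ⟨fun x => max (-f₁ x) (min (g x) (f₁ x)), by fun_prop⟩
    have e : g = g₁ + (g - g₁) := by abel
    rw [e, map_add]
    refine add_le_add (le_absF φ _ (bdd_of_cont f₁) _ ?_) (le_absF φ _ (bdd_of_cont f₂) _ ?_)
    · intro x
      have h1 := h₁ x
      show |max (-f₁ x) (min (g x) (f₁ x))| ≤ f₁ x
      rw [abs_le]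
      exact ⟨le_max_left _ _, max_le (by linarith) (min_le_right _ _)⟩
    · intro x
      have h1 := h₁ x
      have h2 := h₂ x
      have h3 := abs_le.1 (hg x)
      show |g x - max (-f₁ x) (min (g x) (f₁ x))| ≤ f₂ x
      rw [abs_le]
      constructor
      · rcases le_total (-f₁ x) (min (g x) (f₁ x)) with h | h
        · rw [max_eq_right h]
          have := min_le_left (g x) (f₁ x); linarith
        · rw [max_eq_left h]; linarith
      · rcases le_total (g x) (f₁ x) with h | h
        · rw [min_eq_left h]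
          have := le_max_right (-f₁ x) (g x); linarith
        · rw [min_eq_right h]
          have := le_max_right (-f₁ x) (f₁ x); linarith
  · rw [← le_sub_iff_add_le]
    apply csSup_le ⟨0, domSet_nonempty φ _ h₁⟩
    rintro r ⟨g₁, hg₁, rfl⟩
    rw [le_sub_comm]
    apply csSup_le ⟨0, domSet_nonempty φ _ h₂⟩
    rintro r ⟨g₂, hg₂, rfl⟩
    rw [le_sub_iff_add_le, ← map_add]
    apply le_absF φ _ hb12
    intro x
    have := hg₁ x
    have := hg₂ x
    exact (abs_add_le _ _).trans (by simpa [add_comm] using add_le_add (hg₁ x) (hg₂ x))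

lemma absF_smul (φ : C(X, ℝ) →L[ℝ] ℝ) (c : ℝ) (hc : 0 ≤ c) (f : C(X, ℝ)) (h : ∀ x, 0 ≤ f x) :
    absF φ (fun x => c * f x) = c * absF φ f := by
  rcases hc.eq_or_lt with rfl | hc
  · simp only [zero_mul]
    apply le_antisymm
    · apply csSup_le ⟨0, domSet_nonempty φ _ (fun x => le_rfl)⟩
      rintro r ⟨g, hg, rfl⟩
      have : g = 0 := by
        ext x
        simpa using hg x
      simp [this]
    · apply absF_nonneg _ _ _ (fun x => le_rfl)
      exact ⟨0, by rintro _ ⟨x, rfl⟩; rfl⟩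
  · have key : ∀ (c : ℝ), 0 < c → ∀ f : C(X, ℝ), (∀ x, 0 ≤ f x) →
        c * absF φ f ≤ absF φ (fun x => c * f x) := by
      intro c hc f h
      rw [← le_div_iff₀' hc]
      apply csSup_le ⟨0, domSet_nonempty φ _ h⟩
      rintro r ⟨g, hg, rfl⟩
      rw [le_div_iff₀' hc]
      have : c * φ g = φ (c • g) := by simp
      rw [this]
      apply le_absF φ _ (bdd_of_cont (c • f))
      intro x
      simp only [ContinuousMap.coe_smul, Pi.smul_apply, smul_eq_mul, abs_mul, abs_of_pos hc]
      exact mul_le_mul_of_nonneg_left (hg x) hc.le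
    apply le_antisymm
    · have := key c⁻¹ (inv_pos.2 hc) (c • f) (fun x => by
        simpa using mul_nonneg hc.le (h x))
      have e : (fun x => c⁻¹ * (c • f) x) = f := by
        ext x; simp [inv_mul_cancel_left₀ hc.ne']
      rw [e] at this
      rw [inv_mul_le_iff₀ hc] at this
      exact this
    · exact key c hc f h

/-- the variation as a linear functional on nonnegative functions -/
noncomputable def absLin (φ : C(X, ℝ) →L[ℝ] ℝ) : C_c(X, ℝ≥0) →ₗ[ℝ≥0] ℝ≥0 where
  toFun f := ⟨absF φ (fun x => (f x : ℝ)), absF_nonneg φ _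
    (bdd_of_cont ⟨fun x => (f x : ℝ), by fun_prop⟩) (fun x => (f x).2)⟩
  map_add' f g := by
    apply NNReal.coe_injective
    exact absF_add φ ⟨fun x => (f x : ℝ), by fun_prop⟩ ⟨fun x => (g x : ℝ), by fun_prop⟩
      (fun x => (f x).2) (fun x => (g x).2)
  map_smul' c f := by
    apply NNReal.coe_injective
    exact absF_smul φ c c.2 ⟨fun x => (f x : ℝ), by fun_prop⟩ (fun x => (f x).2)

variable [MeasurableSpace X] [BorelSpace X]

/-- the variation measure of a functional -/
noncomputable def vm (φ : C(X, ℝ) →L[ℝ] ℝ) : Measure X := NNRealRMK.rieszMeasure (absLin φ)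

instance vm_regular (φ : C(X, ℝ) →L[ℝ] ℝ) : (vm φ).Regular :=
  NNRealRMK.rieszMeasure_regular _

instance vm_finite (φ : C(X, ℝ) →L[ℝ] ℝ) : IsFiniteMeasure (vm φ) :=
  ⟨isCompact_univ.measure_lt_top⟩

lemma integrable_cont (μ : Measure X) [IsFiniteMeasure μ] (f : X → ℝ) (hf : Continuous f) :
    Integrable f μ :=
  hf.integrable_of_hasCompactSupport (HasCompactSupport.of_compactSpace f)

lemma integral_vm (φ : C(X, ℝ) →L[ℝ] ℝ) (f : X → ℝ) (hc : Continuous f) (hf : ∀ x, 0 ≤ f x) :
    ∫ x, f x ∂(vm φ) = absF φ f := by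
  let F : C_c(X, ℝ≥0) := ⟨⟨fun x => ⟨f x, hf x⟩, by fun_prop⟩, HasCompactSupport.of_compactSpace _⟩
  exact NNRealRMK.integral_rieszMeasure (absLin φ) F

/-- (A1) a functional is dominated by its variation measure -/
lemma abs_le_integral_vm (φ : C(X, ℝ) →L[ℝ] ℝ) (f : C(X, ℝ)) :
    |φ f| ≤ ∫ x, |f x| ∂(vm φ) := by
  rw [integral_vm φ (fun x => |f x|) (by fun_prop) (fun x => abs_nonneg _)]
  have hb : BddAbove (range (fun x => |f x|)) := bdd_of_cont ⟨fun x => |f x|, by fun_prop⟩
  rw [abs_le]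
  constructor
  · have := le_absF φ (fun x => |f x|) hb (-f) (fun x => by simp)
    rw [map_neg] at this
    linarith
  · exact le_absF φ (fun x => |f x|) hb f (fun x => le_rfl)

/-- (A2) total mass -/
lemma isLUB_vm_univ (φ : C(X, ℝ) →L[ℝ] ℝ) :
    IsLUB (domSet φ (fun _ => 1)) ((vm φ).real univ) := by
  have h := absF_isLUB φ (fun _ => (1 : ℝ)) (bdd_of_cont (1 : C(X, ℝ))) (fun _ => zero_le_one)
  have h2 := integral_vm φ (fun _ => (1 : ℝ)) continuous_const (fun _ => zero_le_one)
  simp at h2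
  rwa [h2]

lemma vm_univ_le (φ : C(X, ℝ) →L[ℝ] ℝ) : (vm φ).real univ ≤ ‖φ‖ := by
  apply (isLUB_vm_univ φ).2
  rintro r ⟨g, hg, rfl⟩
  refine (le_abs_self _).trans ((φ.le_opNorm g).trans ?_)
  refine mul_le_of_le_one_right (norm_nonneg _) ?_
  rw [ContinuousMap.norm_le _ zero_le_one]
  exact hg

/-- (D) domination of functionals gives domination of variation measures -/
lemma measure_le_of_integral_le {X : Type*} [TopologicalSpace X] [CompactSpace X] [T2Space X]
    [MeasurableSpace X] [BorelSpace X] (μ ν : Measure X) [IsFiniteMeasure μ] [IsFiniteMeasure ν]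
    [μ.Regular] [ν.Regular]
    (h : ∀ f : C(X, ℝ), (∀ x, 0 ≤ f x) → ∫ x, f x ∂μ ≤ ∫ x, f x ∂ν) : μ ≤ ν := by
  -- compact sets first
  have hK : ∀ K : Set X, IsCompact K → ∀ O : Set X, IsOpen O → K ⊆ O → μ K ≤ ν O := by
    intro K hK O hO hKO
    obtain ⟨f, hf1, hf0, -, hf⟩ := exists_continuous_one_zero_of_isCompact hK hO.isClosed_compl
      (disjoint_compl_right_iff_subset.2 hKO)
    have h1 : μ.real K ≤ ∫ x, f x ∂μ := by
      have : μ.real K = ∫ x, K.indicator (fun _ => (1 : ℝ)) x ∂μ := by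
        rw [integral_indicator hK.measurableSet]; simp
      rw [this]
      apply integral_mono
      · exact (integrable_const (1 : ℝ)).indicator hK.measurableSet
      · exact integrable_cont μ f f.continuous
      · intro x
        by_cases hx : x ∈ K
        · simp only [indicator_of_mem hx]
          rw [hf1 hx]; simp
        · simp only [indicator_of_notMem hx]
          exact (hf x).1
    have h2 : ∫ x, f x ∂ν ≤ ν.real O := by
      have : ν.real O = ∫ x, O.indicator (fun _ => (1 : ℝ)) x ∂ν := by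
        rw [integral_indicator hO.measurableSet]; simp
      rw [this]
      apply integral_mono
      · exact integrable_cont ν f f.continuous
      · exact (integrable_const (1 : ℝ)).indicator hO.measurableSet
      · intro x
        by_cases hx : x ∈ O
        · simp only [indicator_of_mem hx]
          exact (hf x).2
        · simp only [indicator_of_notMem hx]
          rw [hf0 hx]; simp
    have h3 := h1.trans ((h f (fun x => (hf x).1)).trans h2)
    exact (ENNReal.toReal_le_toReal (measure_ne_top _ _) (measure_ne_top _ _)).1 h3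
  rw [Measure.le_iff]
  intro s hs
  -- outer regularity of ν, inner regularity of μ
  apply le_of_forall_gt
  intro r hr
  obtain ⟨O, hsO, hO, hOr⟩ := s.exists_isOpen_lt_of_lt r hr
  refine lt_of_le_of_lt ?_ hOr
  rw [hs.measure_eq_iSup_isCompact_of_ne_top (measure_ne_top _ _)]
  exact iSup₂_le fun K hKs => iSup_le fun hKc => hK K hKc O hO (hKs.trans hsO)

/-- weak convergence: pointwise bounded convergence implies convergence of functionals -/
lemma tendsto_of_pointwise (φ : C(X, ℝ) →L[ℝ] ℝ) (f : ℕ → C(X, ℝ)) (g : C(X, ℝ)) (M : ℝ)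
    (hM : ∀ n x, |f n x| ≤ M)
    (h : ∀ x, Filter.Tendsto (fun n => f n x) Filter.atTop (nhds (g x))) :
    Filter.Tendsto (fun n => φ (f n)) Filter.atTop (nhds (φ g)) := by
  rw [tendsto_iff_norm_sub_tendsto_zero]
  have h1 : ∀ n, ‖φ (f n) - φ g‖ ≤ ∫ x, |(f n - g) x| ∂(vm φ) := by
    intro n
    rw [← map_sub]
    exact abs_le_integral_vm φ (f n - g)
  have h2 : Filter.Tendsto (fun n => ∫ x, |(f n - g) x| ∂(vm φ)) Filter.atTop (nhds 0) := by
    have := tendsto_integral_of_dominated_convergence (μ := vm φ) (F := fun n x => |(f n - g) x|)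
      (f := fun _ => 0) (fun x => M + |g x|)
      (fun n => (integrable_cont (vm φ) _ (by fun_prop)).aestronglyMeasurable)
      (integrable_cont (vm φ) _ (by fun_prop))
      (fun n => Filter.Eventually.of_forall fun x => by
        simp only [ContinuousMap.coe_sub, Pi.sub_apply, Real.norm_eq_abs, abs_abs]
        exact (abs_sub _ _).trans (by have := hM n x; linarith))
      (Filter.Eventually.of_forall fun x => by
        have := (h x).sub_const (g x)
        simp only [sub_self] at this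
        simpa using this.abs)
    simpa using this
  exact squeeze_zero (fun n => norm_nonneg _) h1 h2

end Pool.Agent.H53.ZD
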