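import Mathlib

/-!
# Coherent types (Erdős-Rado) and indiscernibles
-/

set_option autoImplicit false

namespace Pool.Agent.H53.ZD

open Cardinal Ordinal Set Order

universe u

namespace ER

section endhom

variable {ι X : Type u} [DecidableEq ι] (c : Finset ι → X) (S0 : Set ι)

/-- the candidates: elements of `S0` outside `T` with the same type as `y` over `T` -/
def Cand (T : Set ι) (y x : ι) : Prop :=
  x ∈ S0 ∧ x ∉ T ∧ ∀ s : Finset ι, ↑s ⊆ T → c (insert x s) = c (insert y s)

/-- a canonical candidate -/
noncomputable def next [Nonempty ι] (T : Set ι) (y : ι) : ι := Classical.epsilon (Cand c S0 T y)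

/-- the canonical sequence of `y` -/
noncomputable def seq [Nonempty ι] {W : Type u} [LinearOrder W] [WellFoundedLT W] (y : ι) :
    W → ι :=
  WellFounded.fix (wellFounded_lt (α := W))
    (fun i ih => next c S0 {x | ∃ j, ∃ h : j < i, ih j h = x} y)

theorem seq_eq [Nonempty ι] {W : Type u} [LinearOrder W] [WellFoundedLT W] (y : ι) (i : W) :
    seq c S0 y i = next c S0 (seq c S0 y '' Iio i) y := by
  conv_lhs => rw [seq, WellFounded.fix_eq]
  congr 1
  ext x
  constructor
  · rintro ⟨j, h, rfl⟩
    exact ⟨j, h, rfl⟩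
  · rintro ⟨j, h, rfl⟩
    exact ⟨j, h, rfl⟩

theorem mk_finset_le {α : Type u} {κ : Cardinal.{u}} (hκ : ℵ₀ ≤ κ) (h : #α ≤ κ) :
    #(Finset α) ≤ κ := by
  rcases finite_or_infinite α with hf | hf
  · exact (Cardinal.lt_aleph0_of_finite (Finset α)).le.trans hκ
  · rw [Cardinal.mk_finset_of_infinite]; exact h

/-- an end-homogeneous set -/
theorem end_homog {κ : Cardinal.{u}} (hκ : ℵ₀ ≤ κ) (hX : #X ≤ 2 ^ κ) (hS0 : 2 ^ κ < #S0) :
    ∃ (H : Set ι) (y : ι), H ⊆ S0 ∧ κ < #H ∧
      ∀ s : Finset ι, ↑s ⊆ H → s.Nonempty → ∃ x ∈ s, c s = c (insert y (s.erase x)) := by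
  have hne : S0.Nonempty := by
    rw [Set.nonempty_iff_ne_empty]
    rintro rfl
    simp at hS0
  have : Nonempty ι := ⟨hne.some⟩
  let W : Type u := (succ κ).ord.ToType
  have hW : #W = succ κ := by simp [W]
  by_cases h : ∃ y ∈ S0, ∀ i : W, seq c S0 y i ≠ y
  · obtain ⟨y, hy, hyne⟩ := h
    have hC : ∀ i : W, Cand c S0 (seq c S0 y '' Iio i) y (seq c S0 y i) := by
      intro i
      rw [seq_eq]
      exact Classical.epsilon_spec (p := Cand c S0 (seq c S0 y '' Iio i) y)
        ⟨y, hy, by rintro ⟨j, _, hj⟩; exact hyne j hj, fun _ _ => rfl⟩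
    have hlt : ∀ i j : W, i < j → seq c S0 y i ≠ seq c S0 y j := by
      intro i j hij he
      exact (hC j).2.1 ⟨i, hij, he⟩
    have hinj : Function.Injective (seq c S0 y : W → ι) := by
      intro i j he
      rcases lt_trichotomy i j with h | h | h
      · exact absurd he (hlt i j h)
      · exact h
      · exact absurd he.symm (hlt j i h)
    refine ⟨Set.range (seq c S0 y : W → ι), y, ?_, ?_, ?_⟩
    · rintro _ ⟨i, rfl⟩
      exact (hC i).1
    · rw [Cardinal.mk_range_eq _ hinj, hW]
      exact Order.lt_succ κ
    · intro s hs hsne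
      rw [← Set.image_univ, Finset.subset_set_image_iff] at hs
      obtain ⟨t, -, rfl⟩ := hs
      have htne : t.Nonempty := by simpa using hsne
      refine ⟨seq c S0 y (t.max' htne), Finset.mem_image_of_mem _ (t.max'_mem htne), ?_⟩
      have h1 := (hC (t.max' htne)).2.2 ((t.image (seq c S0 y)).erase (seq c S0 y (t.max' htne)))
        (by
          intro x hx
          rw [Finset.mem_coe, Finset.mem_erase, Finset.mem_image] at hx
          obtain ⟨hx1, j, hj, rfl⟩ := hx
          refine ⟨j, lt_of_le_of_ne (t.le_max' j hj) ?_, rfl⟩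
          intro he
          exact hx1 (by rw [he]))
      rw [Finset.insert_erase (Finset.mem_image_of_mem _ (t.max'_mem htne))] at h1
      exact h1
  · exfalso
    push Not at h
    have hcov : S0 ⊆ ⋃ i : W, {y | y ∈ S0 ∧ seq c S0 y i = y} := by
      intro y hy
      obtain ⟨i, hi⟩ := h y hy
      exact Set.mem_iUnion.2 ⟨i, hy, hi⟩
    have hpiece : ∀ i : W, #({y | y ∈ S0 ∧ seq c S0 y i = y} : Set ι) ≤ 2 ^ κ := by
      intro i
      have hI : #(Iio i) ≤ κ := by
        have : #(Iio i) < #W := Cardinal.mk_Iio_lt i (by simp [W])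
        rw [hW] at this
        exact Order.lt_succ_iff.1 this
      have hcard : #(Finset (Iio i) → X) ≤ 2 ^ κ := by
        rw [Cardinal.mk_arrow, Cardinal.lift_id, Cardinal.lift_id]
        calc #X ^ #(Finset (Iio i)) ≤ (2 ^ κ) ^ #(Finset (Iio i)) :=
              Cardinal.power_le_power_right hX
          _ ≤ (2 ^ κ) ^ κ := Cardinal.power_le_power_left (Cardinal.power_ne_zero κ two_ne_zero)
                (mk_finset_le hκ hI)
          _ = 2 ^ κ := by rw [← Cardinal.power_mul, Cardinal.mul_eq_self hκ]
      refine le_trans ?_ hcard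
      let code : ({y | y ∈ S0 ∧ seq c S0 y i = y} : Set ι) → (Finset (Iio i) → X) :=
        fun y s => c (insert (y : ι) (s.image (fun j : Iio i => seq c S0 (y : ι) (j : W))))
      refine Cardinal.mk_le_of_injective (f := code) ?_
      rintro ⟨y, hy, hyi⟩ ⟨z, hz, hzi⟩ hyz
      have hcode : ∀ s : Finset (Iio i),
          c (insert y (s.image (fun j : Iio i => seq c S0 y (j : W)))) =
          c (insert z (s.image (fun j : Iio i => seq c S0 z (j : W)))) := fun s =>
        congrFun hyz s
      have hind : ∀ j : W, j ≤ i → seq c S0 y j = seq c S0 z j := by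
        intro j
        induction j using WellFoundedLT.induction with
        | ind j ih =>
          intro hji
          have hT : seq c S0 y '' Iio j = seq c S0 z '' Iio j := by
            apply Set.image_congr
            intro k hk
            exact ih k hk (hk.le.trans hji)
          rw [seq_eq, seq_eq, ← hT]
          unfold next
          congr 1
          funext x
          unfold Cand
          apply propext
          have key : ∀ s : Finset ι, ↑s ⊆ seq c S0 y '' Iio j →
              c (insert y s) = c (insert z s) := by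
            intro s hs
            have hs' : (s : Set ι) ⊆ (fun k : Iio i => seq c S0 y (k : W)) '' {k | (k : W) < j} := by
              intro x hx
              obtain ⟨k, hk, rfl⟩ := hs hx
              exact ⟨⟨k, lt_of_lt_of_le hk hji⟩, hk, rfl⟩
            rw [Finset.subset_set_image_iff] at hs'
            obtain ⟨s', hs1, hs2⟩ := hs'
            have hs3 : s'.image (fun k : Iio i => seq c S0 z (k : W)) = s := by
              rw [← hs2]
              apply Finset.image_congr
              intro k hk
              exact (ih k (hs1 hk) ((hs1 hk).le.trans hji)).symm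
            have := hcode s'
            rwa [hs2, hs3] at this
          constructor
          · rintro ⟨h1, h2, h3⟩
            exact ⟨h1, h2, fun s hs => (h3 s hs).trans (key s hs)⟩
          · rintro ⟨h1, h2, h3⟩
            exact ⟨h1, h2, fun s hs => (h3 s hs).trans (key s hs).symm⟩
      have := hind i le_rfl
      rw [hyi, hzi] at this
      exact Subtype.ext this
    have h1 : #S0 ≤ #W * 2 ^ κ := by
      calc #S0 ≤ #(⋃ i : W, {y | y ∈ S0 ∧ seq c S0 y i = y} : Set ι) := Cardinal.mk_le_mk_of_subset hcov
        _ ≤ Cardinal.sum (fun i : W => #({y | y ∈ S0 ∧ seq c S0 y i = y} : Set ι)) :=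
            Cardinal.mk_iUnion_le_sum_mk
        _ ≤ Cardinal.sum (fun _ : W => (2 : Cardinal.{u}) ^ κ) := Cardinal.sum_le_sum _ _ hpiece
        _ = #W * 2 ^ κ := by rw [Cardinal.sum_const']
    have h2 : #W * 2 ^ κ = 2 ^ κ := by
      rw [hW]
      apply Cardinal.mul_eq_right
      · exact hκ.trans (Cardinal.cantor κ).le
      · exact Order.succ_le_of_lt (Cardinal.cantor κ)
      · exact (Order.bot_lt_succ κ).ne'
    rw [h2] at h1
    exact absurd h1 (not_le.2 hS0)

end endhom

/-- iterated exponential -/
noncomputable def expn (κ : Cardinal.{u}) : ℕ → Cardinal.{u}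
  | 0 => κ
  | n + 1 => 2 ^ expn κ n

theorem le_expn (κ : Cardinal.{u}) (n : ℕ) : κ ≤ expn κ n := by
  induction n with
  | zero => exact le_rfl
  | succ n ih => exact ih.trans (Cardinal.cantor _).le

theorem expn_beth (o : Ordinal.{u}) (n : ℕ) : expn (beth o) n = beth (o + n) := by
  induction n with
  | zero => simp [expn]
  | succ n ih => rw [expn, ih, Nat.cast_succ, ← add_assoc, beth_add_one]

/-- the colouring `c` is constant, with value `t k`, on the `k`-subsets of `A`, for `k ≤ n` -/
def Hom {ι X : Type u} (c : Finset ι → X) (A : Set ι) (n : ℕ) (t : ℕ → X) : Prop :=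
  ∀ s : Finset ι, ↑s ⊆ A → s.card ≤ n → c s = t s.card

theorem er {ι X : Type u} [DecidableEq ι] {κ : Cardinal.{u}} (hκ : ℵ₀ ≤ κ) (hX : #X ≤ κ)
    (n : ℕ) : ∀ (c : Finset ι → X) (S0 : Set ι), expn κ n < #S0 →
      ∃ A ⊆ S0, κ < #A ∧ ∃ t : ℕ → X, Hom c A n t := by
  induction n with
  | zero =>
    intro c S0 h
    refine ⟨S0, Subset.rfl, h, fun _ => c ∅, ?_⟩
    intro s _ hs
    rw [Nat.le_zero, Finset.card_eq_zero] at hs
    rw [hs]
  | succ n ih =>
    intro c S0 h
    obtain ⟨H, y, hHS, hH, hc⟩ := end_homog c S0 (κ := expn κ n) (hκ.trans (le_expn κ n))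
      ((hX.trans (le_expn κ n)).trans (Cardinal.cantor _).le) h
    obtain ⟨A, hAH, hA, t, ht⟩ := ih (fun s => c (insert y s)) H hH
    refine ⟨A, hAH.trans hHS, hA, fun m => if m = 0 then c ∅ else t (m - 1), ?_⟩
    intro s hs hcard
    rcases s.eq_empty_or_nonempty with rfl | hne
    · simp
    · obtain ⟨x, hx, hcx⟩ := hc s (hs.trans hAH) hne
      have h0 : s.card ≠ 0 := Finset.card_ne_zero.2 hne
      have h1 := ht (s.erase x) (fun z hz => hs (Finset.mem_of_mem_erase hz))
        (by rw [Finset.card_erase_of_mem hx]; omega)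
      rw [Finset.card_erase_of_mem hx] at h1
      simp only [h0, if_false]
      rw [hcx]; exact h1

theorem exists_coherent {ι X : Type u} [DecidableEq ι] (hX : #X ≤ continuum.{u})
    (hι : beth (succ continuum.{u}).ord ≤ #ι) (c : Finset ι → X) :
    ∃ t : ℕ → X, ∀ n, ∃ A : Set ι, A.Infinite ∧ Hom c A n t := by
  set o : Ordinal.{u} := (succ continuum.{u}).ord with ho
  have hreg : Cardinal.IsRegular (succ continuum.{u}) := isRegular_succ aleph0_le_continuum
  have hlim : IsSuccLimit o := isSuccLimit_ord (aleph0_le_continuum.trans (Order.le_succ _))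
  have hadd : ∀ i < o, ∀ n : ℕ, i + n < o := by
    intro i hi n
    induction n with
    | zero => simpa using hi
    | succ n ih =>
      rw [Nat.cast_succ, ← add_assoc]
      exact hlim.succ_lt ih
  let Good : ℕ → (ℕ → X) → Prop := fun n τ => ∀ i < o, ∃ A : Set ι, beth i < #A ∧ Hom c A n τ
  have hcongr : ∀ n (τ τ' : ℕ → X), (∀ m ≤ n, τ m = τ' m) → Good n τ → Good n τ' := by
    intro n τ τ' h hG i hi
    obtain ⟨A, hA, hAc⟩ := hG i hi
    exact ⟨A, hA, fun s hs hn => (hAc s hs hn).trans (h _ hn)⟩
  have hbase : Good 0 (fun _ => c ∅) := by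
    intro i hi
    refine ⟨Set.univ, ?_, ?_⟩
    · rw [Cardinal.mk_univ]
      exact lt_of_lt_of_le (beth_strictMono hi) hι
    · intro s _ hs
      rw [Nat.le_zero, Finset.card_eq_zero] at hs
      rw [hs]
  have hstep : ∀ n τ, Good n τ → ∃ x, Good (n + 1) (Function.update τ (n + 1) x) := by
    intro n τ hG
    have hx : ∀ i, i < o → ∃ x : X, ∃ A : Set ι, beth i < #A ∧
        Hom c A (n + 1) (Function.update τ (n + 1) x) := by
      intro i hi
      have h1o : (1 : Ordinal.{u}) < o := by
        have := hadd 0 hlim.bot_lt 1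
        simpa using this
      have hi' : max i 1 < o := max_lt hi h1o
      obtain ⟨A, hA, hAc⟩ := hG (max i 1 + ((n + 1 : ℕ) : Ordinal)) (hadd _ hi' _)
      rw [← expn_beth] at hA
      have hκ : ℵ₀ ≤ beth (max i 1) := aleph0_le_beth _
      have hXκ : #X ≤ beth (max i 1) := by
        refine hX.trans ?_
        have h1 : beth 1 = continuum.{u} := by
          have := beth_add_one (0 : Ordinal.{u})
          rw [zero_add, beth_zero] at this
          rw [this, Cardinal.two_power_aleph0]
        rw [← h1]
        exact beth_mono (le_max_right _ _)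
      obtain ⟨A', hA'A, hA', t, ht⟩ := er hκ hXκ (n + 1) c A hA
      refine ⟨t (n + 1), A', lt_of_le_of_lt (beth_mono (le_max_left _ _)) hA', ?_⟩
      intro s hs hcard
      by_cases h : s.card = n + 1
      · rw [h, Function.update_self, ← h]
        exact ht s hs hcard
      · rw [Function.update_of_ne h]
        exact hAc s (hs.trans hA'A) (by omega)
    choose x hx using hx
    by_contra hcon
    push Not at hcon
    have hb : ∀ x0 : X, ∃ i < o, ∀ A : Set ι, beth i < #A →
        ¬ Hom c A (n + 1) (Function.update τ (n + 1) x0) := by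
      intro x0
      have := hcon x0
      simp only [Good] at this
      push Not at this
      exact this
    choose b hb1 hb2 using hb
    have hsup : iSup b < o := by
      refine Ordinal.iSup_lt_of_lt_cof ?_ hb1
      rw [ho, hreg.cof_ord]
      exact lt_of_le_of_lt hX (Order.lt_succ _)
    obtain ⟨A, hA, hAc⟩ := hx (iSup b) hsup
    exact hb2 (x (iSup b) hsup) A
      (lt_of_le_of_lt (beth_mono (Ordinal.le_iSup b _)) hA) hAc
  have hXne : Nonempty X := ⟨c ∅⟩
  choose! nx hnx using hstep
  let σ : ℕ → (ℕ → X) := fun n => Nat.rec (fun _ => c ∅)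
    (fun n τ => Function.update τ (n + 1) (nx n τ)) n
  have hσ0 : σ 0 = fun _ => c ∅ := rfl
  have hσs : ∀ n, σ (n + 1) = Function.update (σ n) (n + 1) (nx n (σ n)) := fun n => rfl
  have hσ : ∀ n, Good n (σ n) := by
    intro n
    induction n with
    | zero => exact hbase
    | succ n ih => rw [hσs]; exact hnx n (σ n) ih
  have hst : ∀ n m, m ≤ n → σ n m = σ m m := by
    intro n
    induction n with
    | zero => intro m hm; rw [Nat.le_zero.1 hm]
    | succ n ih =>
      intro m hm
      rcases Nat.lt_or_ge m (n + 1) with h | h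
      · rw [hσs, Function.update_of_ne (by omega)]
        exact ih m (by omega)
      · have : m = n + 1 := by omega
        rw [this]
  refine ⟨fun n => σ n n, fun n => ?_⟩
  obtain ⟨A, hA, hAc⟩ := hcongr n _ _ (hst n) (hσ n) 0 hlim.bot_lt
  refine ⟨A, ?_, hAc⟩
  rw [← Set.infinite_coe_iff, Cardinal.infinite_iff]
  rw [beth_zero] at hA
  exact hA.le

/-! ### positions -/

section pos

variable {β γ : Type*} [LinearOrder β] [LinearOrder γ]

/-- the rank of `x` in `u` -/
def rk (u : Finset β) (x : β) : ℕ := (u.filter (· < x)).card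

theorem rk_lt {u : Finset β} {x y : β} (hx : x ∈ u) (h : x < y) : rk u x < rk u y := by
  apply Finset.card_lt_card
  rw [Finset.ssubset_iff_of_subset]
  · exact ⟨x, by simp [hx, h], by simp⟩
  · intro z hz
    rw [Finset.mem_filter] at hz ⊢
    exact ⟨hz.1, hz.2.trans h⟩

theorem rk_inj {u : Finset β} {x y : β} (hx : x ∈ u) (hy : y ∈ u) (h : rk u x = rk u y) :
    x = y := by
  rcases lt_trichotomy x y with h' | h' | h'
  · exact absurd h (rk_lt hx h').ne
  · exact h'
  · exact absurd h (rk_lt hy h').ne'

theorem rk_image {u : Finset β} {α : β → γ} (hα : StrictMonoOn α u) {x : β} (hx : x ∈ u) :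
    rk (u.image α) (α x) = rk u x := by
  unfold rk
  have h1 : (u.image α).filter (· < α x) = (u.filter (· < x)).image α := by
    ext z
    simp only [Finset.mem_filter, Finset.mem_image]
    constructor
    · rintro ⟨⟨y, hy, rfl⟩, h⟩
      exact ⟨y, ⟨hy, (hα.lt_iff_lt hy hx).1 h⟩, rfl⟩
    · rintro ⟨y, ⟨hy, h⟩, rfl⟩
      exact ⟨⟨y, hy, rfl⟩, hα hy hx h⟩
  rw [h1, Finset.card_image_of_injOn]
  intro a ha b hb hab
  rw [Finset.mem_coe, Finset.mem_filter] at ha hb
  exact hα.injOn ha.1 hb.1 hab

/-- the subset of `u` at the positions `v` -/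
def pos (u : Finset β) (v : Finset ℕ) : Finset β := u.filter (fun x => rk u x ∈ v)

theorem pos_rk {u a : Finset β} (h : a ⊆ u) : pos u (a.image (rk u)) = a := by
  ext x
  simp only [pos, Finset.mem_filter, Finset.mem_image]
  constructor
  · rintro ⟨hx, y, hy, hyx⟩
    rw [← rk_inj (h hy) hx hyx]; exact hy
  · intro hx
    exact ⟨h hx, x, hx, rfl⟩

/-- union of a list of finsets -/
def un (s : List (Finset β)) : Finset β := s.foldr (· ∪ ·) ∅

theorem un_image (α : β → γ) (s : List (Finset β)) :
    un (s.map (Finset.image α)) = (un s).image α := by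
  induction s with
  | nil => simp [un]
  | cons a s ih =>
    simp only [un, List.map_cons, List.foldr_cons] at ih ⊢
    rw [ih, Finset.image_union]

theorem subset_un {s : List (Finset β)} {a : Finset β} (h : a ∈ s) : a ⊆ un s := by
  induction s with
  | nil => simp at h
  | cons b s ih =>
    rw [List.mem_cons] at h
    simp only [un, List.foldr_cons]
    rcases h with rfl | h
    · exact Finset.subset_union_left
    · exact (ih h).trans Finset.subset_union_right

theorem un_subset {s : List (Finset β)} {F : Finset β} (h : ∀ a ∈ s, a ⊆ F) : un s ⊆ F := by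
  induction s with
  | nil => simp [un]
  | cons b s ih =>
    simp only [un, List.foldr_cons]
    exact Finset.union_subset (h b (by simp)) (ih (fun a ha => h a (by simp [ha])))

end pos

end ER

open ER in
theorem exists_indisc {ι : Type u} [LinearOrder ι]
    (hι : Cardinal.beth (Order.succ Cardinal.continuum.{u}).ord ≤ Cardinal.mk ι)
    {I : Type} [Countable I] (P : I → List (Finset ι) → ℝ) :
    ∃ W : I → List (Finset ℚ) → ℝ,
      (∀ (g : ℚ ≃o ℚ) (j : I) (s : List (Finset ℚ)), W j (s.map (Finset.image g)) = W j s) ∧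
      ∀ F : Finset ℚ, ∃ α : ℚ → ι, StrictMonoOn α F ∧
        ∀ (j : I) (s : List (Finset ℚ)), (∀ a ∈ s, a ⊆ F) →
          P j (s.map (Finset.image α)) = W j s := by
  classical
  let X : Type u := ULift.{u} ((I × List (Finset ℕ)) → ℝ)
  have hX : #X ≤ continuum.{u} := by
    have h1 : #((I × List (Finset ℕ)) → ℝ) ≤ continuum.{0} := by
      rw [Cardinal.mk_arrow, Cardinal.lift_id, Cardinal.lift_id, Cardinal.mk_real]
      calc continuum.{0} ^ #(I × List (Finset ℕ)) ≤ continuum.{0} ^ ℵ₀ :=
            Cardinal.power_le_power_left continuum_ne_zero (Cardinal.mk_le_aleph0)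
        _ = continuum.{0} := Cardinal.continuum_power_aleph0
    calc #X = Cardinal.lift.{u} #((I × List (Finset ℕ)) → ℝ) := Cardinal.mk_uLift _
      _ ≤ Cardinal.lift.{u} continuum.{0} := Cardinal.lift_le.2 h1
      _ = continuum.{u} := Cardinal.lift_continuum
  let c : Finset ι → X := fun u => ULift.up (fun p => P p.1 (p.2.map (pos u)))
  obtain ⟨t, ht⟩ := exists_coherent hX hι c
  refine ⟨fun j s => (t (un s).card).down (j, s.map (fun a => a.image (rk (un s)))), ?_, ?_⟩
  · intro g j s
    have hg : StrictMonoOn g (un s : Finset ℚ) := g.strictMono.strictMonoOn _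
    have h1 : un (s.map (Finset.image g)) = (un s).image g := un_image g s
    have h2 : ((un s).image g).card = (un s).card :=
      Finset.card_image_of_injective _ g.injective
    have h3 : (s.map (Finset.image g)).map (fun a => a.image (rk ((un s).image g))) =
        s.map (fun a => a.image (rk (un s))) := by
      rw [List.map_map]
      apply List.map_congr_left
      intro a ha
      simp only [Function.comp]
      rw [Finset.image_image]
      apply Finset.image_congr
      intro x hx
      exact rk_image hg (subset_un ha hx)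
    change (t (un (s.map (Finset.image g))).card).down
      (j, (s.map (Finset.image g)).map (fun a => a.image (rk (un (s.map (Finset.image g)))))) =
        (t (un s).card).down (j, s.map (fun a => a.image (rk (un s))))
    rw [h1, h2, h3]
  · intro F
    obtain ⟨A, hAinf, hA⟩ := ht F.card
    obtain ⟨B, hBA, hB⟩ := hAinf.exists_subset_card_eq F.card
    have hne : Nonempty ι := ⟨hAinf.nonempty.some⟩
    let α : ℚ → ι := fun q => if h : q ∈ F then
      B.orderEmbOfFin hB ((F.orderIsoOfFin rfl).symm ⟨q, h⟩) else Classical.arbitrary ι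
    have hα1 : ∀ q (h : q ∈ F), α q = B.orderEmbOfFin hB ((F.orderIsoOfFin rfl).symm ⟨q, h⟩) :=
      fun q h => dif_pos h
    have hα : StrictMonoOn α F := by
      intro q hq r hr hqr
      rw [hα1 q hq, hα1 r hr]
      exact (B.orderEmbOfFin hB).strictMono
        ((F.orderIsoOfFin rfl).symm.strictMono (show (⟨q, hq⟩ : F) < ⟨r, hr⟩ from hqr))
    refine ⟨α, hα, ?_⟩
    intro j s hs
    have huF : un s ⊆ F := un_subset hs
    have hαu : StrictMonoOn α (un s : Finset ℚ) := hα.mono (by exact_mod_cast huF)
    have hcard : ((un s).image α).card = (un s).card :=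
      Finset.card_image_of_injOn hαu.injOn
    have h1 := hA ((un s).image α) (by
      intro x hx
      rw [Finset.mem_coe, Finset.mem_image] at hx
      obtain ⟨q, hq, rfl⟩ := hx
      rw [hα1 q (huF hq)]
      exact hBA (B.orderEmbOfFin_mem hB _)) (by rw [hcard]; exact Finset.card_le_card huF)
    rw [hcard] at h1
    change P j (s.map (Finset.image α)) =
      (t (un s).card).down (j, s.map (fun a => a.image (rk (un s))))
    rw [← h1]
    change P j (s.map (Finset.image α)) =
      P j ((s.map (fun a => a.image (rk (un s)))).map (pos ((un s).image α)))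
    rw [List.map_map]
    congr 1
    apply List.map_congr_left
    intro a ha
    simp only [Function.comp]
    have h2 : a.image (rk (un s)) = (a.image α).image (rk ((un s).image α)) := by
      rw [Finset.image_image]
      apply Finset.image_congr
      intro x hx
      exact (rk_image hαu (subset_un ha hx)).symm
    rw [h2, pos_rk]
    exact Finset.image_subset_image (subset_un ha)

end Pool.Agent.H53.ZD
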