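import Pool.Agent.H53.ZD.System

set_option autoImplicit false
set_option linter.unusedSectionVars false
open Set Filter Topology TopologicalSpace MeasureTheory

namespace Pool.Agent.H53.ZD

/-- comparison of defects of two finite measures -/
lemma measure_defect {X : Type*} [MeasurableSpace X] {μ ν : Measure X} [IsFiniteMeasure μ]
    [IsFiniteMeasure ν] (h : μ ≤ ν) {B : Set X} (hB : MeasurableSet B) :
    ν.real B - μ.real B ≤ ν.real univ - μ.real univ := by
  have h1 : μ.real Bᶜ ≤ ν.real Bᶜ := ENNReal.toReal_mono (measure_ne_top _ _) (h _)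
  have h2 := measureReal_add_measureReal_compl (μ := μ) hB
  have h3 := measureReal_add_measureReal_compl (μ := ν) hB
  linarith

lemma measureReal_le_of_le {X : Type*} [MeasurableSpace X] {μ ν : Measure X} [IsFiniteMeasure μ]
    [IsFiniteMeasure ν] (h : μ ≤ ν) (B : Set X) : μ.real B ≤ ν.real B :=
  ENNReal.toReal_mono (measure_ne_top _ _) (h _)

/-- comparison of integrals of bounded nonnegative functions -/
lemma integral_defect {X : Type*} [MeasurableSpace X] {μ ν : Measure X} [IsFiniteMeasure μ]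
    [IsFiniteMeasure ν] (h : μ ≤ ν) {f : X → ℝ} (hf : Measurable f) {M : ℝ} (h0 : ∀ x, 0 ≤ f x)
    (hM : ∀ x, f x ≤ M) :
    ∫ x, f x ∂ν ≤ ∫ x, f x ∂μ + M * (ν.real univ - μ.real univ) := by
  -- apply monotonicity to `M - f`
  have hi : ∀ (κ : Measure X) [IsFiniteMeasure κ], Integrable f κ := fun κ _ =>
    (integrable_const M).mono' hf.aestronglyMeasurable (Eventually.of_forall fun x => by
      rw [Real.norm_eq_abs, abs_of_nonneg (h0 x)]; exact hM x)
  have h1 : ∫ x, (M - f x) ∂μ ≤ ∫ x, (M - f x) ∂ν :=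
    integral_mono_measure h (Eventually.of_forall fun x => sub_nonneg.2 (hM x))
      ((integrable_const M).sub (hi ν))
  rw [integral_sub (integrable_const M) (hi μ), integral_sub (integrable_const M) (hi ν),
    integral_const, integral_const] at h1
  simp only [smul_eq_mul] at h1
  linarith

namespace NatSys

variable {H L : Type*} [Countable H] [MulAction G H] [TopologicalSpace L] [CompactSpace L]
    [T2Space L] [TotallyDisconnectedSpace L] [MulAction G L] (N : NatSys H L)

/-- a common bound of the norms -/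
noncomputable def C : ℝ := max 1 (max ‖(N.U : C(L, ℝ) →L[ℝ] C(Ball H, ℝ))‖ ‖N.V‖)

lemma one_le_C : 1 ≤ N.C := le_max_left _ _
lemma C_pos : 0 < N.C := zero_lt_one.trans_le N.one_le_C

lemma abs_U_le (φ : C(L, ℝ)) {M : ℝ} (hM : 0 ≤ M) (h : ∀ l, |φ l| ≤ M) (x : Ball H) :
    |N.U φ x| ≤ N.C * M := by
  have h1 : ‖φ‖ ≤ M := (ContinuousMap.norm_le _ hM).2 h
  have h2 : ‖N.U φ‖ ≤ ‖(N.U : C(L, ℝ) →L[ℝ] C(Ball H, ℝ))‖ * ‖φ‖ :=
    (N.U : C(L, ℝ) →L[ℝ] C(Ball H, ℝ)).le_opNorm φ
  have h3 : ‖(N.U : C(L, ℝ) →L[ℝ] C(Ball H, ℝ))‖ ≤ N.C :=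
    (le_max_left _ _).trans (le_max_right _ _)
  calc |N.U φ x| ≤ ‖N.U φ‖ := (N.U φ).norm_coe_le_norm x
    _ ≤ _ := h2
    _ ≤ N.C * M := mul_le_mul h3 h1 (norm_nonneg _) N.C_pos.le

lemma abs_V_le (f : C(Ball H, ℝ)) {M : ℝ} (hM : 0 ≤ M) (h : ∀ x, |f x| ≤ M) (l : L) :
    |N.V f l| ≤ N.C * M := by
  have h1 : ‖f‖ ≤ M := (ContinuousMap.norm_le _ hM).2 h
  have h3 : ‖N.V‖ ≤ N.C := (le_max_right _ _).trans (le_max_right _ _)
  calc |N.V f l| ≤ ‖N.V f‖ := (N.V f).norm_coe_le_norm l
    _ ≤ ‖N.V‖ * ‖f‖ := N.V.le_opNorm f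
    _ ≤ N.C * M := mul_le_mul h3 h1 (norm_nonneg _) N.C_pos.le

/-- evaluation functional of `V` -/
noncomputable def ev (l : L) : C(Ball H, ℝ) →L[ℝ] ℝ := (ContinuousMap.evalCLM ℝ l).comp N.V

lemma ev_apply (l : L) (f : C(Ball H, ℝ)) : N.ev l f = N.V f l := rfl

/-- the variation measure at `l` -/
noncomputable def lam (l : L) : Measure (Ball H) := vm (N.ev l)

instance (l : L) : IsFiniteMeasure (N.lam l) := vm_finite _
instance (l : L) : (N.lam l).Regular := vm_regular _

/-- the total mass -/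
noncomputable def m (l : L) : ℝ := (N.lam l).real univ

lemma m_nonneg (l : L) : 0 ≤ N.m l := measureReal_nonneg

lemma m_le (l : L) : N.m l ≤ N.C := by
  refine (isLUB_vm_univ (N.ev l)).2 ?_
  rintro r ⟨g, hg, rfl⟩
  have := N.abs_V_le g zero_le_one hg l
  rw [mul_one] at this
  exact (le_abs_self _).trans this

lemma lam_le_C (l : L) (B : Set (Ball H)) : (N.lam l).real B ≤ N.C :=
  (measureReal_mono (subset_univ _)).trans (N.m_le l)

instance (l : L) (T : Finset ℚ) : ((N.lam l).map (rho T)).Regular := inferInstance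

/-- (K1) -/
lemma lam_pi_le (T : Finset ℚ) (l : L) : N.lam (N.pi T l) ≤ (N.lam l).map (rho T) := by
  refine measure_le_of_integral_le _ _ ?_
  intro f hf
  rw [integral_map (continuous_rho T).measurable.aemeasurable
    f.continuous.stronglyMeasurable.aestronglyMeasurable]
  unfold lam
  rw [integral_vm _ _ f.continuous hf, integral_vm _ (fun x => f (rho T x))
    (f.continuous.comp (continuous_rho T)) (fun x => hf _)]
  apply csSup_le ⟨0, domSet_nonempty _ _ hf⟩
  rintro r ⟨g, hg, rfl⟩
  rw [ev_apply, ← V_rT, ← ev_apply]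
  exact le_absF _ _ (bdd_of_cont ⟨fun x => f (rho T x), f.continuous.comp (continuous_rho T)⟩) _
    (fun x => hg (rho T x))

/-- sets saturated at the level `T` -/
def Sat (T : Finset ℚ) (B : Set (Ball H)) : Prop := ∀ x, rho T x ∈ B ↔ x ∈ B

lemma map_real_of_sat {T : Finset ℚ} {B : Set (Ball H)} (hB : Sat T B) (hm : MeasurableSet B)
    (l : L) : ((N.lam l).map (rho T)).real B = (N.lam l).real B := by
  rw [Measure.real, Measure.map_apply (continuous_rho T).measurable hm, Measure.real]
  congr 2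
  ext x; exact hB x

lemma map_real_univ (T : Finset ℚ) (l : L) : ((N.lam l).map (rho T)).real univ = N.m l := by
  rw [Measure.real, Measure.map_apply (continuous_rho T).measurable MeasurableSet.univ]
  rfl

lemma m_pi_le (T : Finset ℚ) (l : L) : N.m (N.pi T l) ≤ N.m l := by
  have := measureReal_le_of_le (N.lam_pi_le T l) univ
  rwa [map_real_univ] at this

lemma lam_pi_real_le {T : Finset ℚ} {B : Set (Ball H)} (hB : Sat T B) (hm : MeasurableSet B)
    (l : L) : (N.lam (N.pi T l)).real B ≤ (N.lam l).real B := by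
  have := measureReal_le_of_le (N.lam_pi_le T l) B
  rwa [N.map_real_of_sat hB hm] at this

lemma lam_real_le_pi {T : Finset ℚ} {B : Set (Ball H)} (hB : Sat T B) (hm : MeasurableSet B)
    (l : L) : (N.lam l).real B ≤ (N.lam (N.pi T l)).real B + (N.m l - N.m (N.pi T l)) := by
  have := measure_defect (N.lam_pi_le T l) hm
  rw [N.map_real_of_sat hB hm, map_real_univ] at this
  unfold m at *
  linarith

/-- transfer of small sets -/
lemma transfer {T : Finset ℚ} {B : Set (Ball H)} (hB : Sat T B) (hm : MeasurableSet B)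
    {l l' : L} (hl : N.pi T l = N.pi T l') {ε : ℝ} (hε : N.m l' - N.m (N.pi T l') ≤ ε) :
    (N.lam l').real B ≤ (N.lam l).real B + ε := by
  have h1 := N.lam_real_le_pi hB hm l'
  have h2 := N.lam_pi_real_le hB hm l
  rw [hl] at h2
  linarith

/-- integrals of saturated functions -/
lemma integral_le_pi {T : Finset ℚ} {f : Ball H → ℝ} (hf : Measurable f) {M : ℝ}
    (h0 : ∀ x, 0 ≤ f x) (hM : ∀ x, f x ≤ M) (hsat : ∀ x, f (rho T x) = f x) (l : L) :
    ∫ x, f x ∂(N.lam l) ≤ ∫ x, f x ∂(N.lam (N.pi T l)) + M * (N.m l - N.m (N.pi T l)) := by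
  have h1 : ∫ x, f x ∂(N.lam l) = ∫ x, f x ∂((N.lam l).map (rho T)) := by
    rw [integral_map (continuous_rho T).measurable.aemeasurable
      hf.stronglyMeasurable.aestronglyMeasurable]
    simp only [hsat]
  rw [h1]
  have := integral_defect (N.lam_pi_le T l) hf h0 hM
  rwa [map_real_univ] at this

/-- (K3) -/
lemma exists_level (l : L) {ε : ℝ} (hε : 0 < ε) :
    ∃ T : Finset ℚ, ∀ T' : Finset ℚ, T ⊆ T' → N.m l - ε ≤ N.m (N.pi T' l) := by
  classical
  obtain ⟨h1, h2⟩ := isLUB_vm_univ (N.ev l)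
  have : ∃ r ∈ domSet (N.ev l) (fun _ => 1), N.m l - ε / 2 < r := by
    by_contra hcon
    push Not at hcon
    have := h2 (show N.m l - ε / 2 ∈ upperBounds _ from fun r hr => hcon r hr)
    have h3 : N.m l ≤ N.m l - ε / 2 := this
    linarith
  obtain ⟨r, ⟨g, hg, rfl⟩, hr⟩ := this
  have hC := N.C_pos
  obtain ⟨F, hF⟩ := Ball.approx_res g.continuous (ε := ε / (2 * N.C)) (by positivity)
  refine ⟨F.biUnion supp, fun T' hT' => ?_⟩
  have h3 : ∀ x, |(g - rT T' g) x| ≤ ε / (2 * N.C) := by
    intro x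
    have := hF (HT H T') (fun i hi => (supp_spec (N.fs i)).mono
      ((Finset.subset_biUnion_of_mem supp hi).trans hT')) x
    rw [ContinuousMap.sub_apply, abs_sub_comm]
    exact this.le
  have h4 := N.abs_V_le _ (by positivity) h3 l
  rw [map_sub, ContinuousMap.sub_apply, V_rT] at h4
  have h5 : N.C * (ε / (2 * N.C)) = ε / 2 := by field_simp
  rw [h5] at h4
  have h6 : N.V g (N.pi T' l) ≤ N.m (N.pi T' l) :=
    (isLUB_vm_univ (N.ev (N.pi T' l))).1 ⟨g, hg, rfl⟩
  have h7 := (abs_le.1 h4).2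
  have h8 : N.ev l g = N.V g l := rfl
  rw [h8] at hr
  linarith

/-- the basic constant -/
noncomputable def c : ℝ := 1 / (2 * N.C)

lemma c_pos : 0 < N.c := by have := N.C_pos; unfold c; positivity

lemma two_C_c : 2 * N.C * N.c = 1 := by
  have := N.C_pos; unfold c; field_simp

lemma c_le : N.c ≤ 1 / 2 := by
  have := N.one_le_C
  unfold c
  rw [one_div_le_one_div (by positivity) (by norm_num)]
  linarith

lemma abs_UI_le (a : Clopens L) (x : Ball H) : |N.UI a x| ≤ N.C := by
  have := N.abs_U_le (ind a) zero_le_one (fun l => by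
    by_cases h : l ∈ a
    · rw [ind_of_mem h]; simp
    · rw [ind_of_notMem h]; simp) x
  rwa [mul_one] at this

/-- (K4) -/
lemma large_fraction {a : Clopens L} {l : L} (hl : l ∈ a) :
    N.c ≤ (N.lam l).real {x | N.c ≤ |N.UI a x|} := by
  have h1 : 1 ≤ ∫ x, |N.UI a x| ∂(N.lam l) := by
    have := abs_le_integral_vm (N.ev l) (N.UI a)
    rw [ev_apply] at this
    unfold UI at this
    rw [V_U, ind_of_mem hl, abs_one] at this
    exact this
  let B : Set (Ball H) := {x | N.c ≤ |N.UI a x|}
  have hBm : MeasurableSet B :=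
    (isClosed_le continuous_const (N.UI a).continuous.abs).measurableSet
  have h2 : ∫ x, |N.UI a x| ∂(N.lam l) ≤ ∫ x, (B.indicator (fun _ => N.C) x + N.c) ∂(N.lam l) := by
    apply integral_mono
    · exact integrable_cont _ _ (N.UI a).continuous.abs
    · exact ((integrable_const N.C).indicator hBm).add (integrable_const _)
    · intro x
      by_cases hx : x ∈ B
      · simp only [indicator_of_mem hx]
        have := N.abs_UI_le a x
        have := N.c_pos
        linarith
      · simp only [indicator_of_notMem hx, zero_add]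
        exact (not_le.1 hx).le
  rw [integral_add ((integrable_const N.C).indicator hBm) (integrable_const _),
    integral_indicator hBm, setIntegral_const, integral_const] at h2
  simp only [smul_eq_mul] at h2
  have h3 : (N.lam l).real univ ≤ N.C := N.m_le l
  have h4 : (N.lam l).real univ * N.c ≤ 1 / 2 := by
    have := mul_le_mul_of_nonneg_right h3 N.c_pos.le
    have h5 := N.two_C_c
    linarith
  have h6 : 1 / 2 ≤ (N.lam l).real B * N.C := by linarith
  have h7 := N.two_C_c
  have h8 := N.C_pos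
  show N.c ≤ (N.lam l).real B
  by_contra hcon
  push Not at hcon
  have := mul_lt_mul_of_pos_right hcon h8
  linarith

end NatSys

end Pool.Agent.H53.ZD
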