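import Pool.Agent.H53.ZD.LimPt

/-!
# Coherent systems of codes
-/

set_option autoImplicit false
set_option linter.unusedSectionVars false
open Set Filter Topology TopologicalSpace

universe u v

namespace Pool.Agent.H53.ZD

/-- codes: an index of a level -/
structure Code : Type where
  s : Finset ℚ
  i : ℕ

instance : Countable Code := by
  have : Function.Injective (fun c : Code => (c.s, c.i)) := by
    rintro ⟨s, i⟩ ⟨t, j⟩ h
    simp only [Prod.mk.injEq] at h
    rw [h.1, h.2]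
  exact this.countable

noncomputable instance : MulAction G Code where
  smul g c := ⟨c.s.image g, c.i⟩
  one_smul c := by
    show (⟨c.s.image (fun q => q), c.i⟩ : Code) = c
    rw [Finset.image_id']
  mul_smul g k c := by
    show (⟨c.s.image (fun q => g (k q)), c.i⟩ : Code) = ⟨(c.s.image k).image g, c.i⟩
    rw [Finset.image_image]; rfl

lemma smul_code_s (g : G) (c : Code) : (g • c).s = c.s.image g := rfl
lemma smul_code_i (g : G) (c : Code) : (g • c).i = c.i := rfl

/-- coherent embeddings of the codes into a concrete isomorphism -/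
structure Coh {ι : Type u} {L : Type v} [TopologicalSpace L] [CompactSpace L] [T2Space L]
    [TotallyDisconnectedSpace L] (T : C(L, ℝ) ≃L[ℝ] C(Ball ι, ℝ)) where
  ψ : Finset ℚ → Code → ι
  θ : Finset ℚ → Code → Clopens L
  eqv : ∀ (g : G) (F F' : Finset ℚ) (c c' : Code), c.s ⊆ F → c'.s ⊆ F → (g • c).s ⊆ F' →
    (g • c').s ⊆ F' → (ψ F c = ψ F c' ↔ ψ F' (g • c) = ψ F' (g • c'))
  cons : ∀ (g : G) (F F' : Finset ℚ) (l : List (Code × Bool)), (∀ p ∈ l, p.1.s ⊆ F) →
    (∀ p ∈ l, (g • p.1).s ⊆ F') → ((∃ x : L, ∀ p ∈ l, (x ∈ θ F p.1 ↔ p.2 = true)) ↔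
      ∃ x : L, ∀ p ∈ l, (x ∈ θ F' (g • p.1) ↔ p.2 = true))
  val : ∀ (g : G) (F F' : Finset ℚ) (c : Code) (l : List (Code × ℚ)), c.s ⊆ F →
    (∀ p ∈ l, p.1.s ⊆ F) → (g • c).s ⊆ F' → (∀ p ∈ l, (g • p.1).s ⊆ F') →
    T (ind (θ F c)) (pt (l.map fun p => (ψ F p.1, p.2)))
      = T (ind (θ F' (g • c))) (pt (l.map fun p => (ψ F' (g • p.1), p.2)))
  base : ∀ (F : Finset ℚ) (q q' : ℚ), q ∈ F → q' ∈ F → ψ F ⟨{q}, 0⟩ = ψ F ⟨{q'}, 0⟩ → q = q'
  mono : ∀ (F s t : Finset ℚ), s ⊆ t → t ⊆ F → ∀ i, ∃ j, ψ F ⟨s, i⟩ = ψ F ⟨t, j⟩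
  monoθ : ∀ (F s t : Finset ℚ), s ⊆ t → t ⊆ F → ∀ i, ∃ j, θ F ⟨s, i⟩ = θ F ⟨t, j⟩
  top : ∀ (F s : Finset ℚ), s ⊆ F → ∃ i, θ F ⟨s, i⟩ = ⊤
  inf : ∀ (F s : Finset ℚ), s ⊆ F → ∀ i j, ∃ k, θ F ⟨s, k⟩ = θ F ⟨s, i⟩ ⊓ θ F ⟨s, j⟩
  dep : ∀ (F : Finset ℚ) (c : Code), c.s ⊆ F → ∀ x y : Ball ι,
    (∀ j, x (ψ F ⟨c.s, j⟩) = y (ψ F ⟨c.s, j⟩)) → T (ind (θ F c)) x = T (ind (θ F c)) y
  dens : ∀ (F : Finset ℚ) (f : C(Ball ι, ℝ)),
    (∀ x, f (Ball.res (range fun j => ψ F ⟨F, j⟩) x) = f x) → ∀ ε > 0,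
      ∃ φ ∈ Submodule.span ℝ (range fun j => ind (θ F ⟨F, j⟩)), ‖f - T φ‖ < ε

/-- finite indiscernible patterns -/
def HasIndisc (ι : Type u) [LinearOrder ι] : Prop :=
  ∀ (I : Type) [Countable I] (P : I → List (Finset ι) → ℝ), ∃ W : I → List (Finset ℚ) → ℝ,
      (∀ (g : ℚ ≃o ℚ) (j : I) (s : List (Finset ℚ)), W j (s.map (Finset.image g)) = W j s) ∧
      ∀ F : Finset ℚ, ∃ α : ℚ → ι, StrictMonoOn α F ∧
        ∀ (j : I) (s : List (Finset ℚ)), (∀ a ∈ s, a ⊆ F) → P j (s.map (Finset.image α)) = W j s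

lemma iff_of_ite {A B : Prop} [Decidable A] [Decidable B]
    (h : (if A then (1 : ℝ) else 0) = if B then 1 else 0) : A ↔ B := by
  by_cases hA : A <;> by_cases hB : B <;> simp [hA, hB] at h ⊢

lemma zip_map_aux {α β γ δ : Type*} (l : List α) (f : α → β) (h : β → γ) (k : α → δ) :
    List.zip ((l.map f).map h) (l.map k) = l.map fun p => (h (f p), k p) := by
  induction l with
  | nil => rfl
  | cons a l ih => simp only [List.map_cons, List.zip_cons_cons, ih]

theorem exists_coh {ι : Type u} [LinearOrder ι] (hind : HasIndisc ι) {L : Type v}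
    [TopologicalSpace L] [CompactSpace L] [T2Space L] [TotallyDisconnectedSpace L]
    (T : C(L, ℝ) ≃L[ℝ] C(Ball ι, ℝ)) : Nonempty (Coh T) := by
  classical
  have : Nonempty ι := by
    obtain ⟨W, -, h⟩ := hind Unit (fun _ _ => 0)
    obtain ⟨α, -⟩ := h ∅
    exact ⟨α 0⟩
  obtain ⟨ψ, θ, h1, h2, h3, h4, h5, h6, h7⟩ := exists_levels T
  -- the queries
  let P : ((ℕ × ℕ) ⊕ (List (ℕ × Bool)) ⊕ (ℕ × List (ℕ × ℚ))) → List (Finset ι) → ℝ := fun q s =>
    match q with
    | Sum.inl (i, i') => if ψ (s.getD 0 ∅) i = ψ (s.getD 1 ∅) i' then 1 else 0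
    | Sum.inr (Sum.inl l) => if ∃ x : L, ∀ p ∈ List.zip s l, (x ∈ θ p.1 p.2.1 ↔ p.2.2 = true)
        then 1 else 0
    | Sum.inr (Sum.inr (i, l)) => T (ind (θ (s.headD ∅) i))
        (pt ((List.zip s.tail l).map fun p => (ψ p.1 p.2.1, p.2.2)))
  obtain ⟨W, hW1, hW2⟩ := hind _ P
  choose α hα hαW using hW2
  -- general transfer
  have key : ∀ (g : G) (F F' : Finset ℚ) (q) (s : List (Finset ℚ)), (∀ a ∈ s, a ⊆ F) →
      (∀ a ∈ s, a.image g ⊆ F') →
      P q (s.map (Finset.image (α F))) = P q ((s.map (Finset.image g)).map (Finset.image (α F'))) := by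
    intro g F F' q s hs hs'
    rw [hαW F q s hs, hαW F' q (s.map (Finset.image g)), hW1]
    intro a ha
    rw [List.mem_map] at ha
    obtain ⟨b, hb, rfl⟩ := ha
    exact hs' b hb
  refine ⟨{
    ψ := fun F c => ψ (c.s.image (α F)) c.i
    θ := fun F c => θ (c.s.image (α F)) c.i
    eqv := ?_
    cons := ?_
    val := ?_
    base := ?_
    mono := ?_
    monoθ := ?_
    top := ?_
    inf := ?_
    dep := ?_
    dens := ?_ }⟩
  · intro g F F' c c' hc hc' hg hg'
    have := key g F F' (Sum.inl (c.i, c'.i)) [c.s, c'.s] (by simp [hc, hc']) (by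
      intro a ha
      simp only [List.mem_cons, List.not_mem_nil, or_false] at ha
      rcases ha with rfl | rfl
      · exact hg
      · exact hg')
    exact iff_of_ite this
  · intro g F F' l hl hl'
    have := key g F F' (Sum.inr (Sum.inl (l.map fun p => (p.1.i, p.2)))) (l.map fun p => p.1.s) (by
      intro a ha
      rw [List.mem_map] at ha
      obtain ⟨p, hp, rfl⟩ := ha
      exact hl p hp) (by
      intro a ha
      rw [List.mem_map] at ha
      obtain ⟨p, hp, rfl⟩ := ha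
      exact hl' p hp)
    have h8 := iff_of_ite this
    rw [zip_map_aux, List.map_map, zip_map_aux] at h8
    simp only [List.forall_mem_map] at h8
    exact h8
  · intro g F F' c l hc hl hc' hl'
    have := key g F F' (Sum.inr (Sum.inr (c.i, l.map fun p => (p.1.i, p.2))))
      (c.s :: l.map fun p => p.1.s) (by
      intro a ha
      rcases List.mem_cons.1 ha with rfl | ha
      · exact hc
      · rw [List.mem_map] at ha
        obtain ⟨p, hp, rfl⟩ := ha
        exact hl p hp) (by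
      intro a ha
      rcases List.mem_cons.1 ha with rfl | ha
      · exact hc'
      · rw [List.mem_map] at ha
        obtain ⟨p, hp, rfl⟩ := ha
        exact hl' p hp)
    have h8 : T (ind (θ (c.s.image (α F)) c.i)) (pt ((List.zip ((l.map fun p => p.1.s).map
        (Finset.image (α F))) (l.map fun p => (p.1.i, p.2))).map fun p => (ψ p.1 p.2.1, p.2.2)))
        = T (ind (θ ((c.s.image g).image (α F')) c.i)) (pt ((List.zip (((l.map fun p => p.1.s).map
        (Finset.image g)).map (Finset.image (α F'))) (l.map fun p => (p.1.i, p.2))).map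
          fun p => (ψ p.1 p.2.1, p.2.2))) := this
    rw [zip_map_aux, List.map_map, List.map_map (g := Finset.image g), zip_map_aux,
      List.map_map] at h8
    exact h8
  · intro F q q' hq hq' h
    have e : ∀ q : ℚ, ψ (({q} : Finset ℚ).image (α F)) 0 = α F q := by
      intro q; rw [Finset.image_singleton, h1]
    simp only [e] at h
    exact (hα F).injOn (by exact_mod_cast hq) (by exact_mod_cast hq') h
  · intro F s t hst _ i
    exact h2 _ _ (Finset.image_subset_image hst) i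
  · intro F s t hst _ i
    exact h3 _ _ (Finset.image_subset_image hst) i
  · intro F s _
    exact h4 (s.image (α F))
  · intro F s _ i j
    exact h5 (s.image (α F)) i j
  · intro F c _ x y hxy
    exact h6 (c.s.image (α F)) c.i x y hxy
  · intro F f hf ε hε
    exact h7 (F.image (α F)) f hf ε hε

end Pool.Agent.H53.ZD
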