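import Pool.Agent.H53.ZD.System

/-!
# General lemmas for the limit system
-/

set_option autoImplicit false
set_option linter.unusedSectionVars false
open Set Filter Topology TopologicalSpace

namespace Pool.Agent.H53.ZD

/-- closure of a set under a countable-valued finitary operation -/
theorem exists_closure {Y : Type*} (Φ : Finset Y → Set Y) (hΦ : ∀ F, (Φ F).Countable) :
    ∃ cl : Set Y → Set Y, (∀ s, s ⊆ cl s) ∧ (∀ s t, s ⊆ t → cl s ⊆ cl t) ∧
      (∀ s, s.Countable → (cl s).Countable) ∧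
      (∀ s (F : Finset Y), (F : Set Y) ⊆ cl s → Φ F ⊆ cl s) := by
  let step : Set Y → Set Y := fun s => s ∪ ⋃ (F : Finset Y) (_ : (F : Set Y) ⊆ s), Φ F
  have hstep1 : ∀ s, s ⊆ step s := fun s => subset_union_left
  have hstep2 : ∀ s t, s ⊆ t → step s ⊆ step t := by
    intro s t h
    refine union_subset_union h ?_
    refine iUnion_mono fun F => ?_
    exact iUnion_mono' fun hF => ⟨hF.trans h, subset_rfl⟩
  have hstep3 : ∀ s, s.Countable → (step s).Countable := by
    intro s hs
    refine hs.union ?_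
    have : (⋃ (F : Finset Y) (_ : (F : Set Y) ⊆ s), Φ F) =
        ⋃ F ∈ {F : Finset Y | (F : Set Y) ⊆ s}, Φ F := rfl
    rw [this]
    refine Countable.biUnion ?_ fun F _ => hΦ F
    have hc : Countable s := hs.to_subtype
    classical
    refine (countable_range (fun F : Finset s => F.map (Function.Embedding.subtype _))).mono ?_
    intro F hF
    refine ⟨F.subtype (· ∈ s), ?_⟩
    ext y
    simp only [Finset.mem_map, Finset.mem_subtype, Function.Embedding.subtype_apply]
    constructor
    · rintro ⟨a, ha, rfl⟩; exact ha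
    · intro hy; exact ⟨⟨y, hF hy⟩, hy, rfl⟩
  let N : Set Y → ℕ → Set Y := fun s k => step^[k] s
  have hN : ∀ s k, N s (k + 1) = step (N s k) := fun s k => by
    show step^[k + 1] s = step (step^[k] s)
    rw [Function.iterate_succ_apply']
  have hNmono : ∀ s, Monotone (N s) := fun s => monotone_nat_of_le_succ fun k => by
    rw [hN]; exact hstep1 _
  refine ⟨fun s => ⋃ k, N s k, fun s => ?_, fun s t h => ?_, fun s hs => ?_, fun s F hF => ?_⟩
  · exact subset_iUnion_of_subset 0 subset_rfl
  · refine iUnion_mono fun k => ?_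
    induction k with
    | zero => exact h
    | succ k ih => rw [hN, hN]; exact hstep2 _ _ ih
  · refine countable_iUnion fun k => ?_
    induction k with
    | zero => exact hs
    | succ k ih => rw [hN]; exact hstep3 _ ih
  · -- `F` lies in some level
    obtain ⟨k, hk⟩ : ∃ k, (F : Set Y) ⊆ N s k := by
      have h1 : ∀ y ∈ F, ∃ k, y ∈ N s k := fun y hy => mem_iUnion.1 (hF hy)
      choose! k hk using h1
      exact ⟨F.sup k, fun y hy => hNmono s (Finset.le_sup (f := k) hy) (hk y hy)⟩
    refine subset_iUnion_of_subset (k + 1) ?_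
    rw [hN]
    exact fun y hy => Or.inr (mem_iUnion₂.2 ⟨F, hk, hy⟩)

/-! ### Density of simple functions -/

section dense
variable {X : Type*} [TopologicalSpace X] [CompactSpace X]

lemma ind_top : ind (⊤ : Clopens X) = 1 := by
  ext x; exact ind_of_mem (a := ⊤) trivial

lemma ind_inf (a b : Clopens X) : ind (a ⊓ b) = ind a * ind b := by
  ext x
  rw [ContinuousMap.mul_apply]
  by_cases ha : x ∈ a
  · by_cases hb : x ∈ b
    · rw [ind_of_mem (a := a ⊓ b) ⟨ha, hb⟩, ind_of_mem ha, ind_of_mem hb, mul_one]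
    · rw [ind_of_notMem (a := a ⊓ b) (fun h => hb h.2), ind_of_notMem hb, mul_zero]
  · rw [ind_of_notMem (a := a ⊓ b) (fun h => ha h.1), ind_of_notMem ha, zero_mul]

/-- simple functions built on a separating family of clopen sets are dense -/
theorem dense_span_ind (S : Set (Clopens X)) (htop : ⊤ ∈ S)
    (hinf : ∀ a ∈ S, ∀ b ∈ S, a ⊓ b ∈ S) (hsep : ∀ x y : X, x ≠ y → ∃ a ∈ S, ¬ (x ∈ a ↔ y ∈ a)) :
    Dense (Submodule.span ℝ (ind '' S) : Set C(X, ℝ)) := by
  -- the span is a subalgebra
  have hmul : ∀ f ∈ Submodule.span ℝ (ind '' S), ∀ g ∈ Submodule.span ℝ (ind '' S),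
      f * g ∈ Submodule.span ℝ (ind '' S) := by
    intro f hf g hg
    have h1 : f * g ∈ Submodule.span ℝ (ind '' S) * Submodule.span ℝ (ind '' S) :=
      Submodule.mul_mem_mul hf hg
    rw [Submodule.span_mul_span] at h1
    refine Submodule.span_mono ?_ h1
    rintro _ ⟨_, ⟨a, ha, rfl⟩, _, ⟨b, hb, rfl⟩, rfl⟩
    exact ⟨a ⊓ b, hinf a ha b hb, ind_inf a b⟩
  let A : Subalgebra ℝ C(X, ℝ) :=
    { (Submodule.span ℝ (ind '' S)) with
      mul_mem' := fun {f g} hf hg => hmul f hf g hg
      algebraMap_mem' := by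
        intro r
        have : algebraMap ℝ C(X, ℝ) r = r • ind (⊤ : Clopens X) := by
          rw [ind_top, Algebra.algebraMap_eq_smul_one]
        rw [this]
        exact Submodule.smul_mem _ _ (Submodule.subset_span ⟨⊤, htop, rfl⟩) }
  have hA : A.SeparatesPoints := by
    intro x y hxy
    obtain ⟨a, ha, hne⟩ := hsep x y hxy
    refine ⟨ind a, ⟨ind a, Submodule.subset_span ⟨a, ha, rfl⟩, rfl⟩, ?_⟩
    by_cases hx : x ∈ a
    · have hy : y ∉ a := fun hy => hne ⟨fun _ => hy, fun _ => hx⟩
      rw [ind_of_mem hx, ind_of_notMem hy]; exact one_ne_zero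
    · have hy : y ∈ a := by
        by_contra hy
        exact hne ⟨fun h => absurd h hx, fun h => absurd h hy⟩
      rw [ind_of_notMem hx, ind_of_mem hy]; exact zero_ne_one
  have h := ContinuousMap.subalgebra_topologicalClosure_eq_top_of_separatesPoints A hA
  intro f
  have hf : f ∈ A.topologicalClosure := by rw [h]; trivial
  exact hf

/-- in a totally disconnected compact space all simple functions are dense -/
theorem dense_span_ind_univ [T2Space X] [TotallyDisconnectedSpace X] :
    Dense (Submodule.span ℝ (ind '' (univ : Set (Clopens X))) : Set C(X, ℝ)) := by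
  refine dense_span_ind univ trivial (fun _ _ _ _ => trivial) fun x y hxy => ?_
  obtain ⟨U, hU, hx, hy⟩ := exists_isClopen_of_totally_separated hxy
  refine ⟨⟨U, hU⟩, trivial, fun h => ?_⟩
  exact hy (h.1 hx)

end dense

/-! ### Dependence on coordinates -/

/-- a continuous function on the ball depends on countably many coordinates -/
theorem exists_countable_dep {ι : Type*} (f : C(Ball ι, ℝ)) :
    ∃ S : Set ι, S.Countable ∧ ∀ x y : Ball ι, (∀ i ∈ S, x i = y i) → f x = f y := by
  have h : ∀ n : ℕ, ∃ F : Finset ι, ∀ x y : Ball ι, (∀ i ∈ F, x i = y i) →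
      |f x - f y| < 1 / ((n : ℝ) + 1) := by
    intro n
    obtain ⟨F, d, hd, hF⟩ := Ball.unif_dep f.continuous (ε := 1 / ((n : ℝ) + 1)) (by positivity)
    exact ⟨F, fun x y hxy => hF x y fun i hi => by rw [hxy i hi, sub_self, abs_zero]; exact hd⟩
  choose F hF using h
  refine ⟨⋃ n, (F n : Set ι), countable_iUnion fun n => (F n).countable_toSet, fun x y hxy => ?_⟩
  by_contra hne
  have hpos : 0 < |f x - f y| := abs_pos.2 (sub_ne_zero.2 hne)
  obtain ⟨n, hn⟩ := exists_nat_one_div_lt hpos
  have := hF n x y fun i hi => hxy i (mem_iUnion.2 ⟨n, hi⟩)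
  linarith

/-- extension by zero of a point over a finite set of coordinates -/
noncomputable def extz {ι : Type*} (E : Finset ι) (x : Ball E) : Ball ι := by
  classical
  exact ⟨fun i => if h : i ∈ E then x ⟨i, h⟩ else 0, fun s => by
    have h1 : ∑ i ∈ s, |if h : i ∈ E then x ⟨i, h⟩ else 0| ≤ ∑ i ∈ E, |if h : i ∈ E then x ⟨i, h⟩ else 0| := by
      have : ∑ i ∈ s, |if h : i ∈ E then x ⟨i, h⟩ else 0|
          = ∑ i ∈ s ∩ E, |if h : i ∈ E then x ⟨i, h⟩ else 0| := by
        symm
        apply Finset.sum_subset Finset.inter_subset_left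
        intro i hi hi2
        have : i ∉ E := fun h => hi2 (Finset.mem_inter.2 ⟨hi, h⟩)
        rw [dif_neg this, abs_zero]
      rw [this]
      exact Finset.sum_le_sum_of_subset_of_nonneg Finset.inter_subset_right
        fun _ _ _ => abs_nonneg _
    refine h1.trans ?_
    rw [← Finset.sum_attach]
    refine le_trans (le_of_eq ?_) (x.sum_le E.attach)
    refine Finset.sum_congr rfl fun i _ => ?_
    rw [dif_pos i.2]⟩

lemma extz_of_mem {ι : Type*} (E : Finset ι) (x : Ball E) {i : ι} (h : i ∈ E) :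
    extz E x i = x ⟨i, h⟩ := by
  classical
  exact dif_pos h

lemma extz_of_notMem {ι : Type*} (E : Finset ι) (x : Ball E) {i : ι} (h : i ∉ E) :
    extz E x i = 0 := by
  classical
  exact dif_neg h

lemma continuous_extz {ι : Type*} (E : Finset ι) : Continuous (extz E) := by
  rw [Ball.continuous_iff]
  intro i
  by_cases h : i ∈ E
  · simp only [extz_of_mem E _ h]; exact Ball.continuous_coord _
  · simp only [extz_of_notMem E _ h]; exact continuous_const

/-- restriction to a finite set of coordinates -/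
noncomputable def toE {ι : Type*} (E : Finset ι) (x : Ball ι) : Ball E :=
  ⟨fun i => x i, fun s => by
    have := x.sum_le (s.map (Function.Embedding.subtype _))
    rwa [Finset.sum_map] at this⟩

lemma toE_apply {ι : Type*} (E : Finset ι) (x : Ball ι) (i : E) : toE E x i = x i := rfl

lemma continuous_toE {ι : Type*} (E : Finset ι) : Continuous (toE E) := by
  rw [Ball.continuous_iff]
  exact fun i => Ball.continuous_coord _

lemma extz_toE {ι : Type*} (E : Finset ι) (x : Ball ι) :
    extz E (toE E x) = Ball.res (E : Set ι) x := by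
  ext i
  by_cases h : i ∈ E
  · rw [extz_of_mem E _ h, toE_apply, Ball.res_of_mem _ (by exact_mod_cast h)]
  · rw [extz_of_notMem E _ h, Ball.res_of_notMem _ (by exact_mod_cast h)]

/-- countably many clopen sets suffice for functions depending on finitely many coordinates -/
theorem exists_countable_clopens {ι : Type*} {L : Type*} [TopologicalSpace L]
    [CompactSpace L] [T2Space L] [TotallyDisconnectedSpace L] (T : C(L, ℝ) ≃L[ℝ] C(Ball ι, ℝ))
    (E : Finset ι) : ∃ D : Set (Clopens L), D.Countable ∧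
      ∀ f : C(Ball ι, ℝ), (∀ x, f (Ball.res (E : Set ι) x) = f x) →
        ∀ ε > 0, ∃ φ ∈ Submodule.span ℝ (ind '' D), ‖f - T φ‖ < ε := by
  -- a countable dense subset of the functions of finitely many coordinates
  obtain ⟨Q, hQc, hQd⟩ := exists_countable_dense C(Ball E, ℝ)
  let lift : C(Ball E, ℝ) → C(Ball ι, ℝ) := fun f => f.comp ⟨toE E, continuous_toE E⟩
  -- for each element of `Q` and each `n` finitely many clopen sets
  have h1 : ∀ (f : C(Ball ι, ℝ)) (n : ℕ), ∃ D : Finset (Clopens L),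
      ∃ φ ∈ Submodule.span ℝ (ind '' (D : Set (Clopens L))), ‖f - T φ‖ < 1 / ((n : ℝ) + 1) := by
    intro f n
    have hpos : (0 : ℝ) < 1 / ((n : ℝ) + 1) := by positivity
    -- approximate `T⁻¹ f`
    have hC : (0 : ℝ) < ‖(T : C(L, ℝ) →L[ℝ] C(Ball ι, ℝ))‖ + 1 := by positivity
    obtain ⟨φ, hφ, hφ2⟩ := Metric.dense_iff.1 (dense_span_ind_univ (X := L)) (T.symm f)
      (1 / ((n : ℝ) + 1) / (‖(T : C(L, ℝ) →L[ℝ] C(Ball ι, ℝ))‖ + 1)) (by positivity)
    rw [Metric.mem_ball, dist_eq_norm] at hφ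
    obtain ⟨D, -, hD⟩ : ∃ D : Finset (Clopens L), (D : Set (Clopens L)) ⊆ univ ∧
        φ ∈ Submodule.span ℝ (ind '' (D : Set (Clopens L))) := by
      have h3 := hφ2
      rw [SetLike.mem_coe, Submodule.mem_span_image_iff_exists_fun] at h3
      obtain ⟨t, ht, c, hc⟩ := h3
      refine ⟨t, subset_univ _, ?_⟩
      rw [← hc]
      refine Submodule.sum_mem _ fun i _ => Submodule.smul_mem _ _ ?_
      exact Submodule.subset_span ⟨i, i.2, rfl⟩
    refine ⟨D, φ, hD, ?_⟩
    have h4 : f - T φ = T (T.symm f - φ) := by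
      rw [map_sub, ContinuousLinearEquiv.apply_symm_apply]
    rw [h4]
    calc ‖T (T.symm f - φ)‖ ≤ ‖(T : C(L, ℝ) →L[ℝ] C(Ball ι, ℝ))‖ * ‖T.symm f - φ‖ :=
          (T : C(L, ℝ) →L[ℝ] C(Ball ι, ℝ)).le_opNorm _
      _ ≤ (‖(T : C(L, ℝ) →L[ℝ] C(Ball ι, ℝ))‖ + 1) * ‖T.symm f - φ‖ :=
          mul_le_mul_of_nonneg_right (by linarith) (norm_nonneg _)
      _ < (‖(T : C(L, ℝ) →L[ℝ] C(Ball ι, ℝ))‖ + 1) * (1 / ((n : ℝ) + 1) /
            (‖(T : C(L, ℝ) →L[ℝ] C(Ball ι, ℝ))‖ + 1)) := by
          refine mul_lt_mul_of_pos_left ?_ hC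
          rw [norm_sub_rev]; exact hφ
      _ = 1 / ((n : ℝ) + 1) := by field_simp
  choose D φ hφ hφ2 using h1
  refine ⟨⋃ f ∈ Q, ⋃ n, (D (lift f) n : Set (Clopens L)),
    hQc.biUnion fun f _ => countable_iUnion fun n => (D _ n).countable_toSet, ?_⟩
  intro f hf ε hε
  -- approximate `f` by an element of `Q`
  obtain ⟨q, hq1, hq2⟩ := Metric.dense_iff.1 hQd (f.comp ⟨extz E, continuous_extz E⟩) (ε / 2)
    (by positivity)
  obtain ⟨n, hn⟩ := exists_nat_one_div_lt (show 0 < ε / 2 by positivity)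
  refine ⟨φ (lift q) n, Submodule.span_mono (image_mono ?_) (hφ (lift q) n), ?_⟩
  · intro a ha
    exact mem_iUnion₂.2 ⟨q, hq2, mem_iUnion.2 ⟨n, ha⟩⟩
  · have h5 : ‖f - lift q‖ ≤ ε / 2 := by
      rw [ContinuousMap.norm_le _ (by positivity)]
      intro x
      rw [Metric.mem_ball, dist_comm, dist_eq_norm] at hq1
      have h6 := (ContinuousMap.norm_coe_le_norm
        (f.comp ⟨extz E, continuous_extz E⟩ - q) (toE E x)).trans hq1.le
      have h7 : (f.comp ⟨extz E, continuous_extz E⟩ - q) (toE E x) = (f - lift q) x := by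
        show f (extz E (toE E x)) - q (toE E x) = f x - q (toE E x)
        rw [extz_toE, hf]
      rwa [h7] at h6
    calc ‖f - T (φ (lift q) n)‖ = ‖(f - lift q) + (lift q - T (φ (lift q) n))‖ := by
          congr 1; abel
      _ ≤ ‖f - lift q‖ + ‖lift q - T (φ (lift q) n)‖ := norm_add_le _ _
      _ < ε / 2 + ε / 2 := add_lt_add_of_le_of_lt h5 ((hφ2 _ _).trans hn)
      _ = ε := by ring

end Pool.Agent.H53.ZD
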