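import Pool.Agent.H53.ZD.LimGen

/-!
# The levels of a zero-dimensional model
-/

set_option autoImplicit false
set_option linter.unusedSectionVars false
open Set Filter Topology TopologicalSpace

universe u v

namespace Pool.Agent.H53.ZD

theorem exists_levels {ι : Type u} [Nonempty ι] {L : Type v} [TopologicalSpace L]
    [CompactSpace L] [T2Space L] [TotallyDisconnectedSpace L]
    (T : C(L, ℝ) ≃L[ℝ] C(Ball ι, ℝ)) :
    ∃ (ψ : Finset ι → ℕ → ι) (θ : Finset ι → ℕ → Clopens L),
      (∀ x, ψ {x} 0 = x) ∧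
      (∀ s t, s ⊆ t → ∀ i, ∃ j, ψ s i = ψ t j) ∧
      (∀ s t, s ⊆ t → ∀ i, ∃ j, θ s i = θ t j) ∧
      (∀ s, ∃ i, θ s i = ⊤) ∧
      (∀ s i j, ∃ k, θ s k = θ s i ⊓ θ s j) ∧
      (∀ s i (x y : Ball ι), (∀ j, x (ψ s j) = y (ψ s j)) →
        T (ind (θ s i)) x = T (ind (θ s i)) y) ∧
      (∀ s (f : C(Ball ι, ℝ)), (∀ x, f (Ball.res (range (ψ s)) x) = f x) → ∀ ε > 0,
        ∃ φ ∈ Submodule.span ℝ (range fun i => ind (θ s i)), ‖f - T φ‖ < ε) := by
  classical
  obtain ⟨x₀⟩ := ‹Nonempty ι›
  choose S hSc hS using fun a : Clopens L => exists_countable_dep (T (ind a))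
  choose D hDc hD using fun E : Finset ι => exists_countable_clopens T E
  let Φ : Finset (ι ⊕ Clopens L) → Set (ι ⊕ Clopens L) := fun F =>
    (⋃ a ∈ F.toRight, Sum.inl '' S a) ∪ Sum.inr '' D F.toLeft ∪
      ((fun p : Clopens L × Clopens L => Sum.inr (p.1 ⊓ p.2)) '' (F.toRight ×ˢ F.toRight)) ∪
      {Sum.inl x₀, Sum.inr ⊤}
  have hΦ : ∀ F, (Φ F).Countable := by
    intro F
    refine (((Countable.biUnion (Finset.countable_toSet _) fun a _ => (hSc a).image _).union
      ((hDc _).image _)).union ((Countable.image ?_ _))).union ?_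
    · exact (Finset.countable_toSet _).prod (Finset.countable_toSet _)
    · exact (Set.toFinite _).countable
  obtain ⟨cl, hcl1, hcl2, hcl3, hcl4⟩ := exists_closure Φ hΦ
  let cs : Finset ι → Set (ι ⊕ Clopens L) := fun s => cl (Sum.inl '' (s : Set ι))
  have hcsc : ∀ s, (cs s).Countable := fun s => hcl3 _ (s.countable_toSet.image _)
  have hcsm : ∀ s t, s ⊆ t → cs s ⊆ cs t := fun s t h =>
    hcl2 _ _ (image_mono (by exact_mod_cast h))
  have hx₀ : ∀ s, Sum.inl x₀ ∈ cs s := fun s =>
    hcl4 (Sum.inl '' (s : Set ι)) ∅ (by simp) (Or.inr (by simp))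
  have htop : ∀ s, Sum.inr ⊤ ∈ cs s := fun s =>
    hcl4 (Sum.inl '' (s : Set ι)) ∅ (by simp) (Or.inr (by simp))
  let Hs : Finset ι → Set ι := fun s => Sum.inl ⁻¹' cs s
  let As : Finset ι → Set (Clopens L) := fun s => Sum.inr ⁻¹' cs s
  have hsub : ∀ s : Finset ι, ∀ x ∈ s, x ∈ Hs s := fun s x hx => hcl1 _ ⟨x, hx, rfl⟩
  have hHc : ∀ s, (Hs s).Countable := fun s => (hcsc s).preimage Sum.inl_injective
  have hAc : ∀ s, (As s).Countable := fun s => (hcsc s).preimage Sum.inr_injective
  have hg : ∀ s, ∃ g : ℕ → ι, Hs s = range g := fun s => (hHc s).exists_eq_range ⟨x₀, hx₀ s⟩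
  have ht : ∀ s, ∃ g : ℕ → Clopens L, As s = range g := fun s =>
    (hAc s).exists_eq_range ⟨⊤, htop s⟩
  choose g hg using hg
  choose θ hθ using ht
  let b : Finset ι → ι := fun s => if h : s.Nonempty then h.choose else x₀
  have hb : ∀ s, b s ∈ Hs s := by
    intro s
    by_cases h : s.Nonempty
    · have : b s = h.choose := dif_pos h
      rw [this]; exact hsub s _ h.choose_spec
    · have : b s = x₀ := dif_neg h
      rw [this]; exact hx₀ s
  let ψ : Finset ι → ℕ → ι := fun s n => n.casesOn (b s) (g s)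
  have hψ : ∀ s, range (ψ s) = Hs s := by
    intro s
    ext y
    constructor
    · rintro ⟨n, rfl⟩
      cases n with
      | zero => exact hb s
      | succ n => rw [hg s]; exact ⟨n, rfl⟩
    · intro hy
      rw [hg s] at hy
      obtain ⟨n, rfl⟩ := hy
      exact ⟨n + 1, rfl⟩
  refine ⟨ψ, θ, fun x => ?_, fun s t h i => ?_, fun s t h i => ?_, fun s => ?_, fun s i j => ?_,
    fun s i x y hxy => ?_, fun s f hf ε hε => ?_⟩
  · show b {x} = x
    have h : ({x} : Finset ι).Nonempty := Finset.singleton_nonempty x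
    have : b {x} = h.choose := dif_pos h
    rw [this]
    exact Finset.mem_singleton.1 h.choose_spec
  · have h1 : ψ s i ∈ Hs s := by rw [← hψ]; exact mem_range_self _
    have h2 : ψ s i ∈ range (ψ t) := by rw [hψ]; exact hcsm s t h h1
    obtain ⟨j, hj⟩ := h2
    exact ⟨j, hj.symm⟩
  · have h1 : θ s i ∈ As s := by rw [hθ]; exact mem_range_self _
    have h2 : θ s i ∈ range (θ t) := by rw [← hθ]; exact hcsm s t h h1
    obtain ⟨j, hj⟩ := h2
    exact ⟨j, hj.symm⟩
  · have : ⊤ ∈ range (θ s) := by rw [← hθ]; exact htop s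
    exact this
  · have hi : θ s i ∈ As s := by rw [hθ]; exact mem_range_self _
    have hj : θ s j ∈ As s := by rw [hθ]; exact mem_range_self _
    have : θ s i ⊓ θ s j ∈ range (θ s) := by
      rw [← hθ]
      refine hcl4 (Sum.inl '' (s : Set ι)) {Sum.inr (θ s i), Sum.inr (θ s j)} ?_ ?_
      · intro y hy
        simp only [Finset.coe_insert, Finset.coe_singleton, mem_insert_iff,
          mem_singleton_iff] at hy
        rcases hy with rfl | rfl
        · exact hi
        · exact hj
      · refine Or.inl (Or.inr ⟨(θ s i, θ s j), ?_, rfl⟩)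
        simp
    exact this
  · have hi : θ s i ∈ As s := by rw [hθ]; exact mem_range_self _
    refine hS (θ s i) x y fun k hk => ?_
    have h1 : k ∈ Hs s := by
      refine hcl4 (Sum.inl '' (s : Set ι)) {Sum.inr (θ s i)} ?_ ?_
      · intro y hy
        simp only [Finset.coe_singleton, mem_singleton_iff] at hy
        rw [hy]; exact hi
      · refine Or.inl (Or.inl (Or.inl (mem_iUnion₂.2 ⟨θ s i, ?_, k, hk, rfl⟩)))
        simp
    rw [← hψ] at h1
    obtain ⟨j, rfl⟩ := h1
    exact hxy j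
  · obtain ⟨E, hE⟩ := Ball.approx_res f.continuous (half_pos hε)
    let E' : Finset ι := E.filter (· ∈ Hs s)
    have hE'H : ∀ i ∈ E', i ∈ Hs s := fun i hi => (Finset.mem_filter.1 hi).2
    have key : ∀ x, f (Ball.res (E' : Set ι) x) = f (Ball.res (E : Set ι) x) := by
      intro x
      rw [← hf (Ball.res (E : Set ι) x), hψ, Ball.res_res]
      congr 2
      ext i
      simp only [E', Finset.coe_filter, mem_inter_iff, Finset.mem_coe, mem_ofPred_eq]
      exact and_comm
    let f' : C(Ball ι, ℝ) := f.comp ⟨Ball.res (E' : Set ι), Ball.continuous_res _⟩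
    have hf' : ∀ x, f' (Ball.res (E' : Set ι) x) = f' x := by
      intro x
      show f (Ball.res (E' : Set ι) (Ball.res (E' : Set ι) x)) = f (Ball.res (E' : Set ι) x)
      rw [Ball.res_res, inter_self]
    obtain ⟨φ, hφ1, hφ2⟩ := hD E' f' hf' (ε / 2) (half_pos hε)
    refine ⟨φ, Submodule.span_mono ?_ hφ1, ?_⟩
    · rintro _ ⟨a, ha, rfl⟩
      have ha' : a ∈ range (θ s) := by
        rw [← hθ]
        refine hcl4 (Sum.inl '' (s : Set ι)) (E'.map Function.Embedding.inl) ?_ ?_
        · intro y hy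
          simp only [Finset.coe_map, mem_image, Finset.mem_coe, Function.Embedding.inl_apply] at hy
          obtain ⟨i, hi, rfl⟩ := hy
          exact hE'H i hi
        · refine Or.inl (Or.inl (Or.inr ⟨a, ?_, rfl⟩))
          have : (E'.map Function.Embedding.inl : Finset (ι ⊕ Clopens L)).toLeft = E' := by
            ext i; simp
          rw [this]; exact ha
      obtain ⟨i, rfl⟩ := ha'
      exact ⟨i, rfl⟩
    · have h5 : ‖f - f'‖ ≤ ε / 2 := by
        rw [ContinuousMap.norm_le _ (half_pos hε).le]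
        intro x
        have h6 := hE (E : Set ι) (fun i hi => hi) x
        show |f x - f (Ball.res (E' : Set ι) x)| ≤ ε / 2
        rw [key, abs_sub_comm]
        exact h6.le
      calc ‖f - T φ‖ = ‖(f - f') + (f' - T φ)‖ := by congr 1; abel
        _ ≤ ‖f - f'‖ + ‖f' - T φ‖ := norm_add_le _ _
        _ < ε / 2 + ε / 2 := add_lt_add_of_le_of_lt h5 hφ2
        _ = ε := by ring

end Pool.Agent.H53.ZD
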