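import Pool.Agent.H53.ZD.LimLevels

/-!
# Transport of points along partial injections, rational points
-/

set_option autoImplicit false
set_option linter.unusedSectionVars false
open Set Filter Topology TopologicalSpace

namespace Pool.Agent.H53.ZD

section trans
variable {κ κ' : Type*}

/-- transport of a point along a partial injection -/
noncomputable def trans (p : κ' → Option κ)
    (hp : ∀ a b c, p a = some c → p b = some c → a = b) (x : Ball κ) : Ball κ' :=
  ⟨fun k => (p k).elim 0 x, fun s => by
    classical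
    have key : ∀ s : Finset κ', ∃ t : Finset κ, (∀ c ∈ t, ∃ a ∈ s, p a = some c) ∧
        ∑ k ∈ s, |(p k).elim 0 x| = ∑ c ∈ t, |x c| := by
      intro s
      induction s using Finset.induction_on with
      | empty => exact ⟨∅, by simp, by simp⟩
      | insert a s ha ih =>
        obtain ⟨t, ht1, ht2⟩ := ih
        rcases hpa : p a with _ | c
        · refine ⟨t, fun c hc => ?_, ?_⟩
          · obtain ⟨b, hb, hb'⟩ := ht1 c hc
            exact ⟨b, Finset.mem_insert_of_mem hb, hb'⟩
          · rw [Finset.sum_insert ha, ht2, hpa]; simp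
        · refine ⟨insert c t, fun c' hc' => ?_, ?_⟩
          · rcases Finset.mem_insert.1 hc' with rfl | hc'
            · exact ⟨a, Finset.mem_insert_self _ _, hpa⟩
            · obtain ⟨b, hb, hb'⟩ := ht1 c' hc'
              exact ⟨b, Finset.mem_insert_of_mem hb, hb'⟩
          · rw [Finset.sum_insert ha, ht2, hpa, Finset.sum_insert]
            · rfl
            · intro hct
              obtain ⟨b, hb, hb'⟩ := ht1 c hct
              exact ha (hp b a c hb' hpa ▸ hb)
    obtain ⟨t, -, ht⟩ := key s
    rw [ht]
    exact x.sum_le t⟩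

lemma trans_apply (p : κ' → Option κ) (hp : ∀ a b c, p a = some c → p b = some c → a = b)
    (x : Ball κ) (k : κ') : trans p hp x k = (p k).elim 0 x := rfl

lemma trans_some {p : κ' → Option κ} (hp : ∀ a b c, p a = some c → p b = some c → a = b)
    (x : Ball κ) {k : κ'} {c : κ} (h : p k = some c) : trans p hp x k = x c := by
  rw [trans_apply, h]; rfl

lemma trans_none {p : κ' → Option κ} (hp : ∀ a b c, p a = some c → p b = some c → a = b)
    (x : Ball κ) {k : κ'} (h : p k = none) : trans p hp x k = 0 := by
  rw [trans_apply, h]; rfl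

lemma continuous_trans (p : κ' → Option κ)
    (hp : ∀ a b c, p a = some c → p b = some c → a = b) : Continuous (trans p hp) := by
  rw [Ball.continuous_iff]
  intro k
  rcases h : p k with _ | c
  · simp only [trans_none hp _ h]; exact continuous_const
  · simp only [trans_some hp _ h]; exact Ball.continuous_coord c

end trans

open Classical in
/-- the value of the finitely supported function with a given list of coordinates -/
noncomputable def ptf {κ : Type*} (l : List (κ × ℚ)) (k : κ) : ℝ :=
  (l.map fun p => if p.1 = k then (p.2 : ℝ) else 0).sum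

lemma ptf_bound {κ : Type*} (l : List (κ × ℚ)) (h : (l.map fun p => |(p.2 : ℝ)|).sum ≤ 1)
    (s : Finset κ) : ∑ i ∈ s, |ptf l i| ≤ 1 := by
  classical
  refine le_trans ?_ h
  clear h
  induction l with
  | nil => simp [ptf]
  | cons a l ih =>
    have e1 : ∀ k, ptf (a :: l) k = (if a.1 = k then (a.2 : ℝ) else 0) + ptf l k := by
      intro k
      simp only [ptf, List.map_cons, List.sum_cons]
    simp only [e1, List.map_cons, List.sum_cons]
    refine (Finset.sum_le_sum fun k _ => abs_add_le _ _).trans ?_
    rw [Finset.sum_add_distrib]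
    refine add_le_add ?_ ih
    by_cases ha : a.1 ∈ s
    · rw [Finset.sum_eq_single a.1]
      · simp
      · intro b _ hb
        rw [if_neg (Ne.symm hb), abs_zero]
      · exact fun h => absurd ha h
    · rw [Finset.sum_eq_zero]
      · exact abs_nonneg _
      · intro b hb
        have : a.1 ≠ b := fun h => ha (h ▸ hb)
        rw [if_neg this, abs_zero]

open Classical in
/-- the finitely supported point with the given list of coordinates -/
noncomputable def pt {κ : Type*} (l : List (κ × ℚ)) : Ball κ :=
  if h : (l.map fun p => |(p.2 : ℝ)|).sum ≤ 1 then Ball.mk' (ptf l) (ptf_bound l h) else 0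

open Classical in
lemma pt_apply {κ : Type*} (l : List (κ × ℚ)) (h : (l.map fun p => |(p.2 : ℝ)|).sum ≤ 1) (k : κ) :
    pt l k = (l.map fun p => if p.1 = k then (p.2 : ℝ) else 0).sum := by
  have : pt l = Ball.mk' (ptf l) (ptf_bound l h) := dif_pos h
  rw [this]
  rfl

lemma pt_of_not {κ : Type*} (l : List (κ × ℚ)) (h : ¬ (l.map fun p => |(p.2 : ℝ)|).sum ≤ 1) :
    pt l = 0 := dif_neg h

lemma trans_pt {κ κ' : Type*} (p : κ' → Option κ)
    (hp : ∀ a b c, p a = some c → p b = some c → a = b) (β : κ → κ') (l : List (κ × ℚ))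
    (hl : ∀ c ∈ l, p (β c.1) = some c.1) :
    trans p hp (pt l) = pt (l.map fun c => (β c.1, c.2)) := by
  classical
  have hsum : ((l.map fun c => (β c.1, c.2)).map fun p => |(p.2 : ℝ)|).sum
      = (l.map fun p => |(p.2 : ℝ)|).sum := by
    rw [List.map_map]; rfl
  by_cases h : (l.map fun p => |(p.2 : ℝ)|).sum ≤ 1
  · ext k
    rw [pt_apply _ (hsum ▸ h), List.map_map]
    rcases hk : p k with _ | c
    · rw [trans_none hp _ hk]
      symm
      apply List.sum_eq_zero
      intro y hy
      rw [List.mem_map] at hy
      obtain ⟨a, ha, rfl⟩ := hy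
      simp only [Function.comp]
      rw [if_neg]
      rintro rfl
      rw [hl a ha] at hk
      exact absurd hk (by simp)
    · rw [trans_some hp _ hk, pt_apply _ h]
      congr 1
      apply List.map_congr_left
      intro a ha
      simp only [Function.comp]
      have h1 : a.1 = c ↔ β a.1 = k := by
        constructor
        · rintro rfl
          exact hp _ _ _ (hl a ha) hk
        · rintro rfl
          rw [hl a ha] at hk
          exact Option.some.inj hk
      by_cases h2 : a.1 = c
      · rw [if_pos h2, if_pos (h1.1 h2)]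
      · rw [if_neg h2, if_neg (fun h3 => h2 (h1.2 h3))]
  · rw [pt_of_not _ h, pt_of_not _ (hsum ▸ h)]
    ext k
    rcases hk : p k with _ | c
    · rw [trans_none hp _ hk]; rfl
    · rw [trans_some hp _ hk]; rfl

lemma exists_rat_approx (a d : ℝ) (hd : 0 < d) : ∃ r : ℚ, |(r : ℝ)| ≤ |a| ∧ |a - r| < d := by
  rcases lt_trichotomy a 0 with h | h | h
  · obtain ⟨r, hr1, hr2⟩ := exists_rat_btwn (show a < min 0 (a + d) from lt_min h (by linarith))
    rw [lt_min_iff] at hr2
    refine ⟨r, ?_, ?_⟩
    · rw [abs_of_neg h, abs_of_neg hr2.1]; linarith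
    · rw [abs_lt]; constructor <;> linarith [hr2.2]
  · exact ⟨0, by simp, by rw [h]; simpa using hd⟩
  · obtain ⟨r, hr1, hr2⟩ := exists_rat_btwn (show max 0 (a - d) < a from max_lt h (by linarith))
    rw [max_lt_iff] at hr1
    refine ⟨r, ?_, ?_⟩
    · rw [abs_of_pos h, abs_of_pos hr1.1]; linarith
    · rw [abs_lt]; constructor <;> linarith [hr1.2]

/-- two continuous functions which agree at the rational points supported in `A` agree at all
points supported in `A` -/
lemma eq_of_eq_on_pt {κ : Type*} (A : Set κ) (f g : C(Ball κ, ℝ))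
    (h : ∀ l : List (κ × ℚ), (∀ p ∈ l, p.1 ∈ A) → f (pt l) = g (pt l)) (x : Ball κ) :
    f (Ball.res A x) = g (Ball.res A x) := by
  classical
  by_contra hne
  have hpos : 0 < |f (Ball.res A x) - g (Ball.res A x)| / 2 := by
    have := abs_pos.2 (sub_ne_zero.2 hne); linarith
  obtain ⟨F₁, d₁, hd₁, h₁⟩ := Ball.unif_dep f.continuous hpos
  obtain ⟨F₂, d₂, hd₂, h₂⟩ := Ball.unif_dep g.continuous hpos
  choose r hr1 hr2 using fun i : κ => exists_rat_approx (x i) (min d₁ d₂) (lt_min hd₁ hd₂)
  let E : Finset κ := (F₁ ∪ F₂).filter (· ∈ A)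
  let l : List (κ × ℚ) := E.toList.map fun i => (i, r i)
  have hsum : (l.map fun p => |(p.2 : ℝ)|).sum ≤ 1 := by
    have e1 : (l.map fun p => |(p.2 : ℝ)|).sum = ∑ i ∈ E, |(r i : ℝ)| := by
      simp only [l, List.map_map]
      exact Finset.sum_map_toList E (fun i => |(r i : ℝ)|)
    rw [e1]
    exact (Finset.sum_le_sum fun i _ => hr1 i).trans (x.sum_le E)
  have hval : ∀ k, pt l k = if k ∈ E then (r k : ℝ) else 0 := by
    intro k
    rw [pt_apply _ hsum]
    have e1 : (l.map fun p => if p.1 = k then (p.2 : ℝ) else 0).sum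
        = ∑ i ∈ E, (if i = k then (r i : ℝ) else 0) := by
      simp only [l, List.map_map]
      exact Finset.sum_map_toList E (fun i => if i = k then (r i : ℝ) else 0)
    rw [e1, Finset.sum_ite_eq']
  have hclose : ∀ i ∈ F₁ ∪ F₂, |Ball.res A x i - pt l i| < min d₁ d₂ := by
    intro i hi
    rw [hval]
    by_cases hA : i ∈ A
    · rw [Ball.res_of_mem _ hA, if_pos (Finset.mem_filter.2 ⟨hi, hA⟩)]
      exact hr2 i
    · rw [Ball.res_of_notMem _ hA, if_neg (fun h' => hA (Finset.mem_filter.1 h').2), sub_zero,
        abs_zero]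
      exact lt_min hd₁ hd₂
  have k1 := h₁ (Ball.res A x) (pt l) fun i hi =>
    (hclose i (Finset.mem_union_left _ hi)).trans_le (min_le_left _ _)
  have k2 := h₂ (Ball.res A x) (pt l) fun i hi =>
    (hclose i (Finset.mem_union_right _ hi)).trans_le (min_le_right _ _)
  have k3 := h l (by
    intro p hp
    simp only [l, List.mem_map, Finset.mem_toList] at hp
    obtain ⟨i, hi, rfl⟩ := hp
    exact (Finset.mem_filter.1 hi).2)
  rw [k3] at k1
  have := abs_sub_le (f (Ball.res A x)) (g (pt l)) (g (Ball.res A x))
  rw [abs_sub_comm (g (pt l))] at this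
  linarith

end Pool.Agent.H53.ZD
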