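import Pool.Agent.H53.ZD.LimCoh

/-!
# The limit spaces
-/

set_option autoImplicit false
set_option linter.unusedSectionVars false
open Set Filter Topology TopologicalSpace

universe u v

namespace Pool.Agent.H53.ZD

namespace Coh

variable {ι : Type u} {L : Type v} [TopologicalSpace L] [CompactSpace L] [T2Space L]
    [TotallyDisconnectedSpace L] {T : C(L, ℝ) ≃L[ℝ] C(Ball ι, ℝ)} (K : Coh T)

/-! ### the limit index set -/

/-- two codes name the same coordinate -/
def rel (c c' : Code) : Prop := K.ψ (c.s ∪ c'.s) c = K.ψ (c.s ∪ c'.s) c'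

lemma rel_iff {F : Finset ℚ} {c c' : Code} (hc : c.s ⊆ F) (hc' : c'.s ⊆ F) :
    K.rel c c' ↔ K.ψ F c = K.ψ F c' := by
  have := K.eqv 1 (c.s ∪ c'.s) F c c' Finset.subset_union_left Finset.subset_union_right
    (by rw [one_smul]; exact hc) (by rw [one_smul]; exact hc')
  rw [one_smul, one_smul] at this
  exact this

lemma rel_smul (g : G) (c c' : Code) : K.rel c c' ↔ K.rel (g • c) (g • c') :=
  K.eqv g (c.s ∪ c'.s) ((g • c).s ∪ (g • c').s) c c' Finset.subset_union_left
    Finset.subset_union_right Finset.subset_union_left Finset.subset_union_right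

/-- the equivalence relation on codes -/
def setoid : Setoid Code where
  r := K.rel
  iseqv :=
    { refl := fun c => rfl
      symm := by
        intro c c' h
        rw [K.rel_iff (F := c.s ∪ c'.s) Finset.subset_union_right Finset.subset_union_left]
        exact h.symm
      trans := by
        intro a b c h1 h2
        have ha : a.s ⊆ a.s ∪ b.s ∪ c.s :=
          Finset.subset_union_left.trans Finset.subset_union_left
        have hb : b.s ⊆ a.s ∪ b.s ∪ c.s :=
          Finset.subset_union_right.trans Finset.subset_union_left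
        have hc : c.s ⊆ a.s ∪ b.s ∪ c.s := Finset.subset_union_right
        rw [K.rel_iff ha hb] at h1
        rw [K.rel_iff hb hc] at h2
        rw [K.rel_iff ha hc, h1, h2] }

/-- the limit index set -/
def HK : Type := Quotient K.setoid

/-- the coordinate named by a code -/
def cc (c : Code) : K.HK := Quotient.mk K.setoid c

lemma cc_surj (h : K.HK) : ∃ c, K.cc c = h := Quotient.exists_rep h

lemma cc_eq_iff (c c' : Code) : K.cc c = K.cc c' ↔ K.rel c c' := by
  unfold cc
  exact Quotient.eq (r := K.setoid)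

lemma cc_eq_iff' {F : Finset ℚ} {c c' : Code} (hc : c.s ⊆ F) (hc' : c'.s ⊆ F) :
    K.cc c = K.cc c' ↔ K.ψ F c = K.ψ F c' := by
  rw [cc_eq_iff, K.rel_iff hc hc']

instance : Countable K.HK := inferInstanceAs (Countable (Quotient K.setoid))

noncomputable instance : MulAction G K.HK where
  smul g := Quotient.map (fun c => g • c) (fun c c' h => (K.rel_smul g c c').1 h)
  one_smul h := by
    obtain ⟨c, rfl⟩ := K.cc_surj h
    show K.cc ((1 : G) • c) = K.cc c
    rw [one_smul]
  mul_smul g k h := by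
    obtain ⟨c, rfl⟩ := K.cc_surj h
    show K.cc ((g * k) • c) = K.cc (g • k • c)
    rw [mul_smul]

lemma smul_mk (g : G) (c : Code) : g • K.cc c = K.cc (g • c) := rfl

open Classical in
/-- the partial map from the concrete coordinates -/
noncomputable def pF (F : Finset ℚ) (k : ι) : Option K.HK :=
  if h : ∃ c : Code, c.s ⊆ F ∧ K.ψ F c = k then some (K.cc h.choose) else none

lemma pF_ψ {F : Finset ℚ} {c : Code} (hc : c.s ⊆ F) : K.pF F (K.ψ F c) = some (K.cc c) := by
  unfold pF
  have h : ∃ c' : Code, c'.s ⊆ F ∧ K.ψ F c' = K.ψ F c := ⟨c, hc, rfl⟩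
  rw [dif_pos h, Option.some_inj, K.cc_eq_iff' h.choose_spec.1 hc]
  exact h.choose_spec.2

lemma pF_some {F : Finset ℚ} {k : ι} {h : K.HK} (hk : K.pF F k = some h) :
    ∃ c : Code, c.s ⊆ F ∧ K.ψ F c = k ∧ K.cc c = h := by
  unfold pF at hk
  by_cases h' : ∃ c : Code, c.s ⊆ F ∧ K.ψ F c = k
  · rw [dif_pos h'] at hk
    exact ⟨h'.choose, h'.choose_spec.1, h'.choose_spec.2, Option.some.inj hk⟩
  · rw [dif_neg h'] at hk
    exact absurd hk (by simp)

lemma pF_inj (F : Finset ℚ) (a b : ι) (h : K.HK) (ha : K.pF F a = some h)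
    (hb : K.pF F b = some h) : a = b := by
  obtain ⟨c, hc, rfl, hc'⟩ := K.pF_some ha
  obtain ⟨d, hd, rfl, hd'⟩ := K.pF_some hb
  rw [← hd', K.cc_eq_iff' hc hd] at hc'
  exact hc'

open Classical in
/-- the partial map to the concrete coordinates -/
noncomputable def qF (F : Finset ℚ) (h : K.HK) : Option ι :=
  if h' : ∃ c : Code, c.s ⊆ F ∧ K.cc c = h then some (K.ψ F h'.choose) else none

lemma qF_mk {F : Finset ℚ} {c : Code} (hc : c.s ⊆ F) : K.qF F (K.cc c) = some (K.ψ F c) := by
  unfold qF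
  have h : ∃ c' : Code, c'.s ⊆ F ∧ K.cc c' = K.cc c := ⟨c, hc, rfl⟩
  rw [dif_pos h, Option.some_inj, ← K.cc_eq_iff' h.choose_spec.1 hc]
  exact h.choose_spec.2

lemma qF_some {F : Finset ℚ} {k : ι} {h : K.HK} (hk : K.qF F h = some k) :
    ∃ c : Code, c.s ⊆ F ∧ K.ψ F c = k ∧ K.cc c = h := by
  unfold qF at hk
  by_cases h' : ∃ c : Code, c.s ⊆ F ∧ K.cc c = h
  · rw [dif_pos h'] at hk
    exact ⟨h'.choose, h'.choose_spec.1, Option.some.inj hk, h'.choose_spec.2⟩
  · rw [dif_neg h'] at hk
    exact absurd hk (by simp)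

lemma qF_inj (F : Finset ℚ) (a b : K.HK) (k : ι) (ha : K.qF F a = some k)
    (hb : K.qF F b = some k) : a = b := by
  obtain ⟨c, hc, hc', rfl⟩ := K.qF_some ha
  obtain ⟨d, hd, hd', rfl⟩ := K.qF_some hb
  rw [K.cc_eq_iff' hc hd, hc', hd']

/-- push forward to the concrete ball -/
noncomputable def jF (F : Finset ℚ) : C(Ball K.HK, Ball ι) :=
  ⟨trans (K.pF F) (K.pF_inj F), continuous_trans _ _⟩

/-- pull back to the limit ball -/
noncomputable def kF (F : Finset ℚ) : C(Ball ι, Ball K.HK) :=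
  ⟨trans (K.qF F) (K.qF_inj F), continuous_trans _ _⟩

lemma jF_ψ {F : Finset ℚ} (x : Ball K.HK) {c : Code} (hc : c.s ⊆ F) :
    K.jF F x (K.ψ F c) = x (K.cc c) := trans_some (K.pF_inj F) x (K.pF_ψ hc)

lemma kF_mk {F : Finset ℚ} (y : Ball ι) {c : Code} (hc : c.s ⊆ F) :
    K.kF F y (K.cc c) = y (K.ψ F c) := trans_some (K.qF_inj F) y (K.qF_mk hc)

lemma jF_pt {F : Finset ℚ} (l : List (Code × ℚ)) (hl : ∀ p ∈ l, p.1.s ⊆ F) :
    K.jF F (pt (l.map fun p => (K.cc p.1, p.2))) = pt (l.map fun p => (K.ψ F p.1, p.2)) := by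
  have h := trans_pt (K.pF F) (K.pF_inj F) (fun h => (K.qF F h).getD (K.ψ F ⟨∅, 0⟩))
    (l.map fun p => (K.cc p.1, p.2)) (by
      intro c hc
      rw [List.mem_map] at hc
      obtain ⟨p, hp, rfl⟩ := hc
      simp only
      rw [K.qF_mk (hl p hp), Option.getD_some, K.pF_ψ (hl p hp)])
  refine h.trans ?_
  rw [List.map_map]
  congr 1
  apply List.map_congr_left
  intro p hp
  simp only [Function.comp]
  rw [K.qF_mk (hl p hp), Option.getD_some]

lemma kF_jF (F : Finset ℚ) (x : Ball K.HK) :
    K.kF F (K.jF F x) = Ball.res {h | ∃ c : Code, c.s ⊆ F ∧ K.cc c = h} x := by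
  ext h
  by_cases h' : ∃ c : Code, c.s ⊆ F ∧ K.cc c = h
  · rw [Ball.res_of_mem x h']
    obtain ⟨c, hc, rfl⟩ := h'
    rw [K.kF_mk _ hc, K.jF_ψ _ hc]
  · rw [Ball.res_of_notMem x h']
    refine trans_none (K.qF_inj F) _ ?_
    unfold qF
    rw [dif_neg h']

lemma smul_pt (g : G) (l : List (Code × ℚ)) :
    g • (pt (l.map fun p => (K.cc p.1, p.2)) : Ball K.HK)
      = pt (l.map fun p => (K.cc (g • p.1), p.2)) := by
  have h := trans_pt (κ := K.HK) (κ' := K.HK) (fun h => some (g⁻¹ • h)) (by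
    intro a b c ha hb
    have := (Option.some.inj ha).trans (Option.some.inj hb).symm
    exact smul_left_cancel _ this) (fun h => g • h) (l.map fun p => (K.cc p.1, p.2)) (by
      intro c _
      rw [inv_smul_smul])
  have h2 : ∀ x : Ball K.HK, g • x = trans (κ := K.HK) (κ' := K.HK) (fun h => some (g⁻¹ • h)) (by
    intro a b c ha hb
    have := (Option.some.inj ha).trans (Option.some.inj hb).symm
    exact smul_left_cancel _ this) x := fun x => rfl
  rw [h2, h, List.map_map]
  rfl

/-! ### the limit compact space -/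

lemma exists_sup {α : Type*} (l : List (Code × α)) : ∃ F : Finset ℚ, ∀ p ∈ l, p.1.s ⊆ F := by
  induction l with
  | nil => exact ⟨∅, by simp⟩
  | cons a l ih =>
    obtain ⟨F, hF⟩ := ih
    refine ⟨a.1.s ∪ F, fun p hp => ?_⟩
    rcases List.mem_cons.1 hp with rfl | hp
    · exact Finset.subset_union_left
    · exact (hF p hp).trans Finset.subset_union_right

/-- the pattern `l` is realised -/
def Real (l : List (Code × Bool)) : Prop :=
  ∀ F : Finset ℚ, (∀ p ∈ l, p.1.s ⊆ F) → ∃ x : L, ∀ p ∈ l, (x ∈ K.θ F p.1 ↔ p.2 = true)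

lemma real_of {l : List (Code × Bool)} {F : Finset ℚ} (hF : ∀ p ∈ l, p.1.s ⊆ F)
    (h : ∃ x : L, ∀ p ∈ l, (x ∈ K.θ F p.1 ↔ p.2 = true)) : K.Real l := by
  intro F' hF'
  have := K.cons 1 F F' l hF (by simpa only [one_smul] using hF')
  simp only [one_smul] at this
  exact this.1 h

lemma real_smul (g : G) {l : List (Code × Bool)} (h : K.Real l) :
    K.Real (l.map fun p => (g • p.1, p.2)) := by
  obtain ⟨F, hF⟩ := exists_sup l
  obtain ⟨F', hF'⟩ := exists_sup (l.map fun p => (g • p.1, p.2))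
  refine K.real_of hF' ?_
  have hF'' : ∀ p ∈ l, (g • p.1).s ⊆ F' := fun p hp =>
    hF' (g • p.1, p.2) (List.mem_map.2 ⟨p, hp, rfl⟩)
  obtain ⟨x, hx⟩ := (K.cons g F F' l hF hF'').1 (h F hF)
  refine ⟨x, fun p hp => ?_⟩
  rw [List.mem_map] at hp
  obtain ⟨q, hq, rfl⟩ := hp
  exact hx q hq

/-- the limit space -/
def LK : Type :=
  {ω : Code → Bool // ∀ l : List (Code × Bool), (∀ p ∈ l, ω p.1 = p.2) → K.Real l}

instance : TopologicalSpace K.LK := inferInstanceAs (TopologicalSpace (Subtype _))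
instance : T2Space K.LK := inferInstanceAs (T2Space (Subtype _))
instance : TotallyDisconnectedSpace K.LK := inferInstanceAs (TotallyDisconnectedSpace (Subtype _))

lemma isOpen_match (l : List (Code × Bool)) :
    IsOpen {ω : Code → Bool | ∀ p ∈ l, ω p.1 = p.2} := by
  induction l with
  | nil => simp
  | cons a l ih =>
    have : {ω : Code → Bool | ∀ p ∈ a :: l, ω p.1 = p.2}
        = {ω | ω a.1 = a.2} ∩ {ω : Code → Bool | ∀ p ∈ l, ω p.1 = p.2} := by
      ext ω; simp
    rw [this]
    refine IsOpen.inter ?_ ih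
    exact (isOpen_discrete ({a.2} : Set Bool)).preimage (continuous_apply (A := fun _ => Bool) a.1)

lemma isClosed_match (l : List (Code × Bool)) :
    IsClosed {ω : Code → Bool | ∀ p ∈ l, ω p.1 = p.2} := by
  have : {ω : Code → Bool | ∀ p ∈ l, ω p.1 = p.2} = ⋂ p ∈ l, {ω | ω p.1 = p.2} := by
    ext ω; simp
  rw [this]
  refine isClosed_biInter fun p _ => ?_
  exact (isClosed_discrete ({p.2} : Set Bool)).preimage (continuous_apply (A := fun _ => Bool) p.1)

lemma isClosed_cond (l : List (Code × Bool)) :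
    IsClosed {ω : Code → Bool | (∀ p ∈ l, ω p.1 = p.2) → K.Real l} := by
  by_cases h : K.Real l
  · have : {ω : Code → Bool | (∀ p ∈ l, ω p.1 = p.2) → K.Real l} = univ := by
      ext ω; simp [h]
    rw [this]; exact isClosed_univ
  · have : {ω : Code → Bool | (∀ p ∈ l, ω p.1 = p.2) → K.Real l}
        = {ω : Code → Bool | ∀ p ∈ l, ω p.1 = p.2}ᶜ := by
      ext ω; simp [h]
    rw [this]; exact (isOpen_match l).isClosed_compl

instance : CompactSpace K.LK := by
  have hc : IsClosed {ω : Code → Bool | ∀ l : List (Code × Bool), (∀ p ∈ l, ω p.1 = p.2) →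
      K.Real l} := by
    rw [ofPred_forall]
    exact isClosed_iInter fun l => K.isClosed_cond l
  exact isCompact_iff_compactSpace.1 hc.isCompact

/-- every pattern realised in the concrete space is realised in the limit space -/
lemma exists_point {l : List (Code × Bool)} (h : K.Real l) :
    ∃ ω : K.LK, ∀ p ∈ l, ω.1 p.1 = p.2 := by
  classical
  have key := (isClosed_match l).isCompact.inter_iInter_nonempty
    (fun l' : List (Code × Bool) => {ω : Code → Bool | (∀ p ∈ l', ω p.1 = p.2) → K.Real l'})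
    (fun l' => K.isClosed_cond l') (by
      intro u
      -- a common finite set
      obtain ⟨F, hF⟩ := exists_sup (l ++ u.toList.flatten)
      have hFl : ∀ p ∈ l, p.1.s ⊆ F := fun p hp => hF p (List.mem_append_left _ hp)
      have hFu : ∀ l' ∈ u, ∀ p ∈ l', p.1.s ⊆ F := fun l' hl' p hp =>
        hF p (List.mem_append_right _ (List.mem_flatten.2 ⟨l', Finset.mem_toList.2 hl', hp⟩))
      obtain ⟨x, hx⟩ := h F hFl
      refine ⟨fun c => decide (x ∈ K.θ F c), ?_, ?_⟩
      · intro p hp
        have := hx p hp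
        rcases hb : p.2 with _ | _
        · rw [hb] at this
          simpa using this
        · rw [hb] at this
          simpa using this
      · rw [mem_iInter₂]
        intro l' hl' hm
        refine K.real_of (hFu l' hl') ⟨x, fun p hp => ?_⟩
        rw [← hm p hp]
        simp)
  obtain ⟨ω, h1, h2⟩ := key
  rw [mem_iInter] at h2
  exact ⟨⟨ω, h2⟩, h1⟩

noncomputable instance : MulAction G K.LK where
  smul g ω := ⟨fun c => ω.1 (g⁻¹ • c), fun l hl => by
    have h1 : K.Real (l.map fun p => (g⁻¹ • p.1, p.2)) := by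
      apply ω.2
      intro p hp
      rw [List.mem_map] at hp
      obtain ⟨q, hq, rfl⟩ := hp
      exact hl q hq
    have h2 := K.real_smul g h1
    rw [List.map_map] at h2
    convert h2 using 1
    conv_lhs => rw [← List.map_id l]
    apply List.map_congr_left
    intro p _
    simp⟩
  one_smul ω := by
    apply Subtype.ext
    funext c
    show ω.1 ((1 : G)⁻¹ • c) = ω.1 c
    simp
  mul_smul g k ω := by
    apply Subtype.ext
    funext c
    show ω.1 ((g * k)⁻¹ • c) = ω.1 (k⁻¹ • g⁻¹ • c)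
    rw [mul_inv_rev, mul_smul]

lemma smul_LK_apply (g : G) (ω : K.LK) (c : Code) : (g • ω).1 c = ω.1 (g⁻¹ • c) := rfl

lemma continuous_coordLK (c : Code) : Continuous (fun ω : K.LK => ω.1 c) :=
  (continuous_apply c).comp continuous_subtype_val

lemma continuous_smul_LK (g : G) : Continuous (fun ω : K.LK => g • ω) := by
  refine Continuous.subtype_mk (continuous_pi fun c => ?_) _
  exact K.continuous_coordLK (g⁻¹ • c)

/-- the basic clopen sets -/
def cl (c : Code) : Clopens K.LK :=
  ⟨{ω | ω.1 c = true}, (isClopen_discrete {true}).preimage (K.continuous_coordLK c)⟩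

lemma mem_cl (c : Code) (ω : K.LK) : ω ∈ K.cl c ↔ ω.1 c = true := Iff.rfl

end Coh

end Pool.Agent.H53.ZD
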