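import Pool.Agent.H53.ZD.LimSpace

/-!
# The limit system
-/

set_option autoImplicit false
set_option linter.unusedSectionVars false
open Set Filter Topology TopologicalSpace

universe u v

namespace Pool.Agent.H53.ZD

namespace Coh

variable {ι : Type u} {L : Type v} [TopologicalSpace L] [CompactSpace L] [T2Space L]
    [TotallyDisconnectedSpace L] {T : C(L, ℝ) ≃L[ℝ] C(Ball ι, ℝ)} (K : Coh T)

/-! ### the functions attached to codes -/

/-- the function attached to a code through `F` -/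
noncomputable def eF (F : Finset ℚ) (c : Code) : C(Ball K.HK, ℝ) :=
  (T (ind (K.θ F c))).comp (K.jF F)

lemma eF_apply (F : Finset ℚ) (c : Code) (x : Ball K.HK) :
    K.eF F c x = T (ind (K.θ F c)) (K.jF F x) := rfl

lemma eF_res {F : Finset ℚ} {c : Code} (hc : c.s ⊆ F) (x : Ball K.HK) :
    K.eF F c (Ball.res {h | ∃ j, K.cc ⟨c.s, j⟩ = h} x) = K.eF F c x := by
  rw [eF_apply, eF_apply]
  apply K.dep F c hc
  intro j
  rw [K.jF_ψ _ (c := ⟨c.s, j⟩) hc, K.jF_ψ _ (c := ⟨c.s, j⟩) hc, Ball.res_of_mem]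
  exact ⟨j, rfl⟩

lemma eF_pt {F : Finset ℚ} {c : Code} (l : List (Code × ℚ)) (hl : ∀ p ∈ l, p.1.s ⊆ F) :
    K.eF F c (pt (l.map fun p => (K.cc p.1, p.2)))
      = T (ind (K.θ F c)) (pt (l.map fun p => (K.ψ F p.1, p.2))) := by
  rw [eF_apply, K.jF_pt l hl]

/-- lists of points come from lists of codes -/
lemma exists_list (A : Set K.HK) (B : Set Code) (hAB : ∀ h ∈ A, ∃ c ∈ B, K.cc c = h)
    (l : List (K.HK × ℚ)) (hl : ∀ p ∈ l, p.1 ∈ A) :
    ∃ l' : List (Code × ℚ), (∀ p ∈ l', p.1 ∈ B) ∧ l = l'.map fun p => (K.cc p.1, p.2) := by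
  induction l with
  | nil => exact ⟨[], by simp, by simp⟩
  | cons a l ih =>
    obtain ⟨l', h1, h2⟩ := ih fun p hp => hl p (List.mem_cons_of_mem _ hp)
    obtain ⟨c, hc, hc'⟩ := hAB a.1 (hl a List.mem_cons_self)
    refine ⟨(c, a.2) :: l', fun p hp => ?_, ?_⟩
    · rcases List.mem_cons.1 hp with rfl | hp
      · exact hc
      · exact h1 p hp
    · rw [List.map_cons, ← h2, hc']

lemma eF_eq {F F' : Finset ℚ} {c : Code} (hc : c.s ⊆ F) (hc' : c.s ⊆ F') :
    K.eF F c = K.eF F' c := by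
  ext x
  rw [← K.eF_res hc, ← K.eF_res hc']
  apply eq_of_eq_on_pt
  intro l hl
  obtain ⟨l', h1, rfl⟩ := K.exists_list {h | ∃ j, K.cc ⟨c.s, j⟩ = h} {d | d.s = c.s} (by
    rintro h ⟨j, rfl⟩
    exact ⟨⟨c.s, j⟩, rfl, rfl⟩) l hl
  have h2 : ∀ p ∈ l', p.1.s ⊆ F := fun p hp => by rw [h1 p hp]; exact hc
  have h3 : ∀ p ∈ l', p.1.s ⊆ F' := fun p hp => by rw [h1 p hp]; exact hc'
  rw [K.eF_pt l' h2, K.eF_pt l' h3]
  have := K.val 1 F F' c l' hc h2 (by rw [one_smul]; exact hc') (by simpa only [one_smul] using h3)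
  simpa only [one_smul] using this

/-- the function attached to a code -/
noncomputable def ec (c : Code) : C(Ball K.HK, ℝ) := K.eF c.s c

lemma ec_eq {F : Finset ℚ} {c : Code} (hc : c.s ⊆ F) : K.ec c = K.eF F c :=
  K.eF_eq (Finset.Subset.refl _) hc

lemma ec_smul (g : G) (c : Code) (x : Ball K.HK) : K.ec (g⁻¹ • c) x = K.ec c (g • x) := by
  have key := eq_of_eq_on_pt (univ : Set K.HK) (K.ec (g⁻¹ • c))
    ((K.ec c).comp ⟨fun x => g • x, continuous_smul_ball g⟩) (by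
      intro l _
      obtain ⟨l', -, rfl⟩ := K.exists_list univ univ (by
        intro h _
        obtain ⟨c, rfl⟩ := K.cc_surj h
        exact ⟨c, trivial, rfl⟩) l (fun _ _ => trivial)
      obtain ⟨F₀, hF₀⟩ := exists_sup l'
      obtain ⟨F₁, hF₁⟩ := exists_sup (l'.map fun p => (g • p.1, p.2))
      have a1 : (g⁻¹ • c).s ⊆ F₀ ∪ (g⁻¹ • c).s := Finset.subset_union_right
      have a2 : ∀ p ∈ l', p.1.s ⊆ F₀ ∪ (g⁻¹ • c).s := fun p hp =>
        (hF₀ p hp).trans Finset.subset_union_left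
      have b1 : c.s ⊆ F₁ ∪ c.s := Finset.subset_union_right
      have b2 : ∀ p ∈ l', (g • p.1).s ⊆ F₁ ∪ c.s := fun p hp =>
        (hF₁ (g • p.1, p.2) (List.mem_map.2 ⟨p, hp, rfl⟩)).trans Finset.subset_union_left
      rw [K.ec_eq a1, K.eF_pt l' a2]
      show _ = K.ec c (g • pt (l'.map fun p => (K.cc p.1, p.2)))
      rw [K.smul_pt, K.ec_eq b1]
      have e1 : (l'.map fun p => (K.cc (g • p.1), p.2))
          = (l'.map fun p => (g • p.1, p.2)).map fun p => (K.cc p.1, p.2) := by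
        rw [List.map_map]; rfl
      rw [e1, K.eF_pt _ (by
        intro p hp
        rw [List.mem_map] at hp
        obtain ⟨q, hq, rfl⟩ := hp
        exact b2 q hq), List.map_map]
      have := K.val g (F₀ ∪ (g⁻¹ • c).s) (F₁ ∪ c.s) (g⁻¹ • c) l' a1 a2
        (by rw [smul_inv_smul]; exact b1) b2
      rw [smul_inv_smul] at this
      exact this) x
  have hres : Ball.res (univ : Set K.HK) x = x := by
    ext h; exact Ball.res_of_mem x (mem_univ h)
  rw [hres] at key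
  exact key

/-! ### the two linear maps -/

/-- combinations of indicators on the limit space -/
noncomputable def Am : (Code →₀ ℝ) →ₗ[ℝ] C(K.LK, ℝ) :=
  Finsupp.linearCombination ℝ fun c => ind (K.cl c)

/-- combinations of the functions attached to codes -/
noncomputable def Bm : (Code →₀ ℝ) →ₗ[ℝ] C(Ball K.HK, ℝ) :=
  Finsupp.linearCombination ℝ fun c => K.ec c

/-- concrete combinations of indicators -/
noncomputable def Sm (F : Finset ℚ) : (Code →₀ ℝ) →ₗ[ℝ] C(L, ℝ) :=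
  Finsupp.linearCombination ℝ fun c => ind (K.θ F c)

lemma linComb_apply {X : Type*} [TopologicalSpace X] [CompactSpace X] (w : Code → C(X, ℝ))
    (v : Code →₀ ℝ) (x : X) :
    Finsupp.linearCombination ℝ w v x = ∑ c ∈ v.support, v c * w c x := by
  rw [Finsupp.linearCombination_apply, Finsupp.sum, ContinuousMap.sum_apply]
  rfl

/-- a finite set containing the supports -/
lemma exists_F (v : Code →₀ ℝ) : ∃ F : Finset ℚ, ∀ c ∈ v.support, c.s ⊆ F := by
  classical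
  exact ⟨v.support.biUnion fun c => c.s, fun c hc => Finset.subset_biUnion_of_mem (fun c => c.s) hc⟩

lemma norm_Am {v : Code →₀ ℝ} {F : Finset ℚ} (hF : ∀ c ∈ v.support, c.s ⊆ F) :
    ‖K.Am v‖ = ‖K.Sm F v‖ := by
  classical
  apply le_antisymm
  · rw [ContinuousMap.norm_le _ (norm_nonneg _)]
    intro ω
    have hreal : K.Real (v.support.toList.map fun c => (c, ω.1 c)) := by
      apply ω.2
      intro p hp
      rw [List.mem_map] at hp
      obtain ⟨c, -, rfl⟩ := hp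
      rfl
    obtain ⟨x, hx⟩ := hreal F (by
      intro p hp
      rw [List.mem_map] at hp
      obtain ⟨c, hc, rfl⟩ := hp
      exact hF c (Finset.mem_toList.1 hc))
    have e : K.Am v ω = K.Sm F v x := by
      unfold Am Sm
      rw [linComb_apply, linComb_apply]
      refine Finset.sum_congr rfl fun c hc => ?_
      have h1 : x ∈ K.θ F c ↔ ω.1 c = true :=
        hx (c, ω.1 c) (List.mem_map.2 ⟨c, Finset.mem_toList.2 hc, rfl⟩)
      congr 1
      by_cases h2 : ω.1 c = true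
      · rw [ind_of_mem (show ω ∈ K.cl c from h2), ind_of_mem (h1.2 h2)]
      · rw [ind_of_notMem (show ω ∉ K.cl c from h2), ind_of_notMem (fun h => h2 (h1.1 h))]
    rw [e]
    exact ContinuousMap.norm_coe_le_norm _ _
  · rw [ContinuousMap.norm_le _ (norm_nonneg _)]
    intro x
    obtain ⟨ω, hω⟩ := K.exists_point (l := v.support.toList.map fun c => (c, decide (x ∈ K.θ F c)))
      (K.real_of (F := F) (by
        intro p hp
        rw [List.mem_map] at hp
        obtain ⟨c, hc, rfl⟩ := hp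
        exact hF c (Finset.mem_toList.1 hc)) ⟨x, by
        intro p hp
        rw [List.mem_map] at hp
        obtain ⟨c, hc, rfl⟩ := hp
        simp⟩)
    have e : K.Sm F v x = K.Am v ω := by
      unfold Am Sm
      rw [linComb_apply, linComb_apply]
      refine Finset.sum_congr rfl fun c hc => ?_
      have h1 : ω.1 c = decide (x ∈ K.θ F c) :=
        hω (c, decide (x ∈ K.θ F c)) (List.mem_map.2 ⟨c, Finset.mem_toList.2 hc, rfl⟩)
      congr 1
      by_cases h2 : x ∈ K.θ F c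
      · rw [ind_of_mem (show ω ∈ K.cl c by rw [mem_cl, h1]; simpa using h2), ind_of_mem h2]
      · rw [ind_of_notMem (show ω ∉ K.cl c by rw [mem_cl, h1]; simpa using h2), ind_of_notMem h2]
    rw [e]
    exact ContinuousMap.norm_coe_le_norm _ _

lemma Bm_eq {v : Code →₀ ℝ} {F : Finset ℚ} (hF : ∀ c ∈ v.support, c.s ⊆ F) :
    K.Bm v = (T (K.Sm F v)).comp (K.jF F) := by
  ext x
  rw [ContinuousMap.comp_apply]
  unfold Bm Sm
  rw [linComb_apply]
  rw [Finsupp.linearCombination_apply, Finsupp.sum, map_sum, ContinuousMap.sum_apply]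
  refine Finset.sum_congr rfl fun c hc => ?_
  rw [map_smul, K.ec_eq (hF c hc)]
  rfl

lemma T_Sm_res {v : Code →₀ ℝ} {F : Finset ℚ} (hF : ∀ c ∈ v.support, c.s ⊆ F) (y : Ball ι) :
    T (K.Sm F v) (K.jF F (K.kF F y)) = T (K.Sm F v) y := by
  unfold Sm
  rw [Finsupp.linearCombination_apply, Finsupp.sum, map_sum, ContinuousMap.sum_apply,
    ContinuousMap.sum_apply]
  refine Finset.sum_congr rfl fun c hc => ?_
  rw [map_smul]
  show v c * T (ind (K.θ F c)) (K.jF F (K.kF F y)) = v c * T (ind (K.θ F c)) y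
  congr 1
  apply K.dep F c (hF c hc)
  intro j
  rw [K.jF_ψ _ (c := ⟨c.s, j⟩) (hF c hc), K.kF_mk _ (c := ⟨c.s, j⟩) (hF c hc)]

lemma norm_Bm {v : Code →₀ ℝ} {F : Finset ℚ} (hF : ∀ c ∈ v.support, c.s ⊆ F) :
    ‖K.Bm v‖ = ‖T (K.Sm F v)‖ := by
  rw [K.Bm_eq hF]
  apply le_antisymm
  · rw [ContinuousMap.norm_le _ (norm_nonneg _)]
    intro x
    exact (T (K.Sm F v)).norm_coe_le_norm (K.jF F x)
  · rw [ContinuousMap.norm_le _ (norm_nonneg _)]
    intro y
    rw [← K.T_Sm_res hF y]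
    exact ContinuousMap.norm_coe_le_norm ((T (K.Sm F v)).comp (K.jF F)) (K.kF F y)

lemma bound₁ (v : Code →₀ ℝ) :
    ‖K.Bm v‖ ≤ ‖(T : C(L, ℝ) →L[ℝ] C(Ball ι, ℝ))‖ * ‖K.Am v‖ := by
  obtain ⟨F, hF⟩ := exists_F v
  rw [K.norm_Bm hF, K.norm_Am hF]
  exact (T : C(L, ℝ) →L[ℝ] C(Ball ι, ℝ)).le_opNorm _

lemma bound₂ (v : Code →₀ ℝ) :
    ‖K.Am v‖ ≤ ‖(T.symm : C(Ball ι, ℝ) →L[ℝ] C(L, ℝ))‖ * ‖K.Bm v‖ := by
  obtain ⟨F, hF⟩ := exists_F v
  rw [K.norm_Bm hF, K.norm_Am hF]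
  have := (T.symm : C(Ball ι, ℝ) →L[ℝ] C(L, ℝ)).le_opNorm (T (K.Sm F v))
  simpa using this

/-! ### dense ranges -/

lemma dense_Am : DenseRange K.Am := by
  have h1 := dense_span_ind (X := K.LK) (range K.cl) ?_ ?_ ?_
  · have h2 : (Submodule.span ℝ (ind '' range K.cl) : Set C(K.LK, ℝ)) = range K.Am := by
      unfold Am
      rw [← range_comp]
      have := Finsupp.range_linearCombination (R := ℝ) (v := fun c => ind (K.cl c))
      have h3 := congrArg (fun S : Submodule ℝ C(K.LK, ℝ) => (S : Set C(K.LK, ℝ))) this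
      simp only [LinearMap.coe_range] at h3
      rw [h3]; rfl
    rw [h2] at h1
    exact h1
  · obtain ⟨i, hi⟩ := K.top ∅ ∅ (Finset.Subset.refl _)
    refine ⟨⟨∅, i⟩, ?_⟩
    ext ω
    refine ⟨fun _ => trivial, fun _ => ?_⟩
    have hreal : K.Real [(⟨∅, i⟩, ω.1 ⟨∅, i⟩)] := by
      apply ω.2
      intro p hp
      rw [List.mem_singleton] at hp
      rw [hp]
    obtain ⟨x, hx⟩ := hreal ∅ (by simp)
    have h2 := hx _ List.mem_cons_self
    simp only at h2
    rw [hi] at h2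
    exact h2.1 trivial
  · rintro _ ⟨c, rfl⟩ _ ⟨c', rfl⟩
    obtain ⟨j₁, h₁⟩ := K.monoθ (c.s ∪ c'.s) c.s (c.s ∪ c'.s) Finset.subset_union_left
      (Finset.Subset.refl _) c.i
    obtain ⟨j₂, h₂⟩ := K.monoθ (c.s ∪ c'.s) c'.s (c.s ∪ c'.s) Finset.subset_union_right
      (Finset.Subset.refl _) c'.i
    obtain ⟨k, hk⟩ := K.inf (c.s ∪ c'.s) (c.s ∪ c'.s) (Finset.Subset.refl _) j₁ j₂
    refine ⟨⟨c.s ∪ c'.s, k⟩, ?_⟩
    ext ω
    have hreal : K.Real [(c, ω.1 c), (c', ω.1 c'), (⟨c.s ∪ c'.s, k⟩, ω.1 ⟨c.s ∪ c'.s, k⟩)] := by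
      apply ω.2
      intro p hp
      simp only [List.mem_cons, List.not_mem_nil, or_false] at hp
      rcases hp with rfl | rfl | rfl <;> rfl
    obtain ⟨x, hx⟩ := hreal (c.s ∪ c'.s) (by
      intro p hp
      simp only [List.mem_cons, List.not_mem_nil, or_false] at hp
      rcases hp with rfl | rfl | rfl
      · exact Finset.subset_union_left
      · exact Finset.subset_union_right
      · exact Finset.Subset.refl _)
    have e1 : x ∈ K.θ (c.s ∪ c'.s) c ↔ ω.1 c = true := hx (c, ω.1 c) (by simp)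
    have e2 : x ∈ K.θ (c.s ∪ c'.s) c' ↔ ω.1 c' = true := hx (c', ω.1 c') (by simp)
    have e3 : x ∈ K.θ (c.s ∪ c'.s) ⟨c.s ∪ c'.s, k⟩ ↔ ω.1 ⟨c.s ∪ c'.s, k⟩ = true :=
      hx (⟨c.s ∪ c'.s, k⟩, ω.1 ⟨c.s ∪ c'.s, k⟩) (by simp)
    rw [hk, ← h₁, ← h₂] at e3
    show ω.1 ⟨c.s ∪ c'.s, k⟩ = true ↔ (ω.1 c = true ∧ ω.1 c' = true)
    rw [← e3, ← e1, ← e2]
    exact Iff.rfl
  · intro ω ω' hne
    have : ∃ c, ω.1 c ≠ ω'.1 c := by
      by_contra hcon
      push Not at hcon
      exact hne (Subtype.ext (funext hcon))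
    obtain ⟨c, hc⟩ := this
    refine ⟨K.cl c, ⟨c, rfl⟩, fun h => hc ?_⟩
    rw [mem_cl, mem_cl] at h
    exact Bool.eq_iff_iff.2 h

lemma dense_Bm : DenseRange K.Bm := by
  intro f
  rw [Metric.mem_closure_iff]
  intro ε hε
  obtain ⟨E, hE⟩ := Ball.approx_res f.continuous (half_pos hε)
  -- a finite set of rationals carrying `E`
  obtain ⟨F, hF⟩ : ∃ F : Finset ℚ, ∀ h ∈ E, ∃ c : Code, c.s ⊆ F ∧ K.cc c = h := by
    choose r hr using K.cc_surj
    classical
    exact ⟨E.biUnion fun h => (r h).s, fun h hh => ⟨r h,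
      Finset.subset_biUnion_of_mem (fun h => (r h).s) hh, hr h⟩⟩
  obtain ⟨φ, hφ1, hφ2⟩ := K.dens F (f.comp (K.kF F)) (by
    intro y
    show f (K.kF F _) = f (K.kF F y)
    congr 1
    ext h
    rcases hq : K.qF F h with _ | k
    · exact (trans_none (K.qF_inj F) _ hq).trans (trans_none (K.qF_inj F) _ hq).symm
    · obtain ⟨c, hc, rfl, rfl⟩ := K.qF_some hq
      rw [K.kF_mk _ hc, K.kF_mk _ hc, Ball.res_of_mem]
      obtain ⟨j, hj⟩ := K.mono F c.s F hc (Finset.Subset.refl _) c.i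
      exact ⟨j, hj.symm⟩) (ε / 2) (half_pos hε)
  rw [Finsupp.mem_span_range_iff_exists_finsupp] at hφ1
  obtain ⟨a, ha⟩ := hφ1
  let v : Code →₀ ℝ := a.mapDomain fun j => (⟨F, j⟩ : Code)
  have hv : K.Sm F v = φ := by
    unfold Sm
    rw [Finsupp.linearCombination_mapDomain, ← ha]
    rfl
  have hvF : ∀ c ∈ v.support, c.s ⊆ F := by
    classical
    intro c hc
    have := Finsupp.mapDomain_support hc
    rw [Finset.mem_image] at this
    obtain ⟨j, -, rfl⟩ := this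
    exact Finset.Subset.refl _
  refine ⟨K.Bm v, ⟨v, rfl⟩, ?_⟩
  rw [dist_eq_norm, K.Bm_eq hvF, hv]
  have h1 : ‖f - (f.comp (K.kF F)).comp (K.jF F)‖ ≤ ε / 2 := by
    rw [ContinuousMap.norm_le _ (half_pos hε).le]
    intro x
    show |f x - f (K.kF F (K.jF F x))| ≤ ε / 2
    rw [K.kF_jF, abs_sub_comm]
    exact (hE _ hF x).le
  have h2 : ‖(f.comp (K.kF F)).comp (K.jF F) - (T φ).comp (K.jF F)‖ < ε / 2 := by
    refine lt_of_le_of_lt ?_ hφ2
    rw [ContinuousMap.norm_le _ (norm_nonneg _)]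
    intro x
    exact ContinuousMap.norm_coe_le_norm (f.comp (K.kF F) - T φ) (K.jF F x)
  calc ‖f - (T φ).comp (K.jF F)‖
      = ‖(f - (f.comp (K.kF F)).comp (K.jF F))
          + ((f.comp (K.kF F)).comp (K.jF F) - (T φ).comp (K.jF F))‖ := by congr 1; abel
    _ ≤ _ := norm_add_le _ _
    _ < ε / 2 + ε / 2 := add_lt_add_of_le_of_lt h1 h2
    _ = ε := by ring

/-- the limit isomorphism -/
noncomputable def UK : C(K.LK, ℝ) ≃L[ℝ] C(Ball K.HK, ℝ) :=
  (LinearEquiv.refl ℝ (Code →₀ ℝ)).extend K.Am K.Bm K.dense_Am ⟨_, K.bound₁⟩ K.dense_Bm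
    ⟨_, K.bound₂⟩

lemma UK_Am (v : Code →₀ ℝ) : K.UK (K.Am v) = K.Bm v :=
  LinearEquiv.extend_eq (LinearEquiv.refl ℝ (Code →₀ ℝ)) K.Am K.Bm K.dense_Am ⟨_, K.bound₁⟩
    K.dense_Bm ⟨_, K.bound₂⟩ v

lemma UK_equi (g : G) (φ : C(K.LK, ℝ)) (x : Ball K.HK) :
    K.UK (φ.comp ⟨_, K.continuous_smul_LK g⟩) x = K.UK φ (g • x) := by
  -- both sides are continuous in `φ`
  have hc1 : Continuous fun φ : C(K.LK, ℝ) => K.UK (φ.comp ⟨_, K.continuous_smul_LK g⟩) x :=
    (continuous_eval_const x).comp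
      (K.UK.continuous.comp (ContinuousMap.continuous_precomp _))
  have hc2 : Continuous fun φ : C(K.LK, ℝ) => K.UK φ (g • x) :=
    (continuous_eval_const (g • x)).comp K.UK.continuous
  refine K.dense_Am.induction_on (p := fun φ => K.UK (φ.comp ⟨_, K.continuous_smul_LK g⟩) x
    = K.UK φ (g • x)) φ (isClosed_eq hc1 hc2) fun v => ?_
  have e1 : (K.Am v).comp ⟨_, K.continuous_smul_LK g⟩
      = K.Am (v.mapDomain fun c => g⁻¹ • c) := by
    unfold Am
    rw [Finsupp.linearCombination_mapDomain]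
    ext ω
    rw [ContinuousMap.comp_apply, linComb_apply, linComb_apply]
    refine Finset.sum_congr rfl fun c _ => ?_
    congr 1
  rw [e1, UK_Am, UK_Am]
  unfold Bm
  rw [Finsupp.linearCombination_mapDomain, linComb_apply, linComb_apply]
  refine Finset.sum_congr rfl fun c _ => ?_
  congr 1
  exact K.ec_smul g c x

/-- the limit system -/
noncomputable def natSys : NatSys K.HK K.LK where
  fs h := by
    obtain ⟨c, rfl⟩ := K.cc_surj h
    refine ⟨c.s, fun g hg => ?_⟩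
    rw [K.smul_mk]
    congr 1
    show (⟨c.s.image g, c.i⟩ : Code) = c
    rw [image_fix hg]
  cont := K.continuous_smul_LK
  U := K.UK
  equi := K.UK_equi
  e q := K.cc ⟨{q}, 0⟩
  e_smul g q := by
    rw [K.smul_mk]
    congr 1
  e_inj := by
    intro q q' h
    have h1 : (⟨{q}, 0⟩ : Code).s ⊆ ({q, q'} : Finset ℚ) := by simp
    have h2 : (⟨{q'}, 0⟩ : Code).s ⊆ ({q, q'} : Finset ℚ) := by simp
    have h3 := (K.cc_eq_iff' h1 h2).1 h
    exact K.base {q, q'} q q' (by simp) (by simp) h3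

end Coh

theorem exists_natSys {ι : Type u} [LinearOrder ι] (hind : HasIndisc ι) {L : Type v}
    [TopologicalSpace L] [CompactSpace L] [T2Space L] [TotallyDisconnectedSpace L]
    (T : C(L, ℝ) ≃L[ℝ] C(Ball ι, ℝ)) :
    ∃ (H L' : Type) (_ : Countable H) (_ : MulAction G H) (_ : TopologicalSpace L')
      (_ : CompactSpace L') (_ : T2Space L') (_ : TotallyDisconnectedSpace L')
      (_ : MulAction G L'), Nonempty (NatSys H L') := by
  obtain ⟨K⟩ := exists_coh hind T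
  exact ⟨K.HK, K.LK, inferInstance, inferInstance, inferInstance, inferInstance, inferInstance,
    inferInstance, inferInstance, ⟨K.natSys⟩⟩

end Pool.Agent.H53.ZD
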