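import Pool.Agent.H53.ZD.Filler

set_option autoImplicit false
set_option linter.unusedSectionVars false
set_option linter.unusedVariables false
open Set Filter Topology TopologicalSpace MeasureTheory

namespace Pool.Agent.H53.ZD

lemma sum_tuple_apply {r K : ℕ} (f : Fin K → ℝ) (j : Fin r) :
    ∑ t : Fin r → Fin K, f (t j) = (K : ℝ) ^ (r - 1) * ∑ k, f k := by
  have := Fintype.sum_piFinset_apply f (Finset.univ : Finset (Fin K)) j
  rw [Fintype.piFinset_univ, Finset.card_univ, Fintype.card_fin, Fintype.card_fin,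
    nsmul_eq_mul] at this
  rw [this]
  push_cast
  rfl

namespace NatSys

variable {H L : Type*} [Countable H] [MulAction G H] [TopologicalSpace L] [CompactSpace L]
    [T2Space L] [TotallyDisconnectedSpace L] [MulAction G L] (N : NatSys H L)

/-- the level of a tuple -/
def Tt {r K : ℕ} (T : Finset ℚ) (p : ℕ → ℚ) (t : Fin r → Fin K) : Finset ℚ :=
  T ∪ Finset.univ.image fun j => p (2 * (t j : ℕ))

include N in
/-- the average increment of a tuple -/
lemma tuple_mass {r K : ℕ} (T : Finset ℚ) {p : ℕ → ℚ} (hp : StrictMono p) (hpT : ∀ m, p m ∉ T)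
    (x : Ball H) :
    ∑ t : Fin r → Fin K, Ball.mass (HT H (Tt T p t) \ HT H T) x ≤ r * (K : ℝ) ^ (r - 1) := by
  classical
  set A : Fin K → Set H := fun k => {h | p (2 * (k : ℕ)) ∈ supp h ∧
    ∀ k' < k, p (2 * (k' : ℕ)) ∉ supp h} with hA
  have hdisj : ∀ a ∈ (Finset.univ : Finset (Fin K)), ∀ b ∈ (Finset.univ : Finset (Fin K)),
      a ≠ b → Disjoint (A a) (A b) := by
    intro a _ b _ hab
    rw [Set.disjoint_left]
    rintro h ⟨h1, h2⟩ ⟨h3, h4⟩
    rcases lt_or_gt_of_ne hab with h5 | h5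
    · exact h4 a h5 h1
    · exact h2 b h5 h3
  have hsum : ∑ k, Ball.mass (A k) x ≤ 1 := Ball.sum_mass_le _ A hdisj x
  have hle : ∀ t : Fin r → Fin K, Ball.mass (HT H (Tt T p t) \ HT H T) x ≤
      ∑ j, Ball.mass (A (t j)) x := by
    intro t
    have h1 : HT H (Tt T p t) \ HT H T ⊆ ⋃ k ∈ Finset.univ.image t, A k := by
      rintro h ⟨h1, h2⟩
      have h3 : ∃ q ∈ supp h, q ∉ T := by
        by_contra hcon
        push Not at hcon
        exact h2 ((supp_spec (N.fs h)).mono hcon)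
      obtain ⟨q, hq, hqT⟩ := h3
      have h4 : ∀ q ∈ supp h, q ∉ T → ∃ j, q = p (2 * (t j : ℕ)) := by
        intro q hq hqT
        rcases Finset.mem_union.1 (supp_subset h1 hq) with h4 | h4
        · exact absurd h4 hqT
        · obtain ⟨j, -, hj⟩ := Finset.mem_image.1 h4
          exact ⟨j, hj.symm⟩
      obtain ⟨j₀, hj₀⟩ := h4 q hq hqT
      let Kset : Finset (Fin K) := Finset.univ.filter fun k => p (2 * (k : ℕ)) ∈ supp h
      have hne : Kset.Nonempty := ⟨t j₀, Finset.mem_filter.2 ⟨Finset.mem_univ _, hj₀ ▸ hq⟩⟩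
      set k₀ := Kset.min' hne with hk₀
      have h5 : k₀ ∈ Kset := Finset.min'_mem _ _
      have h6 := (Finset.mem_filter.1 h5).2
      obtain ⟨j, hj⟩ := h4 _ h6 (hpT _)
      have h7 : k₀ = t j := Fin.ext (by have := hp.injective hj; omega)
      rw [mem_iUnion₂]
      refine ⟨k₀, Finset.mem_image.2 ⟨j, Finset.mem_univ _, h7.symm⟩, h6, fun k' hk' hk'' => ?_⟩
      exact absurd (Finset.min'_le Kset k' (Finset.mem_filter.2 ⟨Finset.mem_univ _, hk''⟩))
        (not_le.2 hk')
    refine (Ball.mass_mono h1 x).trans ?_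
    rw [← Ball.sum_mass_eq _ A (fun a _ b _ hab => hdisj a (Finset.mem_univ _) b
      (Finset.mem_univ _) hab) x]
    exact Finset.sum_image_le_of_nonneg (fun k _ => Ball.mass_nonneg _ _)
  refine (Finset.sum_le_sum fun t _ => hle t).trans ?_
  rw [Finset.sum_comm]
  have h2 : ∀ j : Fin r, ∑ t : Fin r → Fin K, Ball.mass (A (t j)) x ≤ (K : ℝ) ^ (r - 1) := by
    intro j
    rw [sum_tuple_apply (fun k => Ball.mass (A k) x) j]
    have := mul_le_mul_of_nonneg_left hsum (show (0 : ℝ) ≤ (K : ℝ) ^ (r - 1) by positivity)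
    linarith
  refine (Finset.sum_le_sum fun j _ => h2 j).trans ?_
  rw [Finset.sum_const, Finset.card_univ, Fintype.card_fin, nsmul_eq_mul]

end NatSys
end Pool.Agent.H53.ZD
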