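import Pool.Agent.H53.ZD.Unbounded
import Pool.Agent.H53.ZD.Tuples
import Pool.Agent.H53.ZD.Contra

set_option autoImplicit false
set_option linter.unusedSectionVars false
set_option linter.unusedVariables false
open Set Filter Topology TopologicalSpace MeasureTheory

namespace Pool.Agent.H53.ZD
namespace NatSys

variable {H L : Type*} [Countable H] [MulAction G H] [TopologicalSpace L] [CompactSpace L]
    [T2Space L] [TotallyDisconnectedSpace L] [MulAction G L] {N : NatSys H L}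

lemma Ext.defect {ε : ℝ} {S₁ S₀ : Finset ℚ} {l : L} {E₁ E₀ : Clopens L} {ρ₀ : ℝ}
    (hx : N.Ext ε S₁ S₀ l E₁ E₀ ρ₀) {l' : L} (hl' : l' ∈ N.cls)
    (h : N.pi S₀ l' = N.pi S₀ l) {T : Finset ℚ} (hT : S₁ ⊆ T) :
    N.m l' - N.m (N.pi T l') ≤ ε := by
  have h1 := hx.ma l' hl' h
  have h2 : N.m (N.pi S₁ l') ≤ N.m (N.pi T l') := by
    rw [← N.pi_of_subset hT l']; exact N.m_pi_le _ _
  linarith

namespace Base

variable {ε : ℝ} {S₁ S₀ : Finset ℚ} {l : L} {E₁ E₀ : Clopens L} {ρ₀ : ℝ} {n₀ i : ℕ}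
  {Γ Qf : Set ℕ} (h : Base N ε S₁ S₀ l E₁ E₀ ρ₀ n₀ i Γ Qf)
include h

lemma exists_z {x : Ball H} (hxO : 7 * N.c / 8 ≤ |N.UI h.O x|)
    (hn3' : Ball.mass (Tail H S₀ n₀) x ≤ ρ₀ / 8) :
    ∃ z ∈ Fib S₀ (ρ₀ / 8) x, 7 * N.c / 8 ≤ |N.UI h.O z| := by
  refine ⟨rho (insert (i : ℚ) S₀) x, ⟨?_, ?_⟩, ?_⟩
  · rw [rho_of_subset (Finset.subset_insert _ _)]
  · unfold rho
    rw [Ball.mass_res]
    refine le_trans (Ball.mass_mono ?_ x) hn3'
    rintro k ⟨hk1, hk2⟩
    refine ⟨fun r hr => ?_, hk1⟩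
    rcases Finset.mem_insert.1 (supp_subset hk2 hr) with rfl | h1
    · right
      exact_mod_cast h.n₀i
    · exact Or.inl h1
  · rw [h.O_lev.UI_rho]; exact hxO

/-- the bad set for the existence of small perturbations -/
def B₁ : Set (Ball H) := {x | N.c ≤ |N.UI E₁ x|} ∩
  {x | ∃ z ∈ Fib S₀ (ρ₀ / 8) x, 7 * N.c / 8 ≤ |N.UI h.O z|}ᶜ

lemma B₁_meas : MeasurableSet h.B₁ := by
  refine (isClosed_le continuous_const (N.UI E₁).continuous.abs).measurableSet.inter ?_
  exact (isClosed_proj S₀ (ρ₀ / 8) (7 * N.c / 8)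
    ⟨fun z => |N.UI h.O z|, (N.UI h.O).continuous.abs⟩).measurableSet.compl

lemma B₁_sat : Sat S₀ h.B₁ := by
  intro x
  have h1 : N.UI E₁ (rho S₀ x) = N.UI E₁ x := (h.ext.lev₁.mono N h.ext.sub).UI_rho N x
  have h2 : Fib S₀ (ρ₀ / 8) (rho S₀ x) = Fib S₀ (ρ₀ / 8) x := by
    unfold Fib
    rw [rho_idem]
  unfold B₁
  simp only [mem_inter_iff, mem_compl_iff, mem_ofPred_eq, h1, h2]

lemma B₁_le : (N.lam l).real h.B₁ ≤ 3 * (N.c / 100) := by
  have hsub : h.B₁ ⊆ {x | 2 * (N.c / 16) < |N.UI E₁ x - N.UI h.O x|} ∪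
      {x | ρ₀ / 8 < Ball.mass (Tail H S₀ n₀) x} := by
    rintro x ⟨hx1, hx2⟩
    by_contra hxn
    rw [mem_union, not_or] at hxn
    obtain ⟨hn2, hn3⟩ := hxn
    have hx1' : N.c ≤ |N.UI E₁ x| := hx1
    have hn2' : |N.UI E₁ x - N.UI h.O x| ≤ 2 * (N.c / 16) := not_lt.1 hn2
    have hn3' : Ball.mass (Tail H S₀ n₀) x ≤ ρ₀ / 8 := not_lt.1 hn3
    have hxO : 7 * N.c / 8 ≤ |N.UI h.O x| := by
      have := abs_sub_abs_le_abs_sub (N.UI E₁ x) (N.UI h.O x)
      linarith
    exact hx2 (h.exists_z hxO hn3')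
  have h1 := measureReal_mono (μ := N.lam l) hsub
  have h2 := measureReal_union_le (μ := N.lam l)
    {x | 2 * (N.c / 16) < |N.UI E₁ x - N.UI h.O x|} {x | ρ₀ / 8 < Ball.mass (Tail H S₀ n₀) x}
  have h3 := h.align_O h.ext.mem rfl h.mem_O
  have h4 := h.tail
  have h5 := h.ε_le
  linarith

/-- points with the same type on the infinite base -/
lemma mem_cls_of {lm : L} (hlm : ∀ T' : Finset ℚ, (T' : Set ℚ) ⊆ h.Γ' → N.pi T' lm = N.pi T' l) :
    lm ∈ N.cls := by
  show ∃ᶠ n : ℕ in atTop, lm ∈ N.PP n (n : ℚ)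
  rw [Nat.frequently_atTop_iff_infinite]
  refine h.Γinf.mono fun n hn => ?_
  have h1 := hlm {(n : ℚ)} (by
    rw [Finset.coe_singleton, singleton_subset_iff]
    exact Or.inr ⟨n, hn, rfl⟩)
  have h2 := h.ΓP n hn
  rw [← N.PP_lev n (n : ℚ), ← h1, N.PP_lev n (n : ℚ)] at h2
  exact h2

/-- the final contradiction -/
theorem false : False := by
  classical
  have hc := N.c_pos
  have hC := N.C_pos
  have hρ₀ := h.ext.pos
  have hε := h.εpos
  obtain ⟨g₀, hg₀, hξ⟩ := h.exists_g
  obtain ⟨r, hr, K₀, hcontra⟩ := N.exists_contra (show 0 < 3 * N.c / 8 by positivity) hg₀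
  obtain ⟨K₁, hK₁⟩ := exists_nat_gt (8 * N.C * r / (ρ₀ * ε))
  rw [div_lt_iff₀ (by positivity)] at hK₁
  obtain ⟨f, hf, hunb⟩ := h.unbounded (K₀ + K₁ + 4 * r ^ 2)
  have hgap := h.gap hf
  obtain ⟨K, T, E, hST, hTΓ, hE, hlE, hEE₀, hcap, lm, hlmO, hlm, hlmP⟩ :=
    N.exists_filler h.subset_Γ' h.ext.lev₀ h.ext.mem₀ h.O_lev h.mem_O f (pf_strictMono f)
      (fun q hq => (hgap q hq).imp (fun h1 => h1.2) (fun h1 => h1.2))
  have hK : K₀ + K₁ + 4 * r ^ 2 < K := by
    by_contra hcon
    push Not at hcon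
    exact hunb T E hST hTΓ hE hlE hEE₀ (fun l' hl' M hM => (hcap l' hl' M hM).trans hcon)
  have hKpos : (0 : ℝ) < K := by
    have : 0 < K := by omega
    exact_mod_cast this
  have hK1' : (K₁ : ℝ) ≤ K := by
    have : K₁ ≤ K := by omega
    exact_mod_cast this
  have hK2' : (4 : ℝ) * r ^ 2 ≤ K := by
    have : 4 * r ^ 2 ≤ K := by omega
    exact_mod_cast this
  set R : ℝ := (K : ℝ) ^ r with hR
  have hRpos : 0 < R := by positivity
  have hlmc : lm ∈ N.cls := h.mem_cls_of hlm
  have hpiS₀ : N.pi S₀ lm = N.pi S₀ l := hlm S₀ h.subset_Γ'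
  have hpiT : N.pi T lm = N.pi T l := hlm T hTΓ
  have hlmE : lm ∈ E := by rw [← hE, hpiT, hE]; exact hlE
  have hiT : (i : ℚ) ∉ T := fun h' => h.i_notMem_Γ' (hTΓ h')
  have hpT : ∀ m, pf f m ∉ insert (i : ℚ) T := by
    intro m hm
    rcases hgap _ (by
      rcases Finset.mem_insert.1 hm with h1 | h1
      · exact Or.inl h1
      · exact Or.inr (hTΓ h1)) with h1 | h1
    · exact lt_irrefl _ (h1.2 m)
    · exact lt_irrefl _ (h1.2 m)
  have hpT' : ∀ m, pf f m ∉ T := fun m hm => hpT m (Finset.mem_insert_of_mem hm)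
  set ρ' : ℝ := min g₀ (ρ₀ / 4) with hρ'
  have hρ'0 : 0 < ρ' := lt_min hg₀ (by positivity)
  -- levels of the tuples
  set T' : (Fin r → Fin K) → Finset ℚ := fun t => Tt T (pf f) t with hT'
  set a : (Fin r → Fin K) → Clopens L := fun t =>
    E ⊓ Finset.univ.inf fun j => N.PP f (pf f (2 * (t j : ℕ))) with ha
  have hTT' : ∀ t, T ⊆ T' t := fun t => Finset.subset_union_left
  have hST' : ∀ t, S₀ ⊆ T' t := fun t => hST.trans (hTT' t)
  have hiT' : ∀ t, (i : ℚ) ∉ T' t := by
    intro t ht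
    rcases Finset.mem_union.1 ht with h1 | h1
    · exact hiT h1
    · obtain ⟨j, -, hj⟩ := Finset.mem_image.1 h1
      refine hpT (2 * (t j : ℕ)) ?_
      rw [hj]
      exact Finset.mem_insert_self _ _
  have haLev : ∀ t, N.Lev (T' t) (a t) := by
    intro t
    refine (hE.mono N (hTT' t)).inf N ?_
    intro l'
    rw [mem_inf_iff, mem_inf_iff]
    refine forall_congr' fun j => forall_congr' fun _ => ?_
    exact (N.PP_lev f _).mono N (by
      rw [Finset.singleton_subset_iff]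
      exact Finset.mem_union_right _ (Finset.mem_image_of_mem _ (Finset.mem_univ j))) l'
  have haE : ∀ t, a t ≤ E₀ := fun t => inf_le_left.trans hEE₀
  have hlma : ∀ t, lm ∈ a t := fun t => ⟨hlmE, (mem_inf_iff _ _ _).2 fun j _ => hlmP _ (t j).2⟩
  -- bad sets
  set D : (Fin r → Fin K) → Set (Ball H) := fun t =>
    {x | ρ₀ / 4 < Ball.mass (HT H (T' t) \ HT H S₀) x} with hD
  set W : (Fin r → Fin K) → Set (Ball H) := fun t =>
    {x | Ball.mass (HT H (T' t) \ HT H S₀) x ≤ ρ₀ / 4 ∧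
      N.VT (T' t) ρ' (a t) x < N.VT S₀ ρ₀ E₀ x - N.c / 16} with hW
  set η : (Fin r → Fin K) → ℝ := fun t =>
    (N.lam lm).real {x | ρ₀ / 8 ≤ Ball.mass (HT H (T' t) \ HT H T) x} with hη
  have hDm : ∀ t, MeasurableSet (D t) := fun t =>
    measurableSet_lt measurable_const (Ball.measurable_mass _)
  have hWm : ∀ t, MeasurableSet (W t) := fun t =>
    (measurableSet_le (Ball.measurable_mass _) measurable_const).inter
      (measurableSet_lt (N.measurable_VT _ hρ'0.le _)
        ((N.measurable_VT _ hρ₀.le _).sub_const _))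
  -- base increments
  have hbase : (N.lam lm).real {x | ρ₀ / 8 < Ball.mass (HT H T \ HT H S₀) x} ≤ 2 * ε := by
    have hsat : Sat T {x : Ball H | ρ₀ / 8 < Ball.mass (HT H T \ HT H S₀) x} := by
      intro x
      show ρ₀ / 8 < Ball.mass _ (rho T x) ↔ ρ₀ / 8 < Ball.mass _ x
      have : Ball.mass (HT H T \ HT H S₀) (rho T x) = Ball.mass (HT H T \ HT H S₀) x := by
        apply Ball.mass_congr
        intro k hk
        exact Ball.res_of_mem x hk.1
      rw [this]
    have h1 := N.transfer hsat (measurableSet_lt measurable_const (Ball.measurable_mass _))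
      hpiT.symm (h.ext.defect hlmc hpiS₀ (h.ext.sub.trans hST))
    have h2 : (N.lam l).real {x : Ball H | ρ₀ / 8 < Ball.mass (HT H T \ HT H S₀) x} ≤ ε := by
      refine (measureReal_mono ?_).trans h.tail
      intro x hx
      exact lt_of_lt_of_le hx (h.mass_le_tail (h.tail_of_Γ' hTΓ) x)
    linarith
  have hDle : ∀ t, (N.lam lm).real (D t) ≤ 2 * ε + η t := by
    intro t
    have hsub : D t ⊆ {x | ρ₀ / 8 < Ball.mass (HT H T \ HT H S₀) x} ∪
        {x | ρ₀ / 8 ≤ Ball.mass (HT H (T' t) \ HT H T) x} := by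
      intro x hx
      have hx' : ρ₀ / 4 < Ball.mass (HT H (T' t) \ HT H S₀) x := hx
      by_contra hcon
      rw [mem_union, not_or] at hcon
      have h1 : Ball.mass (HT H T \ HT H S₀) x ≤ ρ₀ / 8 := not_lt.1 hcon.1
      have h2 : Ball.mass (HT H (T' t) \ HT H T) x < ρ₀ / 8 := not_le.1 hcon.2
      have h3 : Ball.mass (HT H (T' t) \ HT H S₀) x ≤ Ball.mass (HT H T \ HT H S₀) x +
          Ball.mass (HT H (T' t) \ HT H T) x := by
        rw [← Ball.mass_union]
        · apply Ball.mass_mono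
          rintro k ⟨hk1, hk2⟩
          by_cases hkT : k ∈ HT H T
          · exact Or.inl ⟨hkT, hk2⟩
          · exact Or.inr ⟨hk1, hkT⟩
        · rw [Set.disjoint_left]
          exact fun k hk hk' => hk'.2 hk.1
      linarith
    have h1 := measureReal_mono (μ := N.lam lm) hsub
    have h2 := measureReal_union_le (μ := N.lam lm)
      {x | ρ₀ / 8 < Ball.mass (HT H T \ HT H S₀) x}
      {x | ρ₀ / 8 ≤ Ball.mass (HT H (T' t) \ HT H T) x}
    have h3 : η t = (N.lam lm).real {x | ρ₀ / 8 ≤ Ball.mass (HT H (T' t) \ HT H T) x} := rfl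
    linarith
  have hWle : ∀ t, (N.lam lm).real (W t) ≤
      ((N.C + 2) * ε + N.C * (N.lam lm).real (D t)) / (N.c / 16) + ε := by
    intro t
    exact h.ext.determ hlmc hpiS₀ (hST' t) (haLev t) (hlma t) (haE t) (by positivity) hρ'0
      (by have : ρ' ≤ ρ₀ / 4 := min_le_right _ _
          linarith)
  -- sum of the `η`
  have hηsum : ∑ t, η t ≤ R * ε := by
    have h1 : ∀ t, ρ₀ / 8 * η t ≤ ∫ x, Ball.mass (HT H (T' t) \ HT H T) x ∂(N.lam lm) := by
      intro t
      exact mul_meas_ge_le_integral_of_nonneg (μ := N.lam lm)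
        (f := fun x => Ball.mass (HT H (T' t) \ HT H T) x)
        (Eventually.of_forall fun x => Ball.mass_nonneg _ x)
        ((integrable_const (1 : ℝ)).mono' (Ball.measurable_mass _).aestronglyMeasurable
          (Eventually.of_forall fun x => by
            rw [Real.norm_eq_abs, abs_of_nonneg (Ball.mass_nonneg _ x)]
            exact Ball.mass_le_one _ x)) (ρ₀ / 8)
    have h2 := Finset.sum_le_sum fun t (_ : t ∈ (Finset.univ : Finset (Fin r → Fin K))) => h1 t
    rw [← Finset.mul_sum, ← integral_finsetSum] at h2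
    · have h3 : ∫ x, ∑ t : Fin r → Fin K, Ball.mass (HT H (T' t) \ HT H T) x ∂(N.lam lm) ≤
          N.C * (r * (K : ℝ) ^ (r - 1)) := by
        calc ∫ x, ∑ t : Fin r → Fin K, Ball.mass (HT H (T' t) \ HT H T) x ∂(N.lam lm)
            ≤ ∫ x, (r * (K : ℝ) ^ (r - 1) : ℝ) ∂(N.lam lm) := by
              apply integral_mono_of_nonneg
              · exact Eventually.of_forall fun x => Finset.sum_nonneg fun q _ =>
                  Ball.mass_nonneg _ x
              · exact integrable_const _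
              · exact Eventually.of_forall fun x => N.tuple_mass T (pf_strictMono f) hpT' x
          _ = (N.lam lm).real univ * (r * (K : ℝ) ^ (r - 1)) := by
              rw [integral_const, smul_eq_mul]
          _ ≤ _ := mul_le_mul_of_nonneg_right (N.m_le lm) (by positivity)
      have h4 : R = K * (K : ℝ) ^ (r - 1) := by
        rw [hR, ← pow_succ']
        congr 1
        omega
      have h5 : (0 : ℝ) < (K : ℝ) ^ (r - 1) := by positivity
      have h6 : ρ₀ / 8 * ∑ t, η t ≤ N.C * (r * (K : ℝ) ^ (r - 1)) := h2.trans h3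
      have h7 : 8 * N.C * r ≤ K * (ρ₀ * ε) := by
        have := mul_le_mul_of_nonneg_right hK1' (show 0 ≤ ρ₀ * ε by positivity)
        linarith
      have h8 : N.C * (r * (K : ℝ) ^ (r - 1)) ≤ ρ₀ / 8 * (R * ε) := by
        rw [h4]
        have := mul_le_mul_of_nonneg_right h7 h5.le
        nlinarith
      exact le_of_mul_le_mul_left (h6.trans h8) (by positivity)
    · intro t _
      exact (integrable_const (1 : ℝ)).mono' (Ball.measurable_mass _).aestronglyMeasurable
        (Eventually.of_forall fun x => by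
          rw [Real.norm_eq_abs, abs_of_nonneg (Ball.mass_nonneg _ x)]
          exact Ball.mass_le_one _ x)
  have hcard : ((Finset.univ : Finset (Fin r → Fin K)).card : ℝ) = R := by
    rw [Finset.card_univ, Fintype.card_fun, Fintype.card_fin, Fintype.card_fin]
    push_cast
    rfl
  have hbadsum : ∑ t, (N.lam lm).real (D t ∪ W t) ≤ R * (8 * (N.c / 100)) := by
    have h1 : ∀ t, (N.lam lm).real (D t ∪ W t) ≤ (3 * ε + ((N.C + 2) * ε + 2 * N.C * ε) / (N.c / 16))
        + (1 + N.C / (N.c / 16)) * η t := by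
      intro t
      have h2 := measureReal_union_le (μ := N.lam lm) (D t) (W t)
      have h3 := hDle t
      have h4 := hWle t
      have h5 : ((N.C + 2) * ε + N.C * (N.lam lm).real (D t)) / (N.c / 16) ≤
          ((N.C + 2) * ε + N.C * (2 * ε + η t)) / (N.c / 16) := by
        apply div_le_div_of_nonneg_right _ (by positivity)
        have := mul_le_mul_of_nonneg_left h3 hC.le
        linarith
      have h6 : ((N.C + 2) * ε + N.C * (2 * ε + η t)) / (N.c / 16) =
          ((N.C + 2) * ε + 2 * N.C * ε) / (N.c / 16) + N.C / (N.c / 16) * η t := by ring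
      rw [h6] at h5
      linarith
    refine (Finset.sum_le_sum fun t _ => h1 t).trans ?_
    rw [Finset.sum_add_distrib, Finset.sum_const, nsmul_eq_mul, hcard, ← Finset.mul_sum]
    have h2 : (1 + N.C / (N.c / 16)) * ∑ t, η t ≤ (1 + N.C / (N.c / 16)) * (R * ε) :=
      mul_le_mul_of_nonneg_left hηsum (by positivity)
    have h3 : R * (3 * ε + ((N.C + 2) * ε + 2 * N.C * ε) / (N.c / 16)) +
        (1 + N.C / (N.c / 16)) * (R * ε) =
        R * (4 * ε + ((N.C + 2) * ε + 3 * N.C * ε) / (N.c / 16)) := by ring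
    have h4 : ((N.C + 2) * ε + 3 * N.C * ε) / (N.c / 16) ≤ 4 * (N.c / 100) := by
      have h5 : (N.C + 2) * ε + 3 * N.C * ε ≤ 4 * ((N.C + 2) * ε) := by nlinarith
      have h6 := div_le_div_of_nonneg_right h5 (show 0 ≤ N.c / 16 by positivity)
      have h7 := h.εsmall
      have h8 : 4 * ((N.C + 2) * ε) / (N.c / 16) = 4 * ((N.C + 2) * ε / (N.c / 16)) := by ring
      rw [h8] at h6
      linarith
    have h9 := h.ε_le
    have h10 : R * (4 * ε + ((N.C + 2) * ε + 3 * N.C * ε) / (N.c / 16)) ≤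
        R * (8 * (N.c / 100)) := mul_le_mul_of_nonneg_left (by linarith) hRpos.le
    linarith
  -- the number of bad tuples
  set nb : Ball H → ℝ := fun x => ∑ t : Fin r → Fin K, (D t ∪ W t).indicator (fun _ => (1 : ℝ)) x
    with hnb
  have hnbint : ∀ t, Integrable ((D t ∪ W t).indicator (fun _ => (1 : ℝ))) (N.lam lm) := fun t =>
    (integrable_const (1 : ℝ)).indicator ((hDm t).union (hWm t))
  have hnb1 : ∫ x, nb x ∂(N.lam lm) ≤ R * (8 * (N.c / 100)) := by
    rw [hnb, integral_finsetSum _ (fun t _ => hnbint t)]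
    refine le_trans (le_of_eq (Finset.sum_congr rfl fun t _ => ?_)) hbadsum
    rw [integral_indicator ((hDm t).union (hWm t)), setIntegral_const, smul_eq_mul, mul_one]
  have hnb2 : (N.lam lm).real {x | R / 4 ≤ nb x} ≤ 32 * (N.c / 100) := by
    have h1 := mul_meas_ge_le_integral_of_nonneg (μ := N.lam lm) (f := nb)
      (Eventually.of_forall fun x => Finset.sum_nonneg fun t _ =>
        indicator_nonneg (fun _ _ => zero_le_one) x)
      (integrable_finsetSum _ fun t _ => hnbint t) (R / 4)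
    have h2 := h1.trans hnb1
    have h3 : R * ((N.lam lm).real {x | R / 4 ≤ nb x} / 4) ≤ R * (8 * (N.c / 100)) := by
      linarith
    have h4 := le_of_mul_le_mul_left h3 hRpos
    linarith
  -- the choice of `x`
  have hal := h.align_O hlmc hpiS₀ hlmO
  have hlf := N.large_fraction (a := E₁) (l := lm) (h.ext.le (hEE₀ hlmE))
  have hB₁ : (N.lam lm).real h.B₁ ≤ 4 * (N.c / 100) := by
    have h1 := N.transfer h.B₁_sat h.B₁_meas hpiS₀.symm (h.ext.defect hlmc hpiS₀ h.ext.sub)
    have h2 := h.B₁_le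
    have h3 := h.ε_le
    linarith
  obtain ⟨x, hx1, hx2, hx3, hx4⟩ : ∃ x : Ball H, N.c ≤ |N.UI E₁ x| ∧
      |N.UI E₁ x - N.UI h.O x| ≤ 2 * (N.c / 16) ∧ x ∉ h.B₁ ∧ nb x < R / 4 := by
    by_contra hcon
    push Not at hcon
    have hsub : {x | N.c ≤ |N.UI E₁ x|} ⊆
        ({x | 2 * (N.c / 16) < |N.UI E₁ x - N.UI h.O x|} ∪ h.B₁) ∪ {x | R / 4 ≤ nb x} := by
      intro x hx
      by_contra hxn
      rw [mem_union, mem_union, not_or, not_or] at hxn
      exact absurd (hcon x hx (not_lt.1 hxn.1.1) hxn.1.2) (fun h' => hxn.2 h')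
    have h1 := measureReal_mono (μ := N.lam lm) hsub
    have h2 := measureReal_union_le (μ := N.lam lm)
      ({x | 2 * (N.c / 16) < |N.UI E₁ x - N.UI h.O x|} ∪ h.B₁) {x | R / 4 ≤ nb x}
    have h3 := measureReal_union_le (μ := N.lam lm)
      {x | 2 * (N.c / 16) < |N.UI E₁ x - N.UI h.O x|} h.B₁
    linarith
  have hxO : 7 * N.c / 8 ≤ |N.UI h.O x| := by
    have := abs_sub_abs_le_abs_sub (N.UI E₁ x) (N.UI h.O x)
    linarith
  have hz : ∃ z ∈ Fib S₀ (ρ₀ / 8) x, 7 * N.c / 8 ≤ |N.UI h.O z| := by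
    by_contra hcon
    exact hx3 ⟨hx1, hcon⟩
  obtain ⟨ξ, hξ0, hξ1, hξ2, hξ3⟩ := hξ x hxO hz
  -- the filler configuration
  have hBlev : N.Lev (insert (i : ℚ) T) (h.O ⊓ E) :=
    (h.O_lev.mono N (Finset.insert_subset_insert _ hST)).inf N
      (hE.mono N (Finset.subset_insert _ _))
  let Z : N.Fil :=
    { T := T
      i := i
      hi := hiT
      B := h.O ⊓ E
      hB := hBlev
      n := f
      p := pf f
      hp := pf_strictMono f
      gap := fun q hq => (hgap q (by
        rcases Finset.mem_insert.1 hq with h1 | h1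
        · exact Or.inl h1
        · exact Or.inr (hTΓ h1))).imp (fun h1 => h1.2) (fun h1 => h1.2)
      K := K
      x := x
      ξ := ξ
      hξ := fun k hk => by
        obtain ⟨h1, h2⟩ := hξ0 k hk
        refine ⟨HT_mono (Finset.insert_subset_insert _ hST) h1, fun h3 => h2 ?_⟩
        have h4 : k ∈ HT H (T ∩ insert (i : ℚ) S₀) := by rw [← HT_inter]; exact ⟨h3, h1⟩
        refine HT_mono ?_ h4
        intro r hr
        rw [Finset.mem_inter, Finset.mem_insert] at hr
        rcases hr.2 with rfl | h5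
        · exact absurd hr.1 hiT
        · exact h5 }
  have hiTT : (i : ℚ) ∉ T ∪ Z.T₀ := by
    rw [Finset.mem_union, not_or]
    refine ⟨hiT, fun h1 => ?_⟩
    obtain ⟨j, -, hj⟩ := Finset.mem_image.1 h1
    exact Z.p_ne_i _ hj
  have hm0 := mass_rho_add (H := H) hiTT (hST.trans Finset.subset_union_left) x
  have hm0' : Ball.mass univ (rho (T ∪ Z.T₀) x) = Ball.mass (HT H (T ∪ Z.T₀)) x := by
    unfold rho; rw [Ball.mass_res, univ_inter]
  have hmF : ∑ F : Finset (Fin Z.K), Z.mF F + Ball.mass univ Z.ξ ≤ 1 - g₀ := by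
    have h1 : ∑ F : Finset (Fin Z.K), Z.mF F ≤ Ball.mass (HT H (T ∪ Z.T₀)) x := Z.sum_mF_le
    have h2 : Ball.mass univ Z.ξ = Ball.mass univ ξ := rfl
    rw [h2]
    linarith
  set xξ : Ball H := Ball.add (rho (T ∪ Z.T₀) x) ξ (by linarith) with hxξ
  set Gd : Finset (Fin r → Fin K) := Finset.univ.filter fun t =>
    Function.Injective t ∧ x ∉ D t ∪ W t with hGd
  have hgood : ∀ t ∈ Gd, 3 * N.c / 8 ≤
      |N.UI (Z.B ⊓ Finset.univ.inf fun j => N.PP Z.n (Z.p (2 * (t j : ℕ)))) xξ| := by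
    intro t ht
    have hxt := (Finset.mem_filter.1 ht).2.2
    rw [mem_union, not_or] at hxt
    have hmS : Ball.mass (HT H (T' t) \ HT H S₀) x ≤ ρ₀ / 4 := not_lt.1 hxt.1
    have hVT : N.VT S₀ ρ₀ E₀ x - N.c / 16 ≤ N.VT (T' t) ρ' (a t) x := by
      by_contra hcon2
      push Not at hcon2
      exact hxt.2 ⟨hmS, hcon2⟩
    have hm1 := mass_rho_add (H := H) (hiT' t) (hST' t) x
    set w₀ : Ball H := Ball.add (rho (T' t) x) ξ (by linarith) with hw₀
    have h1 := N.point_good h.O_lev h.O_le hρ₀ hρ'0 (min_le_left _ _) (min_le_right _ _) hξ0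
        hξ1 hξ2 hξ3 (hST' t) (hiT' t) (haLev t) (haE t) hmS hVT (w₀ := w₀) (fun k => rfl)
    have e1 : Z.B ⊓ Finset.univ.inf (fun j => N.PP Z.n (Z.p (2 * (t j : ℕ)))) = h.O ⊓ a t := by
      show (h.O ⊓ E) ⊓ _ = h.O ⊓ (E ⊓ _)
      rw [inf_assoc]
    rw [e1]
    have hlev : N.Lev (insert (i : ℚ) (T' t)) (h.O ⊓ a t) :=
      (h.O_lev.mono N (Finset.insert_subset_insert _ (hST' t))).inf N
        ((haLev t).mono N (Finset.subset_insert _ _))
    have e2 : N.UI (h.O ⊓ a t) xξ = N.UI (h.O ⊓ a t) w₀ := by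
      rw [← hlev.UI_rho, ← hlev.UI_rho N w₀]
      congr 1
      rw [rho, rho, Ball.res_eq_iff]
      intro k hk
      show rho (T ∪ Z.T₀) x k + ξ k = rho (T' t) x k + ξ k
      congr 1
      by_cases hkT : k ∈ HT H (T' t)
      · have hk2 : k ∈ HT H (T ∪ Z.T₀) := by
          refine HT_mono ?_ hkT
          intro q hq
          rcases Finset.mem_union.1 hq with h2 | h2
          · exact Finset.mem_union_left _ h2
          · obtain ⟨j, -, hj⟩ := Finset.mem_image.1 h2
            refine Finset.mem_union_right _ (Finset.mem_image.2 ⟨t j, Finset.mem_univ _, ?_⟩)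
            rw [← hj]
            exact Z.pos_empty (t j)
        rw [rho, rho, Ball.res_of_mem x hk2, Ball.res_of_mem x hkT]
      · have hk2 : k ∉ HT H (T ∪ Z.T₀) := by
          intro hk3
          apply hkT
          have h4 : k ∈ HT H ((T ∪ Z.T₀) ∩ insert (i : ℚ) (T' t)) := by
            rw [← HT_inter]; exact ⟨hk3, hk⟩
          refine HT_mono ?_ h4
          intro q hq
          rw [Finset.mem_inter, Finset.mem_insert] at hq
          rcases hq.2 with rfl | h5
          · exact absurd hq.1 hiTT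
          · exact h5
        rw [rho, rho, Ball.res_of_notMem x hk2, Ball.res_of_notMem x hkT]
    rw [e2]
    exact h1
  have hGcard : R ≤ 2 * Gd.card := by
    have h1 : (Finset.univ : Finset (Fin r → Fin K)) ⊆ (Gd ∪
        Finset.univ.filter fun t : Fin r → Fin K => ¬ Function.Injective t) ∪
        Finset.univ.filter fun t : Fin r → Fin K => x ∈ D t ∪ W t := by
      intro t _
      by_cases h2 : Function.Injective t
      · by_cases h3 : x ∈ D t ∪ W t
        · exact Finset.mem_union_right _ (Finset.mem_filter.2 ⟨Finset.mem_univ _, h3⟩)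
        · exact Finset.mem_union_left _ (Finset.mem_union_left _
            (Finset.mem_filter.2 ⟨Finset.mem_univ _, h2, h3⟩))
      · exact Finset.mem_union_left _ (Finset.mem_union_right _
            (Finset.mem_filter.2 ⟨Finset.mem_univ _, h2⟩))
    have h2 := (Finset.card_le_card h1).trans ((Finset.card_union_le _ _).trans
      (Nat.add_le_add_right (Finset.card_union_le _ _) _))
    have h3 : R ≤ Gd.card + ((Finset.univ.filter fun t : Fin r → Fin K =>
        ¬ Function.Injective t).card : ℝ) +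
        ((Finset.univ.filter fun t : Fin r → Fin K => x ∈ D t ∪ W t).card : ℝ) := by
      rw [← hcard]
      exact_mod_cast h2
    have h4 : ((Finset.univ.filter fun t : Fin r → Fin K => x ∈ D t ∪ W t).card : ℝ) = nb x := by
      rw [hnb, Finset.card_filter]
      push_cast
      refine Finset.sum_congr rfl fun t _ => ?_
      by_cases h5 : x ∈ D t ∪ W t
      · rw [if_pos h5, indicator_of_mem h5]
      · rw [if_neg h5, indicator_of_notMem h5]
    have h5 := card_noninj r K (by omega) (by omega)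
    have h6 : (K : ℝ) ^ r * ((r : ℝ) ^ 2 / K) ≤ R * (1 / 4) := by
      apply mul_le_mul_of_nonneg_left _ hRpos.le
      rw [div_le_iff₀ hKpos]
      linarith
    linarith
  exact hcontra Z (by show K₀ ≤ K; omega) hcap hmF xξ (fun k => rfl) Gd
    (fun t ht => (Finset.mem_filter.1 ht).2.1) hgood hGcard

end Base

/-- there are no natural systems -/
theorem no_natSys (N : NatSys H L) : False := by
  classical
  have hc := N.c_pos
  have hC := N.C_pos
  set ε : ℝ := (N.c / 100) * (N.c / 16) / (N.C + 2) with hε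
  have hεpos : 0 < ε := by positivity
  have hεs : (N.C + 2) * ε / (N.c / 16) ≤ N.c / 100 := by
    have : (N.C + 2) * ε / (N.c / 16) = N.c / 100 := by
      rw [hε]; field_simp
    rw [this]
  obtain ⟨S₁, S₀, l, E₁, E₀, ρ₀, hx⟩ := N.exists_ext hεpos
  obtain ⟨n₀, hn₀, htail⟩ := N.exists_tail S₀ l (ρ := ρ₀ / 8) (by have := hx.pos; positivity) hεpos
  have hQ : {n : ℕ | l ∈ N.PP n (n : ℚ)}.Infinite := by
    have := hx.mem
    rwa [cls, mem_ofPred_eq, Nat.frequently_atTop_iff_infinite] at this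
  have hQ' : ({n : ℕ | l ∈ N.PP n (n : ℚ)} ∩ {n | n₀ ≤ n}).Infinite := by
    by_contra hcon
    rw [not_infinite] at hcon
    apply hQ
    refine (hcon.union (finite_lt_nat n₀)).subset ?_
    intro n hn
    by_cases h : n₀ ≤ n
    · exact Or.inl ⟨hn, h⟩
    · exact Or.inr (not_le.1 h)
  have hinf : Infinite ({n : ℕ | l ∈ N.PP n (n : ℚ)} ∩ {n | n₀ ≤ n} : Set ℕ) := hQ'.to_subtype
  let en : ℕ → ℕ := fun k =>
    (Nat.orderEmbeddingOfSet ({n : ℕ | l ∈ N.PP n (n : ℚ)} ∩ {n | n₀ ≤ n}) k : ℕ)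
  have hen : StrictMono en :=
    (Nat.orderEmbeddingOfSet ({n : ℕ | l ∈ N.PP n (n : ℚ)} ∩ {n | n₀ ≤ n})).strictMono
  have henQ : ∀ k, en k ∈ ({n : ℕ | l ∈ N.PP n (n : ℚ)} ∩ {n | n₀ ≤ n} : Set ℕ) := fun k => by
    rw [← Nat.orderEmbeddingOfSet_range ({n : ℕ | l ∈ N.PP n (n : ℚ)} ∩ {n | n₀ ≤ n})]
    exact mem_range_self k
  have hbase : Base N ε S₁ S₀ l E₁ E₀ ρ₀ n₀ (en 0) (range fun k => en (2 * k + 1))
      (range fun k => en (2 * k + 2)) :=
    { ext := hx
      εpos := hεpos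
      εsmall := hεs
      n₀S := hn₀
      tail := htail
      n₀i := (henQ 0).2
      iP := (henQ 0).1
      ΓP := by rintro _ ⟨k, rfl⟩; exact (henQ _).1
      Γi := by rintro _ ⟨k, rfl⟩; exact hen (by omega)
      Γinf := infinite_range_of_injective fun a b h => by
        have := hen.injective h
        omega
      QP := by rintro _ ⟨k, rfl⟩; exact (henQ _).1
      Qi := by rintro _ ⟨k, rfl⟩; exact hen (by omega)
      Qinf := infinite_range_of_injective fun a b h => by
        have := hen.injective h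
        omega
      disj := by
        rintro _ ⟨k, rfl⟩ ⟨k', h⟩
        have := hen.injective h
        omega }
  exact hbase.false

end NatSys
end Pool.Agent.H53.ZD
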