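import Mathlib

set_option autoImplicit false
set_option linter.unusedSectionVars false
open Set Filter Topology

namespace Pool.Agent.H53.ZD

/-- automorphisms of the ordered rationals -/
abbrev G := ℚ ≃o ℚ

open Order Order.PartialIso in
/-- finite partial isomorphisms of the rationals extend -/
theorem exists_iso_extend (S : Finset ℚ) (f : ℚ → ℚ) (hf : StrictMonoOn f S) :
    ∃ g : G, ∀ q ∈ S, g q = f q := by
  classical
  cases nonempty_encodable ℚ
  let p₀ : PartialIso ℚ ℚ := ⟨S.image (fun q => (q, f q)), by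
    intro p hp q hq
    rw [Finset.mem_image] at hp hq
    obtain ⟨a, ha, rfl⟩ := hp
    obtain ⟨b, hb, rfl⟩ := hq
    exact (hf.cmp_map_eq ha hb).symm⟩
  let to_cofinal : ℚ ⊕ ℚ → Cofinal (PartialIso ℚ ℚ) := fun p ↦
    Sum.recOn p (definedAtLeft ℚ) (definedAtRight ℚ)
  let our_ideal : Ideal (PartialIso ℚ ℚ) := idealOfCofinals p₀ to_cofinal
  let F a := funOfIdeal a our_ideal (cofinal_meets_idealOfCofinals _ to_cofinal (Sum.inl a))
  let G b := invOfIdeal b our_ideal (cofinal_meets_idealOfCofinals _ to_cofinal (Sum.inr b))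
  refine ⟨OrderIso.ofCmpEqCmp (fun a ↦ (F a).val) (fun b ↦ (G b).val) fun a b ↦ by
      rcases (F a).prop with ⟨f, hf, ha⟩
      rcases (G b).prop with ⟨g, hg, hb⟩
      rcases our_ideal.directed _ hf _ hg with ⟨m, _, fm, gm⟩
      exact m.prop (a, _) (fm ha) (_, b) (gm hb), ?_⟩
  intro q hq
  show (F q).val = f q
  rcases (F q).prop with ⟨f', hf', ha⟩
  rcases our_ideal.directed _ hf' _ (mem_idealOfCofinals p₀ to_cofinal) with ⟨m, _, fm, gm⟩
  have h1 : (q, f q) ∈ p₀.val := Finset.mem_image.2 ⟨q, hq, rfl⟩
  have := m.prop (q, (F q).val) (fm ha) (q, f q) (gm h1)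
  simp only [cmp_self_eq_eq] at this
  exact (cmp_eq_eq_iff _ _).1 this.symm

/-- small positive numbers separate a finite set -/
lemma exists_sep (F : Finset ℚ) : ∃ ε : ℚ, 0 < ε ∧ ∀ x ∈ F, ∀ y ∈ F, x < y → x + ε < y := by
  classical
  have h : ∀ᶠ ε in 𝓝[>] (0 : ℚ), ∀ p ∈ F ×ˢ F, p.1 < p.2 → p.1 + ε < p.2 := by
    rw [Finset.eventually_all]
    intro p _
    by_cases hp : p.1 < p.2
    · have : ∀ᶠ ε in 𝓝[>] (0 : ℚ), ε < p.2 - p.1 :=
        Filter.Eventually.filter_mono nhdsWithin_le_nhds (Iio_mem_nhds (sub_pos.2 hp))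
      filter_upwards [this] with ε hε _
      linarith
    · exact Eventually.of_forall fun _ h => absurd h hp
  obtain ⟨ε, h1, h2⟩ := (h.and self_mem_nhdsWithin).exists
  exact ⟨ε, h2, fun x hx y hy hxy => h1 (x, y) (Finset.mk_mem_product hx hy) hxy⟩

/-- pointwise stabiliser of a finite set -/
def Fix (T : Finset ℚ) (g : G) : Prop := ∀ q ∈ T, g q = q

lemma Fix.mono {S T : Finset ℚ} {g : G} (h : Fix T g) (hS : S ⊆ T) : Fix S g :=
  fun q hq => h q (hS hq)

lemma Fix.inv {T : Finset ℚ} {g : G} (h : Fix T g) : Fix T g⁻¹ := by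
  intro q hq
  have := h q hq
  calc g⁻¹ q = g⁻¹ (g q) := by rw [this]
    _ = q := g.symm_apply_apply q

lemma Fix.mul {T : Finset ℚ} {g k : G} (h : Fix T g) (h' : Fix T k) : Fix T (g * k) := by
  intro q hq
  show g (k q) = q
  rw [h' q hq, h q hq]

lemma Fix.one (T : Finset ℚ) : Fix T 1 := fun _ _ => rfl

/-- moving a finite set off another one while fixing `T` -/
lemma exists_move (T A B : Finset ℚ) : ∃ g : G, Fix T g ∧ ∀ a ∈ A, a ∉ T → g a ∉ B := by
  classical
  obtain ⟨ε, hε, h⟩ := exists_sep (T ∪ A ∪ B)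
  obtain ⟨g, hg⟩ := exists_iso_extend (T ∪ A) (fun q => if q ∈ T then q else q + ε / 2) (by
    intro x hx y hy hxy
    have hx' : x ∈ T ∪ A ∪ B := Finset.mem_union_left _ hx
    have hy' : y ∈ T ∪ A ∪ B := Finset.mem_union_left _ hy
    have := h x hx' y hy' hxy
    by_cases h1 : x ∈ T <;> by_cases h2 : y ∈ T <;> simp only [h1, h2, if_true, if_false] <;>
      linarith)
  refine ⟨g, fun q hq => ?_, fun a ha haT hB => ?_⟩
  · rw [hg q (Finset.mem_union_left _ hq)]; simp [hq]
  · rw [hg a (Finset.mem_union_right _ ha)] at hB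
    simp only [haT, if_false] at hB
    have := h a (by simp [ha]) (a + ε / 2) (by simp [hB]) (by linarith)
    linarith

section supp
variable {X : Type*} [MulAction G X]

/-- `T` supports `x` -/
def Supp (T : Finset ℚ) (x : X) : Prop := ∀ g : G, Fix T g → g • x = x

lemma Supp.mono {S T : Finset ℚ} {x : X} (h : Supp S x) (hS : S ⊆ T) : Supp T x :=
  fun g hg => h g (hg.mono hS)

lemma Supp.smul {T : Finset ℚ} {x : X} (h : Supp T x) (g : G) : Supp (T.image g) (g • x) := by
  intro k hk
  have : Fix T (g⁻¹ * k * g) := by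
    intro q hq
    show g⁻¹ (k (g q)) = q
    rw [hk (g q) (Finset.mem_image_of_mem _ hq)]
    exact g.symm_apply_apply q
  have h2 := h _ this
  rw [mul_smul, mul_smul, inv_smul_eq_iff] at h2
  exact h2

lemma supp_erase {S T : Finset ℚ} {x : X} (hS : Supp S x) (hT : Supp T x) {s : ℚ}
    (hs : s ∉ T) : Supp (S.erase s) x := by
  classical
  by_cases hsS : s ∈ S
  swap
  · rwa [Finset.erase_eq_of_notMem hsS]
  obtain ⟨ε, hε, h⟩ := exists_sep (S ∪ T)
  have hsU : s ∈ S ∪ T := Finset.mem_union_left _ hsS
  -- moving `s` a little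
  have key : ∀ s' : ℚ, |s' - s| < ε → Supp (insert s' (S.erase s)) x := by
    intro s' hs'
    obtain ⟨k, hk⟩ := exists_iso_extend (S ∪ T) (fun q => if q = s then s' else q) (by
      intro a ha b hb hab
      have := h a ha b hb hab
      have h3 := abs_lt.1 hs'
      by_cases h1 : a = s <;> by_cases h2 : b = s <;> simp only [h1, h2, if_true, if_false] <;>
        first
        | (subst h1; subst h2; exact absurd hab (lt_irrefl _))
        | (subst h1; linarith)
        | (subst h2; linarith)
        | linarith)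
    have h1 : k • x = x := hT k (fun q hq => by
      rw [hk q (Finset.mem_union_right _ hq)]
      have : q ≠ s := fun e => hs (e ▸ hq)
      simp [this])
    have h2 := hS.smul k
    rw [h1] at h2
    convert h2 using 1
    ext q
    simp only [Finset.mem_insert, Finset.mem_erase, Finset.mem_image]
    constructor
    · rintro (rfl | ⟨h3, h4⟩)
      · exact ⟨s, hsS, by rw [hk s hsU]; simp⟩
      · exact ⟨q, h4, by rw [hk q (Finset.mem_union_left _ h4)]; simp [h3]⟩
    · rintro ⟨a, ha, rfl⟩
      rw [hk a (Finset.mem_union_left _ ha)]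
      by_cases h3 : a = s
      · simp [h3]
      · simp [h3, ha]
  intro g hg
  have hmono : ∀ q ∈ S.erase s, (q < s ↔ q < g s) ∧ (s < q ↔ g s < q) := by
    intro q hq
    have e := hg q hq
    constructor
    · conv_rhs => rw [← e]
      exact (g.lt_iff_lt).symm
    · conv_rhs => rw [← e]
      exact (g.lt_iff_lt).symm
  -- it suffices to find a suitable `k`
  have fin : ∀ k : G, k • x = x → k s = g s → Fix (S.erase s) k → g • x = x := by
    intro k hk1 hk2 hk3
    have : Fix S (k⁻¹ * g) := by
      intro q hq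
      by_cases h3 : q = s
      · subst h3
        show k⁻¹ (g q) = q
        rw [← hk2]
        exact k.symm_apply_apply q
      · have hq' : q ∈ S.erase s := Finset.mem_erase.2 ⟨h3, hq⟩
        exact (hk3.inv.mul hg) q hq'
    have h4 := hS _ this
    rw [mul_smul, inv_smul_eq_iff] at h4
    rw [h4, hk1]
  rcases le_total s (g s) with hle | hle
  · have hE := key (s - ε / 2) (by
      rw [abs_lt]; constructor <;> linarith)
    obtain ⟨k, hk⟩ := exists_iso_extend (insert (s - ε / 2) S)
      (fun q => if q = s then g s else q) (by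
        intro a ha b hb hab
        simp only [Finset.coe_insert, mem_insert_iff, Finset.mem_coe] at ha hb
        by_cases h1 : a = s
        · by_cases h2 : b = s
          · exact absurd hab (by simp [h1, h2])
          · simp only [h1, h2, if_true, if_false]
            rcases hb with hb | hb
            · linarith
            · exact ((hmono b (Finset.mem_erase.2 ⟨h2, hb⟩)).2).1 (h1 ▸ hab)
        · by_cases h2 : b = s
          · simp only [h1, h2, if_true, if_false]
            rcases ha with ha | ha
            · linarith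
            · exact ((hmono a (Finset.mem_erase.2 ⟨h1, ha⟩)).1).1 (h2 ▸ hab)
          · simp only [h1, h2, if_false]; exact hab)
    have hsne : s - ε / 2 ≠ s := by linarith
    refine fin k (hE k ?_) ?_ ?_
    · intro q hq
      rw [Finset.mem_insert, Finset.mem_erase] at hq
      rcases hq with rfl | ⟨h1, h2⟩
      · rw [hk _ (Finset.mem_insert_self _ _)]; simp [hsne]
      · rw [hk _ (Finset.mem_insert_of_mem h2)]; simp [h1]
    · rw [hk _ (Finset.mem_insert_of_mem hsS)]; simp
    · intro q hq
      rw [Finset.mem_erase] at hq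
      rw [hk _ (Finset.mem_insert_of_mem hq.2)]; simp [hq.1]
  · have hE := key (s + ε / 2) (by
      rw [abs_lt]; constructor <;> linarith)
    obtain ⟨k, hk⟩ := exists_iso_extend (insert (s + ε / 2) S)
      (fun q => if q = s then g s else q) (by
        intro a ha b hb hab
        simp only [Finset.coe_insert, mem_insert_iff, Finset.mem_coe] at ha hb
        by_cases h1 : a = s
        · by_cases h2 : b = s
          · exact absurd hab (by simp [h1, h2])
          · simp only [h1, h2, if_true, if_false]
            rcases hb with hb | hb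
            · linarith
            · exact ((hmono b (Finset.mem_erase.2 ⟨h2, hb⟩)).2).1 (h1 ▸ hab)
        · by_cases h2 : b = s
          · simp only [h1, h2, if_true, if_false]
            rcases ha with ha | ha
            · linarith
            · exact ((hmono a (Finset.mem_erase.2 ⟨h1, ha⟩)).1).1 (h2 ▸ hab)
          · simp only [h1, h2, if_false]; exact hab)
    have hsne : s + ε / 2 ≠ s := by linarith
    refine fin k (hE k ?_) ?_ ?_
    · intro q hq
      rw [Finset.mem_insert, Finset.mem_erase] at hq
      rcases hq with rfl | ⟨h1, h2⟩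
      · rw [hk _ (Finset.mem_insert_self _ _)]; simp [hsne]
      · rw [hk _ (Finset.mem_insert_of_mem h2)]; simp [h1]
    · rw [hk _ (Finset.mem_insert_of_mem hsS)]; simp
    · intro q hq
      rw [Finset.mem_erase] at hq
      rw [hk _ (Finset.mem_insert_of_mem hq.2)]; simp [hq.1]

lemma supp_inter {S T : Finset ℚ} {x : X} (hS : Supp S x) (hT : Supp T x) :
    Supp (S ∩ T) x := by
  classical
  have key : ∀ U : Finset ℚ, (∀ u ∈ U, u ∉ T) → Supp (S \ U) x := by
    intro U
    induction U using Finset.induction_on with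
    | empty => intro _; simpa using hS
    | insert a U ha ih =>
      intro hU
      have h1 := ih (fun u hu => hU u (Finset.mem_insert_of_mem hu))
      have h2 := supp_erase h1 hT (hU a (Finset.mem_insert_self _ _))
      refine h2.mono ?_
      intro q hq
      simp only [Finset.mem_erase, Finset.mem_sdiff, Finset.mem_insert, not_or] at hq ⊢
      exact ⟨hq.2.1, hq.1, hq.2.2⟩
  refine (key (S \ T) (fun u hu => (Finset.mem_sdiff.1 hu).2)).mono ?_
  intro q hq
  simp only [Finset.mem_sdiff, not_and, not_not] at hq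
  exact Finset.mem_inter.2 ⟨hq.1, hq.2 hq.1⟩

/-- existence of a least support -/
lemma exists_least_supp {x : X} (h : ∃ T : Finset ℚ, Supp T x) :
    ∃ T : Finset ℚ, Supp T x ∧ ∀ S : Finset ℚ, Supp S x → T ⊆ S := by
  classical
  have : ∃ n, ∃ T : Finset ℚ, Supp T x ∧ T.card = n := by
    obtain ⟨T, hT⟩ := h
    exact ⟨_, T, hT, rfl⟩
  obtain ⟨T, hT, hcard⟩ := Nat.find_spec this
  refine ⟨T, hT, fun S hS => ?_⟩
  have h1 := supp_inter hT hS
  have h2 : (T ∩ S).card < T.card → False := by
    intro hlt
    rw [hcard] at hlt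
    exact Nat.find_min this hlt ⟨T ∩ S, h1, rfl⟩
  have h3 : T ∩ S = T := Finset.eq_of_subset_of_card_le Finset.inter_subset_left (not_lt.1 h2)
  rw [← h3]
  exact Finset.inter_subset_right

/-- the least support (junk value when there is none) -/
noncomputable def supp (x : X) : Finset ℚ := by
  classical
  exact if h : ∃ T : Finset ℚ, Supp T x then (exists_least_supp h).choose else ∅

lemma supp_spec {x : X} (h : ∃ T : Finset ℚ, Supp T x) : Supp (supp x) x := by
  unfold supp
  rw [dif_pos h]
  exact (exists_least_supp h).choose_spec.1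

lemma supp_subset {x : X} {S : Finset ℚ} (hS : Supp S x) : supp x ⊆ S := by
  unfold supp
  rw [dif_pos ⟨S, hS⟩]
  exact (exists_least_supp ⟨S, hS⟩).choose_spec.2 S hS

lemma supp_le_iff {x : X} (h : ∃ T : Finset ℚ, Supp T x) (S : Finset ℚ) :
    supp x ⊆ S ↔ Supp S x :=
  ⟨fun h' => (supp_spec h).mono h', supp_subset⟩

lemma supp_smul {x : X} (h : ∃ T : Finset ℚ, Supp T x) (g : G) :
    supp (g • x) = (supp x).image g := by
  classical
  apply Finset.Subset.antisymm
  · exact supp_subset ((supp_spec h).smul g)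
  · have h1 : Supp (supp x |>.image g) (g • x) := (supp_spec h).smul g
    have h2 := (supp_spec ⟨_, h1⟩).smul g⁻¹
    rw [inv_smul_smul] at h2
    have h3 := Finset.image_subset_image (f := g) (supp_subset h2)
    refine h3.trans ?_
    intro q hq
    simp only [Finset.mem_image] at hq
    obtain ⟨a, ⟨b, hb, rfl⟩, rfl⟩ := hq
    have : g (g⁻¹ b) = b := g.apply_symm_apply b
    rwa [this]

end supp

end Pool.Agent.H53.ZD
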