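import Pool.Agent.H53.ZD.Copies

set_option autoImplicit false
set_option linter.unusedSectionVars false
set_option linter.unusedVariables false
open Set Filter Topology TopologicalSpace MeasureTheory

namespace Pool.Agent.H53.ZD
namespace NatSys

variable {H L : Type*} [Countable H] [MulAction G H] [TopologicalSpace L] [CompactSpace L]
    [T2Space L] [TotallyDisconnectedSpace L] [MulAction G L] (N : NatSys H L)

/-- choice of the small perturbation -/
theorem exists_xi {S₀ : Finset ℚ} {i : ℚ} {O : Clopens L} (hO : N.Lev (insert i S₀) O)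
    (h0 : ∀ l, N.pi S₀ l ∉ O) {ρ₀ : ℝ} (hρ₀ : 0 < ρ₀) :
    ∃ g₀ : ℝ, 0 < g₀ ∧ ∀ x : Ball H, 7 * N.c / 8 ≤ |N.UI O x| →
      (∃ z ∈ Fib S₀ (ρ₀ / 8) x, 7 * N.c / 8 ≤ |N.UI O z|) →
      ∃ ξ : Ball H, (∀ h, ξ h ≠ 0 → h ∈ HT H (insert i S₀) ∧ h ∉ HT H S₀) ∧
        Ball.mass univ ξ ≤ ρ₀ / 4 ∧
        Ball.mass univ ξ + g₀ ≤ Ball.mass (HT H (insert i S₀) \ HT H S₀) x ∧
        ∀ u₀ : Ball H, (∀ h, u₀ h = rho S₀ x h + ξ h) → N.c / 2 ≤ |N.UI O u₀| := by
  have hc := N.c_pos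
  have hsub : S₀ ⊆ insert i S₀ := Finset.subset_insert _ _
  obtain ⟨d₀, hd₀, hmod⟩ := N.modulus hsub hO h0 (show 0 < 7 * N.c / 8 by positivity)
  obtain ⟨F, d₁, hd₁, hud⟩ := Ball.unif_dep (N.UI O).continuous (show 0 < N.c / 4 by positivity)
  set τ : ℝ := min (1 / 2) (d₁ / 2) with hτ
  have hτ0 : 0 < τ := lt_min (by norm_num) (by positivity)
  have hτ1 : τ ≤ 1 / 2 := min_le_left _ _
  have hτd : τ < d₁ := (min_le_right _ _).trans_lt (by linarith)
  refine ⟨min (τ * d₀) (ρ₀ / 8), lt_min (by positivity) (by positivity), ?_⟩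
  rintro x hx ⟨z, hz, hUz⟩
  have hd₀x := hmod x hx
  by_cases hY : Ball.mass (HT H (insert i S₀) \ HT H S₀) x ≤ ρ₀ / 4
  · -- scaling
    have ht : |1 - τ| ≤ 1 := by rw [abs_le]; constructor <;> linarith
    have ht' : |1 - τ| = 1 - τ := abs_of_pos (by linarith)
    refine ⟨Ball.scale (1 - τ) ht (Ball.res (HT H (insert i S₀) \ HT H S₀) x), ?_, ?_, ?_, ?_⟩
    · intro h hh
      by_contra hcon
      apply hh
      rw [Ball.scale_apply, Ball.res_of_notMem x (fun h' => hcon ⟨h'.1, h'.2⟩), mul_zero]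
    · rw [Ball.mass_scale, Ball.mass_res, univ_inter, ht']
      have := Ball.mass_nonneg (HT H (insert i S₀) \ HT H S₀) x
      nlinarith
    · rw [Ball.mass_scale, Ball.mass_res, univ_inter, ht']
      have h1 : min (τ * d₀) (ρ₀ / 8) ≤ τ * d₀ := min_le_left _ _
      have h2 := mul_le_mul_of_nonneg_left hd₀x hτ0.le
      linarith
    · intro u₀ hu₀
      have h1 := hud u₀ (rho (insert i S₀) x) (fun h _ => by
        rw [hu₀, Ball.scale_apply]
        by_cases hS : h ∈ HT H S₀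
        · have e1 : rho S₀ x h = x h := Ball.res_of_mem x hS
          have e2 : rho (insert i S₀) x h = x h := Ball.res_of_mem x (HT_mono hsub hS)
          rw [e1, e2, Ball.res_of_notMem x (fun h' => h'.2 hS), mul_zero, add_zero, sub_self,
            abs_zero]
          exact hd₁
        · have e1 : rho S₀ x h = 0 := Ball.res_of_notMem x hS
          by_cases hiS : h ∈ HT H (insert i S₀)
          · have e2 : rho (insert i S₀) x h = x h := Ball.res_of_mem x hiS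
            have e3 : Ball.res (HT H (insert i S₀) \ HT H S₀) x h = x h :=
              Ball.res_of_mem x ⟨hiS, hS⟩
            rw [e1, e2, e3]
            have e4 : 0 + (1 - τ) * x h - x h = -(τ * x h) := by ring
            rw [e4, abs_neg, abs_mul, abs_of_pos hτ0]
            have := x.abs_le_one h
            nlinarith
          · have e2 : rho (insert i S₀) x h = 0 := Ball.res_of_notMem x hiS
            rw [e1, e2, Ball.res_of_notMem x (fun h' => hiS h'.1)]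
            simpa using hd₁)
      rw [hO.UI_rho] at h1
      have h2 := abs_sub_abs_le_abs_sub (N.UI O x) (N.UI O u₀)
      rw [abs_sub_comm] at h2
      linarith
  · push Not at hY
    have hm : Ball.mass univ (Ball.res (HT H (insert i S₀) \ HT H S₀) z) ≤ ρ₀ / 8 := by
      rw [Ball.mass_res, univ_inter]
      refine (Ball.mass_mono ?_ z).trans hz.2
      exact fun h hh => hh.2
    refine ⟨Ball.res (HT H (insert i S₀) \ HT H S₀) z, ?_, by linarith, ?_, ?_⟩
    · intro h hh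
      by_contra hcon
      apply hh
      rw [Ball.res_of_notMem z (fun h' => hcon ⟨h'.1, h'.2⟩)]
    · have h1 : min (τ * d₀) (ρ₀ / 8) ≤ ρ₀ / 8 := min_le_right _ _
      linarith
    · intro u₀ hu₀
      have e : N.UI O u₀ = N.UI O z := by
        rw [← hO.UI_rho, ← hO.UI_rho N z]
        congr 1
        rw [rho, rho, Ball.res_eq_iff]
        intro h hh
        rw [hu₀]
        by_cases hS : h ∈ HT H S₀
        · have e1 : rho S₀ x h = x h := Ball.res_of_mem x hS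
          have e2 : z h = x h := Ball.res_eq_iff.1 hz.1 h hS
          rw [e1, Ball.res_of_notMem z (fun h' => h'.2 hS), add_zero, e2]
        · have e1 : rho S₀ x h = 0 := Ball.res_of_notMem x hS
          rw [e1, Ball.res_of_mem z (show h ∈ HT H (insert i S₀) \ HT H S₀ from ⟨hh, hS⟩),
            zero_add]
      rw [e]
      linarith

lemma mass_rho_add {T S₀ : Finset ℚ} {i : ℚ} (hiT : i ∉ T) (hST : S₀ ⊆ T) (x : Ball H) :
    Ball.mass univ (rho T x) + Ball.mass (HT H (insert i S₀) \ HT H S₀) x ≤ 1 := by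
  have e : Ball.mass univ (rho T x) = Ball.mass (HT H T) x := by
    unfold rho; rw [Ball.mass_res, univ_inter]
  rw [e, ← Ball.mass_union]
  · exact Ball.mass_le_one _ _
  · rw [Set.disjoint_left]
    rintro h h1 ⟨h2, h3⟩
    apply h3
    have : h ∈ HT H (T ∩ insert i S₀) := by rw [← HT_inter]; exact ⟨h1, h2⟩
    refine HT_mono ?_ this
    intro q hq
    rw [Finset.mem_inter, Finset.mem_insert] at hq
    rcases hq.2 with rfl | h4
    · exact absurd hq.1 hiT
    · exact h4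

/-- good points -/
lemma point_good {S₀ T' : Finset ℚ} {i : ℚ} {E₀ O a : Clopens L} {ρ₀ g₀ ρ' : ℝ}
    (hO : N.Lev (insert i S₀) O) (hOE : O ≤ E₀) (hρ₀ : 0 < ρ₀) (hρ' : 0 < ρ')
    (hρ'1 : ρ' ≤ g₀) (hρ'2 : ρ' ≤ ρ₀ / 4) {x ξ : Ball H}
    (hξ : ∀ h, ξ h ≠ 0 → h ∈ HT H (insert i S₀) ∧ h ∉ HT H S₀)
    (hξ1 : Ball.mass univ ξ ≤ ρ₀ / 4)
    (hξ2 : Ball.mass univ ξ + g₀ ≤ Ball.mass (HT H (insert i S₀) \ HT H S₀) x)
    (hξ3 : ∀ u₀ : Ball H, (∀ h, u₀ h = rho S₀ x h + ξ h) → N.c / 2 ≤ |N.UI O u₀|)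
    (hST' : S₀ ⊆ T') (hiT' : i ∉ T') (ha : N.Lev T' a) (haE : a ≤ E₀)
    (hmass : Ball.mass (HT H T' \ HT H S₀) x ≤ ρ₀ / 4)
    (hVT : N.VT S₀ ρ₀ E₀ x - N.c / 16 ≤ N.VT T' ρ' a x) {w₀ : Ball H}
    (hw₀ : ∀ h, w₀ h = rho T' x h + ξ h) : 3 * N.c / 8 ≤ |N.UI (O ⊓ a) w₀| := by
  have hc := N.c_pos
  have h1 := mass_rho_add (H := H) hiT' hST' x
  have h2 := mass_rho_add (H := H) (T := S₀) (S₀ := S₀) (i := i)
    (fun h => hiT' (hST' h)) subset_rfl x
  have hsum : Ball.mass univ (rho S₀ x) + Ball.mass univ ξ ≤ 1 := by linarith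
  set u₀ : Ball H := Ball.add (rho S₀ x) ξ hsum with hu₀
  have h3 := N.determ_pt hST' hiT' ha haE hO hOE (x := x) (ξ := ξ) (w₀ := w₀) (u₀ := u₀)
    (δ := N.c / 8) (ρ := ρ₀) (ρ' := ρ') hρ'.le hξ hw₀ (fun h => rfl) (by linarith) (by linarith)
    (by linarith)
  have h4 := hξ3 u₀ (fun h => rfl)
  have h5 := abs_sub_abs_le_abs_sub (N.UI O u₀) (N.UI (O ⊓ a) w₀)
  rw [abs_sub_comm] at h5
  linarith

/-- the tail coordinates -/
def Tail (H : Type*) [MulAction G H] (S₀ : Finset ℚ) (n : ℕ) : Set H :=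
  {h | (∀ q ∈ supp h, q ∈ S₀ ∨ (n : ℚ) ≤ q) ∧ h ∉ HT H S₀}

lemma exists_tail (S₀ : Finset ℚ) (l : L) {ρ ε : ℝ} (hρ : 0 < ρ) (hε : 0 < ε) :
    ∃ n₀ : ℕ, (∀ q ∈ S₀, q < (n₀ : ℚ)) ∧
      (N.lam l).real {x | ρ < Ball.mass (Tail H S₀ n₀) x} ≤ ε := by
  classical
  obtain ⟨n₁, hn₁⟩ : ∃ n₁ : ℕ, ∀ q ∈ S₀, q < (n₁ : ℚ) := by
    obtain ⟨M, hM⟩ := S₀.bddAbove
    obtain ⟨n₁, hn₁⟩ := exists_nat_gt M
    exact ⟨n₁, fun q hq => (hM hq).trans_lt hn₁⟩
  by_contra hcon
  push Not at hcon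
  have h1 : ∀ n : ℕ, ε ≤ (N.lam l).real {x | ρ < Ball.mass (Tail H S₀ (n + n₁)) x} := by
    intro n
    refine (hcon (n + n₁) fun q hq => (hn₁ q hq).trans_le ?_).le
    push_cast
    have : (0 : ℚ) ≤ n := by positivity
    linarith
  obtain ⟨x, hx⟩ := exists_frequently (N.lam l) (fun n => {x | ρ < Ball.mass (Tail H S₀ (n + n₁)) x})
    (fun n => measurableSet_lt measurable_const (Ball.measurable_mass _)) hε h1
  have h2 : Tendsto (fun n => Ball.mass (Tail H S₀ n) x) atTop (𝓝 0) := by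
    apply Ball.mass_tendsto_zero
    intro h
    by_cases hS : h ∈ HT H S₀
    · exact Eventually.of_forall fun n hn => hn.2 hS
    · have h3 : ∃ q ∈ supp h, q ∉ S₀ := by
        by_contra hcon2
        push Not at hcon2
        exact hS ((supp_spec (N.fs h)).mono hcon2)
      obtain ⟨q, hq, hqS⟩ := h3
      obtain ⟨m, hm⟩ := exists_nat_gt q
      filter_upwards [eventually_ge_atTop m] with n hn hn'
      rcases hn'.1 q hq with h4 | h4
      · exact hqS h4
      · have : (m : ℚ) ≤ n := by exact_mod_cast hn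
        linarith
  have h3 : Tendsto (fun n => Ball.mass (Tail H S₀ (n + n₁)) x) atTop (𝓝 0) :=
    h2.comp (tendsto_add_atTop_nat n₁)
  have h4 : ∀ᶠ n in atTop, Ball.mass (Tail H S₀ (n + n₁)) x < ρ := h3 (Iio_mem_nhds hρ)
  obtain ⟨n, hn1, hn2⟩ := (hx.and_eventually h4).exists
  exact lt_asymm hn1 hn2

end NatSys
end Pool.Agent.H53.ZD
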