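import Pool.Agent.H53.ZD.Ball
import Pool.Agent.H53.ZD.Func
import Pool.Agent.H53.ZD.OrderQ

set_option autoImplicit false
set_option linter.unusedSectionVars false
open Set Filter Topology TopologicalSpace

namespace Pool.Agent.H53.ZD

section action
variable {H : Type*} [MulAction G H]

noncomputable instance : MulAction G (Ball H) where
  smul g x := ⟨fun h => x (g⁻¹ • h), fun s => by
    classical
    have := x.sum_le (s.image (fun h => g⁻¹ • h))
    rwa [Finset.sum_image (fun a _ b _ hab => smul_left_cancel _ hab)] at this⟩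
  one_smul x := by
    ext h
    show x ((1 : G)⁻¹ • h) = x h
    simp
  mul_smul g k x := by
    ext h
    show x ((g * k)⁻¹ • h) = x (k⁻¹ • g⁻¹ • h)
    rw [mul_inv_rev, mul_smul]

@[simp] lemma smul_ball_apply (g : G) (x : Ball H) (h : H) : (g • x) h = x (g⁻¹ • h) := rfl

lemma continuous_smul_ball (g : G) : Continuous (fun x : Ball H => g • x) := by
  rw [Ball.continuous_iff]
  exact fun h => Ball.continuous_coord _

/-- the coordinates supported by `T` -/
def HT (H : Type*) [MulAction G H] (T : Finset ℚ) : Set H := {h | Supp T h}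

/-- restriction to the level `T` -/
noncomputable def rho (T : Finset ℚ) (x : Ball H) : Ball H := Ball.res (HT H T) x

lemma HT_mono {S T : Finset ℚ} (h : S ⊆ T) : HT H S ⊆ HT H T := fun _ hx => Supp.mono hx h

lemma HT_inter (S T : Finset ℚ) : HT H S ∩ HT H T = HT H (S ∩ T) := by
  ext h
  constructor
  · rintro ⟨h1, h2⟩; exact supp_inter h1 h2
  · intro h1
    exact ⟨h1.mono Finset.inter_subset_left, h1.mono Finset.inter_subset_right⟩

lemma smul_mem_HT {T : Finset ℚ} {h : H} (g : G) : g • h ∈ HT H (T.image g) ↔ h ∈ HT H T := by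
  constructor
  · intro h1
    have h2 := Supp.smul h1 g⁻¹
    rw [inv_smul_smul] at h2
    refine h2.mono ?_
    intro q hq
    simp only [Finset.mem_image] at hq
    obtain ⟨a, ⟨b, hb, rfl⟩, rfl⟩ := hq
    have : g⁻¹ (g b) = b := g.symm_apply_apply b
    rwa [this]
  · exact fun h1 => Supp.smul h1 g

lemma image_fix {T : Finset ℚ} {g : G} (h : Fix T g) : T.image g = T := by
  ext q
  simp only [Finset.mem_image]
  constructor
  · rintro ⟨a, ha, rfl⟩; rw [h a ha]; exact ha
  · exact fun hq => ⟨q, hq, h q hq⟩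

lemma image_inv_image (T : Finset ℚ) (g : G) : (T.image g).image (⇑(g⁻¹ : G)) = T := by
  ext q
  simp only [Finset.mem_image]
  constructor
  · rintro ⟨a, ⟨b, hb, rfl⟩, rfl⟩
    have : g⁻¹ (g b) = b := g.symm_apply_apply b
    rwa [this]
  · intro hq
    exact ⟨g q, ⟨q, hq, rfl⟩, g.symm_apply_apply q⟩

lemma rho_rho (S T : Finset ℚ) (x : Ball H) : rho S (rho T x) = rho (S ∩ T) x := by
  unfold rho; rw [Ball.res_res, HT_inter]

lemma rho_idem (T : Finset ℚ) (x : Ball H) : rho T (rho T x) = rho T x := by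
  rw [rho_rho, Finset.inter_self]

lemma rho_of_subset {S T : Finset ℚ} (h : S ⊆ T) (x : Ball H) : rho S (rho T x) = rho S x := by
  rw [rho_rho, Finset.inter_eq_left.2 h]

lemma rho_of_subset' {S T : Finset ℚ} (h : S ⊆ T) (x : Ball H) : rho T (rho S x) = rho S x := by
  rw [rho_rho, Finset.inter_eq_right.2 h]

lemma smul_rho (g : G) (T : Finset ℚ) (x : Ball H) : g • rho T x = rho (T.image g) (g • x) := by
  ext h
  rw [smul_ball_apply]
  unfold rho
  by_cases hh : h ∈ HT H (T.image g)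
  · have h2 : g⁻¹ • h ∈ HT H T := by
      rw [← smul_mem_HT g, smul_inv_smul]; exact hh
    rw [Ball.res_of_mem _ hh, Ball.res_of_mem _ h2, smul_ball_apply]
  · have h2 : g⁻¹ • h ∉ HT H T := by
      rw [← smul_mem_HT g, smul_inv_smul]; exact hh
    rw [Ball.res_of_notMem _ hh, Ball.res_of_notMem _ h2]

lemma smul_rho_fix {T : Finset ℚ} {g : G} (hg : Fix T g) (x : Ball H) : g • rho T x = rho T x := by
  ext h
  rw [smul_ball_apply]
  unfold rho
  by_cases hh : h ∈ HT H T
  · have : g⁻¹ • h = h := hh _ hg.inv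
    rw [this]
  · have h2 : g⁻¹ • h ∉ HT H T := by
      rw [← smul_mem_HT g, smul_inv_smul, image_fix hg]; exact hh
    rw [Ball.res_of_notMem _ hh, Ball.res_of_notMem _ h2]

lemma rho_smul_fix {T : Finset ℚ} {g : G} (hg : Fix T g) (x : Ball H) :
    rho T (g • x) = rho T x := by
  have := smul_rho g T x
  rw [image_fix hg, smul_rho_fix hg] at this
  exact this.symm

lemma continuous_rho (T : Finset ℚ) : Continuous (rho T : Ball H → Ball H) :=
  Ball.continuous_res _

/-- a universal sequence converging to the restriction -/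
lemma exists_seq [Countable H] (fs : ∀ h : H, ∃ T : Finset ℚ, Supp T h) (T : Finset ℚ) :
    ∃ g : ℕ → G, (∀ k, Fix T (g k)) ∧
      ∀ x : Ball H, Tendsto (fun k => g k • x) atTop (𝓝 (rho T x)) := by
  classical
  rcases isEmpty_or_nonempty H with hH | hH
  · refine ⟨fun _ => 1, fun _ => Fix.one T, fun x => ?_⟩
    have : rho T x = x := by ext h; exact (hH.false h).elim
    rw [this]
    simp
  obtain ⟨en, hen⟩ := exists_surjective_nat H
  let S : ℕ → Finset ℚ := fun k => (Finset.range k).biUnion fun i => supp (en i)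
  have hex : ∀ k, ∃ g : G, Fix T g ∧ ∀ a ∈ S k, a ∉ T → g a ∉ S k := fun k => exists_move T _ _
  choose g hg1 hg2 using hex
  refine ⟨fun k => (g k)⁻¹, fun k => (hg1 k).inv, fun x => ?_⟩
  rw [Ball.tendsto_iff]
  intro h
  simp only [smul_ball_apply, inv_inv]
  by_cases hh : h ∈ HT H T
  · have : rho T x h = x h := Ball.res_of_mem x hh
    rw [this]
    refine tendsto_const_nhds.congr fun k => ?_
    rw [hh _ (hg1 k)]
  · have : rho T x h = 0 := Ball.res_of_notMem x hh
    rw [this, Metric.tendsto_atTop]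
    intro ε hε
    -- finitely many coordinates are large
    have h1 : Tendsto (fun i : H => |x i|) cofinite (𝓝 0) := x.summable.tendsto_cofinite_zero
    have h2 : {i : H | ¬ |x i| < ε}.Finite := h1 (Iio_mem_nhds hε)
    obtain ⟨i₀, hi₀⟩ := hen h
    -- bound the indices
    have h3 : ∃ N, ∀ i ∈ {i : H | ¬ |x i| < ε}, ∃ n < N, en n = i := by
      choose idx hidx using hen
      refine ⟨(h2.toFinset.sup idx) + 1, fun i hi => ⟨idx i, ?_, hidx i⟩⟩
      exact Nat.lt_succ_of_le (Finset.le_sup (f := idx) (h2.mem_toFinset.2 hi))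
    obtain ⟨N, hN⟩ := h3
    refine ⟨max N (i₀ + 1), fun k hk => ?_⟩
    rw [Real.dist_eq, sub_zero]
    by_contra hcon
    obtain ⟨n, hn, hn'⟩ := hN (g k • h) hcon
    -- supports
    have hs : ¬ supp h ⊆ T := fun hs => hh ((supp_spec (fs h)).mono hs)
    obtain ⟨a, ha, haT⟩ := Finset.not_subset.1 hs
    have h4 : a ∈ S k := by
      refine Finset.mem_biUnion.2 ⟨i₀, Finset.mem_range.2 (lt_of_lt_of_le (Nat.lt_succ_self _)
        ((le_max_right _ _).trans hk)), ?_⟩
      rwa [hi₀]
    refine hg2 k a h4 haT (Finset.mem_biUnion.2 ⟨n, Finset.mem_range.2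
      (hn.trans_le ((le_max_left _ _).trans hk)), ?_⟩)
    rw [hn', supp_smul (fs h)]
    exact Finset.mem_image_of_mem _ ha

end action

/-- a natural system -/
structure NatSys (H L : Type*) [Countable H] [MulAction G H] [TopologicalSpace L] [CompactSpace L]
    [T2Space L] [TotallyDisconnectedSpace L] [MulAction G L] where
  fs : ∀ h : H, ∃ T : Finset ℚ, Supp T h
  cont : ∀ g : G, Continuous (fun l : L => g • l)
  U : C(L, ℝ) ≃L[ℝ] C(Ball H, ℝ)
  equi : ∀ (g : G) (φ : C(L, ℝ)) (x : Ball H), U (φ.comp ⟨_, cont g⟩) x = U φ (g • x)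
  e : ℚ → H
  e_smul : ∀ (g : G) (q : ℚ), g • e q = e (g q)
  e_inj : Function.Injective e

/-- the indicator of a clopen set -/
noncomputable def ind {L : Type*} [TopologicalSpace L] (a : Clopens L) : C(L, ℝ) :=
  (LocallyConstant.charFn ℝ a.isClopen).toContinuousMap

lemma ind_apply {L : Type*} [TopologicalSpace L] (a : Clopens L) (l : L) :
    ind a l = (a : Set L).indicator 1 l := by
  show (LocallyConstant.charFn ℝ a.isClopen) l = _
  rw [LocallyConstant.coe_charFn]

lemma ind_of_mem {L : Type*} [TopologicalSpace L] {a : Clopens L} {l : L} (h : l ∈ a) :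
    ind a l = 1 := by
  rw [ind_apply, indicator_of_mem (show l ∈ (a : Set L) from h)]; rfl

lemma ind_of_notMem {L : Type*} [TopologicalSpace L] {a : Clopens L} {l : L} (h : l ∉ a) :
    ind a l = 0 := by
  rw [ind_apply, indicator_of_notMem (show l ∉ (a : Set L) from h)]

/-- preimage of a clopen set -/
def pre {L M : Type*} [TopologicalSpace L] [TopologicalSpace M] (f : L → M) (hf : Continuous f)
    (a : Clopens M) : Clopens L := ⟨f ⁻¹' a, a.isClopen.preimage hf⟩

lemma mem_pre {L M : Type*} [TopologicalSpace L] [TopologicalSpace M] (f : L → M)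
    (hf : Continuous f) (a : Clopens M) (l : L) : l ∈ pre f hf a ↔ f l ∈ a := Iff.rfl

lemma ind_pre {L M : Type*} [TopologicalSpace L] [TopologicalSpace M] (f : L → M)
    (hf : Continuous f) (a : Clopens M) : ind (pre f hf a) = (ind a).comp ⟨f, hf⟩ := by
  ext l
  by_cases h : f l ∈ a
  · rw [ind_of_mem ((mem_pre f hf a l).2 h)]
    exact (ind_of_mem h).symm
  · rw [ind_of_notMem (fun h' => h ((mem_pre f hf a l).1 h'))]
    exact (ind_of_notMem h).symm

namespace NatSys

variable {H L : Type*} [Countable H] [MulAction G H] [TopologicalSpace L] [CompactSpace L]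
    [T2Space L] [TotallyDisconnectedSpace L] [MulAction G L] (N : NatSys H L)

/-- the inverse operator -/
noncomputable def V : C(Ball H, ℝ) →L[ℝ] C(L, ℝ) := N.U.symm.toContinuousLinearMap

lemma V_U (φ : C(L, ℝ)) : N.V (N.U φ) = φ := N.U.symm_apply_apply φ
lemma U_V (f : C(Ball H, ℝ)) : N.U (N.V f) = f := N.U.apply_symm_apply f

/-- composition with `rho T` -/
noncomputable def rT (T : Finset ℚ) (f : C(Ball H, ℝ)) : C(Ball H, ℝ) :=
  f.comp ⟨rho T, continuous_rho T⟩

lemma rT_apply (T : Finset ℚ) (f : C(Ball H, ℝ)) (x : Ball H) : rT T f x = f (rho T x) := rfl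

/-- composition with the action -/
noncomputable def gf (g : G) (f : C(Ball H, ℝ)) : C(Ball H, ℝ) :=
  f.comp ⟨fun x => g • x, continuous_smul_ball g⟩

/-- composition with the action on `L` -/
def gφ (g : G) (φ : C(L, ℝ)) : C(L, ℝ) := φ.comp ⟨_, N.cont g⟩

lemma U_gφ (g : G) (φ : C(L, ℝ)) : N.U (N.gφ g φ) = gf g (N.U φ) := by
  ext x; exact N.equi g φ x

lemma V_gf (g : G) (f : C(Ball H, ℝ)) : N.V (gf g f) = N.gφ g (N.V f) := by
  have := N.U_gφ g (N.V f)
  rw [U_V] at this
  rw [← this, V_U]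

/-- pointwise convergence after moving away -/
lemma exists_seq_V (T : Finset ℚ) : ∃ g : ℕ → G, (∀ k, Fix T (g k)) ∧
    ∀ (φ : C(L, ℝ)) (l : L), Tendsto (fun k => φ (g k • l)) atTop
      (𝓝 (N.V (rT T (N.U φ)) l)) := by
  obtain ⟨g, hg, hg'⟩ := exists_seq N.fs T
  refine ⟨g, hg, fun φ l => ?_⟩
  let ev : C(Ball H, ℝ) →L[ℝ] ℝ := (ContinuousMap.evalCLM ℝ l).comp N.V
  have h1 : ∀ k, φ (g k • l) = ev (gf (g k) (N.U φ)) := by
    intro k
    show _ = N.V (gf (g k) (N.U φ)) l
    rw [V_gf, V_U]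
    rfl
  simp only [h1]
  refine tendsto_of_pointwise ev (fun k => gf (g k) (N.U φ)) (rT T (N.U φ)) ‖N.U φ‖ ?_ ?_
  · exact fun k x => (N.U φ).norm_coe_le_norm (g k • x)
  · intro x
    exact ((N.U φ).continuous.tendsto _).comp (hg' x)

/-- the character of `C(L)` giving the retraction -/
lemma exists_pi (T : Finset ℚ) : ∃ p : L → L, Continuous p ∧
    ∀ (φ : C(L, ℝ)) (l : L), N.V (rT T (N.U φ)) l = φ (p l) := by
  obtain ⟨g, hg, hlim⟩ := N.exists_seq_V T
  have hchar : ∀ l : L, ∃ q : L, ∀ φ : C(L, ℝ), N.V (rT T (N.U φ)) l = φ q := by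
    intro l
    let χ : C(L, ℝ) →ₐ[ℝ] ℝ :=
      { toFun := fun φ => N.V (rT T (N.U φ)) l
        map_one' := by
          have h1 := hlim 1 l
          simp only [ContinuousMap.one_apply] at h1
          exact (tendsto_nhds_unique h1 tendsto_const_nhds)
        map_mul' := fun φ ψ => by
          refine tendsto_nhds_unique (hlim (φ * ψ) l) ?_
          exact (hlim φ l).mul (hlim ψ l)
        map_zero' := by
          have h1 := hlim 0 l
          simp only [ContinuousMap.zero_apply] at h1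
          exact (tendsto_nhds_unique h1 tendsto_const_nhds)
        map_add' := fun φ ψ => by
          refine tendsto_nhds_unique (hlim (φ + ψ) l) ?_
          exact (hlim φ l).add (hlim ψ l)
        commutes' := fun r => by
          have h1 := hlim (algebraMap ℝ C(L, ℝ) r) l
          exact (tendsto_nhds_unique h1 tendsto_const_nhds) }
    let χ' := WeakDual.CharacterSpace.equivAlgHom.symm χ
    obtain ⟨q, hq⟩ := (WeakDual.CharacterSpace.continuousMapEval_bijective L ℝ).2 χ'
    refine ⟨q, fun φ => ?_⟩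
    have h2 : χ' φ = φ q := by rw [← hq]; rfl
    exact h2
  choose p hp using hchar
  refine ⟨p, ?_, fun φ l => hp l φ⟩
  -- continuity
  rw [continuous_iff_continuousAt]
  intro l
  rw [ContinuousAt]
  rw [tendsto_nhds]
  intro O hO hpO
  obtain ⟨φ, hφ1, hφ0, -⟩ := exists_continuous_zero_one_of_isClosed
    (isClosed_singleton (x := p l)) hO.isClosed_compl (by
      rw [disjoint_singleton_left]; exact fun h => h hpO)
  have h3 : Continuous (fun l => φ (p l)) := by
    have : (fun l => φ (p l)) = N.V (rT T (N.U φ)) := by ext l; exact (hp l φ).symm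
    rw [this]; exact ContinuousMap.continuous _
  have h4 : φ (p l) = 0 := hφ1 rfl
  have h5 : ∀ᶠ l' in 𝓝 l, φ (p l') < 1 := h3.continuousAt.eventually_lt continuousAt_const
    (by rw [h4]; exact zero_lt_one)
  filter_upwards [h5] with l' hl'
  by_contra hcon
  have : φ (p l') = 1 := hφ0 hcon
  linarith

/-- the retraction of `L` onto the level `T` -/
noncomputable def pi (T : Finset ℚ) : L → L := (N.exists_pi T).choose

lemma continuous_pi (T : Finset ℚ) : Continuous (N.pi T) := (N.exists_pi T).choose_spec.1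

lemma V_rT_U (T : Finset ℚ) (φ : C(L, ℝ)) (l : L) : N.V (rT T (N.U φ)) l = φ (N.pi T l) :=
  (N.exists_pi T).choose_spec.2 φ l

lemma V_rT (T : Finset ℚ) (f : C(Ball H, ℝ)) (l : L) : N.V (rT T f) l = N.V f (N.pi T l) := by
  have := N.V_rT_U T (N.V f) l
  rwa [U_V] at this

/-- composition with `pi T` -/
noncomputable def piφ (T : Finset ℚ) (φ : C(L, ℝ)) : C(L, ℝ) := φ.comp ⟨N.pi T, N.continuous_pi T⟩

lemma U_piφ (T : Finset ℚ) (φ : C(L, ℝ)) : N.U (N.piφ T φ) = rT T (N.U φ) := by
  have : N.piφ T φ = N.V (rT T (N.U φ)) := by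
    ext l; rw [V_rT_U]; rfl
  rw [this, U_V]

lemma eq_of_forall {l l' : L} (h : ∀ φ : C(L, ℝ), φ l = φ l') : l = l' := by
  by_contra hne
  obtain ⟨φ, hφ0, hφ1, -⟩ := exists_continuous_zero_one_of_isClosed
    (isClosed_singleton (x := l)) (isClosed_singleton (x := l')) (by
      rw [disjoint_singleton]; exact hne)
  have h0 : φ l = 0 := hφ0 rfl
  have h1 : φ l' = 1 := hφ1 rfl
  rw [h φ, h1] at h0
  exact one_ne_zero h0

lemma pi_pi (S T : Finset ℚ) (l : L) : N.pi S (N.pi T l) = N.pi (S ∩ T) l := by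
  apply eq_of_forall
  intro φ
  rw [← V_rT_U, ← V_rT, ← V_rT_U]
  congr 2
  ext x
  rw [rT_apply, rT_apply, rT_apply, rho_rho]

lemma pi_of_subset {S T : Finset ℚ} (h : S ⊆ T) (l : L) : N.pi S (N.pi T l) = N.pi S l := by
  rw [pi_pi, Finset.inter_eq_left.2 h]

lemma pi_of_subset' {S T : Finset ℚ} (h : S ⊆ T) (l : L) : N.pi T (N.pi S l) = N.pi S l := by
  rw [pi_pi, Finset.inter_eq_right.2 h]

lemma smul_pi (g : G) (T : Finset ℚ) (l : L) : g • N.pi T l = N.pi (T.image g) (g • l) := by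
  apply eq_of_forall
  intro φ
  have h1 : φ (g • N.pi T l) = N.gφ g φ (N.pi T l) := rfl
  have h2 : φ (N.pi (T.image g) (g • l)) = N.gφ g (N.piφ (T.image g) φ) l := rfl
  rw [h1, h2, ← V_rT_U, U_gφ, ← N.V_U (N.gφ g (N.piφ (T.image g) φ)), U_gφ, U_piφ]
  congr 2
  ext x
  show N.U φ (g • rho T x) = N.U φ (rho (T.image g) (g • x))
  rw [smul_rho]

/-! ### levels of clopen sets -/

/-- the value of the operator at an indicator function -/
noncomputable def UI (a : Clopens L) : C(Ball H, ℝ) := N.U (ind a)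

/-- the clopen set `a` belongs to the level `T` -/
def Lev (T : Finset ℚ) (a : Clopens L) : Prop := ∀ l, N.pi T l ∈ a ↔ l ∈ a

/-- projection of a clopen set to the level `T` -/
noncomputable def preT (T : Finset ℚ) (a : Clopens L) : Clopens L :=
  pre (N.pi T) (N.continuous_pi T) a

lemma mem_preT (T : Finset ℚ) (a : Clopens L) (l : L) : l ∈ N.preT T a ↔ N.pi T l ∈ a := Iff.rfl

lemma lev_preT (T : Finset ℚ) (a : Clopens L) : N.Lev T (N.preT T a) := by
  intro l
  rw [mem_preT, mem_preT, pi_pi, Finset.inter_self]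

lemma UI_preT (T : Finset ℚ) (a : Clopens L) (x : Ball H) :
    N.UI (N.preT T a) x = N.UI a (rho T x) := by
  unfold UI preT
  rw [ind_pre]
  have := N.U_piφ T (ind a)
  unfold piφ at this
  rw [this]; rfl

lemma Lev.preT_eq {T : Finset ℚ} {a : Clopens L} (h : N.Lev T a) : N.preT T a = a := by
  ext l; exact h l

lemma Lev.UI_rho {T : Finset ℚ} {a : Clopens L} (h : N.Lev T a) (x : Ball H) :
    N.UI a (rho T x) = N.UI a x := by
  rw [← UI_preT, h.preT_eq]

lemma Lev.mono {S T : Finset ℚ} {a : Clopens L} (h : N.Lev S a) (hST : S ⊆ T) : N.Lev T a := by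
  intro l
  rw [← h, N.pi_of_subset hST, h]

lemma Lev.inf {T : Finset ℚ} {a b : Clopens L} (ha : N.Lev T a) (hb : N.Lev T b) :
    N.Lev T (a ⊓ b) := by
  intro l
  show (N.pi T l ∈ a ∧ N.pi T l ∈ b) ↔ (l ∈ a ∧ l ∈ b)
  rw [ha l, hb l]

lemma lev_top (T : Finset ℚ) : N.Lev T (⊤ : Clopens L) := fun _ => Iff.rfl

/-- the translate `g • a` -/
def ga (g : G) (a : Clopens L) : Clopens L := pre (fun l => g⁻¹ • l) (N.cont g⁻¹) a

lemma mem_ga (g : G) (a : Clopens L) (l : L) : l ∈ N.ga g a ↔ g⁻¹ • l ∈ a := Iff.rfl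

lemma smul_mem_ga (g : G) (a : Clopens L) (l : L) : g • l ∈ N.ga g a ↔ l ∈ a := by
  rw [mem_ga, inv_smul_smul]

lemma UI_ga (g : G) (a : Clopens L) (x : Ball H) : N.UI (N.ga g a) x = N.UI a (g⁻¹ • x) := by
  unfold UI ga
  rw [ind_pre]
  exact N.equi g⁻¹ (ind a) x

lemma UI_inj {a b : Clopens L} (h : ∀ x, N.UI a x = N.UI b x) : a = b := by
  have h1 : N.UI a = N.UI b := by ext x; exact h x
  have h2 : ind a = ind b := N.U.injective h1
  ext l
  by_cases ha : l ∈ a
  · by_cases hb : l ∈ b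
    · exact ⟨fun _ => hb, fun _ => ha⟩
    · have := congrArg (fun f : C(L, ℝ) => f l) h2
      simp only [ind_of_mem ha, ind_of_notMem hb] at this
      exact absurd this one_ne_zero
  · by_cases hb : l ∈ b
    · have := congrArg (fun f : C(L, ℝ) => f l) h2
      simp only [ind_of_mem hb, ind_of_notMem ha] at this
      exact absurd this.symm one_ne_zero
    · exact ⟨fun h => absurd h ha, fun h => absurd h hb⟩

lemma Lev.ga_fix {T : Finset ℚ} {a : Clopens L} (h : N.Lev T a) {g : G} (hg : Fix T g) :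
    N.ga g a = a := by
  apply N.UI_inj
  intro x
  rw [UI_ga, ← h.UI_rho, rho_smul_fix hg.inv, h.UI_rho]

lemma Lev.ga {T : Finset ℚ} {a : Clopens L} (h : N.Lev T a) (g : G) :
    N.Lev (T.image g) (N.ga g a) := by
  intro l
  rw [mem_ga, mem_ga]
  have : g⁻¹ • N.pi (T.image g) l = N.pi T (g⁻¹ • l) := by
    rw [smul_pi, image_inv_image]
  rw [this, h]

lemma ga_ga (g k : G) (a : Clopens L) : N.ga g (N.ga k a) = N.ga (g * k) a := by
  ext l
  show g⁻¹ • l ∈ N.ga k a ↔ l ∈ N.ga (g * k) a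
  rw [mem_ga, mem_ga, mul_inv_rev, mul_smul]

lemma ga_one (a : Clopens L) : N.ga 1 a = a := by
  ext l
  show l ∈ N.ga 1 a ↔ l ∈ a
  rw [mem_ga]; simp

lemma ga_inf (g : G) (a b : Clopens L) : N.ga g (a ⊓ b) = N.ga g a ⊓ N.ga g b := by
  ext l; rfl

lemma Lev.ga_eq_of_eq {T : Finset ℚ} {a : Clopens L} (h : N.Lev T a) {g k : G}
    (hgk : ∀ q ∈ T, g q = k q) : N.ga g a = N.ga k a := by
  have h1 : Fix T (k⁻¹ * g) := by
    intro q hq
    show k⁻¹ (g q) = q
    rw [hgk q hq]
    exact k.symm_apply_apply q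
  have h2 := h.ga_fix N h1
  calc N.ga g a = N.ga (k * (k⁻¹ * g)) a := by rw [mul_inv_cancel_left]
    _ = N.ga k (N.ga (k⁻¹ * g) a) := (N.ga_ga _ _ _).symm
    _ = N.ga k a := by rw [h2]

end NatSys

end Pool.Agent.H53.ZD
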