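import Pool.Agent.H53.ZD.Vari

set_option autoImplicit false
set_option linter.unusedSectionVars false
open Set Filter Topology TopologicalSpace MeasureTheory

namespace Pool.Agent.H53.ZD

/-- a finite measure and sets of measure bounded below: some point lies in infinitely many -/
lemma exists_frequently {X : Type*} [MeasurableSpace X] (μ : Measure X) [IsFiniteMeasure μ]
    (B : ℕ → Set X) (hB : ∀ n, MeasurableSet (B n)) {c : ℝ} (hc : 0 < c)
    (h : ∀ n, c ≤ μ.real (B n)) : ∃ x, ∃ᶠ n in atTop, x ∈ B n := by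
  by_contra hcon
  push Not at hcon
  have h1 : Tendsto (fun n => ∫ x, (B n).indicator (fun _ => (1 : ℝ)) x ∂μ) atTop (𝓝 0) := by
    have := tendsto_integral_of_dominated_convergence (μ := μ)
      (F := fun n x => (B n).indicator (fun _ => (1 : ℝ)) x) (f := fun _ => 0) (fun _ => 1)
      (fun n => ((integrable_const (1 : ℝ)).indicator (hB n)).aestronglyMeasurable)
      (integrable_const 1)
      (fun n => Eventually.of_forall fun x => by
        by_cases hx : x ∈ B n
        · simp [hx]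
        · simp [hx])
      (Eventually.of_forall fun x => by
        refine tendsto_const_nhds.congr' ?_
        filter_upwards [hcon x] with n hn
        simp [hn])
    simpa using this
  have h2 : ∀ n, c ≤ ∫ x, (B n).indicator (fun _ => (1 : ℝ)) x ∂μ := by
    intro n
    rw [integral_indicator (hB n)]
    simpa using h n
  have := ge_of_tendsto' h1 h2
  linarith

/-- version along an infinite set -/
lemma exists_frequently_set {X : Type*} [MeasurableSpace X] (μ : Measure X) [IsFiniteMeasure μ]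
    (Q : Set ℕ) (hQ : Q.Infinite)
    (B : ℕ → Set X) (hB : ∀ n ∈ Q, MeasurableSet (B n)) {c : ℝ} (hc : 0 < c)
    (h : ∀ n ∈ Q, c ≤ μ.real (B n)) : ∃ x, ∃ᶠ n in atTop, n ∈ Q ∧ x ∈ B n := by
  classical
  have hinf : Infinite Q := hQ.to_subtype
  let en : ℕ → ℕ := fun k => (Nat.orderEmbeddingOfSet Q k : ℕ)
  have hen : StrictMono en := (Nat.orderEmbeddingOfSet Q).strictMono
  have henQ : ∀ k, en k ∈ Q := fun k => by
    rw [← Nat.orderEmbeddingOfSet_range Q]
    exact mem_range_self k
  obtain ⟨x, hx⟩ := exists_frequently μ (fun k => B (en k)) (fun k => hB _ (henQ k)) hc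
    (fun k => h _ (henQ k))
  refine ⟨x, ?_⟩
  rw [frequently_atTop] at hx ⊢
  intro a
  obtain ⟨b, hb, hxb⟩ := hx a
  exact ⟨en b, hb.trans (hen.id_le b), henQ b, hxb⟩

/-- translations -/
def tau (q : ℚ) : G := OrderIso.addRight q

lemma tau_zero (q : ℚ) : tau q 0 = q := by simp [tau]

namespace NatSys

variable {H L : Type*} [Countable H] [MulAction G H] [TopologicalSpace L] [CompactSpace L]
    [T2Space L] [TotallyDisconnectedSpace L] [MulAction G L] (N : NatSys H L)

lemma e_supp (q : ℚ) : Supp {q} (N.e q) := by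
  intro g hg
  rw [N.e_smul, hg q (Finset.mem_singleton_self q)]

lemma e_not_supp (q : ℚ) : ¬ Supp ∅ (N.e q) := by
  intro h
  have := h (tau 1) (fun _ h => absurd h (Finset.notMem_empty _))
  rw [N.e_smul] at this
  have h2 := N.e_inj this
  simp [tau] at h2

/-- the test functions -/
noncomputable def fn (n : ℕ) : C(Ball H, ℝ) :=
  ⟨fun x => min 1 (2 ^ (n + 1) * |x (N.e 0)|),
    continuous_const.min (continuous_const.mul (Ball.continuous_coord (N.e 0)).abs)⟩

lemma fn_apply (n : ℕ) (x : Ball H) : N.fn n x = min 1 (2 ^ (n + 1) * |x (N.e 0)|) := rfl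

lemma abs_fn_le (n : ℕ) (x : Ball H) : |N.fn n x| ≤ 1 := by
  rw [fn_apply, abs_of_nonneg (le_min zero_le_one (by positivity))]
  exact min_le_left _ _

lemma rT_fn_empty (n : ℕ) : rT ∅ (N.fn n) = 0 := by
  ext x
  rw [rT_apply, fn_apply]
  have : rho ∅ x (N.e 0) = 0 := Ball.res_of_notMem x (N.e_not_supp 0)
  rw [this]; simp

lemma rT_fn_zero (n : ℕ) : rT {0} (N.fn n) = N.fn n := by
  ext x
  rw [rT_apply, fn_apply, fn_apply]
  have : rho {0} x (N.e 0) = x (N.e 0) := Ball.res_of_mem x (N.e_supp 0)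
  rw [this]

/-- the images of the test functions -/
noncomputable def gn (n : ℕ) : C(L, ℝ) := N.V (N.fn n)

lemma abs_gn_le (n : ℕ) (l : L) : |N.gn n l| ≤ N.C := by
  have := N.abs_V_le (N.fn n) zero_le_one (N.abs_fn_le n) l
  rwa [mul_one] at this

lemma gn_pi_empty (n : ℕ) (l : L) : N.gn n (N.pi ∅ l) = 0 := by
  unfold gn
  rw [← V_rT, rT_fn_empty, map_zero]; rfl

lemma gn_pi_zero (n : ℕ) (l : L) : N.gn n (N.pi {0} l) = N.gn n l := by
  unfold gn
  rw [← V_rT, rT_fn_zero]

lemma exists_Pn (n : ℕ) : ∃ P : Clopens L, N.Lev {0} P ∧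
    (∀ l, 1 / (4 * N.C) ≤ |N.gn n l| → l ∈ P) ∧ ∀ l, N.pi ∅ l ∉ P := by
  have hC := N.C_pos
  obtain ⟨Q, hQ, h1, h2⟩ := exists_clopen_of_closed_subset_open
    (Z := {l | 1 / (4 * N.C) ≤ |N.gn n l|}) (U := {l | 0 < |N.gn n l|})
    (isClosed_le continuous_const (N.gn n).continuous.abs)
    (isOpen_lt continuous_const (N.gn n).continuous.abs)
    (fun l hl => lt_of_lt_of_le (by positivity : (0 : ℝ) < 1 / (4 * N.C)) hl)
  refine ⟨N.preT {0} ⟨Q, hQ⟩, N.lev_preT _ _, fun l hl => ?_, fun l hl => ?_⟩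
  · rw [mem_preT]
    apply h1
    show 1 / (4 * N.C) ≤ |N.gn n (N.pi {0} l)|
    rw [gn_pi_zero]; exact hl
  · rw [mem_preT, pi_pi, Finset.inter_empty] at hl
    have := h2 hl
    have h3 : 0 < |N.gn n (N.pi ∅ l)| := this
    rw [gn_pi_empty, abs_zero] at h3
    exact lt_irrefl _ h3

/-- the basic types -/
noncomputable def Pn (n : ℕ) : Clopens L := (N.exists_Pn n).choose

lemma Pn_lev (n : ℕ) : N.Lev {0} (N.Pn n) := (N.exists_Pn n).choose_spec.1
lemma mem_Pn (n : ℕ) (l : L) (h : 1 / (4 * N.C) ≤ |N.gn n l|) : l ∈ N.Pn n :=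
  (N.exists_Pn n).choose_spec.2.1 l h
lemma pi_notMem_Pn (n : ℕ) (l : L) : N.pi ∅ l ∉ N.Pn n := (N.exists_Pn n).choose_spec.2.2 l

/-- the translates of the basic types -/
noncomputable def PP (n : ℕ) (q : ℚ) : Clopens L := N.ga (tau q) (N.Pn n)

lemma PP_lev (n : ℕ) (q : ℚ) : N.Lev {q} (N.PP n q) := by
  have := (N.Pn_lev n).ga N (tau q)
  rwa [Finset.image_singleton, tau_zero] at this

lemma ga_PP (n : ℕ) (g : G) (q : ℚ) : N.ga g (N.PP n q) = N.PP n (g q) := by
  unfold PP
  rw [ga_ga]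
  apply (N.Pn_lev n).ga_eq_of_eq
  intro r hr
  rw [Finset.mem_singleton] at hr
  subst hr
  show g (tau q 0) = tau (g q) 0
  rw [tau_zero, tau_zero]

lemma pi_notMem_PP (n : ℕ) {q : ℚ} {T : Finset ℚ} (hq : q ∉ T) (l : L) :
    N.pi T l ∉ N.PP n q := by
  intro h
  rw [← N.PP_lev n q, pi_pi, Finset.singleton_inter_of_notMem hq] at h
  unfold PP at h
  rw [mem_ga, smul_pi, Finset.image_empty] at h
  exact N.pi_notMem_Pn n _ h

lemma mem_PP (n : ℕ) (q : ℚ) (l : L) (h : 1 / (4 * N.C) ≤ |N.gφ (tau q)⁻¹ (N.gn n) l|) :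
    l ∈ N.PP n q := by
  unfold PP
  rw [mem_ga]
  exact N.mem_Pn n _ h

/-- the class of points with infinitely many types on the natural numbers -/
def cls : Set L := {l | ∃ᶠ n : ℕ in atTop, l ∈ N.PP n (n : ℚ)}

/-- the point `Σ 2^{-(n+1)} e(n)` -/
noncomputable def xstar : Ball H := by
  classical
  exact ⟨fun h => if h ∈ range (fun n : ℕ => N.e (n : ℚ)) then
    (1 / 2 : ℝ) ^ (Function.invFun (fun n : ℕ => N.e (n : ℚ)) h + 1) else 0, fun s => by
    have hinj : Function.Injective (fun n : ℕ => N.e (n : ℚ)) := fun a b h => by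
      exact_mod_cast N.e_inj h
    set en := fun n : ℕ => N.e (n : ℚ) with hen
    have h1 : ∑ h ∈ s, |if h ∈ range en then (1 / 2 : ℝ) ^ (Function.invFun en h + 1) else 0| =
        ∑ h ∈ s.filter (fun h => h ∈ range en), (1 / 2 : ℝ) ^ (Function.invFun en h + 1) := by
      rw [Finset.sum_filter]
      refine Finset.sum_congr rfl fun h _ => ?_
      by_cases hh : h ∈ range en
      · simp only [hh, if_true]; exact abs_of_pos (by positivity)
      · simp only [hh, if_false, abs_zero]
    rw [h1]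
    have h2 : ∑ h ∈ s.filter (fun h => h ∈ range en), (1 / 2 : ℝ) ^ (Function.invFun en h + 1) =
        ∑ n ∈ (s.filter (fun h => h ∈ range en)).image (Function.invFun en), (1 / 2 : ℝ) ^ (n + 1) := by
      rw [Finset.sum_image]
      intro a ha b hb hab
      have ha' := (Finset.mem_filter.1 ha).2
      have hb' := (Finset.mem_filter.1 hb).2
      rw [← Function.invFun_eq ha', ← Function.invFun_eq hb', hab]
    rw [h2]
    have h3 : HasSum (fun n : ℕ => (1 / 2 : ℝ) ^ (n + 1)) 1 := by
      have := hasSum_geometric_two'  (1 : ℝ)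
      convert this using 1
      ext n
      rw [pow_succ, one_div, inv_pow]
      field_simp
    exact sum_le_hasSum _ (fun _ _ => by positivity) h3⟩

lemma xstar_apply (n : ℕ) : N.xstar (N.e (n : ℚ)) = (1 / 2 : ℝ) ^ (n + 1) := by
  classical
  have hinj : Function.Injective (fun n : ℕ => N.e (n : ℚ)) := fun a b h => by
    exact_mod_cast N.e_inj h
  show (if N.e (n : ℚ) ∈ range (fun n : ℕ => N.e (n : ℚ)) then
    (1 / 2 : ℝ) ^ (Function.invFun (fun n : ℕ => N.e (n : ℚ)) (N.e (n : ℚ)) + 1) else 0) = _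
  rw [if_pos ⟨n, rfl⟩]
  have : Function.invFun (fun n : ℕ => N.e (n : ℚ)) (N.e (n : ℚ)) = n :=
    Function.leftInverse_invFun hinj n
  rw [this]

lemma U_gφ_gn (n : ℕ) (q : ℚ) (x : Ball H) :
    N.U (N.gφ (tau q)⁻¹ (N.gn n)) x = min 1 (2 ^ (n + 1) * |x (N.e q)|) := by
  rw [U_gφ]
  unfold gn
  rw [U_V]
  show N.fn n ((tau q)⁻¹ • x) = _
  rw [fn_apply, smul_ball_apply, inv_inv, N.e_smul, tau_zero]

lemma cls_nonempty : (N.cls).Nonempty := by
  have hC := N.C_pos
  let _ : MeasurableSpace L := borel L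
  have : BorelSpace L := ⟨rfl⟩
  set κ : Measure L := vm (N.nu N.xstar) with hκ
  have hmass : κ.real univ ≤ N.C := by
    refine (isLUB_vm_univ (N.nu N.xstar)).2 ?_
    rintro r ⟨φ, hφ, rfl⟩
    have := N.abs_U_le φ zero_le_one hφ N.xstar
    rw [mul_one] at this
    exact (le_abs_self _).trans this
  have key : ∀ n : ℕ, 3 / (4 * N.C) ≤ κ.real (N.PP n (n : ℚ)) := by
    intro n
    set φ := N.gφ (tau (n : ℚ))⁻¹ (N.gn n) with hφ
    have h1 : 1 ≤ ∫ l, |φ l| ∂κ := by
      have := abs_le_integral_vm (N.nu N.xstar) φ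
      rw [nu_apply, hφ, U_gφ_gn, xstar_apply] at this
      have e : (2 : ℝ) ^ (n + 1) * |(1 / 2 : ℝ) ^ (n + 1)| = 1 := by
        rw [abs_of_pos (by positivity), ← mul_pow]; norm_num
      rw [e] at this
      simpa using this
    have hPm : MeasurableSet ((N.PP n (n : ℚ) : Clopens L) : Set L) :=
      (N.PP n (n : ℚ)).isOpen.measurableSet
    have h2 : ∫ l, |φ l| ∂κ ≤ ∫ l, (((N.PP n (n : ℚ) : Clopens L) : Set L).indicator
        (fun _ => N.C) l + 1 / (4 * N.C)) ∂κ := by
      apply integral_mono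
      · exact integrable_cont _ _ φ.continuous.abs
      · exact ((integrable_const N.C).indicator hPm).add (integrable_const _)
      · intro l
        by_cases hl : l ∈ ((N.PP n (n : ℚ) : Clopens L) : Set L)
        · simp only [indicator_of_mem hl]
          have h3 : |φ l| ≤ N.C := N.abs_gn_le n _
          have : 0 < 1 / (4 * N.C) := by positivity
          linarith
        · simp only [indicator_of_notMem hl, zero_add]
          by_contra hcon
          push Not at hcon
          exact hl (N.mem_PP n _ l hcon.le)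
    rw [integral_add ((integrable_const N.C).indicator hPm) (integrable_const _),
      integral_indicator hPm, setIntegral_const, integral_const] at h2
    simp only [smul_eq_mul] at h2
    have h3 : κ.real univ * (1 / (4 * N.C)) ≤ 1 / 4 := by
      have := mul_le_mul_of_nonneg_right hmass (show (0 : ℝ) ≤ 1 / (4 * N.C) by positivity)
      have e : N.C * (1 / (4 * N.C)) = 1 / 4 := by field_simp
      linarith
    rw [div_le_iff₀ (by positivity)]
    linarith
  obtain ⟨l, hl⟩ := exists_frequently κ (fun n => ((N.PP n (n : ℚ) : Clopens L) : Set L))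
    (fun n => (N.PP n (n : ℚ)).isOpen.measurableSet)
    (show (0 : ℝ) < 3 / (4 * N.C) by positivity) key
  exact ⟨l, hl⟩

end NatSys

end Pool.Agent.H53.ZD
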