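import Pool.Agent.H53.ZD.Select

set_option autoImplicit false
set_option linter.unusedSectionVars false
set_option linter.unusedVariables false
open Set Filter Topology TopologicalSpace MeasureTheory

namespace Pool.Agent.H53.ZD
namespace NatSys

variable {H L : Type*} [Countable H] [MulAction G H] [TopologicalSpace L] [CompactSpace L]
    [T2Space L] [TotallyDisconnectedSpace L] [MulAction G L] {N : NatSys H L}

/-- the positions of the fillers below `f` -/
def pf (f : ℕ) (m : ℕ) : ℚ := (f : ℚ) - 1 / ((m : ℚ) + 2)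

lemma pf_strictMono (f : ℕ) : StrictMono (pf f) := by
  intro a b hab
  unfold pf
  have h1 : (a : ℚ) < b := by exact_mod_cast hab
  have h0 : (0 : ℚ) ≤ a := by positivity
  have : 1 / ((b : ℚ) + 2) < 1 / ((a : ℚ) + 2) := by
    apply one_div_lt_one_div_of_lt <;> linarith
  linarith

lemma pf_lt (f m : ℕ) : pf f m < f := by
  unfold pf
  have : (0 : ℚ) < 1 / ((m : ℚ) + 2) := by positivity
  linarith

lemma lt_pf (f m : ℕ) : (f : ℚ) - 1 < pf f m := by
  unfold pf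
  have h0 : (0 : ℚ) ≤ m := by positivity
  have : 1 / ((m : ℚ) + 2) < 1 := by
    rw [div_lt_one (by positivity)]; linarith
  linarith

/-- the whole base configuration -/
structure Base (N : NatSys H L) (ε : ℝ) (S₁ S₀ : Finset ℚ) (l : L) (E₁ E₀ : Clopens L) (ρ₀ : ℝ)
    (n₀ i : ℕ) (Γ Qf : Set ℕ) : Prop where
  ext : N.Ext ε S₁ S₀ l E₁ E₀ ρ₀
  εpos : 0 < ε
  εsmall : (N.C + 2) * ε / (N.c / 16) ≤ N.c / 100
  n₀S : ∀ q ∈ S₀, q < (n₀ : ℚ)
  tail : (N.lam l).real {x | ρ₀ / 8 < Ball.mass (Tail H S₀ n₀) x} ≤ ε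
  n₀i : n₀ ≤ i
  iP : l ∈ N.PP i (i : ℚ)
  ΓP : ∀ n ∈ Γ, l ∈ N.PP n (n : ℚ)
  Γi : ∀ n ∈ Γ, i < n
  Γinf : Γ.Infinite
  QP : ∀ n ∈ Qf, l ∈ N.PP n (n : ℚ)
  Qi : ∀ n ∈ Qf, i < n
  Qinf : Qf.Infinite
  disj : ∀ n ∈ Qf, n ∉ Γ

namespace Base

variable {ε : ℝ} {S₁ S₀ : Finset ℚ} {l : L} {E₁ E₀ : Clopens L} {ρ₀ : ℝ} {n₀ i : ℕ}
  {Γ Qf : Set ℕ}

/-- the clopen set at the index `i` -/
noncomputable def O (_h : Base N ε S₁ S₀ l E₁ E₀ ρ₀ n₀ i Γ Qf) : Clopens L := E₀ ⊓ N.PP i (i : ℚ)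

/-- the rationals of the base -/
def Γ' (_h : Base N ε S₁ S₀ l E₁ E₀ ρ₀ n₀ i Γ Qf) : Set ℚ := (S₀ : Set ℚ) ∪ (fun n : ℕ => (n : ℚ)) '' Γ

variable (h : Base N ε S₁ S₀ l E₁ E₀ ρ₀ n₀ i Γ Qf)
include h

lemma ε_le : ε ≤ N.c / 100 := by
  have h1 := h.εsmall
  have hc := N.c_pos
  have hC := N.one_le_C
  have hc2 := N.c_le
  have hε := h.εpos
  rw [div_le_iff₀ (by positivity)] at h1
  have h2 : ε ≤ (N.C + 2) * ε := by nlinarith
  have h3 : N.c / 100 * (N.c / 16) ≤ N.c / 100 := by nlinarith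
  linarith

lemma i_notMem_S : (i : ℚ) ∉ S₀ := fun hi => by
  have h1 := h.n₀S _ hi
  have h2 : (n₀ : ℚ) ≤ i := by exact_mod_cast h.n₀i
  linarith

lemma O_lev : N.Lev (insert (i : ℚ) S₀) h.O :=
  (h.ext.lev₀.mono N (Finset.subset_insert _ _)).inf N ((N.PP_lev i i).mono N (by
    rw [Finset.singleton_subset_iff]; exact Finset.mem_insert_self _ _))

lemma O_le : h.O ≤ E₀ := inf_le_left

lemma mem_O : l ∈ h.O := ⟨h.ext.mem₀, h.iP⟩

lemma pi_notMem_O (l' : L) : N.pi S₀ l' ∉ h.O := fun h' => N.pi_notMem_PP i h.i_notMem_S l' h'.2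

lemma subset_Γ' : (S₀ : Set ℚ) ⊆ h.Γ' := subset_union_left

lemma i_notMem_Γ' : (i : ℚ) ∉ h.Γ' := by
  rintro (h1 | ⟨n, hn, h1⟩)
  · exact h.i_notMem_S h1
  · have h1' : (n : ℚ) = i := h1
    have h2 : n = i := by exact_mod_cast h1'
    exact (h.Γi n hn).ne' h2

lemma gap {f : ℕ} (hf : f ∈ Qf) : ∀ q ∈ insert (i : ℚ) h.Γ',
    (q < f ∧ ∀ m, q < pf f m) ∨ ((f : ℚ) < q ∧ ∀ m, pf f m < q) := by
  have hif := h.Qi f hf
  have hif' : (i : ℚ) ≤ f - 1 := by
    have : i + 1 ≤ f := hif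
    have : ((i + 1 : ℕ) : ℚ) ≤ f := by exact_mod_cast this
    push_cast at this
    linarith
  have key : ∀ q : ℚ, q ≤ f - 1 → (q < f ∧ ∀ m, q < pf f m) := by
    intro q hq
    refine ⟨by linarith, fun m => ?_⟩
    have := lt_pf f m
    linarith
  rintro q (rfl | h1 | ⟨n, hn, rfl⟩)
  · exact Or.inl (key _ hif')
  · left
    apply key
    have h2 := h.n₀S _ h1
    have h3 : (n₀ : ℚ) ≤ i := by exact_mod_cast h.n₀i
    linarith
  · have hne : n ≠ f := fun e => h.disj f hf (e ▸ hn)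
    rcases lt_or_gt_of_ne hne with h2 | h2
    · left
      apply key
      have : ((n + 1 : ℕ) : ℚ) ≤ f := by exact_mod_cast h2
      push_cast at this
      show (n : ℚ) ≤ f - 1
      linarith
    · right
      have h3 : (f : ℚ) < n := by exact_mod_cast h2
      exact ⟨h3, fun m => (pf_lt f m).trans h3⟩

lemma f_notMem {f : ℕ} (hf : f ∈ Qf) : (f : ℚ) ∉ insert (i : ℚ) h.Γ' := by
  intro h1
  rcases h.gap hf _ h1 with h2 | h2
  · exact lt_irrefl _ h2.1
  · exact lt_irrefl _ h2.1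

/-- the constant of the perturbation -/
lemma exists_g : ∃ g₀ : ℝ, 0 < g₀ ∧ ∀ x : Ball H, 7 * N.c / 8 ≤ |N.UI h.O x| →
      (∃ z ∈ Fib S₀ (ρ₀ / 8) x, 7 * N.c / 8 ≤ |N.UI h.O z|) →
      ∃ ξ : Ball H, (∀ k, ξ k ≠ 0 → k ∈ HT H (insert (i : ℚ) S₀) ∧ k ∉ HT H S₀) ∧
        Ball.mass univ ξ ≤ ρ₀ / 4 ∧
        Ball.mass univ ξ + g₀ ≤ Ball.mass (HT H (insert (i : ℚ) S₀) \ HT H S₀) x ∧
        ∀ u₀ : Ball H, (∀ k, u₀ k = rho S₀ x k + ξ k) → N.c / 2 ≤ |N.UI h.O u₀| :=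
  N.exists_xi h.O_lev h.pi_notMem_O h.ext.pos

lemma mass_le_tail {T : Finset ℚ} (hT : ∀ q ∈ T, q ∈ S₀ ∨ (n₀ : ℚ) ≤ q) (x : Ball H) :
    Ball.mass (HT H T \ HT H S₀) x ≤ Ball.mass (Tail H S₀ n₀) x := by
  apply Ball.mass_mono
  rintro k ⟨h1, h2⟩
  exact ⟨fun q hq => hT q (supp_subset h1 hq), h2⟩

lemma tail_of_Γ' {T : Finset ℚ} (hT : (T : Set ℚ) ⊆ h.Γ') :
    ∀ q ∈ T, q ∈ S₀ ∨ (n₀ : ℚ) ≤ q := by
  intro q hq
  rcases hT hq with h1 | ⟨n, hn, rfl⟩
  · exact Or.inl h1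
  · right
    have h1 : n₀ ≤ n := h.n₀i.trans (h.Γi n hn).le
    show (n₀ : ℚ) ≤ (n : ℚ)
    exact_mod_cast h1

lemma align_O {l' : L} (hl' : l' ∈ N.cls) (hpi : N.pi S₀ l' = N.pi S₀ l) (hlO : l' ∈ h.O) :
    (N.lam l').real {x | 2 * (N.c / 16) < |N.UI E₁ x - N.UI h.O x|} ≤ 2 * (N.c / 100) := by
  have h1 := h.ext.align hl' hpi (h.ext.sub.trans (Finset.subset_insert (i : ℚ) S₀)) h.O_lev hlO
    (h.O_le.trans h.ext.le) (δ := N.c / 16) (by have := N.c_pos; positivity)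
  have h2 := h.εsmall
  have h3 := h.ε_le
  linarith

/-- a uniform bound of the capacities is impossible -/
theorem unbounded (K₂ : ℕ) : ∃ f ∈ Qf, ∀ (T : Finset ℚ) (E : Clopens L), S₀ ⊆ T →
    (T : Set ℚ) ⊆ h.Γ' → N.Lev T E → l ∈ E → E ≤ E₀ →
    ¬ ∀ l' ∈ h.O ⊓ E, ∀ M : Finset ℕ, (∀ m ∈ M, l' ∈ N.PP f (pf f m)) → M.card ≤ K₂ := by
  classical
  by_contra hcon
  push Not at hcon
  have hcon' : ∀ f ∈ Qf, ∃ (T : Finset ℚ) (E : Clopens L), S₀ ⊆ T ∧
    (T : Set ℚ) ⊆ h.Γ' ∧ N.Lev T E ∧ l ∈ E ∧ E ≤ E₀ ∧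
    ∀ l' ∈ h.O ⊓ E, ∀ M : Finset ℕ, (∀ m ∈ M, l' ∈ N.PP f (pf f m)) → M.card ≤ K₂ := by
    intro f hf
    obtain ⟨T, E, h1, h2, h3, h4, h5, h6⟩ := hcon f hf
    exact ⟨T, E, h1, h2, h3, h4, h5, h6⟩
  choose! T E hST hTΓ hE hlE hEE₀ hcap using hcon'
  have hc := N.c_pos
  have hC := N.C_pos
  have hρ₀ := h.ext.pos
  obtain ⟨g₀, hg₀, hξ⟩ := h.exists_g
  obtain ⟨q, hq⟩ := exists_nat_gt (N.C * K₂ / (3 * N.c / 8))
  rw [div_lt_iff₀ (by positivity)] at hq
  set d' : ℝ := g₀ / (q + 1) with hd'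
  have hd'pos : 0 < d' := by positivity
  set A : ℕ → Set H := fun f => if f ∈ Qf then HT H (insert (f : ℚ) (T f)) \ HT H (T f) else ∅
    with hA
  -- the main estimate
  have key : ∀ f ∈ Qf, N.c / 2 ≤ (N.lam l).real {x | d' ≤ Ball.mass (A f) x} := by
    intro f hf
    have hAf : A f = HT H (insert (f : ℚ) (T f)) \ HT H (T f) := by simp only [hA]; rw [if_pos hf]
    have hiT : (i : ℚ) ∉ T f := fun h' => h.i_notMem_Γ' (hTΓ f hf h')
    have hfn := h.f_notMem hf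
    have hfi : (f : ℚ) ≠ i := fun e => hfn (e ▸ mem_insert _ _)
    have hfT : (f : ℚ) ∉ T f := fun h' => hfn (mem_insert_of_mem _ (hTΓ f hf h'))
    have hiT' : (i : ℚ) ∉ insert (f : ℚ) (T f) := by
      rw [Finset.mem_insert]; rintro (h1 | h1)
      · exact hfi h1.symm
      · exact hiT h1
    have hST' : S₀ ⊆ insert (f : ℚ) (T f) := (hST f hf).trans (Finset.subset_insert _ _)
    set a : Clopens L := E f ⊓ N.PP f f with ha
    have haLev : N.Lev (insert (f : ℚ) (T f)) a :=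
      ((hE f hf).mono N (Finset.subset_insert _ _)).inf N ((N.PP_lev f f).mono N (by
        rw [Finset.singleton_subset_iff]; exact Finset.mem_insert_self _ _))
    have haE : a ≤ E₀ := inf_le_left.trans (hEE₀ f hf)
    have hla : l ∈ a := ⟨hlE f hf, h.QP f hf⟩
    set ρ' : ℝ := min g₀ (ρ₀ / 4) with hρ'
    have hρ'0 : 0 < ρ' := lt_min hg₀ (by positivity)
    have htail : ∀ r ∈ insert (f : ℚ) (T f), r ∈ S₀ ∨ (n₀ : ℚ) ≤ r := by
      intro r hr
      rcases Finset.mem_insert.1 hr with rfl | h1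
      · right
        have : n₀ ≤ f := h.n₀i.trans (h.Qi f hf).le
        exact_mod_cast this
      · exact h.tail_of_Γ' (hTΓ f hf) r h1
    have hinc : (N.lam l).real {x | ρ₀ / 4 < Ball.mass (HT H (insert (f : ℚ) (T f)) \ HT H S₀) x} ≤
        ε := by
      refine (measureReal_mono ?_).trans h.tail
      intro x hx
      have h1 : ρ₀ / 4 < _ := hx
      have h2 := h.mass_le_tail htail x
      show ρ₀ / 8 < _
      linarith
    have hdet := h.ext.determ h.ext.mem rfl hST' haLev hla haE (δ := N.c / 16) (by positivity)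
      hρ'0 (r := ρ₀ / 4) (by
        have : ρ' ≤ ρ₀ / 4 := min_le_right _ _
        linarith)
    have hdet' : ((N.C + 2) * ε + N.C * (N.lam l).real {x | ρ₀ / 4 <
        Ball.mass (HT H (insert (f : ℚ) (T f)) \ HT H S₀) x}) / (N.c / 16) + ε ≤
        3 * (N.c / 100) := by
      have h1 : (N.C + 2) * ε + N.C * (N.lam l).real {x | ρ₀ / 4 <
        Ball.mass (HT H (insert (f : ℚ) (T f)) \ HT H S₀) x} ≤ 2 * ((N.C + 2) * ε) := by
        have := mul_le_mul_of_nonneg_left hinc hC.le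
        have hε := h.εpos
        nlinarith
      have h2 := div_le_div_of_nonneg_right h1 (show 0 ≤ N.c / 16 by positivity)
      have h3 := h.εsmall
      have h4 := h.ε_le
      have h5 : 2 * ((N.C + 2) * ε) / (N.c / 16) = 2 * ((N.C + 2) * ε / (N.c / 16)) := by ring
      rw [h5] at h2
      linarith
    have hal := h.align_O h.ext.mem rfl h.mem_O
    have hlf := N.large_fraction (h.ext.le h.ext.mem₀)
    -- inclusion
    have hsub : {x | N.c ≤ |N.UI E₁ x|} ⊆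
        (({x | d' ≤ Ball.mass (A f) x} ∪
          {x | 2 * (N.c / 16) < |N.UI E₁ x - N.UI h.O x|}) ∪
          {x | ρ₀ / 8 < Ball.mass (Tail H S₀ n₀) x}) ∪
          {x | Ball.mass (HT H (insert (f : ℚ) (T f)) \ HT H S₀) x ≤ ρ₀ / 4 ∧
            N.VT (insert (f : ℚ) (T f)) ρ' a x < N.VT S₀ ρ₀ E₀ x - N.c / 16} := by
      intro x hx
      have hx1 : N.c ≤ |N.UI E₁ x| := hx
      by_contra hxn
      rw [mem_union, mem_union, mem_union, not_or, not_or, not_or] at hxn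
      obtain ⟨⟨⟨hn1, hn2⟩, hn3⟩, hn4⟩ := hxn
      have hn1' : Ball.mass (A f) x < d' := not_le.1 hn1
      have hn2' : |N.UI E₁ x - N.UI h.O x| ≤ 2 * (N.c / 16) := not_lt.1 hn2
      have hn3' : Ball.mass (Tail H S₀ n₀) x ≤ ρ₀ / 8 := not_lt.1 hn3
      have hxO : 7 * N.c / 8 ≤ |N.UI h.O x| := by
        have := abs_sub_abs_le_abs_sub (N.UI E₁ x) (N.UI h.O x)
        linarith
      have hmS : Ball.mass (HT H (insert (f : ℚ) (T f)) \ HT H S₀) x ≤ ρ₀ / 4 := by
        have := h.mass_le_tail htail x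
        linarith
      have hVT : N.VT S₀ ρ₀ E₀ x - N.c / 16 ≤ N.VT (insert (f : ℚ) (T f)) ρ' a x := by
        by_contra hcon2
        push Not at hcon2
        exact hn4 ⟨hmS, hcon2⟩
      -- the point `z`
      have hz : ∃ z ∈ Fib S₀ (ρ₀ / 8) x, 7 * N.c / 8 ≤ |N.UI h.O z| := by
        refine ⟨rho (insert (i : ℚ) S₀) x, ⟨?_, ?_⟩, ?_⟩
        · rw [rho_of_subset (Finset.subset_insert _ _)]
        · unfold rho
          rw [Ball.mass_res]
          refine le_trans (Ball.mass_mono ?_ x) hn3'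
          rintro k ⟨hk1, hk2⟩
          refine ⟨fun r hr => ?_, hk1⟩
          rcases Finset.mem_insert.1 (supp_subset hk2 hr) with rfl | h1
          · right
            exact_mod_cast h.n₀i
          · exact Or.inl h1
        · rw [h.O_lev.UI_rho]; exact hxO
      obtain ⟨ξ, hξ0, hξ1, hξ2, hξ3⟩ := hξ x hxO hz
      have hm1 := mass_rho_add (H := H) hiT' hST' x
      have hm2 := mass_rho_add (H := H) hiT (hST f hf) x
      set w₀ : Ball H := Ball.add (rho (insert (f : ℚ) (T f)) x) ξ (by linarith) with hw₀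
      have hgood := N.point_good h.O_lev h.O_le hρ₀ hρ'0 (min_le_left _ _) (min_le_right _ _) hξ0
        hξ1 hξ2 hξ3 hST' hiT' haLev haE hmS hVT (w₀ := w₀) (fun k => rfl)
      -- copies
      have hBlev : N.Lev (insert (i : ℚ) (T f)) (h.O ⊓ E f) :=
        (h.O_lev.mono N (Finset.insert_subset_insert _ (hST f hf))).inf N
          ((hE f hf).mono N (Finset.subset_insert _ _))
      have hcop := N.copies_bound hiT (by
          rw [Finset.mem_insert]; rintro (h1 | h1)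
          · exact hfi h1
          · exact hfT h1) f (pf_strictMono f) (fun r hr => h.gap hf r (by
          rcases Finset.mem_insert.1 hr with h1 | h1
          · exact Or.inl h1
          · exact Or.inr (hTΓ f hf h1))) hBlev (hcap f hf) (x := x) (ξ := ξ) (w₀ := w₀)
        (fun k hk => by
          obtain ⟨h1, h2⟩ := hξ0 k hk
          refine ⟨HT_mono (Finset.insert_subset_insert _ (hST f hf)) h1, fun h3 => h2 ?_⟩
          have h4 : k ∈ HT H (T f ∩ insert (i : ℚ) S₀) := by rw [← HT_inter]; exact ⟨h3, h1⟩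
          refine HT_mono ?_ h4
          intro r hr
          rw [Finset.mem_inter, Finset.mem_insert] at hr
          rcases hr.2 with rfl | h5
          · exact absurd hr.1 hiT
          · exact h5) (fun k => rfl) (q := q) (by
          rw [← hAf]
          have h1 : (q : ℝ) * Ball.mass (A f) x ≤ g₀ := by
            calc (q : ℝ) * Ball.mass (A f) x ≤ (q + 1) * d' := by
                  apply mul_le_mul (by linarith) hn1'.le (Ball.mass_nonneg _ _) (by positivity)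
              _ = g₀ := by rw [hd']; field_simp
          linarith)
      rw [inf_assoc] at hcop
      have h1 : (q : ℝ) * (3 * N.c / 8) ≤ q * |N.UI (h.O ⊓ a) w₀| :=
        mul_le_mul_of_nonneg_left hgood (by positivity)
      linarith
    have hm := measureReal_mono (μ := N.lam l) hsub
    have hu1 := measureReal_union_le (μ := N.lam l)
      (({x | d' ≤ Ball.mass (A f) x} ∪
          {x | 2 * (N.c / 16) < |N.UI E₁ x - N.UI h.O x|}) ∪
          {x | ρ₀ / 8 < Ball.mass (Tail H S₀ n₀) x})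
      {x | Ball.mass (HT H (insert (f : ℚ) (T f)) \ HT H S₀) x ≤ ρ₀ / 4 ∧
            N.VT (insert (f : ℚ) (T f)) ρ' a x < N.VT S₀ ρ₀ E₀ x - N.c / 16}
    have hu2 := measureReal_union_le (μ := N.lam l)
      ({x | d' ≤ Ball.mass (A f) x} ∪ {x | 2 * (N.c / 16) < |N.UI E₁ x - N.UI h.O x|})
      {x | ρ₀ / 8 < Ball.mass (Tail H S₀ n₀) x}
    have hu3 := measureReal_union_le (μ := N.lam l)
      {x | d' ≤ Ball.mass (A f) x} {x | 2 * (N.c / 16) < |N.UI E₁ x - N.UI h.O x|}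
    have h3 := h.ε_le
    have h4 := h.tail
    linarith
  obtain ⟨x, hx⟩ := exists_frequently_set (N.lam l) Qf h.Qinf (fun f => {x | d' ≤ Ball.mass (A f) x})
    (fun f _ => measurableSet_le measurable_const (Ball.measurable_mass _))
    (show 0 < N.c / 2 by positivity) key
  have hdisj : Pairwise fun m n => Disjoint (A m) (A n) := by
    intro m n hmn
    rw [Set.disjoint_left]
    intro k hkm hkn
    simp only [hA] at hkm hkn
    split_ifs at hkm with hm
    · split_ifs at hkn with hn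
      · -- `m ∈ supp k ⊆ insert n (T n)`
        have h1 : (m : ℚ) ∈ supp k := by
          by_contra hfn
          apply hkm.2
          refine (supp_spec (N.fs _)).mono ?_
          intro r hr
          rcases Finset.mem_insert.1 (supp_subset hkm.1 hr) with h3 | h3
          · exact absurd (h3 ▸ hr) hfn
          · exact h3
        have h2 := supp_subset hkn.1 h1
        rcases Finset.mem_insert.1 h2 with h3 | h3
        · exact hmn (by exact_mod_cast h3)
        · exact h.f_notMem hm (mem_insert_of_mem _ (hTΓ n hn h3))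
      · exact hkn
    · exact hkm
  have ht := Ball.mass_disjoint_tendsto_zero A hdisj x
  have h4 : ∀ᶠ n in atTop, Ball.mass (A n) x < d' := ht (Iio_mem_nhds hd'pos)
  obtain ⟨n, hn1, hn2⟩ := (hx.and_eventually h4).exists
  have hn3 : d' ≤ Ball.mass (A n) x := hn1.2
  linarith

end Base
end NatSys
end Pool.Agent.H53.ZD
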