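import Pool.Agent.H53.ZD.Kernel

set_option autoImplicit false
set_option linter.unusedSectionVars false
open Set Filter Topology TopologicalSpace MeasureTheory

namespace Pool.Agent.H53.ZD

lemma mass_smul {H : Type*} [MulAction G H] (g : G) (A : Set H) (x : Ball H) :
    Ball.mass A (g • x) = Ball.mass ((fun h => g • h) ⁻¹' A) x := by
  unfold Ball.mass
  rw [← (MulAction.toPerm g : Equiv.Perm H).tsum_eq]
  congr 1
  ext h
  show A.indicator (fun i => |(g • x) i|) (g • h) = _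
  by_cases hh : g • h ∈ A
  · rw [indicator_of_mem hh, indicator_of_mem (show h ∈ (fun h => g • h) ⁻¹' A from hh),
      smul_ball_apply, inv_smul_smul]
  · rw [indicator_of_notMem hh, indicator_of_notMem (show h ∉ (fun h => g • h) ⁻¹' A from hh)]

lemma mass_smul_fix {H : Type*} [MulAction G H] {g : G} {T : Finset ℚ} (hg : Fix T g)
    (x : Ball H) : Ball.mass (HT H T)ᶜ (g • x) = Ball.mass (HT H T)ᶜ x := by
  rw [mass_smul]
  congr 1
  ext h
  simp only [mem_preimage, mem_compl_iff]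
  rw [not_iff_not]
  conv_lhs => rw [← image_fix hg]
  exact smul_mem_HT g

namespace NatSys

variable {H L : Type*} [Countable H] [MulAction G H] [TopologicalSpace L] [CompactSpace L]
    [T2Space L] [TotallyDisconnectedSpace L] [MulAction G L] (N : NatSys H L)

/-- the functional `φ ↦ U φ z` -/
noncomputable def nu (z : Ball H) : C(L, ℝ) →L[ℝ] ℝ :=
  (ContinuousMap.evalCLM ℝ z).comp (N.U : C(L, ℝ) →L[ℝ] C(Ball H, ℝ))

lemma nu_apply (z : Ball H) (φ : C(L, ℝ)) : N.nu z φ = N.U φ z := rfl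

lemma ind_nonneg (a : Clopens L) (l : L) : 0 ≤ ind a l := by
  by_cases h : l ∈ a
  · rw [ind_of_mem h]; exact zero_le_one
  · rw [ind_of_notMem h]

lemma ind_le_one (a : Clopens L) (l : L) : ind a l ≤ 1 := by
  by_cases h : l ∈ a
  · rw [ind_of_mem h]
  · rw [ind_of_notMem h]; exact zero_le_one

/-- variation of the kernel on a clopen set -/
noncomputable def va (z : Ball H) (E : Clopens L) : ℝ := absF (N.nu z) (ind E)

lemma va_nonneg (z : Ball H) (E : Clopens L) : 0 ≤ N.va z E :=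
  absF_nonneg _ _ (bdd_of_cont _) (ind_nonneg E)

lemma va_le (z : Ball H) (E : Clopens L) : N.va z E ≤ N.C := by
  apply csSup_le ⟨0, domSet_nonempty _ _ (ind_nonneg E)⟩
  rintro r ⟨φ, hφ, rfl⟩
  have := N.abs_U_le φ zero_le_one (fun l => (hφ l).trans (ind_le_one E l)) z
  rw [mul_one] at this
  exact (le_abs_self _).trans this

lemma U_le_va {z : Ball H} {E : Clopens L} {φ : C(L, ℝ)} (hφ : ∀ l, |φ l| ≤ ind E l) :
    N.U φ z ≤ N.va z E := le_absF (N.nu z) _ (bdd_of_cont _) φ hφ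

lemma va_le_iff {z : Ball H} {E : Clopens L} {r : ℝ} :
    N.va z E ≤ r ↔ ∀ φ : C(L, ℝ), (∀ l, |φ l| ≤ ind E l) → N.U φ z ≤ r := by
  constructor
  · exact fun h φ hφ => (N.U_le_va hφ).trans h
  · intro h
    apply csSup_le ⟨0, domSet_nonempty _ _ (ind_nonneg E)⟩
    rintro r ⟨φ, hφ, rfl⟩
    exact h φ hφ

lemma lt_va_iff {z : Ball H} {E : Clopens L} {r : ℝ} :
    r < N.va z E ↔ ∃ φ : C(L, ℝ), (∀ l, |φ l| ≤ ind E l) ∧ r < N.U φ z := by
  rw [← not_le, va_le_iff]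
  push Not
  rfl

lemma ind_mono {E F : Clopens L} (h : E ≤ F) (l : L) : ind E l ≤ ind F l := by
  by_cases hE : l ∈ E
  · rw [ind_of_mem hE, ind_of_mem (h hE)]
  · rw [ind_of_notMem hE]; exact ind_nonneg F l

lemma va_mono {z : Ball H} {E F : Clopens L} (h : E ≤ F) : N.va z E ≤ N.va z F := by
  rw [va_le_iff]
  exact fun φ hφ => N.U_le_va fun l => (hφ l).trans (ind_mono h l)

lemma ind_add_sdiff {E F : Clopens L} (h : E ≤ F) (l : L) : ind E l + ind (F \ E) l = ind F l := by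
  by_cases hE : l ∈ E
  · rw [ind_of_mem hE, ind_of_mem (h hE), ind_of_notMem (fun h' : l ∈ F \ E => h'.2 hE), add_zero]
  · by_cases hF : l ∈ F
    · rw [ind_of_notMem hE, ind_of_mem hF, ind_of_mem (show l ∈ F \ E from ⟨hF, hE⟩), zero_add]
    · rw [ind_of_notMem hE, ind_of_notMem hF, ind_of_notMem (fun h' : l ∈ F \ E => hF h'.1),
        zero_add]

lemma va_add {z : Ball H} {E F : Clopens L} (h : E ≤ F) :
    N.va z E + N.va z (F \ E) = N.va z F := by
  unfold va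
  rw [← absF_add _ _ _ (ind_nonneg _) (ind_nonneg _)]
  congr 1
  ext l
  exact ind_add_sdiff h l

lemma abs_UI_le_va (z : Ball H) (E : Clopens L) : |N.UI E z| ≤ N.va z E := by
  rw [abs_le]
  constructor
  · have := N.U_le_va (z := z) (E := E) (φ := -ind E) (fun l => by
      rw [ContinuousMap.neg_apply, abs_neg, abs_of_nonneg (ind_nonneg E l)])
    rw [map_neg, ContinuousMap.neg_apply] at this
    unfold UI
    linarith
  · exact N.U_le_va (fun l => by rw [abs_of_nonneg (ind_nonneg E l)])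

lemma UI_sdiff {z : Ball H} {E F : Clopens L} (h : E ≤ F) :
    N.UI (F \ E) z = N.UI F z - N.UI E z := by
  have : ind F = ind E + ind (F \ E) := by
    ext l
    rw [ContinuousMap.add_apply, ind_add_sdiff h]
  unfold UI
  rw [this, map_add, ContinuousMap.add_apply]
  ring

lemma UI_inf_add {z : Ball H} (E F : Clopens L) :
    N.UI (E \ F) z = N.UI E z - N.UI (E ⊓ F) z := by
  have h1 : E \ F = E \ (E ⊓ F) := by simp
  rw [h1, N.UI_sdiff inf_le_left]

/-- (V5) -/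
lemma va_rho_le {T : Finset ℚ} {E : Clopens L} (hE : N.Lev T E) (z : Ball H) :
    N.va (rho T z) E ≤ N.va z E := by
  rw [va_le_iff]
  intro φ hφ
  have h1 : N.U φ (rho T z) = N.U (N.piφ T φ) z := by rw [U_piφ]; rfl
  rw [h1]
  apply N.U_le_va
  intro l
  refine (hφ (N.pi T l)).trans ?_
  by_cases hl : l ∈ E
  · rw [ind_of_mem hl, ind_of_mem ((hE l).2 hl)]
  · rw [ind_of_notMem hl, ind_of_notMem (fun h => hl ((hE l).1 h))]

/-- (V6) -/
lemma va_smul_le {g : G} {E : Clopens L} (hE : N.ga g E = E) (z : Ball H) :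
    N.va (g • z) E ≤ N.va z E := by
  rw [va_le_iff]
  intro φ hφ
  have h1 : N.U φ (g • z) = N.U (N.gφ g φ) z := (N.equi g φ z).symm
  rw [h1]
  apply N.U_le_va
  intro l
  refine (hφ (g • l)).trans ?_
  by_cases hl : l ∈ E
  · rw [ind_of_mem hl]; exact ind_le_one _ _
  · rw [ind_of_notMem hl, ind_of_notMem]
    rw [← hE, smul_mem_ga]; exact hl

lemma va_smul_fix {T : Finset ℚ} {g : G} {E : Clopens L} (hE : N.Lev T E) (hg : Fix T g)
    (z : Ball H) : N.va (g • z) E = N.va z E := by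
  apply le_antisymm (N.va_smul_le (hE.ga_fix N hg) z)
  have := N.va_smul_le (hE.ga_fix N hg.inv) (g • z)
  rwa [inv_smul_smul] at this

/-- (V7) -/
lemma lt_va_rho {z : Ball H} {E : Clopens L} {r : ℝ} (h : r < N.va z E) (T : Finset ℚ) :
    ∃ T' : Finset ℚ, T ⊆ T' ∧ r < N.va (rho T' z) E := by
  classical
  obtain ⟨φ, hφ, hr⟩ := N.lt_va_iff.1 h
  obtain ⟨F, hF⟩ := Ball.approx_res (N.U φ).continuous (ε := N.U φ z - r) (sub_pos.2 hr)
  refine ⟨T ∪ F.biUnion supp, Finset.subset_union_left, N.lt_va_iff.2 ⟨φ, hφ, ?_⟩⟩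
  have := hF (HT H (T ∪ F.biUnion supp)) (fun i hi => (supp_spec (N.fs i)).mono
      ((Finset.subset_biUnion_of_mem supp hi).trans Finset.subset_union_right)) z
  have h2 := (abs_lt.1 this).1
  show r < N.U φ (Ball.res _ z)
  linarith

/-- the points extending `x` from the level `T`, with a small additional part -/
def Fib (T : Finset ℚ) (ρ : ℝ) (x : Ball H) : Set (Ball H) :=
  {z | rho T z = rho T x ∧ Ball.mass (HT H T)ᶜ z ≤ ρ}

lemma rho_mem_Fib (T : Finset ℚ) {ρ : ℝ} (hρ : 0 ≤ ρ) (x : Ball H) : rho T x ∈ Fib T ρ x := by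
  refine ⟨rho_idem T x, ?_⟩
  unfold rho
  rw [Ball.mass_res, compl_inter_self, Ball.mass_empty]
  exact hρ

lemma Fib_mono {S T : Finset ℚ} (hST : S ⊆ T) {ρ ρ' : ℝ} {x : Ball H}
    (h : Ball.mass (HT H T \ HT H S) x + ρ' ≤ ρ) : Fib T ρ' x ⊆ Fib S ρ x := by
  rintro z ⟨h1, h2⟩
  constructor
  · rw [← rho_of_subset hST z, h1, rho_of_subset hST]
  · have e : (HT H S)ᶜ = (HT H T \ HT H S) ∪ (HT H T)ᶜ := by
      ext i
      simp only [mem_compl_iff, mem_union, Set.mem_sdiff]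
      have : i ∈ HT H S → i ∈ HT H T := fun h => HT_mono hST h
      tauto
    have hd : Disjoint (HT H T \ HT H S) (HT H T)ᶜ := by
      rw [Set.disjoint_left]
      exact fun i hi hi' => hi' hi.1
    rw [e, Ball.mass_union hd]
    have h3 : Ball.mass (HT H T \ HT H S) z = Ball.mass (HT H T \ HT H S) x := by
      apply Ball.mass_congr
      intro i hi
      exact Ball.res_eq_iff.1 h1 i hi.1
    rw [h3]
    linarith

/-- (V8) the variation over the fibre -/
noncomputable def VT (T : Finset ℚ) (ρ : ℝ) (E : Clopens L) (x : Ball H) : ℝ :=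
  sSup ((fun z => N.va z E) '' Fib T ρ x)

lemma VT_bdd (T : Finset ℚ) (ρ : ℝ) (E : Clopens L) (x : Ball H) :
    BddAbove ((fun z => N.va z E) '' Fib T ρ x) :=
  ⟨N.C, by rintro _ ⟨z, -, rfl⟩; exact N.va_le z E⟩

lemma le_VT {T : Finset ℚ} {ρ : ℝ} {E : Clopens L} {x z : Ball H} (hz : z ∈ Fib T ρ x) :
    N.va z E ≤ N.VT T ρ E x := le_csSup (N.VT_bdd T ρ E x) ⟨z, hz, rfl⟩

lemma lt_VT_iff {T : Finset ℚ} {ρ : ℝ} (hρ : 0 ≤ ρ) {E : Clopens L} {x : Ball H} {r : ℝ} :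
    r < N.VT T ρ E x ↔ ∃ z ∈ Fib T ρ x, r < N.va z E := by
  unfold VT
  rw [lt_csSup_iff (N.VT_bdd T ρ E x) ⟨_, mem_image_of_mem _ (rho_mem_Fib T hρ x)⟩]
  simp

lemma VT_nonneg {T : Finset ℚ} {ρ : ℝ} (hρ : 0 ≤ ρ) (E : Clopens L) (x : Ball H) :
    0 ≤ N.VT T ρ E x := (N.va_nonneg _ E).trans (N.le_VT (rho_mem_Fib T hρ x))

lemma VT_le {T : Finset ℚ} {ρ : ℝ} (hρ : 0 ≤ ρ) (E : Clopens L) (x : Ball H) :
    N.VT T ρ E x ≤ N.C := by
  apply csSup_le ⟨_, mem_image_of_mem _ (rho_mem_Fib T hρ x)⟩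
  rintro _ ⟨z, -, rfl⟩
  exact N.va_le z E

lemma VT_rho (T : Finset ℚ) (ρ : ℝ) (E : Clopens L) (x : Ball H) :
    N.VT T ρ E (rho T x) = N.VT T ρ E x := by
  unfold VT Fib
  rw [rho_idem]

lemma VT_mono {S T : Finset ℚ} {ρ ρ' : ℝ} {E F : Clopens L} (hEF : E ≤ F) {x : Ball H}
    (hρ' : 0 ≤ ρ') (h : Fib T ρ' x ⊆ Fib S ρ x) : N.VT T ρ' E x ≤ N.VT S ρ F x := by
  apply csSup_le ⟨_, mem_image_of_mem _ (rho_mem_Fib T hρ' x)⟩
  rintro _ ⟨z, hz, rfl⟩
  exact (N.va_mono hEF).trans (N.le_VT (h hz))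

lemma isClosed_proj (T : Finset ℚ) (ρ r : ℝ) (f : C(Ball H, ℝ)) :
    IsClosed {x : Ball H | ∃ z ∈ Fib T ρ x, r ≤ f z} := by
  have hZ : IsClosed {z : Ball H | Ball.mass (HT H T)ᶜ z ≤ ρ ∧ r ≤ f z} :=
    (Ball.isClosed_mass_le _ _).inter (isClosed_le continuous_const f.continuous)
  have h2 := (hZ.isCompact.image (continuous_rho T)).isClosed.preimage (continuous_rho T)
  convert h2 using 1
  ext x
  simp only [mem_ofPred_eq, mem_preimage, mem_image, Fib]
  constructor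
  · rintro ⟨z, ⟨h1, h2⟩, h3⟩
    exact ⟨z, ⟨h2, h3⟩, h1⟩
  · rintro ⟨z, ⟨h2, h3⟩, h1⟩
    exact ⟨z, ⟨h1, h2⟩, h3⟩

lemma measurable_VT (T : Finset ℚ) {ρ : ℝ} (hρ : 0 ≤ ρ) (E : Clopens L) :
    Measurable (N.VT T ρ E) := by
  have h2c : SecondCountableTopology C(L, ℝ) :=
    N.U.toHomeomorph.isInducing.secondCountableTopology
  obtain ⟨D, hDc, hDd⟩ := TopologicalSpace.exists_countable_dense
    {φ : C(L, ℝ) // ∀ l, |φ l| ≤ ind E l}
  apply measurable_of_Ioi
  intro r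
  have e : N.VT T ρ E ⁻¹' Ioi r =
      ⋃ φ ∈ D, ⋃ n : ℕ, {x | ∃ z ∈ Fib T ρ x, r + 1 / (n + 1 : ℝ) ≤ N.U φ.1 z} := by
    ext x
    simp only [mem_preimage, mem_Ioi, mem_iUnion, mem_ofPred_eq, exists_prop]
    rw [N.lt_VT_iff hρ]
    constructor
    · rintro ⟨z, hz, hr⟩
      obtain ⟨φ, hφ, hr⟩ := N.lt_va_iff.1 hr
      -- approximate by an element of D
      have hc : Continuous (fun ψ : {φ : C(L, ℝ) // ∀ l, |φ l| ≤ ind E l} => N.U ψ.1 z) := by
        have : Continuous (fun ψ : C(L, ℝ) => N.nu z ψ) := (N.nu z).continuous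
        exact this.comp continuous_subtype_val
      obtain ⟨ψ, hψD, hψ⟩ := hDd.exists_mem_open (isOpen_lt continuous_const hc)
        ⟨⟨φ, hφ⟩, hr⟩
      have hpos : (0 : ℝ) < N.U ψ.1 z - r := sub_pos.2 hψ
      obtain ⟨n, hn⟩ := exists_nat_one_div_lt hpos
      exact ⟨ψ, hψD, n, z, hz, by linarith⟩
    · rintro ⟨ψ, hψ, n, z, hz, hr⟩
      refine ⟨z, hz, N.lt_va_iff.2 ⟨ψ.1, ψ.2, ?_⟩⟩
      have : (0 : ℝ) < 1 / (n + 1 : ℝ) := by positivity
      linarith
  rw [e]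
  exact MeasurableSet.biUnion hDc fun φ _ => MeasurableSet.iUnion fun n =>
    (isClosed_proj T ρ _ (N.U φ.1)).measurableSet

/-- the near-infimum lemma -/
lemma near_inf {S T : Finset ℚ} (hST : S ⊆ T) {ρ ρ' : ℝ} (hρ : 0 ≤ ρ) (hρ' : 0 ≤ ρ')
    {E F : Clopens L} (hEF : E ≤ F) {l : L} {ε δ : ℝ} (hδ : 0 < δ)
    (hm : N.m l - N.m (N.pi S l) ≤ ε)
    (hI : ∫ x, N.VT S ρ F x ∂(N.lam (N.pi S l)) - 2 * ε ≤
      ∫ x, N.VT T ρ' E x ∂(N.lam (N.pi T l)))
    (A : Set (Ball H)) (hA : MeasurableSet A) (hAsat : Sat T A)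
    (hAdm : ∀ x ∈ A, Fib T ρ' x ⊆ Fib S ρ x) :
    (N.lam l).real {x | x ∈ A ∧ N.VT T ρ' E x < N.VT S ρ F x - δ} ≤
      ((N.C + 2) * ε + N.C * (N.lam l).real Aᶜ) / δ + ε := by
  have hmS := N.measurable_VT S hρ F
  have hmT := N.measurable_VT T hρ' E
  set B : Set (Ball H) := {x | x ∈ A ∧ N.VT T ρ' E x < N.VT S ρ F x - δ} with hBdef
  have hB : MeasurableSet B := hA.inter (measurableSet_lt hmT (hmS.sub_const δ))
  have hSsat : ∀ x, N.VT S ρ F (rho T x) = N.VT S ρ F x := fun x => by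
    rw [← N.VT_rho S ρ F (rho T x), rho_of_subset hST, N.VT_rho]
  have hBsat : Sat T B := by
    intro x
    simp only [B, mem_ofPred_eq]
    rw [N.VT_rho, hSsat, hAsat x]
  have hpi : N.pi S (N.pi T l) = N.pi S l := N.pi_of_subset hST l
  have hC := N.C_pos
  have hm1 : N.m (N.pi T l) ≤ N.m l := N.m_pi_le T l
  have hm2 : N.m (N.pi S l) ≤ N.m (N.pi T l) := by
    have := N.m_pi_le S (N.pi T l)
    rwa [hpi] at this
  -- integrability
  have hi : ∀ (T' : Finset ℚ) (ρ'' : ℝ), 0 ≤ ρ'' → ∀ (E' : Clopens L) (l' : L),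
      Integrable (N.VT T' ρ'' E') (N.lam l') := fun T' ρ'' h'' E' l' =>
    (integrable_const N.C).mono' (N.measurable_VT T' h'' E').aestronglyMeasurable
      (Eventually.of_forall fun x => by
        rw [Real.norm_eq_abs, abs_of_nonneg (N.VT_nonneg h'' E' x)]; exact N.VT_le h'' E' x)
  have h1 := N.integral_le_pi hmS (N.VT_nonneg hρ F) (N.VT_le hρ F) (T := S)
    (fun x => N.VT_rho S ρ F x) (N.pi T l)
  rw [hpi] at h1
  have h2 : ∫ x, (N.VT S ρ F x - N.VT T ρ' E x) ∂(N.lam (N.pi T l)) ≤ (N.C + 2) * ε := by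
    rw [integral_sub (hi _ _ hρ _ _) (hi _ _ hρ' _ _)]
    have : N.C * (N.m (N.pi T l) - N.m (N.pi S l)) ≤ N.C * ε :=
      mul_le_mul_of_nonneg_left (by linarith) hC.le
    linarith
  -- lower bound of the integral
  have h3 : δ * (N.lam (N.pi T l)).real B - N.C * (N.lam (N.pi T l)).real Aᶜ ≤
      ∫ x, (N.VT S ρ F x - N.VT T ρ' E x) ∂(N.lam (N.pi T l)) := by
    have e : δ * (N.lam (N.pi T l)).real B - N.C * (N.lam (N.pi T l)).real Aᶜ =
        ∫ x, (B.indicator (fun _ => δ) x - Aᶜ.indicator (fun _ => N.C) x)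
          ∂(N.lam (N.pi T l)) := by
      rw [integral_sub ((integrable_const δ).indicator hB)
        ((integrable_const N.C).indicator hA.compl), integral_indicator hB,
        integral_indicator hA.compl, setIntegral_const, setIntegral_const]
      simp only [smul_eq_mul]
      ring
    rw [e]
    apply integral_mono
    · exact ((integrable_const δ).indicator hB).sub ((integrable_const N.C).indicator hA.compl)
    · exact (hi _ _ hρ _ _).sub (hi _ _ hρ' _ _)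
    · intro x
      show B.indicator (fun _ => δ) x - Aᶜ.indicator (fun _ => N.C) x ≤
        N.VT S ρ F x - N.VT T ρ' E x
      by_cases hxA : x ∈ A
      · rw [indicator_of_notMem (show x ∉ Aᶜ from fun h => h hxA), sub_zero]
        by_cases hxB : x ∈ B
        · rw [indicator_of_mem hxB]
          have := hxB.2
          linarith
        · rw [indicator_of_notMem hxB]
          exact sub_nonneg.2 (N.VT_mono hEF hρ' (hAdm x hxA))
      · rw [indicator_of_mem (show x ∈ Aᶜ from hxA), indicator_of_notMem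
          (show x ∉ B from fun h => hxA h.1)]
        have := N.VT_nonneg (T := S) hρ F x
        have := N.VT_le (T := T) hρ' E x
        linarith
  have h4 : (N.lam (N.pi T l)).real Aᶜ ≤ (N.lam l).real Aᶜ :=
    N.lam_pi_real_le (T := T) (fun x => not_congr (hAsat x)) hA.compl l
  have h5 : (N.lam l).real B ≤ (N.lam (N.pi T l)).real B + ε := by
    have := N.lam_real_le_pi hBsat hB l
    linarith
  have h6 : (N.lam (N.pi T l)).real B ≤ ((N.C + 2) * ε + N.C * (N.lam l).real Aᶜ) / δ := by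
    rw [le_div_iff₀ hδ]
    have := mul_le_mul_of_nonneg_left h4 hC.le
    linarith
  linarith

/-- alignment, pointwise form -/
lemma align_pt {S T : Finset ℚ} (hST : S ⊆ T) {E a : Clopens L} (hE : N.Lev S E)
    (ha : N.Lev T a) (haE : a ≤ E) {x : Ball H} {δ : ℝ}
    (h : N.VT S 1 E x - δ < N.VT T 1 a x) : |N.UI E x - N.UI a x| ≤ δ := by
  obtain ⟨z, hz, hva⟩ := (N.lt_VT_iff zero_le_one).1 h
  have hzS : z ∈ Fib S 1 x := ⟨by rw [← rho_of_subset hST z, hz.1, rho_of_subset hST],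
    Ball.mass_le_one _ _⟩
  have h1 := N.le_VT (E := E) hzS
  have h2 := N.va_add (z := z) haE
  have h3 := N.abs_UI_le_va z (E \ a)
  rw [N.UI_sdiff haE] at h3
  have e1 : N.UI E z = N.UI E x := by
    rw [← hE.UI_rho, hzS.1, hE.UI_rho]
  have e2 : N.UI a z = N.UI a x := by
    rw [← ha.UI_rho, hz.1, ha.UI_rho]
  rw [e1, e2] at h3
  linarith

/-- determinism, pointwise form -/
lemma determ_pt {S T : Finset ℚ} (hST : S ⊆ T) {i : ℚ} (hi : i ∉ T) {E a O : Clopens L}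
    (ha : N.Lev T a) (haE : a ≤ E) (hO : N.Lev (insert i S) O)
    (hOE : O ≤ E) {x ξ w₀ u₀ : Ball H} {δ ρ ρ' : ℝ} (hρ' : 0 ≤ ρ')
    (hξ : ∀ h, ξ h ≠ 0 → h ∈ HT H (insert i S) ∧ h ∉ HT H S)
    (hw₀ : ∀ h, w₀ h = rho T x h + ξ h) (hu₀ : ∀ h, u₀ h = rho S x h + ξ h)
    (hroom : Ball.mass univ (rho T x) + ρ' + Ball.mass univ ξ ≤ 1)
    (hinc : Ball.mass (HT H T \ HT H S) x + ρ' + Ball.mass univ ξ ≤ ρ)
    (h : N.VT S ρ E x - δ < N.VT T ρ' a x) :
    |N.UI (O ⊓ a) w₀ - N.UI O u₀| ≤ δ := by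
  classical
  obtain ⟨z, hz, hva⟩ := (N.lt_VT_iff hρ').1 h
  obtain ⟨T'', hT'', hva1⟩ := N.lt_va_rho hva T
  obtain ⟨g, hg, hgi⟩ := exists_move T T'' {i}
  set z₂ : Ball H := g • rho T'' z with hz₂
  set T₂ : Finset ℚ := T''.image g with hT₂
  have hiT₂ : i ∉ T₂ := by
    rw [hT₂, Finset.mem_image]
    rintro ⟨a, ha, hgai⟩
    by_cases haT : a ∈ T
    · rw [hg a haT] at hgai
      exact hi (hgai ▸ haT)
    · exact hgi a ha haT (by rw [hgai]; exact Finset.mem_singleton_self _)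
  have hTT₂ : T ⊆ T₂ := by
    intro q hq
    exact Finset.mem_image.2 ⟨q, hT'' hq, hg q hq⟩
  have hz₂ρ : rho T₂ z₂ = z₂ := by
    rw [hz₂, smul_rho, rho_idem]
  have hz₂T : rho T z₂ = rho T x := by
    rw [hz₂, rho_smul_fix hg, rho_of_subset hT'', hz.1]
  have hva2 : N.VT S ρ E x - δ < N.va z₂ a := by
    rw [hz₂, N.va_smul_fix ha hg]; exact hva1
  have hm2 : Ball.mass (HT H T)ᶜ z₂ ≤ ρ' := by
    rw [hz₂, mass_smul_fix hg]
    unfold rho
    rw [Ball.mass_res]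
    exact (Ball.mass_mono inter_subset_left z).trans hz.2
  -- coordinates of `z₂`
  have hz₂0 : ∀ h, h ∉ HT H T₂ → z₂ h = 0 := by
    intro h hh
    rw [← hz₂ρ]; exact Ball.res_of_notMem _ hh
  have hz₂x : ∀ h ∈ HT H T, z₂ h = x h := fun h hh => Ball.res_eq_iff.1 hz₂T h hh
  have hξ0 : ∀ h ∈ HT H T₂, ξ h = 0 := by
    intro h hh
    by_contra hne
    obtain ⟨h1, h2⟩ := hξ h hne
    apply h2
    have : h ∈ HT H (T₂ ∩ insert i S) := by rw [← HT_inter]; exact ⟨hh, h1⟩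
    refine HT_mono ?_ this
    intro q hq
    rw [Finset.mem_inter, Finset.mem_insert] at hq
    rcases hq.2 with rfl | h3
    · exact absurd hq.1 hiT₂
    · exact h3
  -- total masses
  have hmu : Ball.mass univ z₂ ≤ Ball.mass univ (rho T x) + ρ' := by
    have e : (univ : Set H) = HT H T ∪ (HT H T)ᶜ := (union_compl_self _).symm
    have hd : Disjoint (HT H T) (HT H T)ᶜ := disjoint_compl_right
    have e2 : Ball.mass univ (rho T x) = Ball.mass (HT H T) x := by
      unfold rho; rw [Ball.mass_res, univ_inter]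
    rw [e2]
    conv_lhs => rw [e]
    rw [Ball.mass_union hd]
    have : Ball.mass (HT H T) z₂ = Ball.mass (HT H T) x :=
      Ball.mass_congr hz₂x
    rw [this]
    linarith
  have hsum : Ball.mass univ z₂ + Ball.mass univ ξ ≤ 1 := by linarith
  set w : Ball H := Ball.add z₂ ξ hsum with hw
  have hwc : ∀ h, w h = z₂ h + ξ h := fun h => rfl
  have hwT₂ : rho T₂ w = z₂ := by
    ext h
    by_cases hh : h ∈ HT H T₂
    · show Ball.res _ w h = _
      rw [Ball.res_of_mem _ hh, hwc, hξ0 h hh, add_zero]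
    · show Ball.res _ w h = _
      rw [Ball.res_of_notMem _ hh, hz₂0 h hh]
  have hwS : rho S w = rho S x := by
    rw [← rho_of_subset (hST.trans hTT₂) w, hwT₂, ← rho_of_subset hST z₂, hz₂T,
      rho_of_subset hST]
  have hwFib : w ∈ Fib S ρ x := by
    refine ⟨hwS, ?_⟩
    refine (Ball.mass_add_le _ _ _ hsum).trans ?_
    have h1 : z₂ ∈ Fib S (ρ - Ball.mass univ ξ) x :=
      Fib_mono hST (ρ' := ρ') (by linarith) ⟨hz₂T, hm2⟩
    have h2 := h1.2
    have h3 := Ball.mass_mono (subset_univ (HT H S)ᶜ) ξ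
    linarith
  have h1 : N.va w E ≤ N.VT S ρ E x := N.le_VT hwFib
  have h2 : N.va z₂ a ≤ N.va w a := by
    conv_lhs => rw [← hwT₂]
    exact N.va_rho_le (ha.mono N hTT₂) w
  have h3 := N.va_add (z := w) haE
  have h4 : |N.UI (O \ a) w| ≤ N.va w (E \ a) :=
    (N.abs_UI_le_va w _).trans (N.va_mono (sdiff_le_sdiff_right hOE))
  rw [N.UI_inf_add] at h4
  have e1 : N.UI O w = N.UI O u₀ := by
    rw [← hO.UI_rho N w, ← hO.UI_rho N u₀]
    congr 1
    rw [rho, rho, Ball.res_eq_iff]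
    intro h hh
    rw [hwc, hu₀]
    congr 1
    by_cases hS : h ∈ HT H S
    · show _ = Ball.res _ x h
      rw [Ball.res_of_mem _ hS, hz₂x h (HT_mono hST hS)]
    · show _ = Ball.res _ x h
      rw [Ball.res_of_notMem _ hS]
      apply hz₂0
      intro hT₂'
      apply hS
      have : h ∈ HT H (T₂ ∩ insert i S) := by rw [← HT_inter]; exact ⟨hT₂', hh⟩
      refine HT_mono ?_ this
      intro q hq
      rw [Finset.mem_inter, Finset.mem_insert] at hq
      rcases hq.2 with rfl | h3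
      · exact absurd hq.1 hiT₂
      · exact h3
  have hOa : N.Lev (insert i T) (O ⊓ a) :=
    (hO.mono N (Finset.insert_subset_insert _ hST)).inf N (ha.mono N (Finset.subset_insert _ _))
  have e2 : N.UI (O ⊓ a) w = N.UI (O ⊓ a) w₀ := by
    rw [← hOa.UI_rho N w, ← hOa.UI_rho N w₀]
    congr 1
    rw [rho, rho, Ball.res_eq_iff]
    intro h hh
    rw [hwc, hw₀]
    congr 1
    by_cases hT : h ∈ HT H T
    · show _ = Ball.res _ x h
      rw [Ball.res_of_mem _ hT, hz₂x h hT]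
    · show _ = Ball.res _ x h
      rw [Ball.res_of_notMem _ hT]
      apply hz₂0
      intro hT₂'
      apply hT
      have : h ∈ HT H (T₂ ∩ insert i T) := by rw [← HT_inter]; exact ⟨hT₂', hh⟩
      refine HT_mono ?_ this
      intro q hq
      rw [Finset.mem_inter, Finset.mem_insert] at hq
      rcases hq.2 with rfl | h3
      · exact absurd hq.1 hiT₂
      · exact h3
  rw [e1, e2] at h4
  rw [abs_sub_comm]
  linarith

end NatSys

end Pool.Agent.H53.ZD
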